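import Pool.Agent.Lib.MP_97567f_al.U.SpecM

/-!
# MP_97567f_al: all finite types: the universal property of the Artin group
-/

set_option autoImplicit false

namespace Pool.Agent.Lib.MP_97567f_al.U

variable {n : ℕ} {M : CoxeterMatrix (Fin n)}

private theorem Art_key {G : Type} [Group G] (f : Fin n → G) (φ : FreeGroup (Fin n) →* G)
    (h : ∀ i, φ (FreeGroup.of i) = f i) (m : ℕ) (a b : Fin n) :
    φ ((List.range m).map (fun k : ℕ => if k % 2 = 0 then FreeGroup.of a else
        FreeGroup.of b)).prod = alt (f a) (f b) m := by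
  unfold alt
  rw [map_list_prod, List.map_map]
  congr 1
  refine List.map_congr_left fun k _ => ?_
  simp only [Function.comp_apply]
  split_ifs
  · exact h a
  · exact h b

private theorem Art_rel (i j : Fin n) :
    alt (gn M i) (gn M j) (M.M i j) = alt (gn M j) (gn M i) (M.M i j) := by
  have h1 : (PresentedGroup.mk _ : FreeGroup (Fin n) →* Art M)
      (((List.range (M.M i j)).map (fun k : ℕ => if k % 2 = 0 then FreeGroup.of i else
        FreeGroup.of j)).prod *
      (((List.range (M.M i j)).map (fun k : ℕ => if k % 2 = 0 then FreeGroup.of j else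
        FreeGroup.of i)).prod)⁻¹) = 1 := by
    refine (QuotientGroup.eq_one_iff _).2 (Subgroup.subset_normalClosure ?_)
    exact ⟨(i, j), rfl⟩
  rw [map_mul, map_inv] at h1
  have h2 := mul_inv_eq_one.1 h1
  exact (Art_key (gn M) _ (fun _ => rfl) _ i j).symm.trans
    (h2.trans (Art_key (gn M) _ (fun _ => rfl) _ j i))

private theorem Art_lift {G : Type} [Group G] (f : Fin n → G)
    (h : ∀ i j, alt (f i) (f j) (M.M i j) = alt (f j) (f i) (M.M i j)) :
    ∃ φ : Art M →* G, ∀ i, φ (gn M i) = f i := by
  refine ⟨PresentedGroup.toGroup (f := f) ?_, fun i => PresentedGroup.toGroup.of _⟩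
  rintro _ ⟨⟨i, j⟩, rfl⟩
  simp only
  rw [map_mul, map_inv, Art_key f _ (fun i => FreeGroup.lift_apply_of),
    Art_key f _ (fun i => FreeGroup.lift_apply_of), mul_inv_eq_one]
  exact h i j

/-- **The universal property of the Artin group.** -/
theorem pArt : SArt := fun _ M =>
  ⟨Art_rel, fun _ _ f h => Art_lift f h, fun _ _ _ _ h => art_ext h, art_closure M, art_fg M⟩

end Pool.Agent.Lib.MP_97567f_al.U
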