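import Pool.Agent.Lib.MP_97567f_al.U.UnfA

/-!
# MP_97567f_al: the criterion of Hee by rows

`HeeZ σ m r Z`: `Z i x` means that the row `i` of the matrix of the positive element `x` is zero at a point where the
matrices have entries `≥ 0`; `r s` is the row of the generator `s`. `hee_div`: if the row `r s` of `x` is zero then `σ s`
divides `x`. `hee_inj`: faithfulness.
-/

set_option autoImplicit false

namespace Pool.Agent.Lib.MP_97567f_al.U

/-- The conditions for the rows. -/
structure HeeZ {S A κ : Type} [Group A] (σ : S → A) (m : S → S → ℕ) (r : S → κ)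
    (Z : κ → A → Prop) (L : A →* Multiplicative ℤ) : Prop where
  len : ∀ s, L (σ s) = Multiplicative.ofAdd 1
  m4 : ∀ s t, s ≠ t → m s t = 2 ∨ m s t = 3 ∨ m s t = 4
  r2 : ∀ s t, s ≠ t → m s t = 2 → σ s * σ t = σ t * σ s
  r3 : ∀ s t, s ≠ t → m s t = 3 → σ s * σ t * σ s = σ t * σ s * σ t
  r4 : ∀ s t, s ≠ t → m s t = 4 → σ s * σ t * σ s * σ t = σ t * σ s * σ t * σ s
  one : ∀ s, ¬ Z (r s) 1
  gen : ∀ s x, Ps σ x → Z (r s) (σ s * x)
  z2 : ∀ s t, s ≠ t → m s t = 2 → ∀ x, Ps σ x → Z (r s) (σ t * x) → Z (r s) x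
  z3 : ∀ s t, s ≠ t → m s t = 3 → ∃ Y : A → Prop,
    (∀ x, Ps σ x → Z (r s) (σ t * x) → Z (r s) x ∧ Y x) ∧
    ∀ x, Ps σ x → Y (σ s * x) → Z (r t) x
  z4 : ∀ s t, s ≠ t → m s t = 4 → ∃ Y W : A → Prop,
    (∀ x, Ps σ x → Z (r s) (σ t * x) → Z (r s) x ∧ Y x) ∧
    (∀ x, Ps σ x → Y (σ s * x) → Z (r t) x ∧ W x) ∧
    ∀ x, Ps σ x → W (σ t * x) → Z (r s) x

section hee

variable {S A κ : Type} [Group A] {σ : S → A} {m : S → S → ℕ} {r : S → κ}
  {Z : κ → A → Prop} {L : A →* Multiplicative ℤ}

private theorem hee_cancel (s : S) {x : A} (h : Ps σ ((σ s)⁻¹ * x)) :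
    ∃ y, Ps σ y ∧ x = σ s * y := ⟨_, h, by rw [mul_inv_cancel_left]⟩

/-- **The criterion.** -/
theorem hee_div (h : HeeZ σ m r Z L) : ∀ (w : List S) (s : S), Z (r s) (w.map σ).prod →
    Ps σ ((σ s)⁻¹ * (w.map σ).prod) := by
  have hlen : ∀ w : List S, L (w.map σ).prod = Multiplicative.ofAdd (w.length : ℤ) := by
    intro w
    induction w with
    | nil => simp
    | cons t w ih =>
      rw [List.map_cons, List.prod_cons, map_mul, h.len, ih, ← ofAdd_add, List.length_cons]
      congr 1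
      push_cast
      ring
  have hword : ∀ (t : S) (x y : A) (w : List S), x = (w.map σ).prod → x = σ t * y → Ps σ y →
      ∃ v : List S, y = (v.map σ).prod ∧ v.length + 1 = w.length := by
    rintro t x y w hx hxy ⟨v, hv⟩
    refine ⟨v, hv, ?_⟩
    have h1 := hlen w
    rw [← hx, hxy, map_mul, h.len, hv, hlen v, ← ofAdd_add] at h1
    have h2 := Multiplicative.ofAdd.injective h1
    omega
  have main : ∀ (N : ℕ) (w : List S), w.length ≤ N → ∀ s, Z (r s) (w.map σ).prod →
      Ps σ ((σ s)⁻¹ * (w.map σ).prod) := by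
    intro N
    induction N with
    | zero =>
      intro w hw s hs
      have : w = [] := List.length_eq_zero_iff.1 (by omega)
      rw [this, List.map_nil, List.prod_nil] at hs
      exact absurd hs (h.one s)
    | succ N ih =>
      intro w hw s hs
      match w, hw, hs with
      | [], _, hs =>
        rw [List.map_nil, List.prod_nil] at hs
        exact absurd hs (h.one s)
      | t :: w, hw, hs =>
        rw [List.map_cons, List.prod_cons] at hs ⊢
        rw [List.length_cons] at hw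
        by_cases hst : s = t
        · subst hst
          rw [inv_mul_cancel_left]
          exact Ps.list w
        have ih' : ∀ v : List S, v.length + 1 ≤ w.length + 1 → ∀ s, Z (r s) (v.map σ).prod →
            Ps σ ((σ s)⁻¹ * (v.map σ).prod) := fun v hv => ih v (by omega)
        rcases h.m4 s t hst with hm | hm | hm
        · have h1 := h.z2 s t hst hm _ (Ps.list w) hs
          obtain ⟨y, hy, e1⟩ := hee_cancel s (ih' w le_rfl s h1)
          rw [e1, ← mul_assoc (σ t), ← h.r2 s t hst hm, mul_assoc, inv_mul_cancel_left]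
          exact (Ps.gen t).mul hy
        · obtain ⟨Y, a1, a2⟩ := h.z3 s t hst hm
          obtain ⟨h1, h2⟩ := a1 _ (Ps.list w) hs
          obtain ⟨y, hy, e1⟩ := hee_cancel s (ih' w le_rfl s h1)
          obtain ⟨v, hv, hvl⟩ := hword s _ y w rfl e1 hy
          rw [e1] at h2
          have h3 := a2 _ hy h2
          rw [hv] at h3
          obtain ⟨z, hz, e2⟩ := hee_cancel t (ih' v (by omega) t h3)
          rw [e1, hv, e2]
          have : (σ s)⁻¹ * (σ t * (σ s * (σ t * z))) = σ t * (σ s * z) := by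
            rw [← mul_assoc (σ s), ← mul_assoc (σ t), ← mul_assoc (σ t) (σ s),
              ← h.r3 s t hst hm]
            group
          rw [this]
          exact (Ps.gen t).mul ((Ps.gen s).mul hz)
        · obtain ⟨Y, W, a1, a2, a3⟩ := h.z4 s t hst hm
          obtain ⟨h1, h2⟩ := a1 _ (Ps.list w) hs
          obtain ⟨y, hy, e1⟩ := hee_cancel s (ih' w le_rfl s h1)
          obtain ⟨v, hv, hvl⟩ := hword s _ y w rfl e1 hy
          rw [e1] at h2
          obtain ⟨h3, h4⟩ := a2 _ hy h2
          rw [hv] at h3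
          obtain ⟨z, hz, e2⟩ := hee_cancel t (ih' v (by omega) t h3)
          obtain ⟨u, hu, hul⟩ := hword t _ z v rfl e2 hz
          rw [hv, e2] at h4
          have h5 := a3 _ hz h4
          rw [hu] at h5
          obtain ⟨q, hq, e3⟩ := hee_cancel s (ih' u (by omega) s h5)
          rw [e1, hv, e2, hu, e3]
          have : (σ s)⁻¹ * (σ t * (σ s * (σ t * (σ s * q)))) = σ t * (σ s * (σ t * q)) := by
            have e : σ t * (σ s * (σ t * (σ s * q))) = (σ t * σ s * σ t * σ s) * q := by group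
            rw [e, ← h.r4 s t hst hm]
            group
          rw [this]
          exact (Ps.gen t).mul ((Ps.gen s).mul ((Ps.gen t).mul hq))
  exact fun w s hs => main w.length w le_rfl s hs

/-- **Faithfulness on positive elements.** -/
theorem hee_mono {H : Type} [Group H] (h : HeeZ σ m r Z L) (ρ : A →* H)
    (hρ : ∀ x y, Ps σ x → Ps σ y → ρ x = ρ y → ∀ s, Z (r s) x → Z (r s) y) {x y : A}
    (hx : Ps σ x) (hy : Ps σ y) (e : ρ x = ρ y) : x = y := by
  obtain ⟨w, rfl⟩ := hx
  obtain ⟨v, rfl⟩ := hy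
  induction w generalizing v with
  | nil =>
    rw [List.map_nil, List.prod_nil] at e ⊢
    match v, e with
    | [], _ => simp
    | s :: v, e =>
      exfalso
      have h1 : Z (r s) ((List.map σ (s :: v)).prod) := by
        rw [List.map_cons, List.prod_cons]
        exact h.gen s _ (Ps.list v)
      exact h.one s (hρ _ _ (Ps.list (s :: v)) Ps.one e.symm s h1)
  | cons s w ih =>
    have h1 : Z (r s) ((List.map σ (s :: w)).prod) := by
      rw [List.map_cons, List.prod_cons]
      exact h.gen s _ (Ps.list w)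
    obtain ⟨y, hy, e1⟩ := hee_cancel s (hee_div h v s
      (hρ _ _ (Ps.list (s :: w)) (Ps.list v) e s h1))
    obtain ⟨u, rfl⟩ := hy
    rw [e1, List.map_cons, List.prod_cons] at e ⊢
    rw [map_mul, map_mul] at e
    rw [ih u (mul_left_cancel e)]

/-- **Faithfulness.** -/
theorem hee_inj {H : Type} [Group H] (h : HeeZ σ m r Z L) (ρ : A →* H)
    (hρ : ∀ x y, Ps σ x → Ps σ y → ρ x = ρ y → ∀ s, Z (r s) x → Z (r s) y)
    (hcl : Subgroup.closure (Set.range σ) = ⊤) {D : A} (hD : Ps σ D)
    (hc : ∀ s, σ s * D = D * σ s) (hd : ∀ s, Ps σ ((σ s)⁻¹ * D)) : Function.Injective ρ := by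
  have hcen : ∀ x : A, x * D = D * x := by
    intro x
    have hx : x ∈ Subgroup.closure (Set.range σ) := by rw [hcl]; trivial
    induction hx using Subgroup.closure_induction with
    | mem y hy => obtain ⟨s, rfl⟩ := hy; exact hc s
    | one => simp
    | mul y z _ _ hy hz => rw [mul_assoc, hz, ← mul_assoc, hy, mul_assoc]
    | inv y _ hy => rw [inv_mul_eq_iff_eq_mul, ← mul_assoc, hy, mul_inv_cancel_right]
  have hcen' : ∀ (x : A) (k : ℕ), x * D ^ k = D ^ k * x := by
    intro x k
    exact ((Commute.pow_right (show Commute x D from hcen x) k)).eq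
  have hrep : ∀ x : A, ∃ (u : A) (k : ℕ), Ps σ u ∧ x = u * (D ^ k)⁻¹ := by
    intro x
    have hx : x ∈ Subgroup.closure (Set.range σ) := by rw [hcl]; trivial
    induction hx using Subgroup.closure_induction'' with
    | mem y hy => obtain ⟨s, rfl⟩ := hy; exact ⟨σ s, 0, Ps.gen s, by simp⟩
    | inv_mem y hy =>
      obtain ⟨s, rfl⟩ := hy
      exact ⟨(σ s)⁻¹ * D, 1, hd s, by simp⟩
    | one => exact ⟨1, 0, Ps.one, by simp⟩
    | mul y z _ _ hy hz =>
      obtain ⟨u, k, hu, rfl⟩ := hy
      obtain ⟨v, l, hv, rfl⟩ := hz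
      refine ⟨u * v, k + l, hu.mul hv, ?_⟩
      have := hcen' v k
      calc u * (D ^ k)⁻¹ * (v * (D ^ l)⁻¹) = u * ((D ^ k)⁻¹ * (v * D ^ k)) * (D ^ k)⁻¹ *
          (D ^ l)⁻¹ := by group
        _ = u * ((D ^ k)⁻¹ * (D ^ k * v)) * (D ^ k)⁻¹ * (D ^ l)⁻¹ := by rw [this]
        _ = u * v * ((D ^ l * D ^ k)⁻¹) := by group
        _ = u * v * ((D ^ (k + l))⁻¹) := by rw [← pow_add, add_comm l k]
  rw [injective_iff_map_eq_one]
  intro x hx
  obtain ⟨u, k, hu, rfl⟩ := hrep x
  rw [map_mul, map_inv, mul_inv_eq_one] at hx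
  rw [hee_mono h ρ hρ hu (hD.pow k) hx, mul_inv_cancel]

end hee

end Pool.Agent.Lib.MP_97567f_al.U
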