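import Pool.Agent.Lib.MP_97567f_al.U.SpecM
import Pool.Agent.Lib.MP_97567f_al.LkGen

/-!
# MP_97567f_al: all finite types: the simply laced types with at least three nodes

Also: facts on `R2` which are used for other types: `R2_KK` (embedding into the common field), `R2_res` (lifts to a valuation
ring).
-/

set_option autoImplicit false

namespace Pool.Agent.Lib.MP_97567f_al.U

open Polynomial

/-- The ring `R2` embeds into the common field. -/
theorem R2_KK : ∃ j : R2 →+* KK, Function.Injective j := by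
  have hne : ∀ i : ℕ, algebraMap (MvPolynomial ℕ ℂ) KK (MvPolynomial.X i) ≠ 0 := by
    intro i h
    have h1 := (IsFractionRing.injective (MvPolynomial ℕ ℂ) KK) (h.trans (map_zero _).symm)
    exact MvPolynomial.X_ne_zero i h1
  obtain ⟨φ, hq, hl⟩ := R2_lift (S := KK) (isUnit_iff_ne_zero.2 (hne 0)) (isUnit_iff_ne_zero.2 (hne 1))
  refine ⟨φ.toRingHom, ?_⟩
  rw [injective_iff_map_eq_zero]
  intro x hx
  have hx' : φ x = 0 := hx
  have key : ∀ p : P2, φ (algebraMap P2 R2 p) =
      algebraMap (MvPolynomial ℕ ℂ) KK (MvPolynomial.rename (fun i : Fin 2 => (i : ℕ)) p) := by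
    intro p
    induction p using MvPolynomial.induction_on with
    | C c =>
      have e1 : algebraMap P2 R2 (MvPolynomial.C c) = algebraMap ℂ R2 c := by
        rw [← MvPolynomial.algebraMap_eq, ← IsScalarTower.algebraMap_apply]
      rw [e1, AlgHom.commutes, MvPolynomial.rename_C, ← MvPolynomial.algebraMap_eq,
        ← IsScalarTower.algebraMap_apply]
    | add p r hp hr => rw [map_add, map_add, hp, hr, map_add, map_add]
    | mul_X p i hp =>
      rw [map_mul, map_mul, hp, map_mul, map_mul, MvPolynomial.rename_X]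
      congr 1
      fin_cases i
      · exact hq
      · exact hl
  obtain ⟨⟨p, s⟩, hps⟩ := IsLocalization.surj
    (Submonoid.powers (MvPolynomial.X 0 * MvPolynomial.X 1 : P2)) x
  simp only at hps
  have h1 : φ (algebraMap P2 R2 p) = 0 := by rw [← hps, map_mul, hx', zero_mul]
  rw [key] at h1
  have h2 := (IsFractionRing.injective (MvPolynomial ℕ ℂ) KK) (h1.trans (map_zero _).symm)
  have h3 : p = 0 := by
    refine MvPolynomial.rename_injective (fun i : Fin 2 => (i : ℕ)) Fin.val_injective ?_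
    rw [h2, map_zero]
  rw [h3, map_zero] at hps
  exact ((IsLocalization.map_units R2 s).mul_left_eq_zero).1 hps

/-- Lifts of the parameters to a valuation ring. -/
theorem R2_res {F : Type} [Field F] [Algebra ℂ F] (O : ValuationSubring F)
    (j : R2 →+* IsLocalRing.ResidueField O) (hj : Function.Injective j)
    (hc : ∀ c : ℂ, ∃ h : algebraMap ℂ F c ∈ O,
        IsLocalRing.residue O ⟨algebraMap ℂ F c, h⟩ = j (algebraMap ℂ R2 c))
    (q' l' : O) (hq : IsLocalRing.residue O q' = j qq) (hl : IsLocalRing.residue O l' = j ll)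
    (ψ : R2 →ₐ[ℂ] F) (h1 : ψ qq = (q' : F)) (h2 : ψ ll = (l' : F)) :
    ∀ r, ∃ h : ψ r ∈ O, IsLocalRing.residue O ⟨ψ r, h⟩ = j r := by
  have key : ∀ p : P2, ∃ o : O, (o : F) = ψ (algebraMap P2 R2 p) ∧
      IsLocalRing.residue O o = j (algebraMap P2 R2 p) := by
    intro p
    induction p using MvPolynomial.induction_on with
    | C c =>
      obtain ⟨h, hh⟩ := hc c
      have e1 : algebraMap P2 R2 (MvPolynomial.C c) = algebraMap ℂ R2 c := by
        rw [← MvPolynomial.algebraMap_eq, ← IsScalarTower.algebraMap_apply]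
      refine ⟨⟨algebraMap ℂ F c, h⟩, ?_, ?_⟩
      · rw [e1, AlgHom.commutes]
      · rw [e1, hh]
    | add p r hp hr =>
      obtain ⟨o, ho, ho'⟩ := hp
      obtain ⟨u, hu, hu'⟩ := hr
      refine ⟨o + u, ?_, ?_⟩
      · rw [map_add, map_add, ← ho, ← hu]
        rfl
      · rw [map_add, map_add, map_add, ho', hu']
    | mul_X p i hp =>
      obtain ⟨o, ho, ho'⟩ := hp
      have hi : ∃ u : O, (u : F) = ψ (algebraMap P2 R2 (MvPolynomial.X i)) ∧
          IsLocalRing.residue O u = j (algebraMap P2 R2 (MvPolynomial.X i)) := by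
        fin_cases i
        · exact ⟨q', h1.symm, hq⟩
        · exact ⟨l', h2.symm, hl⟩
      obtain ⟨u, hu, hu'⟩ := hi
      refine ⟨o * u, ?_, ?_⟩
      · rw [map_mul, map_mul, ← ho, ← hu]
        rfl
      · rw [map_mul, map_mul, map_mul, ho', hu']
  intro r
  obtain ⟨⟨p, s⟩, hps⟩ := IsLocalization.surj
    (Submonoid.powers (MvPolynomial.X 0 * MvPolynomial.X 1 : P2)) r
  simp only at hps
  obtain ⟨o, ho, ho'⟩ := key p
  obtain ⟨u, hu, hu'⟩ := key s
  have hsu : IsUnit (algebraMap P2 R2 s) := IsLocalization.map_units R2 s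
  have hu0 : IsLocalRing.residue O u ≠ 0 := by
    rw [hu']
    exact (hsu.map j).ne_zero
  have huu : IsUnit u := by
    by_contra h
    exact hu0 ((IsLocalRing.residue_eq_zero_iff u).2 ((IsLocalRing.mem_maximalIdeal u).2 h))
  obtain ⟨v, hv⟩ := huu.exists_right_inv
  have h3 : ψ r = (o * v : O) := by
    have h4 : ψ r * ψ (algebraMap P2 R2 s) = ψ (algebraMap P2 R2 p) := by rw [← hps, map_mul]
    rw [← ho, ← hu] at h4
    have h5 : (u : F) * (v : F) = 1 := by
      rw [← MulMemClass.coe_mul, hv]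
      rfl
    calc ψ r = ψ r * ((u : F) * (v : F)) := by rw [h5, mul_one]
      _ = (ψ r * (u : F)) * (v : F) := by ring
      _ = (o : F) * (v : F) := by rw [h4]
      _ = _ := rfl
  have h6 : ψ r ∈ O := by
    rw [h3]
    exact (o * v).2
  refine ⟨h6, ?_⟩
  have h7 : (⟨ψ r, h6⟩ : O) = o * v := Subtype.ext h3
  rw [h7, map_mul, ho', ← hps, map_mul, mul_assoc, ← hu', ← map_mul, hv, map_one, mul_one]

private theorem Slg_gen {κ : Type} [Field κ] (j : R2 →+* κ) (hj : Function.Injective j) :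
    Gen (j qq) (j ll) := by
  obtain ⟨φ, hq, hl⟩ := R2_lift (S := ℂ) (a := 2) (b := 3) (by norm_num) (by norm_num)
  have key : ∀ a b : R2, φ a ≠ φ b → j a ≠ j b := fun a b h h' => h (congrArg φ (hj h'))
  refine ⟨?_, ?_, ?_, ?_, ?_, ?_, ?_, ?_, ?_⟩
  · have := key 2 0 (by rw [map_ofNat, map_zero]; norm_num)
    rwa [map_ofNat, map_zero] at this
  · have := key qq 0 (by rw [hq, map_zero]; norm_num)
    rwa [map_zero] at this
  · have := key ll 0 (by rw [hl, map_zero]; norm_num)
    rwa [map_zero] at this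
  · have := key qq 1 (by rw [hq, map_one]; norm_num)
    rwa [map_one] at this
  · have := key qq (-1) (by rw [hq, map_neg, map_one]; norm_num)
    rwa [map_neg, map_one] at this
  · have := key ll 1 (by rw [hl, map_one]; norm_num)
    rwa [map_one] at this
  · have := key ll (-qq) (by rw [hl, map_neg, hq]; norm_num)
    rwa [map_neg] at this
  · have := key (ll ^ 2 * qq ^ 2) 1 (by rw [map_mul, map_pow, map_pow, hl, hq, map_one]; norm_num)
    rwa [map_mul, map_pow, map_pow, map_one] at this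
  · have := key (ll ^ 2 * qq ^ 2) (qq ^ 3)
      (by rw [map_mul, map_pow, map_pow, map_pow, hl, hq]; norm_num)
    rwa [map_mul, map_pow, map_pow, map_pow] at this

variable {n : ℕ} {M : CoxeterMatrix (Fin n)}

private theorem Slg_conn (hSL : SL M) (hC : Cn M) : Conn M Finset.univ := by
  intro i _ j _
  have h : Relation.ReflTransGen (lnk M) i j := hC i j
  induction h with
  | refl => exact Relation.ReflTransGen.refl
  | @tail b c _ hbc ih =>
    exact (ih (Finset.mem_univ _)).tail ((hSL.sl b c hbc.1).resolve_left hbc.2)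

private theorem Slg_sat : Sat M Finset.univ := fun _ _ j _ => Finset.mem_univ j

/-- Rigidity. -/
private theorem Slg_rig (h2 : SRig) (h4 : SLKr) (hn : 3 ≤ n) (hSL : SL M) (hRF : RF M)
    (hFH : FH M (fh M)) (hC : Cn M) : Rigid (LKr M Finset.univ qq ll) := by
  intro F _ _ _ O j ρ' hj hc hρ
  have hSat : Sat M Finset.univ := Slg_sat
  have hConn := Slg_conn hSL hC
  have hCne : (Finset.univ : Finset (Fin n)).Nonempty := ⟨⟨0, by omega⟩, Finset.mem_univ _⟩
  obtain ⟨hk1, hk2⟩ := h4 n M hSL hRF hFH Finset.univ hSat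
  have hdef : IsDef M Finset.univ O (j qq) (j ll) ρ' := by
    intro s
    rw [hρ, ← hk2 R2 _ j qq ll qq_unit ll_unit, hk1 _ _ _ (qq_unit.map j) (ll_unit.map j)]
  have hG := Slg_gen j hj
  obtain ⟨q', l', χ, g, hq', hl', hx⟩ := h2 n M hSL hRF hFH Finset.univ hSat hConn hCne F O (j qq)
    (j ll) hG ρ' hdef
  have uq : IsUnit (q' : F) := by
    rw [isUnit_iff_ne_zero]
    intro h
    have h5 : q' = 0 := Subtype.ext h
    rw [h5, map_zero] at hq'
    exact hG.q0 hq'.symm
  have ul : IsUnit (l' : F) := by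
    rw [isUnit_iff_ne_zero]
    intro h
    have h5 : l' = 0 := Subtype.ext h
    rw [h5, map_zero] at hl'
    exact hG.l0 hl'.symm
  obtain ⟨ψ, hψq, hψl⟩ := R2_lift uq ul
  refine ⟨ψ, χ, g, R2_res O j hj hc q' l' hq' hl' ψ hψq hψl, fun x => ?_⟩
  rw [hx x, ← hψq, ← hψl]
  have h6 := hk2 R2 F (ψ : R2 →+* F) qq ll qq_unit ll_unit x
  have h7 : (LKr M Finset.univ (ψ qq) (ψ ll) x).1 = (LKr M Finset.univ qq ll x).1.map ψ := h6
  rw [h7]

private theorem Slg_eig (h1 : SChar) (h4 : SLKr) (hn : 3 ≤ n) (hSL : SL M) (hRF : RF M)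
    (hFH : FH M (fh M)) (hC : Cn M) : Eig (LKr M Finset.univ qq ll) := by
  have hSat : Sat M Finset.univ := Slg_sat
  have hConn := Slg_conn hSL hC
  obtain ⟨hk1, hk2⟩ := h4 n M hSL hRF hFH Finset.univ hSat
  have hcard : 3 ≤ (Finset.univ : Finset (Fin n)).card := by simpa using hn
  have hinj : Function.Injective (algebraMap R2 K2) := IsFractionRing.injective R2 K2
  have hch : ∀ s, ∃ a b : ℕ, 1 < b ∧ b < a ∧ (LKr M Finset.univ qq ll (gn M s)).1.charpoly =
      (X - C ll) * (X - C 1) ^ a * (X - C (-qq)) ^ b := by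
    intro s
    obtain ⟨a, b, hb, hab, h⟩ := h1 n M hSL hRF hFH Finset.univ hSat hConn hcard s
      (Finset.mem_univ s)
    refine ⟨a, b, hb, hab, ?_⟩
    have h5 := (h K2 (IsScalarTower.toAlgHom ℂ R2 K2)).1
    have h6 : (LKr M Finset.univ qq ll (gn M s)).1.map (algebraMap R2 K2) =
        lk M Finset.univ ((IsScalarTower.toAlgHom ℂ R2 K2) qq) ((IsScalarTower.toAlgHom ℂ R2 K2) ll)
          s := by
      rw [← hk2 R2 K2 (algebraMap R2 K2) qq ll qq_unit ll_unit,
        hk1 _ _ _ (qq_unit.map _) (ll_unit.map _)]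
      rfl
    rw [← h6, Matrix.charpoly_map] at h5
    apply Polynomial.map_injective (algebraMap R2 K2) hinj
    rw [h5]
    simp only [Polynomial.map_mul, Polynomial.map_pow, Polynomial.map_sub, Polynomial.map_X,
      Polynomial.map_C]
    rw [map_one (algebraMap R2 K2), map_neg (algebraMap R2 K2)]
    rfl
  obtain ⟨φ, hq, hl⟩ := R2_lift (S := ℂ) (a := 2) (b := 3) (by norm_num) (by norm_num)
  have key : ∀ a b : R2, φ a ≠ φ b → a ≠ b := fun a b h h' => h (congrArg φ h')
  have n1 : ll ≠ 1 := key _ _ (by rw [hl, map_one]; norm_num)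
  have n2 : ll ≠ -qq := key _ _ (by rw [hl, map_neg, hq]; norm_num)
  have n3 : (1 : R2) ≠ -qq := key _ _ (by rw [map_one, map_neg, hq]; norm_num)
  refine ⟨Set.range (gn M), art_closure M, ?_, ?_⟩
  · rintro _ ⟨s, rfl⟩
    obtain ⟨a, b, hb, hab, h⟩ := hch s
    refine ⟨3, ![ll, 1, -qq], ![1, a, b], ?_, ?_, ?_, ?_, ⟨1, rfl⟩, ?_⟩
    · intro i
      fin_cases i
      · exact ll_unit
      · exact isUnit_one
      · exact qq_unit.neg
    · intro i k hik
      fin_cases i <;> fin_cases k <;> first | rfl | skip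
      · exact absurd hik n1
      · exact absurd hik n2
      · exact absurd hik n1.symm
      · exact absurd hik n3
      · exact absurd hik n2.symm
      · exact absurd hik n3.symm
    · intro i k hik
      fin_cases i <;> fin_cases k <;> first | rfl | (exfalso; simp at hik; omega)
    · intro i
      fin_cases i
      · exact Nat.one_pos
      · show 0 < a
        omega
      · show 0 < b
        omega
    · rw [h, Fin.prod_univ_three]
      simp
  · have hs : ∃ s : Fin n, True := ⟨⟨0, by omega⟩, trivial⟩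
    obtain ⟨s, -⟩ := hs
    obtain ⟨a, b, hb, hab, h⟩ := hch s
    have r1 : (LKr M Finset.univ qq ll (gn M s)).1.charpoly.IsRoot ll := by
      rw [h, IsRoot.def]
      simp
    have r2 : (LKr M Finset.univ qq ll (gn M s)).1.charpoly.IsRoot (-qq) := by
      rw [h, IsRoot.def]
      simp only [eval_mul, eval_pow, eval_sub, eval_X, eval_C, sub_self]
      rw [zero_pow (by omega), mul_zero]
    obtain ⟨u, hu⟩ := qq_unit.exists_right_inv
    obtain ⟨v, hv⟩ := ll_unit.exists_right_inv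
    set T := Algebra.adjoin ℂ {v : R2 | ∃ w, v * w = 1 ∧ ∃ s ∈ Set.range (gn M),
      (LKr M Finset.univ qq ll s).1.charpoly.IsRoot v ∨
      (LKr M Finset.univ qq ll s).1.charpoly.IsRoot w} with hT
    have m1 : ll ∈ T := Algebra.subset_adjoin ⟨v, hv, gn M s, ⟨s, rfl⟩, Or.inl r1⟩
    have m2 : v ∈ T := Algebra.subset_adjoin ⟨ll, by rw [mul_comm]; exact hv, gn M s, ⟨s, rfl⟩,
      Or.inr r1⟩
    have m3 : -qq ∈ T := Algebra.subset_adjoin ⟨-u, by rw [neg_mul_neg]; exact hu, gn M s, ⟨s, rfl⟩,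
      Or.inl r2⟩
    have m4 : -u ∈ T := Algebra.subset_adjoin ⟨-qq, by rw [neg_mul_neg, mul_comm]; exact hu, gn M s,
      ⟨s, rfl⟩, Or.inr r2⟩
    refine lkgen_top T ?_ m1 hu hv ?_ m2
    · have := T.neg_mem m3
      rwa [neg_neg] at this
    · have := T.neg_mem m4
      rwa [neg_neg] at this

private theorem Slg_fin (h1 : SFinU) (h2 : SKerQ) (h3 : SKerF) (h4 : SIdA) (h5 : SIdB) (h6 : SIdC)
    (h7 : SIdD) (h8 : SJst) (hn : 3 ≤ n) (hSL : SL M) (hRF : RF M)
    (hFH : FH M (fh M)) (hC : Cn M) : FinP (LKr M Finset.univ qq ll) := by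
  have hSat : Sat M Finset.univ := Slg_sat
  have hConn := Slg_conn hSL hC
  have hcard : 2 ≤ (Finset.univ : Finset (Fin n)).card := by
    simp only [Finset.card_univ, Fintype.card_fin]
    omega
  have hCne : (Finset.univ : Finset (Fin n)).Nonempty := ⟨⟨0, by omega⟩, Finset.mem_univ _⟩
  obtain ⟨F, hF, hI2⟩ := h7 n M hSL hRF hFH Finset.univ hSat hConn hcard
  obtain ⟨_, _, _, _, hpq⟩ := h2
  obtain ⟨_, _, _, _, _, hpl⟩ := h3 F hF
  obtain ⟨hs1, hs2⟩ := h8 (Art M) R2 (PR M Finset.univ) (LKr M Finset.univ qq ll)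
  refine ⟨2, ![J1 (Fintype.card (PR M Finset.univ)).factorial (LKr M Finset.univ qq ll),
    J2 (LKr M Finset.univ qq ll)], ![qq - 1, aeval qq F * ll - 1], ?_, ?_⟩
  · intro i
    fin_cases i
    · exact ⟨hs1 _, h4 n M hSL hRF hFH Finset.univ hSat hConn hcard, hpq,
        h5 n M hSL hRF hFH Finset.univ hSat⟩
    · exact ⟨hs2, h6 n M hSL hRF hFH Finset.univ hSat hConn hCne, hpl, hI2⟩
  · refine (h1 F hF).subset ?_
    intro θ hθ
    exact ⟨hθ 0, hθ 1⟩

/-- **Simply laced types.** -/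
theorem pSlg (g1 : SRT) (g2 : SMach) (g3 : SJst) (g4 : SAbO) (g5 : SAbI) (a1 : SRig) (a2 : SLkGen)
    (a3 : SLKr) (a4 : SIrr) (a5 : SChar) (a6 : SFinU) (a7 : SKerQ) (a8 : SKerF) (a9 : SIdA)
    (b1 : SIdB) (b2 : SIdC) (b3 : SIdD) (b4 : SFai) (b5 : SLkW) (b6 : SLkA) : SSlg := by
  intro n M hn hSL hRF hFH hC
  have hSat : Sat M Finset.univ := Slg_sat
  have hConn := Slg_conn hSL hC
  have hcard : 2 ≤ (Finset.univ : Finset (Fin n)).card := by
    simp only [Finset.card_univ, Fintype.card_fin]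
    omega
  have hCne : (Finset.univ : Finset (Fin n)).Nonempty := ⟨⟨0, by omega⟩, Finset.mem_univ _⟩
  have hirr := a4 n M hSL hRF hFH Finset.univ hSat hConn hCne
  have hinj := b4 n M hSL hRF hFH
  have hne : Nonempty (PR M Finset.univ) :=
    ⟨⟨e ⟨0, by omega⟩, ((b6 n M hRF Finset.univ).2.2.2.1 _).2 (Finset.mem_univ _)⟩⟩
  have hfam : RFam (LKr M Finset.univ qq ll) :=
    ⟨a2 n M hSL hRF hFH Finset.univ hSat hConn hcard, hirr, Slg_rig a1 a3 hn hSL hRF hFH hC,
      Slg_eig a5 a3 hn hSL hRF hFH hC, Slg_fin a6 a7 a8 a9 b1 b2 b3 g3 hn hSL hRF hFH hC⟩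
  refine g2 (Art M) R2 (PR M Finset.univ) (LKr M Finset.univ qq ll)
    (g1 (Art M) R2 (PR M Finset.univ) (LKr M Finset.univ qq ll) hfam) R2_KK ?_ ?_
  · rintro z ⟨a, ha⟩ b
    apply hinj
    rw [map_mul, map_mul]
    apply Units.ext
    have hmi : Function.Injective (fun Y : Matrix (PR M Finset.univ) (PR M Finset.univ) R2 =>
        Y.map (algebraMap R2 K2)) := Matrix.map_injective (IsFractionRing.injective R2 K2)
    apply hmi
    simp only [Units.val_mul, Matrix.map_mul]
    have ha' : (LKr M Finset.univ qq ll z).1.map (algebraMap R2 K2) =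
        a • (1 : Matrix (PR M Finset.univ) (PR M Finset.univ) K2) := ha
    rw [ha', smul_mul_assoc, one_mul, mul_smul_comm, mul_one]
  · intro z hz hφ
    refine g4 (Art M) R2 (PR M Finset.univ) (LKr M Finset.univ qq ll) hinj hirr ?_ z hz
      (g5 n M z hφ)
    obtain ⟨φ, hq, hl⟩ := R2_lift (S := ℂ) (a := 1) (b := 1) isUnit_one isUnit_one
    obtain ⟨hk1, hk2⟩ := a3 n M hSL hRF hFH Finset.univ hSat
    obtain ⟨F, hF, hw⟩ := b5 n M hRF hFH Finset.univ hSat hConn
    refine ⟨φ, fun _ => 1, fun h => one_ne_zero (congrFun h hne.some), fun b => ?_⟩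
    have h0 : ∀ b : Art M, (LKr M Finset.univ qq ll b).1.map φ =
        (LKr M Finset.univ (1 : ℂ) 1 b).1 := by
      intro b
      have := hk2 R2 ℂ (φ : R2 →+* ℂ) qq ll qq_unit ll_unit b
      have h' : (LKr M Finset.univ (φ qq) (φ ll) b).1 = (LKr M Finset.univ qq ll b).1.map φ := this
      rw [← h', hq, hl]
    rw [h0]
    have h1 : ∀ s, ((LKr M Finset.univ (1 : ℂ) 1 (gn M s)).1).mulVec (fun _ => 1) = fun _ => 1 := by
      intro s
      rw [hk1 ℂ 1 1 isUnit_one isUnit_one, hw ℂ 1 1 s (Finset.mem_univ s)]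
      have h2 : aeval (1 : ℂ) F = 1 := by
        have h3 : aeval (1 : ℂ) F = ((F.eval 1 : ℤ) : ℂ) := by
          rw [Polynomial.aeval_def, Polynomial.eval₂_at_one]
          rfl
        rw [h3, hF, Int.cast_one]
      rw [h2, mul_one, sub_self, zero_smul, add_zero]
    induction b using art_induction with
    | h1 => simp
    | hg i x ih =>
      rw [map_mul, Units.val_mul, ← Matrix.mulVec_mulVec, ih, h1]
    | hi i x ih =>
      rw [map_mul, Units.val_mul, ← Matrix.mulVec_mulVec, ih]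
      have h5 : ((LKr M Finset.univ (1 : ℂ) 1 (gn M i)⁻¹).1).mulVec
          (((LKr M Finset.univ (1 : ℂ) 1 (gn M i)).1).mulVec (fun _ => 1)) = fun _ => 1 := by
        rw [Matrix.mulVec_mulVec, ← Units.val_mul, ← map_mul, inv_mul_cancel, map_one,
          Units.val_one, Matrix.one_mulVec]
      rw [h1] at h5
      exact h5

end Pool.Agent.Lib.MP_97567f_al.U
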