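import Pool.Agent.Lib.MP_97567f_al.U.UnfE
import Pool.Agent.Lib.MP_97567f_al.U.Art
import Pool.Agent.Lib.MP_97567f_al.All
import Pool.Agent.Lib.MP_97567f_al.U.Slg

/-!
# MP_97567f_al: unfolding, part F: the types H3, H4, F4

`unf_H3`, `unf_H4`, `unf_F4`: the foldings are injective. `gar_F4`: a central positive element of the Artin group of type
F4 which is divisible by all generators. `H_good`: the folded Lawrence-Krammer representation is faithful and has the
properties needed for `Good`.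
-/

set_option autoImplicit false

namespace Pool.Agent.Lib.MP_97567f_al.U

open Polynomial

theorem unf_H3 : ∃ ι : Art CoxeterMatrix.H₃ →* Art D6,
    Fold CoxeterMatrix.H₃ D6 p3 ι ∧ Function.Injective ι := by
  have hR := all_RF SL_D6
  obtain ⟨ι, h1, h2, -⟩ := unf_main pArt aHee aGar SL_D6 hR (pFHex _ _ hR) uok_H3
  refine ⟨ι, ⟨by decide, by decide, fun s => ?_⟩, h2⟩
  rw [h1]
  simp

theorem unf_H4 : ∃ ι : Art CoxeterMatrix.H₄ →* Art CoxeterMatrix.E₈,
    Fold CoxeterMatrix.H₄ CoxeterMatrix.E₈ p4 ι ∧ Function.Injective ι := by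
  have hR := all_RF SL_E8
  obtain ⟨ι, h1, h2, -⟩ := unf_main pArt aHee aGar SL_E8 hR (pFHex _ _ hR) uok_H4
  refine ⟨ι, ⟨by decide, by decide, fun s => ?_⟩, h2⟩
  rw [h1]
  simp

theorem unf_F4 : ∃ ι : Art CoxeterMatrix.F₄ →* Art CoxeterMatrix.E₆,
    (∀ s, ι (gn CoxeterMatrix.F₄ s) = ((JF s).map (gn CoxeterMatrix.E₆)).prod) ∧
      Function.Injective ι := by
  have hR := all_RF SL_E6
  obtain ⟨ι, h1, h2, -⟩ := unf_main pArt aHee aGar SL_E6 hR (pFHex _ _ hR) uok_F4
  exact ⟨ι, h1, h2⟩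

/-- A Garside element for F4. -/
theorem gar_F4 : ∃ D : Art CoxeterMatrix.F₄, Ps (gn CoxeterMatrix.F₄) D ∧
    (∀ s, gn CoxeterMatrix.F₄ s * D = D * gn CoxeterMatrix.F₄ s) ∧
    ∀ s, Ps (gn CoxeterMatrix.F₄) ((gn CoxeterMatrix.F₄ s)⁻¹ * D) := by
  have hR := all_RF SL_E6
  obtain ⟨ι, -, -, h⟩ := unf_main pArt aHee aGar SL_E6 hR (pFHex _ _ hR) uok_F4
  exact h

section good

variable {n k : ℕ} {M : CoxeterMatrix (Fin n)} {M' : CoxeterMatrix (Fin k)}

/-- The folded representation is faithful. -/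
theorem frp_inj {ι : Art M →* Art M'} (hS : SL M') (hR : RF M') (hF : FH M' (fh M'))
    (h : Function.Injective ι) : Function.Injective (frp ι) := by
  intro x y hxy
  exact h (aFai k M' hS hR hF hxy)

/-- At `q = l = 1` the vector `(1, .., 1)` is fixed. -/
theorem frp_fix (hS : SL M') (hR : RF M') (hF : FH M' (fh M')) (hC : Conn M' Finset.univ)
    (hk : 0 < k) (ι : Art M →* Art M') : ∃ (φ : R2 →ₐ[ℂ] ℂ) (v : PR M' Finset.univ → ℂ), v ≠ 0 ∧
      ∀ b, ((frp ι b).1.map φ).mulVec v = v := by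
  have hSat : Sat M' Finset.univ := fun _ _ j _ => Finset.mem_univ j
  have hne : Nonempty (PR M' Finset.univ) :=
    ⟨⟨e ⟨0, hk⟩, ((aLkA k M' hR Finset.univ).2.2.2.1 _).2 (Finset.mem_univ _)⟩⟩
  obtain ⟨φ, hq, hl⟩ := R2_lift (S := ℂ) (a := 1) (b := 1) isUnit_one isUnit_one
  obtain ⟨hk1, hk2⟩ := aLKr k M' hS hR hF Finset.univ hSat
  obtain ⟨F, hF, hw⟩ := aLkW k M' hR hF Finset.univ hSat hC
  refine ⟨φ, fun _ => 1, fun h => one_ne_zero (congrFun h hne.some), fun b => ?_⟩
  have h0 : ∀ b : Art M', (LKr M' Finset.univ qq ll b).1.map φ =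
      (LKr M' Finset.univ (1 : ℂ) 1 b).1 := by
    intro b
    have := hk2 R2 ℂ (φ : R2 →+* ℂ) qq ll qq_unit ll_unit b
    have h' : (LKr M' Finset.univ (φ qq) (φ ll) b).1 = (LKr M' Finset.univ qq ll b).1.map φ := this
    rw [← h', hq, hl]
  have hf : ∀ b : Art M, (frp ι b).1.map φ = (LKr M' Finset.univ (1 : ℂ) 1 (ι b)).1 :=
    fun b => h0 (ι b)
  rw [hf]
  have h1 : ∀ s, ((LKr M' Finset.univ (1 : ℂ) 1 (gn M' s)).1).mulVec (fun _ => 1) =
      fun _ => 1 := by
    intro s
    rw [hk1 ℂ 1 1 isUnit_one isUnit_one, hw ℂ 1 1 s (Finset.mem_univ s)]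
    have h2 : aeval (1 : ℂ) F = 1 := by
      have h3 : aeval (1 : ℂ) F = ((F.eval 1 : ℤ) : ℂ) := by
        rw [Polynomial.aeval_def, Polynomial.eval₂_at_one]
        rfl
      rw [h3, hF, Int.cast_one]
    rw [h2, mul_one, sub_self, zero_smul, add_zero]
  generalize ι b = x
  induction x using art_induction with
  | h1 => simp
  | hg i x ih =>
    rw [map_mul, Units.val_mul, ← Matrix.mulVec_mulVec, ih, h1]
  | hi i x ih =>
    rw [map_mul, Units.val_mul, ← Matrix.mulVec_mulVec, ih]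
    have h5 : ((LKr M' Finset.univ (1 : ℂ) 1 (gn M' i)⁻¹).1).mulVec
        (((LKr M' Finset.univ (1 : ℂ) 1 (gn M' i)).1).mulVec (fun _ => 1)) = fun _ => 1 := by
      rw [Matrix.mulVec_mulVec, ← Units.val_mul, ← map_mul, inv_mul_cancel, map_one,
        Units.val_one, Matrix.one_mulVec]
    rw [h1] at h5
    exact h5

/-- **The folded types.** -/
theorem H_good (g2 : SMach) (g4 : SAbO) (g5 : SAbI) {ι : Art M →* Art M'} (hS : SL M')
    (hC : Conn M' Finset.univ) (hk : 0 < k) (h : Function.Injective ι) (hT : TFam (frp ι)) :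
    Good (Art M) := by
  have hR := all_RF hS
  have hF := pFHex _ _ hR
  have hinj := frp_inj hS hR hF h
  have hne : Nonempty (PR M' Finset.univ) :=
    ⟨⟨e ⟨0, hk⟩, ((aLkA k M' hR Finset.univ).2.2.2.1 _).2 (Finset.mem_univ _)⟩⟩
  refine g2 (Art M) R2 (PR M' Finset.univ) (frp ι) hT R2_KK ?_ ?_
  · rintro z ⟨a, ha⟩ b
    apply hinj
    rw [map_mul, map_mul]
    apply Units.ext
    have hmi : Function.Injective (fun Y : Matrix (PR M' Finset.univ) (PR M' Finset.univ) R2 =>
        Y.map (algebraMap R2 K2)) := Matrix.map_injective (IsFractionRing.injective R2 K2)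
    apply hmi
    simp only [Units.val_mul, Matrix.map_mul]
    have ha' : (frp ι z).1.map (algebraMap R2 K2) =
        a • (1 : Matrix (PR M' Finset.univ) (PR M' Finset.univ) K2) := ha
    rw [ha', smul_mul_assoc, one_mul, mul_smul_comm, mul_one]
  · intro z hz hφ
    exact g4 (Art M) R2 (PR M' Finset.univ) (frp ι) hinj hT.irr (frp_fix hS hR hF hC hk ι) z hz
      (g5 n M z hφ)

end good

theorem conn_of {n : ℕ} {M : CoxeterMatrix (Fin n)} (c : Fin n)
    (h : ∀ i, Relation.ReflTransGen (adj M) i c) : Conn M Finset.univ := by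
  intro i _ j hj
  clear hj
  refine (h i).trans ?_
  have h2 := h j
  clear * - h2
  induction h2 using Relation.ReflTransGen.head_induction_on with
  | refl => exact .refl
  | head h1 _ ih => exact ih.tail (adj_symm h1)

theorem conn_D6 : Conn D6 Finset.univ := by
  have r2 : Relation.ReflTransGen (adj D6) 2 2 := .refl
  have r0 : Relation.ReflTransGen (adj D6) 0 2 := .head (b := 2) (by decide) r2
  have r1 : Relation.ReflTransGen (adj D6) 1 2 := .head (b := 2) (by decide) r2
  have r3 : Relation.ReflTransGen (adj D6) 3 2 := .head (b := 2) (by decide) r2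
  have r4 : Relation.ReflTransGen (adj D6) 4 2 := .head (b := 3) (by decide) r3
  have r5 : Relation.ReflTransGen (adj D6) 5 2 := .head (b := 4) (by decide) r4
  refine conn_of 2 fun i => ?_
  fin_cases i
  · exact r0
  · exact r1
  · exact r2
  · exact r3
  · exact r4
  · exact r5

theorem conn_E6 : Conn CoxeterMatrix.E₆ Finset.univ := by
  have r3 : Relation.ReflTransGen (adj CoxeterMatrix.E₆) 3 3 := .refl
  have r2 : Relation.ReflTransGen (adj CoxeterMatrix.E₆) 2 3 := .head (b := 3) (by decide) r3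
  have r0 : Relation.ReflTransGen (adj CoxeterMatrix.E₆) 0 3 := .head (b := 2) (by decide) r2
  have r1 : Relation.ReflTransGen (adj CoxeterMatrix.E₆) 1 3 := .head (b := 3) (by decide) r3
  have r4 : Relation.ReflTransGen (adj CoxeterMatrix.E₆) 4 3 := .head (b := 3) (by decide) r3
  have r5 : Relation.ReflTransGen (adj CoxeterMatrix.E₆) 5 3 := .head (b := 4) (by decide) r4
  refine conn_of 3 fun i => ?_
  fin_cases i
  · exact r0
  · exact r1
  · exact r2
  · exact r3
  · exact r4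
  · exact r5

theorem conn_E8 : Conn CoxeterMatrix.E₈ Finset.univ := by
  have r3 : Relation.ReflTransGen (adj CoxeterMatrix.E₈) 3 3 := .refl
  have r2 : Relation.ReflTransGen (adj CoxeterMatrix.E₈) 2 3 := .head (b := 3) (by decide) r3
  have r0 : Relation.ReflTransGen (adj CoxeterMatrix.E₈) 0 3 := .head (b := 2) (by decide) r2
  have r1 : Relation.ReflTransGen (adj CoxeterMatrix.E₈) 1 3 := .head (b := 3) (by decide) r3
  have r4 : Relation.ReflTransGen (adj CoxeterMatrix.E₈) 4 3 := .head (b := 3) (by decide) r3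
  have r5 : Relation.ReflTransGen (adj CoxeterMatrix.E₈) 5 3 := .head (b := 4) (by decide) r4
  have r6 : Relation.ReflTransGen (adj CoxeterMatrix.E₈) 6 3 := .head (b := 5) (by decide) r5
  have r7 : Relation.ReflTransGen (adj CoxeterMatrix.E₈) 7 3 := .head (b := 6) (by decide) r6
  refine conn_of 3 fun i => ?_
  fin_cases i
  · exact r0
  · exact r1
  · exact r2
  · exact r3
  · exact r4
  · exact r5
  · exact r6
  · exact r7

/-- The type H3, from the properties of the representation. -/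
theorem good_H3 (g2 : SMach) (g4 : SAbO) (g5 : SAbI)
    (hT : ∀ ι : Art CoxeterMatrix.H₃ →* Art D6, Fold CoxeterMatrix.H₃ D6 p3 ι →
      Function.Injective ι → TFam (frp ι)) : Good (Art CoxeterMatrix.H₃) := by
  obtain ⟨ι, h1, h2⟩ := unf_H3
  exact H_good g2 g4 g5 SL_D6 conn_D6 (by decide) h2 (hT ι h1 h2)

/-- The type H4, from the properties of the representation. -/
theorem good_H4 (g2 : SMach) (g4 : SAbO) (g5 : SAbI)
    (hT : ∀ ι : Art CoxeterMatrix.H₄ →* Art CoxeterMatrix.E₈,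
      Fold CoxeterMatrix.H₄ CoxeterMatrix.E₈ p4 ι →
      Function.Injective ι → TFam (frp ι)) : Good (Art CoxeterMatrix.H₄) := by
  obtain ⟨ι, h1, h2⟩ := unf_H4
  exact H_good g2 g4 g5 SL_E8 conn_E8 (by decide) h2 (hT ι h1 h2)

end Pool.Agent.Lib.MP_97567f_al.U
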