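import Mathlib

/-!
# MP_97567f_al: the ring of Laurent polynomials in three variables

`R3 = ℂ[x0, 1/x0, x1, 1/x1, x2, 1/x2]`, with variables `r0`, `r1`, `r2`.
-/

set_option autoImplicit false

namespace Pool.Agent.Lib.MP_97567f_al.U

open MvPolynomial

/-- The polynomial ring in three variables. -/
abbrev P3 : Type := MvPolynomial (Fin 3) ℂ

/-- The ring of Laurent polynomials in three variables. -/
abbrev R3 : Type := Localization.Away (X 0 * X 1 * X 2 : P3)

theorem X012_ne : (X 0 * X 1 * X 2 : P3) ≠ 0 :=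
  mul_ne_zero (mul_ne_zero (X_ne_zero 0) (X_ne_zero 1)) (X_ne_zero 2)

theorem powers3_le : Submonoid.powers (X 0 * X 1 * X 2 : P3) ≤ nonZeroDivisors P3 :=
  powers_le_nonZeroDivisors_of_noZeroDivisors X012_ne

instance : IsDomain R3 := IsLocalization.isDomain_localization powers3_le

instance : IsNoetherianRing R3 :=
  IsLocalization.isNoetherianRing (Submonoid.powers (X 0 * X 1 * X 2 : P3)) _ inferInstance

instance : IsIntegrallyClosed R3 :=
  isIntegrallyClosed_of_isLocalization R3 (Submonoid.powers (X 0 * X 1 * X 2 : P3)) powers3_le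

instance : UniqueFactorizationMonoid R3 := inferInstance

/-- The first variable. -/
noncomputable def r0 : R3 := algebraMap P3 R3 (X 0)

/-- The second variable. -/
noncomputable def r1 : R3 := algebraMap P3 R3 (X 1)

/-- The third variable. -/
noncomputable def r2 : R3 := algebraMap P3 R3 (X 2)

theorem r012_unit : IsUnit (r0 * r1 * r2) := by
  unfold r0 r1 r2
  rw [← map_mul, ← map_mul]
  exact IsLocalization.Away.algebraMap_isUnit _

theorem r0_unit : IsUnit r0 := isUnit_of_mul_isUnit_left (isUnit_of_mul_isUnit_left r012_unit)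

theorem r1_unit : IsUnit r1 := isUnit_of_mul_isUnit_right (isUnit_of_mul_isUnit_left r012_unit)

theorem r2_unit : IsUnit r2 := isUnit_of_mul_isUnit_right r012_unit

theorem algebraMap3_injective : Function.Injective (algebraMap P3 R3) :=
  IsLocalization.injective R3 powers3_le

/-- The universal property. -/
theorem R3_lift {S : Type} [CommRing S] [Algebra ℂ S] {a b c : S} (ha : IsUnit a)
    (hb : IsUnit b) (hc : IsUnit c) : ∃ φ : R3 →ₐ[ℂ] S, φ r0 = a ∧ φ r1 = b ∧ φ r2 = c := by
  let ψ : P3 →ₐ[ℂ] S := aeval ![a, b, c]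
  have h1 : IsUnit (ψ (X 0 * X 1 * X 2)) := by
    rw [map_mul, map_mul]
    simp only [ψ, aeval_X]
    exact (ha.mul hb).mul hc
  have h2 : ∀ y : Submonoid.powers (X 0 * X 1 * X 2 : P3), IsUnit (ψ y) := by
    rintro ⟨_, k, rfl⟩
    rw [map_pow]
    exact h1.pow k
  refine ⟨IsLocalization.liftAlgHom (M := Submonoid.powers (X 0 * X 1 * X 2 : P3)) (f := ψ) h2,
    ?_, ?_, ?_⟩
  · unfold r0
    rw [IsLocalization.liftAlgHom_apply]
    simp [ψ]
  · unfold r1
    rw [IsLocalization.liftAlgHom_apply]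
    simp [ψ]
  · unfold r2
    rw [IsLocalization.liftAlgHom_apply]
    simp [ψ]

/-- Uniqueness. -/
theorem R3_ext {S : Type} [CommRing S] [Algebra ℂ S] {φ ψ : R3 →ₐ[ℂ] S} (h0 : φ r0 = ψ r0)
    (h1 : φ r1 = ψ r1) (h2 : φ r2 = ψ r2) : φ = ψ := by
  have h1 : (φ : R3 →+* S).comp (algebraMap P3 R3) = (ψ : R3 →+* S).comp (algebraMap P3 R3) := by
    refine MvPolynomial.ringHom_ext (fun c => ?_) fun i => ?_
    · have e1 : algebraMap P3 R3 (C c) = algebraMap ℂ R3 c := by
        rw [← MvPolynomial.algebraMap_eq, ← IsScalarTower.algebraMap_apply]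
      change φ (algebraMap P3 R3 (C c)) = ψ (algebraMap P3 R3 (C c))
      rw [e1, AlgHom.commutes, AlgHom.commutes]
    · fin_cases i
      · exact h0
      · exact h1
      · exact h2
  have h2 : (φ : R3 →+* S) = (ψ : R3 →+* S) :=
    IsLocalization.ringHom_ext (Submonoid.powers (X 0 * X 1 * X 2 : P3)) h1
  exact AlgHom.ext fun x => congrArg (fun f : R3 →+* S => f x) h2

end Pool.Agent.Lib.MP_97567f_al.U
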