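import Pool.Agent.Lib.MP_97567f_al.U.SpecM

/-!
# MP_97567f_al, module U/Jle: the ideals and special parameters
-/

set_option autoImplicit false

namespace Pool.Agent.Lib.MP_97567f_al.U

private theorem Jle_trace_map {ι R S : Type} [Fintype ι] [CommRing R] [CommRing S] (f : R →+* S)
    (A : Matrix ι ι R) : (A.map f).trace = f A.trace := by
  unfold Matrix.trace
  rw [map_sum]
  rfl

private theorem Jle_det {N K : Type} [Fintype N] [DecidableEq N] [Field K]
    (Y : N × N → Matrix N N K) (hY : Submodule.span K (Set.range Y) ≠ ⊤) :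
    (Matrix.of fun i j => (Y i * Y j).trace).det = 0 := by
  have hdep : ¬ LinearIndependent K Y := by
    intro hli
    have hcard : Fintype.card (N × N) = Module.finrank K (Matrix N N K) := by
      rw [Module.finrank_matrix, Module.finrank_self, mul_one, Fintype.card_prod]
    exact hY (hli.span_eq_top_of_card_eq_finrank' hcard)
  obtain ⟨c, hc, j, hj⟩ := Fintype.not_linearIndependent_iff.1 hdep
  rw [← Matrix.exists_mulVec_eq_zero_iff]
  refine ⟨c, fun h => hj (congrFun h j), ?_⟩
  funext i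
  rw [Pi.zero_apply]
  have h1 : ((Matrix.of fun i j => (Y i * Y j).trace).mulVec c) i =
      (Y i * ∑ j, c j • Y j).trace := by
    rw [Finset.mul_sum, Matrix.trace_sum]
    simp only [Matrix.mulVec, dotProduct, Matrix.of_apply]
    refine Finset.sum_congr rfl fun j _ => ?_
    rw [Matrix.mul_smul, Matrix.trace_smul, smul_eq_mul, mul_comm]
  rw [h1, hc, mul_zero, Matrix.trace_zero]

/-- powers of monomial matrices -/
private theorem Jle_pow {N K : Type} [Fintype N] [DecidableEq N] [Field K]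
    {A : Matrix N N K} {σ : Equiv.Perm N}
    (h : ∀ b : N, ∃ c : K, A.mulVec (Pi.single b (1 : K)) = c • (Pi.single (σ b) (1 : K) : N → K))
    (m : ℕ) : ∀ b : N, ∃ c : K,
      (A ^ m).mulVec (Pi.single b (1 : K)) = c • (Pi.single ((σ ^ m) b) (1 : K) : N → K) := by
  induction m with
  | zero =>
    intro b
    refine ⟨1, ?_⟩
    rw [pow_zero, pow_zero, Matrix.one_mulVec, one_smul, Equiv.Perm.one_apply]
  | succ m ih =>
    intro b
    obtain ⟨c, hc⟩ := ih b
    obtain ⟨d, hd⟩ := h ((σ ^ m) b)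
    refine ⟨c * d, ?_⟩
    rw [pow_succ', ← Matrix.mulVec_mulVec, hc, Matrix.mulVec_smul, hd, smul_smul, pow_succ',
      Equiv.Perm.mul_apply]

private theorem Jle_one {A : Type} [Group A] {R : Type} [CommRing R] [IsDomain R] [Algebra ℂ R]
    {ι : Type} [Fintype ι] [DecidableEq ι] (ρ : A →* GL ι R) {K : Type} [Field K] (φ : R →+* K)
    (p : R) (hp : ∀ x, φ x = 0 → x ∈ Ideal.span {p}) (k : ℕ)
    (h : ∀ x y : A, (ρ (x ^ k * y ^ k)).1.map φ = (ρ (y ^ k * x ^ k)).1.map φ) :
    J1 k ρ ≤ Ideal.span {p} := by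
  unfold J1
  rw [Ideal.span_le]
  rintro r ⟨x, y, z, rfl⟩
  apply hp
  have h1 : (ρ (cmy k x y)).1.map φ = 1 := by
    have e1 : cmy k x y = (x ^ k * y ^ k) * (y ^ k * x ^ k)⁻¹ := by
      unfold cmy
      group
    rw [e1, map_mul, Units.val_mul, Matrix.map_mul, h, ← Matrix.map_mul, ← Units.val_mul,
      ← map_mul, mul_inv_cancel, map_one, Units.val_one, Matrix.map_one _ (map_zero _) (map_one _)]
  rw [map_sub, ← Jle_trace_map, ← Jle_trace_map, map_mul, Units.val_mul, Matrix.map_mul, h1,
    mul_one, sub_self]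

theorem pJle : SJle := by
  intro A _ R _ _ _ ι _ _ ρ K _ φ p hp
  refine ⟨fun k h => Jle_one ρ φ p hp k h, ?_, ?_⟩
  · intro hsp
    unfold J2
    rw [Ideal.span_le]
    rintro _ ⟨x, rfl⟩
    apply hp
    rw [← Jle_det (fun i => (ρ (x i)).1.map φ) ?_, RingHom.map_det]
    · congr 1
      ext i j
      rw [RingHom.mapMatrix_apply, Matrix.map_apply, Matrix.of_apply, Matrix.of_apply,
        ← Jle_trace_map, map_mul, Units.val_mul, Matrix.map_mul]
    · intro h
      apply hsp
      rw [← top_le_iff, ← h]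
      apply Submodule.span_mono
      rintro _ ⟨i, rfl⟩
      exact ⟨x i, rfl⟩
  · intro hmon
    apply Jle_one ρ φ p hp
    have hd : ∀ x : A, ∀ b : ι, ∃ c : K, ((ρ (x ^ (Fintype.card ι).factorial)).1.map φ).mulVec
        (Pi.single b (1 : K)) = c • (Pi.single b (1 : K) : ι → K) := by
      intro x b
      obtain ⟨σ, c, hc⟩ := hmon x
      have h := Jle_pow (A := (ρ x).1.map φ) (σ := σ) (fun b => ⟨_, hc b⟩)
        (Fintype.card ι).factorial
      have hσ : σ ^ (Fintype.card ι).factorial = 1 := by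
        rw [← Fintype.card_perm]
        exact pow_card_eq_one
      obtain ⟨c, hc⟩ := h b
      rw [hσ] at hc
      refine ⟨c, ?_⟩
      have e1 : (ρ (x ^ (Fintype.card ι).factorial)).1.map φ =
          ((ρ x).1.map φ) ^ (Fintype.card ι).factorial := by
        rw [map_pow, Units.val_pow_eq_pow_val]
        exact map_pow φ.mapMatrix (ρ x).1 _
      rw [e1]
      exact hc
    intro x y
    apply Matrix.ext_of_mulVec_single
    intro b
    obtain ⟨c, hc⟩ := hd x b
    obtain ⟨d, hd⟩ := hd y b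
    rw [map_mul, map_mul, Units.val_mul, Units.val_mul, Matrix.map_mul, Matrix.map_mul,
      ← Matrix.mulVec_mulVec, ← Matrix.mulVec_mulVec, hc, hd, Matrix.mulVec_smul,
      Matrix.mulVec_smul, hc, hd, smul_comm]

end Pool.Agent.Lib.MP_97567f_al.U
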