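import Pool.Agent.Lib.MP_97567f_al.U.SpecM

/-!
# MP_97567f_al, module U/Jnz: the ideals are not zero
-/

set_option autoImplicit false

namespace Pool.Agent.Lib.MP_97567f_al.U

/-- A spanning family of matrices contains a basis. -/
private theorem Jnz_basis {K ι G : Type} [Field K] [Fintype ι] [DecidableEq ι]
    (v : G → Matrix ι ι K) (hv : Submodule.span K (Set.range v) = ⊤) :
    ∃ x : ι × ι → G, LinearIndependent K (fun i => v (x i)) ∧
      Submodule.span K (Set.range fun i => v (x i)) = ⊤ := by
  classical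
  obtain ⟨b, hbt, hsp, hli⟩ := exists_linearIndependent K (Set.range v)
  have htop : ⊤ ≤ Submodule.span K (Set.range (Subtype.val : b → Matrix ι ι K)) := by
    rw [Subtype.range_coe, hsp, hv]
  let B : Module.Basis b K (Matrix ι ι K) := Module.Basis.mk hli htop
  let e : ι × ι ≃ b := (Matrix.stdBasis K ι ι).indexEquiv B
  have hx : ∀ i : ι × ι, ∃ g : G, v g = ((e i : b) : Matrix ι ι K) := fun i => hbt (e i).2
  choose x hx using hx
  refine ⟨x, ?_, ?_⟩
  · have h1 : (fun i => v (x i)) = (Subtype.val : b → Matrix ι ι K) ∘ e := by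
      funext i
      exact hx i
    rw [h1]
    exact hli.comp e e.injective
  · have h1 : (Set.range fun i => v (x i)) = b := by
      ext m
      constructor
      · rintro ⟨i, rfl⟩
        simp only [hx]
        exact (e i).2
      · intro hm
        refine ⟨e.symm ⟨m, hm⟩, ?_⟩
        simp [hx]
    rw [h1, hsp, hv]

/-- The Gram determinant of a basis is not zero. -/
private theorem Jnz_gram {K ι : Type} [Field K] [Fintype ι] [DecidableEq ι]
    (Y : ι × ι → Matrix ι ι K) (hli : LinearIndependent K Y)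
    (hsp : Submodule.span K (Set.range Y) = ⊤) :
    (Matrix.of fun i j => (Y i * Y j).trace).det ≠ 0 := by
  intro h0
  obtain ⟨c, hc, hc0⟩ := Matrix.exists_mulVec_eq_zero_iff.2 h0
  apply hc
  have h1 : ∀ i, (Y i * ∑ j, c j • Y j).trace = 0 := by
    intro i
    have h2 := congrFun hc0 i
    rw [Pi.zero_apply] at h2
    rw [← h2]
    simp only [Matrix.mulVec, dotProduct, Matrix.of_apply, Finset.mul_sum, Matrix.trace_sum,
      Matrix.mul_smul, Matrix.trace_smul, smul_eq_mul]
    exact Finset.sum_congr rfl fun j _ => mul_comm _ _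
  have h2 : ∀ Z : Matrix ι ι K, (Z * ∑ j, c j • Y j).trace = 0 := by
    intro Z
    have hZ : Z ∈ Submodule.span K (Set.range Y) := by rw [hsp]; trivial
    induction hZ using Submodule.span_induction with
    | mem z hz => obtain ⟨i, rfl⟩ := hz; exact h1 i
    | zero => simp
    | add a b _ _ ha hb => rw [add_mul, Matrix.trace_add, ha, hb, add_zero]
    | smul a z _ hz => rw [Matrix.smul_mul, Matrix.trace_smul, hz, smul_zero]
  have h3 : ∑ j, c j • Y j = 0 := by
    apply Matrix.ext_iff_trace_mul_left.2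
    intro Z
    rw [h2 Z, mul_zero, Matrix.trace_zero]
  funext j
  exact Fintype.linearIndependent_iff.1 hli c h3 j

private theorem Jnz_trace_map {ι R S : Type} [Fintype ι] [CommRing R] [CommRing S] (f : R →+* S)
    (A : Matrix ι ι R) : (A.map f).trace = f A.trace := by
  unfold Matrix.trace
  rw [map_sum]
  rfl

private theorem Jnz_tr {ι K : Type} [Fintype ι] [DecidableEq ι] [Field K] (S : Set (Matrix ι ι K))
    (hS : Submodule.span K S = ⊤) (Y : Matrix ι ι K) (h : ∀ Z ∈ S, (Z * Y).trace = 0) : Y = 0 := by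
  have h1 : ∀ Z : Matrix ι ι K, (Z * Y).trace = 0 := by
    intro Z
    have hZ : Z ∈ Submodule.span K S := by rw [hS]; trivial
    induction hZ using Submodule.span_induction with
    | mem x hx => exact h x hx
    | zero => simp
    | add x y _ _ hx hy => rw [Matrix.add_mul, Matrix.trace_add, hx, hy, add_zero]
    | smul a x _ hx => rw [Matrix.smul_mul, Matrix.trace_smul, hx, smul_zero]
  apply Matrix.ext_iff_trace_mul_left.2
  intro Z
  rw [h1 Z, mul_zero, Matrix.trace_zero]

private theorem Jnz_one {A : Type} [Group A] {R : Type} [CommRing R] [IsDomain R] [Algebra ℂ R]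
    {ι : Type} [Fintype ι] [DecidableEq ι] (ρ : A →* GL ι R)
    (hirr : Submodule.span (FractionRing R) (Set.range fun x : A => mK ρ x) = ⊤) {k : ℕ}
    (hI : J1 k ρ = ⊥) (x y : A) : ρ (cmy k x y) = 1 := by
  have h1 : ∀ z : A, (ρ (z * cmy k x y)).1.trace = (ρ z).1.trace := by
    intro z
    have h2 : (ρ (z * cmy k x y)).1.trace - (ρ z).1.trace ∈ J1 k ρ :=
      Ideal.subset_span ⟨x, y, z, rfl⟩
    rw [hI, Ideal.mem_bot] at h2
    exact sub_eq_zero.1 h2
  have h3 : (ρ (cmy k x y)).1.map (algebraMap R (FractionRing R)) - 1 = 0 := by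
    refine Jnz_tr _ hirr _ ?_
    rintro _ ⟨z, rfl⟩
    have h4 := congrArg (algebraMap R (FractionRing R)) (h1 z)
    rw [map_mul, Units.val_mul] at h4
    simp only [mK]
    rw [Matrix.mul_sub, Matrix.mul_one, Matrix.trace_sub, ← Matrix.map_mul, sub_eq_zero,
      Jnz_trace_map]
    refine h4.trans (Jnz_trace_map _ _).symm
  have h5 : (ρ (cmy k x y)).1 = 1 := by
    have h6 : (ρ (cmy k x y)).1.map (algebraMap R (FractionRing R)) =
        (1 : Matrix ι ι R).map (algebraMap R (FractionRing R)) := by
      rw [sub_eq_zero.1 h3, Matrix.map_one _ (map_zero _) (map_one _)]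
    exact Matrix.map_injective (IsFractionRing.injective R (FractionRing R)) h6
  exact Units.ext h5

theorem pJnz : SJnz := by
  intro A _ R _ _ _ ι _ _ ρ hirr
  constructor
  · intro k x y hne hbot
    apply hne
    have h1 := Jnz_one ρ hirr hbot x y
    unfold cmy at h1
    rw [map_mul, map_mul, map_mul, map_inv, map_inv, mul_inv_eq_one, mul_inv_eq_iff_eq_mul] at h1
    rw [map_mul, map_mul]
    exact h1
  · intro hbot
    obtain ⟨x, hli, hsp⟩ := Jnz_basis (fun y : A => mK ρ y) hirr
    have hr : (Matrix.of fun i j => (ρ (x i * x j)).1.trace).det ∈ J2 ρ :=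
      Ideal.subset_span ⟨x, rfl⟩
    rw [hbot, Ideal.mem_bot] at hr
    apply Jnz_gram _ hli hsp
    have h2 := congrArg (algebraMap R (FractionRing R)) hr
    rw [map_zero, RingHom.map_det] at h2
    rw [← h2]
    congr 1
    ext i j
    simp only [Matrix.of_apply, RingHom.mapMatrix_apply, Matrix.map_apply, mK]
    rw [map_mul, Units.val_mul, AddMonoidHom.map_trace, Matrix.map_mul]

end Pool.Agent.Lib.MP_97567f_al.U
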