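import Pool.Agent.Lib.MP_97567f_al.U.SpecM

/-!
# MP_97567f_al, module U/Jst: the ideals are invariant
-/

set_option autoImplicit false

namespace Pool.Agent.Lib.MP_97567f_al.U

private theorem Jst_trace_map {ι R S : Type} [Fintype ι] [CommRing R] [CommRing S] (f : R →+* S)
    (A : Matrix ι ι R) : (A.map f).trace = f A.trace := by
  unfold Matrix.trace
  rw [map_sum]
  rfl

private theorem Jst_tr {A : Type} [Group A] {R : Type} [CommRing R] [IsDomain R] [Algebra ℂ R]
    {ι : Type} [Fintype ι] [DecidableEq ι] (ρ : A →* GL ι R) {f : A →* A} {θ : R →ₐ[ℂ] R}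
    (hT : Twf ρ f θ) : ∃ χ : A →* Rˣ, ∀ x,
      θ (ρ x).1.trace = (((χ x)⁻¹ : Rˣ) : R) * (ρ (f x)).1.trace := by
  obtain ⟨-, χ, g, hg⟩ := hT
  refine ⟨χ, fun x => ?_⟩
  have h1 : (ρ (f x)).1.trace = (χ x : R) * θ (ρ x).1.trace := by
    apply IsFractionRing.injective R (FractionRing R)
    have h4 := congrArg Matrix.trace (hg x)
    unfold mK at h4
    have h5 : ((ρ x).1.map θ).trace = θ (ρ x).1.trace := Jst_trace_map (θ : R →+* R) _
    rw [Jst_trace_map, Matrix.trace_smul, Matrix.trace_units_conj, Jst_trace_map, h5,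
      smul_eq_mul, ← map_mul] at h4
    exact h4
  rw [h1, Units.inv_mul_cancel_left]

theorem pJst : SJst := by
  intro A _ R _ _ _ ι _ _ ρ
  constructor
  · intro k f θ hT r hr
    obtain ⟨χ, htr'⟩ := Jst_tr ρ hT
    have hcm : ∀ x y, f (cmy k x y) = cmy k (f x) (f y) := by
      intro x y
      simp only [cmy, map_mul, map_pow, map_inv]
    have hχ : ∀ x y, χ (cmy k x y) = 1 := by
      intro x y
      simp only [cmy, map_mul, map_pow, map_inv]
      rw [mul_comm (χ x ^ _) (χ y ^ _), mul_inv_cancel_right, mul_inv_cancel]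
    have hle : J1 k ρ ≤ Ideal.comap (θ : R →+* R) (J1 k ρ) := by
      refine Ideal.span_le.2 ?_
      rintro _ ⟨x, y, z, rfl⟩
      change θ ((ρ (z * cmy k x y)).1.trace - (ρ z).1.trace) ∈ J1 k ρ
      have h5 : θ ((ρ (z * cmy k x y)).1.trace - (ρ z).1.trace) =
          (((χ z)⁻¹ : Rˣ) : R) * ((ρ (f z * cmy k (f x) (f y))).1.trace -
            (ρ (f z)).1.trace) := by
        rw [map_sub, htr', htr', map_mul f, map_mul χ, hχ, mul_one, hcm, mul_sub]
      rw [h5]
      exact Ideal.mul_mem_left _ _ (Ideal.subset_span ⟨f x, f y, f z, rfl⟩)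
    exact hle hr
  · intro f θ hT r hr
    obtain ⟨χ, htr'⟩ := Jst_tr ρ hT
    have hle : J2 ρ ≤ Ideal.comap (θ : R →+* R) (J2 ρ) := by
      refine Ideal.span_le.2 ?_
      rintro _ ⟨x, rfl⟩
      change θ (Matrix.of fun i j => (ρ (x i * x j)).1.trace).det ∈ J2 ρ
      have h5 : θ (Matrix.of fun i j => (ρ (x i * x j)).1.trace).det =
          (∏ i, (((χ (x i))⁻¹ : Rˣ) : R)) * ((∏ i, (((χ (x i))⁻¹ : Rˣ) : R)) *
            (Matrix.of fun i j => (ρ (f (x i) * f (x j))).1.trace).det) := by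
        rw [← Matrix.det_mul_row, ← Matrix.det_mul_column, AlgHom.map_det]
        congr 1
        ext i j
        simp only [AlgHom.mapMatrix_apply, Matrix.map_apply, Matrix.of_apply]
        rw [htr', map_mul f, map_mul χ, mul_inv, Units.val_mul, mul_assoc]
      rw [h5]
      exact Ideal.mul_mem_left _ _ (Ideal.mul_mem_left _ _
        (Ideal.subset_span ⟨fun i => f (x i), rfl⟩))
    exact hle hr

end Pool.Agent.Lib.MP_97567f_al.U
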