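import Pool.Agent.Lib.MP_97567f_al.U.SpecM

/-!
# MP_97567f_al: the abelianization is free
-/

set_option autoImplicit false

namespace Pool.Agent.Lib.MP_97567f_al.U

private theorem AbI_succ {G : Type} [Monoid G] (a b : G) (m : ℕ) :
    alt a b (m + 1) = alt a b m * (if m % 2 = 0 then a else b) := by
  unfold alt
  rw [List.range_succ, List.map_append, List.prod_append, List.map_cons, List.map_nil,
    List.prod_singleton]

private theorem AbI_even {G : Type} [CommMonoid G] (a b : G) (k : ℕ) :
    alt a b (2 * k) = (a * b) ^ k := by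
  induction k with
  | zero =>
    rw [mul_zero, pow_zero]
    unfold alt
    rw [List.range_zero, List.map_nil, List.prod_nil]
  | succ k ih =>
    have e1 : 2 * (k + 1) = 2 * k + 1 + 1 := by ring
    rw [e1, AbI_succ, AbI_succ, ih, if_pos (by omega), if_neg (by omega), pow_succ, mul_assoc]

private theorem AbI_odd {G : Type} [CommMonoid G] (a b : G) (k : ℕ) :
    alt a b (2 * k + 1) = (a * b) ^ k * a := by
  rw [AbI_succ, AbI_even, if_pos (by omega)]

/-- the relation in a commutative group -/
private theorem AbI_rel {G : Type} [CommGroup G] (a b : G) (m : ℕ) :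
    alt a b m = alt b a m ↔ (Odd m → a = b) := by
  rcases Nat.even_or_odd' m with ⟨k, rfl | rfl⟩
  · rw [AbI_even, AbI_even, mul_comm a b]
    refine ⟨fun _ h => ?_, fun _ => rfl⟩
    obtain ⟨l, hl⟩ := h
    omega
  · rw [AbI_odd, AbI_odd, mul_comm a b]
    refine ⟨fun h _ => mul_left_cancel h, fun h => ?_⟩
    rw [h ⟨k, rfl⟩]

theorem pAbI (h1 : SArt) : SAbI := by
  classical
  intro n M z hz Q _ φ
  obtain ⟨hrel, hex, huniq, -, -⟩ := h1 n M
  let s : Setoid (Fin n) := Relation.EqvGen.setoid fun i j => Odd (M.M i j)
  let rep : Fin n → Fin n := fun i => (Quotient.mk s i).out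
  have hrep : ∀ i, Relation.EqvGen (fun i j => Odd (M.M i j)) (rep i) i := fun i =>
    Quotient.exact (s := s) (Quotient.out_eq (Quotient.mk s i))
  have hrep2 : ∀ i j, Odd (M.M i j) → rep i = rep j := fun i j h =>
    congrArg Quotient.out (Quotient.sound (s := s) (Relation.EqvGen.rel _ _ h))
  -- the degrees
  have hdeg : ∀ c : Fin n, ∃ δ : Art M →* Multiplicative ℤ, ∀ i,
      δ (gn M i) = if rep i = c then Multiplicative.ofAdd 1 else 1 := by
    intro c
    refine hex (Multiplicative ℤ) (fun i => if rep i = c then Multiplicative.ofAdd 1 else 1)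
      fun i j => ?_
    rw [AbI_rel]
    intro h
    rw [hrep2 i j h]
  choose δ hδ using hdeg
  -- `φ` is constant on the classes
  have hφ : ∀ i j, Relation.EqvGen (fun i j => Odd (M.M i j)) i j →
      φ (gn M i) = φ (gn M j) := by
    intro i j h
    induction h with
    | rel i j h =>
      have e1 := congrArg φ (hrel i j)
      have e2 : ∀ (a b : Art M) (m : ℕ), φ (alt a b m) = alt (φ a) (φ b) m := by
        intro a b m
        induction m with
        | zero =>
          change φ (List.prod []) = List.prod []
          rw [List.prod_nil, List.prod_nil, map_one]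
        | succ m ih =>
          rw [AbI_succ, AbI_succ, map_mul, ih]
          split_ifs <;> rfl
      rw [e2, e2, AbI_rel] at e1
      exact e1 h
    | refl i => rfl
    | symm i j _ ih => exact ih.symm
    | trans i j k _ _ ih1 ih2 => exact ih1.trans ih2
  have hfin : φ = ∏ c : Fin n, (zpowersHom Q (φ (gn M c))).comp (δ c) := by
    refine huniq Q _ _ fun i => ?_
    rw [MonoidHom.finsetProd_apply]
    rw [Finset.prod_eq_single (rep i)]
    · rw [MonoidHom.comp_apply, hδ, if_pos rfl, zpowersHom_apply, toAdd_ofAdd, zpow_one]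
      exact (hφ _ _ (hrep i)).symm
    · intro c _ hc
      rw [MonoidHom.comp_apply, hδ, if_neg (Ne.symm hc), map_one]
    · intro h
      exact absurd (Finset.mem_univ _) h
  rw [hfin, MonoidHom.finsetProd_apply]
  refine Finset.prod_eq_one fun c _ => ?_
  rw [MonoidHom.comp_apply, hz, map_one]

end Pool.Agent.Lib.MP_97567f_al.U
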