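import Pool.Agent.Lib.MP_97567f_al.U.SpecM

/-!
# MP_97567f_al: the center
-/

set_option autoImplicit false

namespace Pool.Agent.Lib.MP_97567f_al.U

open Polynomial

private theorem AbO_root {R : Type} [CommRing R] [IsDomain R] [Algebra ℂ R] {N : ℕ} (hN : 0 < N)
    {c : R} (hc : c ^ N = 1) : ∃ ζ : ℂ, c = algebraMap ℂ R ζ := by
  have h1 := (IsAlgClosed.splits (X ^ N - 1 : ℂ[X])).eq_prod_roots
  have h2 : aeval c (X ^ N - 1 : ℂ[X]) = 0 := by
    rw [map_sub, map_pow, aeval_X, map_one, hc, sub_self]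
  have hne : (X ^ N - 1 : ℂ[X]) ≠ 0 := (monic_X_pow_sub_C (1 : ℂ) hN.ne').ne_zero
  rw [h1, map_mul, aeval_C] at h2
  have h3 : algebraMap ℂ R (X ^ N - 1 : ℂ[X]).leadingCoeff ≠ 0 := by
    rw [Ne, FaithfulSMul.algebraMap_eq_zero_iff]
    exact leadingCoeff_ne_zero.2 hne
  have h4 := (mul_eq_zero.1 h2).resolve_left h3
  rw [map_multiset_prod, Multiset.prod_eq_zero_iff, Multiset.mem_map] at h4
  obtain ⟨p, hp, hp0⟩ := h4
  obtain ⟨ζ, -, rfl⟩ := Multiset.mem_map.1 hp
  rw [map_sub, aeval_X, aeval_C, sub_eq_zero] at hp0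
  exact ⟨ζ, hp0⟩

theorem pAbO : SAbO := by
  intro B _ R _ _ _ ι _ _ _ ρ hinj hspan hφ z hz hQ
  obtain ⟨φ, v, hv, hφv⟩ := hφ
  -- the matrix of `z` commutes with all matrices
  have hcomm : ∀ Y : Matrix ι ι (FractionRing R), Y * mK ρ z = mK ρ z * Y := by
    intro Y
    have hY : Y ∈ Submodule.span (FractionRing R) (Set.range fun x : B => mK ρ x) := by
      rw [hspan]
      trivial
    induction hY using Submodule.span_induction with
    | mem Y hY =>
      obtain ⟨b, rfl⟩ := hY
      change (ρ b).1.map (algebraMap R (FractionRing R)) *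
        (ρ z).1.map (algebraMap R (FractionRing R)) =
        (ρ z).1.map (algebraMap R (FractionRing R)) * (ρ b).1.map (algebraMap R (FractionRing R))
      rw [← Matrix.map_mul, ← Matrix.map_mul, ← Units.val_mul, ← Units.val_mul, ← map_mul,
        ← map_mul, hz b]
    | zero => rw [zero_mul, mul_zero]
    | add Y Y' _ _ h h' => rw [add_mul, mul_add, h, h']
    | smul a Y _ h => rw [Matrix.smul_mul, Matrix.mul_smul, h]
  obtain ⟨a, ha⟩ : mK ρ z ∈ Set.range (Matrix.scalar ι) :=
    Matrix.mem_range_scalar_of_commute_single fun i j _ => hcomm _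
  obtain ⟨i₀⟩ := ‹Nonempty ι›
  obtain ⟨c, hc⟩ : ∃ c : R, (ρ z).1 = Matrix.scalar ι c := by
    have hent : ∀ i j, algebraMap R (FractionRing R) ((ρ z).1 i j) =
        if i = j then a else 0 := by
      intro i j
      have h1 : mK ρ z i j = algebraMap R (FractionRing R) ((ρ z).1 i j) := rfl
      rw [← h1, ← ha]
      exact Matrix.diagonal_apply ..
    refine ⟨(ρ z).1 i₀ i₀, ?_⟩
    ext i j
    apply IsFractionRing.injective R (FractionRing R)
    rw [hent i j, Matrix.scalar_apply, Matrix.diagonal_apply]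
    by_cases hij : i = j
    · rw [if_pos hij, if_pos hij, hent, if_pos rfl]
    · rw [if_neg hij, if_neg hij, map_zero]
  have hdet : c ^ Fintype.card ι = 1 := by
    have h1 := hQ Rˣ ((Matrix.GeneralLinearGroup.det).comp ρ)
    have h2 : ((ρ z).1).det = 1 := congrArg Units.val h1
    rw [hc] at h2
    rw [← h2, Matrix.scalar_apply, Matrix.det_diagonal, Finset.prod_const, Finset.card_univ]
  obtain ⟨ζ, hζ⟩ := AbO_root Fintype.card_pos hdet
  have h5 := hφv z
  obtain ⟨j, hj⟩ : ∃ j, v j ≠ 0 := by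
    by_contra hcon
    push Not at hcon
    exact hv (funext hcon)
  have h6 : φ c * v j = v j := by
    have h7 := congrFun h5 j
    rw [hc, Matrix.scalar_apply, Matrix.diagonal_map (map_zero φ), Matrix.mulVec_diagonal] at h7
    exact h7
  have h8 : φ c = 1 := by
    have h9 : (φ c - 1) * v j = 0 := by rw [sub_mul, one_mul, h6, sub_self]
    exact sub_eq_zero.1 ((mul_eq_zero.1 h9).resolve_right hj)
  have h10 : ζ = 1 := by
    rw [hζ, AlgHom.commutes] at h8
    exact h8
  apply hinj
  rw [map_one]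
  apply Units.ext
  rw [hc, hζ, h10, map_one, map_one, Units.val_one]

end Pool.Agent.Lib.MP_97567f_al.U
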