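import Pool.Agent.Lib.MP_97567f_al.U.SpecM

/-!
# MP_97567f_al: assembly of the components
-/

set_option autoImplicit false

namespace Pool.Agent.Lib.MP_97567f_al.U

private theorem All_key (h3 : SAdj) (A : Type) [Group A] (hFG : Group.FG A) (B : Type) [Group B]
    (i : B →* A) (r : A →* B) (hF : Fac i r) (hG : Good B) :
    ∃ (H : Subgroup (MulAut A)) (k : ℕ) (Φ : H →* GL (Fin k) KK), H.FiniteIndex ∧
      ∀ α : H, Φ α = 1 → ∀ x b, r (x⁻¹ * α.1 x) * b = b * r (x⁻¹ * α.1 x) := by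
  obtain ⟨d, _, _, hne, ρ, H, hH, hspan, htw, hTS, hsc⟩ := hG.cd A hFG i r hF
  have hspan' : Submodule.span KK (Set.range fun x => ((ρ.comp r) x).1) = ⊤ := by
    rw [← hspan]
    congr 1
    ext Y
    constructor
    · rintro ⟨x, rfl⟩
      exact ⟨r x, rfl⟩
    · rintro ⟨b, rfl⟩
      refine ⟨i b, ?_⟩
      change (ρ (r (i b))).1 = (ρ b).1
      rw [hF.ri]
  have htw' : ∀ (η : A →* KKˣ) (g : GL d KK),
      (∀ x, g.1 * ((ρ.comp r) x).1 * (g⁻¹).1 = (η x : KK) • ((ρ.comp r) x).1) → η = 1 := by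
    intro η g h
    have e1 : ∀ b, η (i b) = 1 := by
      intro b
      have e2 : η.comp i = 1 := by
        refine htw (η.comp i) g fun b => ?_
        have e3 := h (i b)
        change g.1 * (ρ (r (i b))).1 * (g⁻¹).1 = (η (i b) : KK) • (ρ (r (i b))).1 at e3
        rw [hF.ri] at e3
        exact e3
      exact DFunLike.congr_fun e2 b
    have e4 : ∀ a, r a = 1 → η a = 1 := by
      intro a ha
      have e5 := h a
      change g.1 * (ρ (r a)).1 * (g⁻¹).1 = (η a : KK) • (ρ (r a)).1 at e5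
      rw [ha, map_one, Units.val_one, mul_one, ← Units.val_mul, mul_inv_cancel,
        Units.val_one] at e5
      obtain ⟨j⟩ := hne
      have e6 := congrFun (congrFun e5 j) j
      rw [Matrix.smul_apply, Matrix.one_apply_eq, smul_eq_mul, mul_one] at e6
      exact Units.ext e6.symm
    ext x
    have e7 : x = i (r x) * ((i (r x))⁻¹ * x) := by group
    rw [MonoidHom.one_apply, e7, map_mul, e1, one_mul]
    rw [e4]
    rw [map_mul, map_inv, hF.ri, inv_mul_cancel]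
  obtain ⟨k, Φ, hΦ⟩ := h3 A KK d (ρ.comp r) H hspan' htw' hTS
  refine ⟨H, k, Φ, hH, fun α hα x => ?_⟩
  obtain ⟨χ, hχ⟩ := hΦ α hα
  refine hsc (r (x⁻¹ * α.1 x)) ⟨χ x, ?_⟩
  have e8 := hχ x
  change (ρ (r (α.1 x))).1 = (χ x : KK) • (ρ (r x)).1 at e8
  rw [map_mul, map_mul, Units.val_mul, e8, Matrix.mul_smul, ← Units.val_mul, ← map_mul,
    ← map_mul, inv_mul_cancel, map_one, map_one, Units.val_one]

theorem pAll (h1 : Pool.Agent.Lib.MP_97567f_al.SInd) (h2 : Pool.Agent.Lib.MP_97567f_al.SBlk)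
    (h3 : SAdj) (h4 : Pool.Agent.Lib.MP_97567f_al.SAb) : SAll := by
  intro A _ hFG m B _ i r hF hG hz
  have key := fun c => All_key h3 A hFG (B c) (i c) (r c) (hF c) (hG c)
  choose H k Φ hH hΦ using key
  obtain ⟨n, S, hS⟩ : ∃ (n : ℕ) (S : Fin n → A), Subgroup.closure (Set.range S) = ⊤ := by
    obtain ⟨T, hT⟩ := hFG.out
    refine ⟨T.card, fun j => (T.equivFin.symm j).1, ?_⟩
    rw [← hT]
    congr 1
    ext y
    constructor
    · rintro ⟨j, rfl⟩
      exact (T.equivFin.symm j).2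
    · intro hy
      exact ⟨T.equivFin ⟨y, hy⟩, by simp⟩
  obtain ⟨r₀, Ψ, hΨ⟩ := h4 A KK n S hS
  have hfin : (⨅ c, H c).FiniteIndex := Subgroup.finiteIndex_iInf hH
  refine h1 KK (MulAut A) (⨅ c, H c) hfin ?_
  refine h2 KK (⨅ c, H c : Subgroup (MulAut A)) (m + 1) (Fin.cons r₀ k)
    (fun c => Fin.cases (motive := fun c => (⨅ c, H c : Subgroup (MulAut A)) →*
      GL (Fin ((Fin.cons r₀ k : Fin (m + 1) → ℕ) c)) KK)
      (Ψ.comp (⨅ c, H c : Subgroup (MulAut A)).subtype)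
      (fun c => (Φ c).comp (Subgroup.inclusion (iInf_le H c))) c) ?_
  intro α hα
  apply Subtype.ext
  apply MulEquiv.ext
  intro x
  have e1 : ∀ c b, r c (x⁻¹ * α.1 x) * b = b * r c (x⁻¹ * α.1 x) := fun c =>
    hΦ c (Subgroup.inclusion (iInf_le H c) α) (hα c.succ) x
  have e2 : ∀ φ : A →* Multiplicative KK, φ (x⁻¹ * α.1 x) = 1 := by
    intro φ
    rw [map_mul, hΨ α.1 (hα 0) φ x, ← map_mul, inv_mul_cancel, map_one]
  have e3 : ∀ c, r c (x⁻¹ * α.1 x) = 1 := by
    intro c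
    refine (hG c).ab _ (e1 c) fun φ => ?_
    have e4 := e2 (((Int.castAddHom KK).toMultiplicative.comp φ).comp (r c))
    change Multiplicative.ofAdd ((Multiplicative.toAdd (φ (r c (x⁻¹ * α.1 x))) : ℤ) : KK) = 1
      at e4
    rw [ofAdd_eq_one, Int.cast_eq_zero] at e4
    exact Multiplicative.toAdd.injective e4
  have e5 := hz _ e3
  exact (inv_mul_eq_one.1 e5).symm

end Pool.Agent.Lib.MP_97567f_al.U
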