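import Pool.Agent.Lib.MP_97567f_al.U.SpecM

/-!
# MP_97567f_al: the component of the representation (general form)
-/

set_option autoImplicit false

namespace Pool.Agent.Lib.MP_97567f_al.U

open Polynomial

private theorem Ca_mat {ι F : Type} [Fintype ι] [DecidableEq ι] [Field F] (σ : F →+* F)
    (c d : Fˣ) (g : GL ι F) (A B P Q : Matrix ι ι F)
    (hP : P = (c : F) • (g.1 * A * (g⁻¹).1)) (hQ : Q = (d : F) • (g.1 * B * (g⁻¹).1))
    (h : P = Q.map σ) :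
    A = ((Units.map (σ : F →* F) d * c⁻¹ : Fˣ) : F) •
      ((g⁻¹ * Matrix.GeneralLinearGroup.map σ g).1 * B.map σ *
        ((g⁻¹ * Matrix.GeneralLinearGroup.map σ g)⁻¹).1) := by
  have e1 : Q.map σ = σ (d : F) • ((Matrix.GeneralLinearGroup.map σ g).1 * B.map σ *
      ((Matrix.GeneralLinearGroup.map σ g)⁻¹).1) := by
    rw [hQ, ← map_inv]
    have e2 : (Matrix.GeneralLinearGroup.map σ g).1 = g.1.map σ := rfl
    have e3 : (Matrix.GeneralLinearGroup.map σ g⁻¹).1 = (g⁻¹).1.map σ := rfl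
    rw [e2, e3, ← Matrix.map_mul, ← Matrix.map_mul]
    ext i k
    simp only [Matrix.map_apply, Matrix.smul_apply, smul_eq_mul, map_mul]
  have e4 : (c : F) • (g.1 * A * (g⁻¹).1) = σ (d : F) • ((Matrix.GeneralLinearGroup.map σ g).1 *
      B.map σ * ((Matrix.GeneralLinearGroup.map σ g)⁻¹).1) := by rw [← hP, h, e1]
  have e5 : g.1 * A * (g⁻¹).1 = ((c⁻¹ : Fˣ) : F) • (σ (d : F) •
      ((Matrix.GeneralLinearGroup.map σ g).1 * B.map σ *
        ((Matrix.GeneralLinearGroup.map σ g)⁻¹).1)) := by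
    rw [← e4, smul_smul, Units.inv_mul, one_smul]
  have e6 : (g⁻¹).1 * g.1 = 1 := by rw [← Units.val_mul, inv_mul_cancel, Units.val_one]
  have e7 : A = (g⁻¹).1 * (g.1 * A * (g⁻¹).1) * g.1 := by
    have : (g⁻¹).1 * (g.1 * A * (g⁻¹).1) * g.1 = ((g⁻¹).1 * g.1) * A * ((g⁻¹).1 * g.1) := by
      simp only [Matrix.mul_assoc]
    rw [this, e6, Matrix.one_mul, Matrix.mul_one]
  rw [e7, e5, mul_inv_rev, inv_inv, Units.val_mul, Units.val_mul, Units.val_mul, Units.coe_map,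
    smul_smul, mul_comm ((c⁻¹ : Fˣ) : F)]
  simp only [Matrix.mul_smul, Matrix.smul_mul, Matrix.mul_assoc]
  rfl

/-- **The component of the representation.** -/
theorem pCa (h1 : Pool.Agent.Lib.MP_97567f_al.SComp) : SCa := by
  intro A _ hA R _ _ _ ι _ _ ρ hgen hrig
  obtain ⟨F, iF, iA, iC, O, j, ρ', H, hH, hj, hc, hρ, hσ⟩ := h1 A hA ι R ρ hgen
  obtain ⟨ψ, χ, g, hψ, hx⟩ := hrig F O j ρ' hj hc hρ
  have hinj : Function.Injective ψ := by
    rw [injective_iff_map_eq_zero]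
    intro r hr
    obtain ⟨h, hh⟩ := hψ r
    have h0 : (⟨ψ r, h⟩ : O) = 0 := Subtype.ext hr
    rw [h0, map_zero] at hh
    apply hj
    rw [← hh, map_zero]
  refine ⟨F, iF, iC, ψ, H, hinj, hH, fun α hα => ?_⟩
  obtain ⟨σ, hσ'⟩ := hσ α hα
  refine ⟨(σ : F →ₐ[ℂ] F).comp ψ, (Units.map ((σ : F →+* F) : F →* F)).comp χ *
    (χ.comp α.toMonoidHom)⁻¹, g⁻¹ * Matrix.GeneralLinearGroup.map (σ : F →+* F) g,
    σ.injective.comp hinj, fun x => ?_⟩
  have e1 : (ρ x).1.map ((σ : F →ₐ[ℂ] F).comp ψ) = ((ρ x).1.map ψ).map (σ : F →+* F) := rfl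
  rw [e1]
  exact Ca_mat (σ : F →+* F) (χ (α x)) (χ x) g _ _ _ _ (hx (α x)) (hx x) (hσ' x)

end Pool.Agent.Lib.MP_97567f_al.U
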