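import Pool.Agent.Lib.MP_97567f_al.U.SpecM

/-!
# MP_97567f_al: the parameters are units (general form)
-/

set_option autoImplicit false

namespace Pool.Agent.Lib.MP_97567f_al.U

open Polynomial

/-- Characteristic polynomial of a multiple. -/
private theorem Cb_scale {F : Type} [Field F] [Infinite F] {ι : Type} [Fintype ι] [DecidableEq ι]
    (N : Matrix ι ι F) (c : F) (hc : c ≠ 0) {k : ℕ} (w : Fin k → F) (m : Fin k → ℕ)
    (h : N.charpoly = ∏ j, (X - C (w j)) ^ m j) :
    (c • N).charpoly = ∏ j, (X - C (c * w j)) ^ m j := by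
  have hdeg : Fintype.card ι = ∑ j, m j := by
    have h1 := N.charpoly_natDegree_eq_dim
    rw [h] at h1
    rw [← h1, natDegree_prod_of_monic _ _ (fun j _ => (monic_X_sub_C _).pow _)]
    apply Finset.sum_congr rfl
    intro j _
    rw [(monic_X_sub_C (w j)).natDegree_pow, natDegree_X_sub_C, mul_one]
  apply Polynomial.funext
  intro t
  rw [Matrix.eval_charpoly]
  have h2 : Matrix.scalar ι t - c • N = c • (Matrix.scalar ι (t / c) - N) := by
    rw [smul_sub]
    congr 1
    ext i j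
    simp only [Matrix.scalar_apply, Matrix.smul_apply, Matrix.diagonal_apply, smul_eq_mul]
    split_ifs
    · field_simp
    · simp
  rw [h2, Matrix.det_smul, ← Matrix.eval_charpoly, h, hdeg, ← Finset.prod_pow_eq_pow_sum,
    eval_prod, eval_prod, ← Finset.prod_mul_distrib]
  apply Finset.prod_congr rfl
  intro j _
  rw [eval_pow, eval_pow, eval_sub, eval_sub, eval_X, eval_X, eval_C, eval_C, ← mul_pow]
  congr 1
  field_simp

private theorem Cb_conj {F : Type} [Field F] {ι : Type} [Fintype ι] [DecidableEq ι] (g : GL ι F)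
    (N : Matrix ι ι F) : (g.1 * N * (g⁻¹).1).charpoly = N.charpoly := by
  rw [Matrix.coe_units_inv]
  exact Matrix.charpoly_units_conj g N

/-- The roots are images of units. -/
private theorem Cb_roots (h1 : SRtm) {R : Type} [CommRing R] [IsDomain R] [IsIntegrallyClosed R]
    [Algebra ℂ R] {F : Type} [Field F] [Algebra ℂ F] (ψ : R →ₐ[ℂ] F) (hψ : Function.Injective ψ)
    (P : R[X]) (hm : P.Monic) (hP : IsUnit (P.coeff 0)) {k : ℕ} (w : Fin k → F) (m : Fin k → ℕ)
    (hw : Function.Injective w) (hmi : Function.Injective m) (hm0 : ∀ j, 0 < m j)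
    (h : P.map (ψ : R →+* F) = ∏ j, (X - C (w j)) ^ m j) :
    ∃ r : Fin k → R, ∀ j, IsUnit (r j) ∧ ψ (r j) = w j := by
  let _ : Algebra (FractionRing R) F := (IsFractionRing.lift (A := R) (K := FractionRing R)
    (L := F) (g := (ψ : R →+* F)) hψ).toAlgebra
  have hal : ∀ r : R, algebraMap (FractionRing R) F (algebraMap R (FractionRing R) r) = ψ r :=
    fun r => IsFractionRing.lift_algebraMap (A := R) (K := FractionRing R) (L := F)
      (g := (ψ : R →+* F)) hψ r
  have hcomp : (algebraMap (FractionRing R) F).comp (algebraMap R (FractionRing R)) =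
      (ψ : R →+* F) := RingHom.ext hal
  have hinj : Function.Injective (algebraMap (FractionRing R) F) :=
    (algebraMap (FractionRing R) F).injective
  have hPm : (P.map (algebraMap R (FractionRing R))).map (algebraMap (FractionRing R) F) =
      ∏ j, (X - C (w j)) ^ m j := by
    rw [Polynomial.map_map, hcomp, h]
  have : CharZero (FractionRing R) := by
    have : CharZero R := charZero_of_injective_algebraMap (R := ℂ) (algebraMap ℂ R).injective
    exact IsFractionRing.charZero_of_isFractionRing R (K := FractionRing R)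
  have hroot := h1 (FractionRing R) F (P.map (algebraMap R (FractionRing R))) k w m hw hmi hm0 hPm
  have key : ∀ j, ∃ r : R, ψ r = w j := by
    intro j
    obtain ⟨w', hw'⟩ := hroot j
    have h3 : IsIntegral R w' := by
      refine ⟨P, hm, ?_⟩
      apply hinj
      rw [map_zero, Polynomial.hom_eval₂, hcomp, hw', ← Polynomial.eval_map, h, eval_prod]
      apply Finset.prod_eq_zero (Finset.mem_univ j)
      rw [eval_pow, eval_sub, eval_X, eval_C, sub_self, zero_pow (Nat.pos_iff_ne_zero.1 (hm0 j))]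
    obtain ⟨r, hr⟩ := (IsIntegrallyClosed.isIntegral_iff (R := R) (K := FractionRing R)).1 h3
    exact ⟨r, by rw [← hal, hr, hw']⟩
  choose r hr using key
  have h4 : P.coeff 0 = ∏ j, (-r j) ^ m j := by
    apply hψ
    have h5 := congrArg (fun p : F[X] => p.coeff 0) h
    simp only [coeff_map] at h5
    change ψ (P.coeff 0) = _ at h5
    rw [h5, coeff_zero_eq_eval_zero, eval_prod, map_prod]
    apply Finset.prod_congr rfl
    intro j _
    rw [eval_pow, eval_sub, eval_X, eval_C, zero_sub, map_pow, map_neg, hr]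
  rw [h4] at hP
  refine ⟨r, fun j => ⟨?_, hr j⟩⟩
  have h6 : IsUnit ((-r j) ^ m j) :=
    isUnit_of_dvd_unit (Finset.dvd_prod_of_mem (fun j => (-r j) ^ m j) (Finset.mem_univ j)) hP
  rw [isUnit_pow_iff (Nat.pos_iff_ne_zero.1 (hm0 j))] at h6
  exact (IsUnit.neg_iff _).1 h6

/-- **The parameters are units of `R`.** -/
theorem pCb (h1 : SRtm) : SCb := by
  intro A _ R _ _ _ _ ι _ _ ρ hE F _ _ ψ ψ' hψ hψ' f χ g hg
  obtain ⟨S, hS, hSe, hgen⟩ := hE
  have : Infinite F := Infinite.of_injective _ (algebraMap ℂ F).injective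
  have hdet : ∀ x : A, IsUnit (ρ x).1.det := fun x =>
    (Matrix.isUnit_iff_isUnit_det _).1 (ρ x).isUnit
  -- one element of `S`
  have hone : ∀ s ∈ S, ∃ y : R, IsUnit y ∧ ψ y = χ s ∧
      ∀ v : R, (ρ s).1.charpoly.IsRoot v → ∃ z : R, IsUnit z ∧ ψ z = ψ' v := by
    intro s hs
    obtain ⟨k, u, m, hu, huinj, hminj, hmpos, ⟨j0, hj0⟩, hch⟩ := hSe s hs
    have hc : (χ s : F) ≠ 0 := (χ s).ne_zero
    have e1 : ((ρ s).1.map ψ').charpoly = ∏ j, (X - C (ψ' (u j))) ^ m j := by
      have h3 := Matrix.charpoly_map (ρ s).1 (ψ' : R →+* F)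
      have h4 : (ρ s).1.map ψ' = (ρ s).1.map (ψ' : R →+* F) := rfl
      rw [h4, h3, hch, Polynomial.map_prod]
      apply Finset.prod_congr rfl
      intro j _
      rw [Polynomial.map_pow, Polynomial.map_sub, map_X, map_C]
      rfl
    have e2 : ((χ s : F) • (g.1 * (ρ s).1.map ψ' * (g⁻¹).1)).charpoly =
        ∏ j, (X - C ((χ s : F) * ψ' (u j))) ^ m j :=
      Cb_scale _ _ hc _ m ((Cb_conj g _).trans e1)
    have e3 : (ρ (f s)).1.charpoly.map (ψ : R →+* F) =
        ∏ j, (X - C ((χ s : F) * ψ' (u j))) ^ m j := by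
      rw [← e2, ← hg, ← Matrix.charpoly_map]
      rfl
    obtain ⟨r, hr⟩ := Cb_roots h1 ψ hψ _ (Matrix.charpoly_monic _) (by
        have h5 := hdet (f s)
        rw [Matrix.det_eq_sign_charpoly_coeff] at h5
        exact isUnit_of_mul_isUnit_right h5) (fun j => (χ s : F) * ψ' (u j)) m (by
        intro i j hij
        exact huinj (hψ' (mul_left_cancel₀ hc hij))) hminj hmpos e3
    have hy : ψ (r j0) = χ s := by
      rw [(hr j0).2, hj0, map_one, mul_one]
    refine ⟨r j0, (hr j0).1, hy, ?_⟩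
    intro v hv
    have h6 : ∃ j, v = u j := by
      rw [hch, IsRoot, eval_prod, Finset.prod_eq_zero_iff] at hv
      obtain ⟨j, -, hj⟩ := hv
      refine ⟨j, ?_⟩
      rw [eval_pow, eval_sub, eval_X, eval_C] at hj
      exact sub_eq_zero.1 (pow_eq_zero_iff (Nat.pos_iff_ne_zero.1 (hmpos j)) |>.1 hj)
    obtain ⟨j, rfl⟩ := h6
    obtain ⟨y', hy'⟩ := (hr j0).1
    refine ⟨r j * ↑y'⁻¹, (hr j).1.mul (Units.isUnit _), ?_⟩
    have h7 : ψ (↑y'⁻¹ : R) = (χ s : F)⁻¹ := by
      rw [← hy, ← hy']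
      apply eq_inv_of_mul_eq_one_left
      rw [← map_mul, Units.inv_mul, map_one]
    rw [map_mul, (hr j).2, h7]
    field_simp
  -- the character
  let Ψ : Rˣ →* Fˣ := Units.map ((ψ : R →+* F) : R →* F)
  have hΨ : Function.Injective Ψ := by
    intro u v huv
    apply Units.ext
    apply hψ
    exact congrArg Units.val huv
  have hran : ∀ x, χ x ∈ Ψ.range := by
    intro x
    have hx : x ∈ Subgroup.closure S := by rw [hS]; trivial
    have hle : Subgroup.closure S ≤ Ψ.range.comap χ := by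
      rw [Subgroup.closure_le]
      intro s hs
      obtain ⟨y, hy, hy', -⟩ := hone s hs
      exact ⟨hy.unit, Units.ext hy'⟩
    exact hle hx
  let χ' : A →* Rˣ :=
    (MonoidHom.ofInjective hΨ).symm.toMonoidHom.comp (χ.codRestrict Ψ.range hran)
  have hχ' : ∀ x, Ψ (χ' x) = χ x := by
    intro x
    have h5 : (MonoidHom.ofInjective hΨ) (χ' x) = χ.codRestrict Ψ.range hran x :=
      (MonoidHom.ofInjective hΨ).apply_symm_apply _
    exact congrArg Subtype.val h5
  -- the parameters
  have hran' : ∀ r : R, ψ' r ∈ ψ.range := by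
    have hle : Algebra.adjoin ℂ {v : R | ∃ w, v * w = 1 ∧ ∃ s ∈ S, (ρ s).1.charpoly.IsRoot v ∨
        (ρ s).1.charpoly.IsRoot w} ≤ ψ.range.comap ψ' := by
      rw [Algebra.adjoin_le_iff]
      rintro v ⟨w, hvw, s, hs, hv⟩
      obtain ⟨y, -, -, hroot⟩ := hone s hs
      rcases hv with hv | hw
      · obtain ⟨z, -, hz⟩ := hroot v hv
        exact ⟨z, hz⟩
      · obtain ⟨z, ⟨z', rfl⟩, hz⟩ := hroot w hw
        refine ⟨(↑z'⁻¹ : R), ?_⟩
        change ψ (↑z'⁻¹ : R) = ψ' v
        have h8 : ψ' v * ψ' w = 1 := by rw [← map_mul, hvw, map_one]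
        have h9 : ψ (↑z'⁻¹ : R) * ψ' w = 1 := by rw [← hz, ← map_mul, Units.inv_mul, map_one]
        have h10 : ψ' w ≠ 0 := by
          intro h
          rw [h, mul_zero] at h8
          exact zero_ne_one h8
        exact mul_right_cancel₀ h10 (h9.trans h8.symm)
    intro r
    have hr : r ∈ Algebra.adjoin ℂ {v : R | ∃ w, v * w = 1 ∧ ∃ s ∈ S,
        (ρ s).1.charpoly.IsRoot v ∨ (ρ s).1.charpoly.IsRoot w} := by
      rw [hgen]; trivial
    exact hle hr
  let θ : R →ₐ[ℂ] R := ((AlgEquiv.ofInjective ψ hψ).symm : ψ.range →ₐ[ℂ] R).comp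
    (ψ'.codRestrict ψ.range hran')
  have hθ : ∀ r, ψ (θ r) = ψ' r := by
    intro r
    have h5 : (AlgEquiv.ofInjective ψ hψ) (θ r) = ψ'.codRestrict ψ.range hran' r :=
      (AlgEquiv.ofInjective ψ hψ).apply_symm_apply _
    exact congrArg Subtype.val h5
  refine ⟨θ, χ', ?_, hθ, ?_⟩
  · intro r t hrt
    apply hψ'
    rw [← hθ, ← hθ, hrt]
  · intro x
    exact congrArg Units.val (hχ' x)

end Pool.Agent.Lib.MP_97567f_al.U
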