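import Pool.Agent.Lib.MP_97567f_al.U.SpecM

/-!
# MP_97567f_al: all finite types: existence of the twist
-/

set_option autoImplicit false

namespace Pool.Agent.Lib.MP_97567f_al.U

/-- **Existence of the twist.** -/
theorem pCc (h1 : SCa) (h2 : SCb) (h3 : Pool.Agent.Lib.MP_97567f_al.SDesc) : SCc := by
  intro A _ hA R _ _ _ _ ι _ _ ρ hρ
  obtain ⟨F, hF, hAF, ψ, H, hψ, hH, hα⟩ := h1 A hA R ι ρ hρ.gen hρ.rig
  refine ⟨H, hH, fun α hαH => ?_⟩
  obtain ⟨ψ', χ, g, hψ', hx⟩ := hα α hαH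
  obtain ⟨θ, χ', hθ, hψθ, hχ⟩ := h2 A R ι ρ hρ.eig F ψ ψ' hψ hψ' α.toMonoidHom χ g hx
  refine ⟨θ, hθ, ?_⟩
  let Ψ : FractionRing R →+* F := IsFractionRing.lift (A := R) (g := (ψ : R →+* F)) hψ
  have hΨ : ∀ r : R, Ψ (algebraMap R (FractionRing R) r) = ψ r := fun r =>
    IsFractionRing.lift_algebraMap (A := R) (g := (ψ : R →+* F)) hψ r
  let _ : Algebra (FractionRing R) F := Ψ.toAlgebra
  have hAm : algebraMap (FractionRing R) F = Ψ := rfl
  have hinf : Infinite (FractionRing R) :=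
    Infinite.of_injective (algebraMap ℂ (FractionRing R)) (algebraMap ℂ (FractionRing R)).injective
  have e1 : ∀ y : A, (mK ρ y).map Ψ = (ρ y).1.map ψ := by
    intro y
    ext i j
    exact hΨ _
  have e2 : ∀ y : A, (((ρ y).1.map θ).map (algebraMap R (FractionRing R))).map Ψ =
      (ρ y).1.map ψ' := by
    intro y
    ext i j
    exact (hΨ _).trans (hψθ _)
  obtain ⟨h, hh⟩ := h3 (FractionRing R) F ι A (fun x => mK ρ (α x))
    (fun x => (algebraMap R (FractionRing R) (χ' x : R)) •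
      ((ρ x).1.map θ).map (algebraMap R (FractionRing R))) g (by
      intro x
      have e3 : ((algebraMap R (FractionRing R) (χ' x : R)) •
          ((ρ x).1.map θ).map (algebraMap R (FractionRing R))).map
            (algebraMap (FractionRing R) F) = (χ x : F) • (ρ x).1.map ψ' := by
        rw [← e2 x]
        ext i j
        simp only [Matrix.map_apply, Matrix.smul_apply, smul_eq_mul, map_mul]
        rw [hAm, hΨ, hχ]
      have hx' : (ρ (α x)).1.map ψ = (χ x : F) • (g.1 * (ρ x).1.map ψ' * (g⁻¹).1) := hx x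
      rw [e3, hAm, e1, hx']
      have hg : (g⁻¹).1 * g.1 = 1 := by
        rw [← Units.val_mul, inv_mul_cancel, Units.val_one]
      rw [smul_mul_assoc, mul_assoc, hg, mul_one, mul_smul_comm])
  refine ⟨χ', h, fun x => ?_⟩
  have h5 := hh x
  have hg : h.1 * (h⁻¹).1 = 1 := by
    rw [← Units.val_mul, mul_inv_cancel, Units.val_one]
  calc mK ρ (α.toMonoidHom x) = mK ρ (α x) * h.1 * (h⁻¹).1 := by
        rw [mul_assoc, hg, mul_one]
        rfl
    _ = _ := by
        rw [h5, mul_smul_comm, smul_mul_assoc]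

end Pool.Agent.Lib.MP_97567f_al.U
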