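import Pool.Agent.Lib.MP_97567f_al.U.SpecM
import Pool.Agent.Lib.MP_97567f_al.Cls
import Pool.Agent.Lib.MP_97567f_al.Pos

/-!
# MP_97567f_al: all finite types: the classification
-/

set_option autoImplicit false

namespace Pool.Agent.Lib.MP_97567f_al.U

/-- **Classification.** -/
theorem pCls : SCls := by
  intro n M hf hc hn
  have hmem : ∀ x, x ∈ cm M ⟨0, hn⟩ := fun x => mem_cm.2 (hc _ _)
  have ren : ∀ {k : ℕ} (N : CoxeterMatrix (Fin k)) (e : Fin k ≃ {i // i ∈ cm M ⟨0, hn⟩}),
      (∀ i j, M.M (e i) (e j) = N.M i j) → Ren M N := by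
    intro k N e he
    exact ⟨e.trans (Equiv.subtypeUnivEquiv hmem), fun i j => he i j⟩
  rcases cls M hf ⟨0, hn⟩ with h | ⟨m, hm, e, he⟩ | ⟨k, hk, e, he⟩ | ⟨e, he⟩ | ⟨e, he⟩ | ⟨e, he⟩
  · have h23 : ∀ i j, i ≠ j → M.M i j = 2 ∨ M.M i j = 3 :=
      fun i j hij => h i (hmem i) j (hmem j) hij
    by_cases h1 : n = 1
    · exact Or.inl h1
    by_cases h2 : n = 2
    · subst h2
      refine Or.inr (Or.inl ⟨1, le_rfl, Equiv.refl _, fun i j => ?_⟩)
      have h3 : M.M 0 1 = 3 := by
        refine (h23 0 1 (by decide)).resolve_left fun h4 => ?_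
        have h5 : ∀ x : Fin 2, Relation.ReflTransGen (lnk M) 0 x → x = 0 := by
          intro x hx
          induction hx with
          | refl => rfl
          | tail _ h ih =>
            rename_i b c _
            subst ih
            by_contra hc0
            have : c = 1 := by omega
            subst this
            exact h.2 h4
        exact absurd (h5 1 (hc 0 1)) (by decide)
      change M.M i j = if i = j then 1 else 1 + 2
      fin_cases i <;> fin_cases j
      · exact M.diagonal 0
      · exact h3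
      · exact (M.symmetric 1 0).trans h3
      · exact M.diagonal 1
    · exact Or.inr (Or.inr (Or.inl ⟨by omega, pPos n M h23 hf⟩))
  · refine Or.inr (Or.inl ⟨m - 2, by omega, ren _ e fun i j => ?_⟩)
    rw [he]
    change _ = if i = j then 1 else m - 2 + 2
    rw [Nat.sub_add_cancel (by omega)]
  · have hkn : k = n := by
      have := Fintype.card_congr (e.trans (Equiv.subtypeUnivEquiv hmem))
      rwa [Fintype.card_fin, Fintype.card_fin] at this
    subst hkn
    exact Or.inr (Or.inr (Or.inr (Or.inl ⟨hk, ren _ e he⟩)))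
  · exact Or.inr (Or.inr (Or.inr (Or.inr (Or.inl (ren _ e he)))))
  · exact Or.inr (Or.inr (Or.inr (Or.inr (Or.inr (Or.inl (ren _ e he))))))
  · exact Or.inr (Or.inr (Or.inr (Or.inr (Or.inr (Or.inr (ren _ e he))))))

end Pool.Agent.Lib.MP_97567f_al.U
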