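import Pool.Agent.Lib.MP_97567f_al.U.SpecM

/-!
# MP_97567f_al: components of a Coxeter matrix and factors of the Artin group
-/

set_option autoImplicit false

namespace Pool.Agent.Lib.MP_97567f_al.U

variable {n : ℕ} {M : CoxeterMatrix (Fin n)}

private theorem Cms_lsymm {i j : Fin n} (h : lnk M i j) : lnk M j i :=
  ⟨h.1.symm, by rw [show M.M j i = M.M i j from M.symmetric j i]; exact h.2⟩

private theorem Cms_rsymm {i j : Fin n} (h : Relation.ReflTransGen (lnk M) i j) :
    Relation.ReflTransGen (lnk M) j i := by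
  induction h with
  | refl => exact Relation.ReflTransGen.refl
  | tail _ h ih => exact Relation.ReflTransGen.head (Cms_lsymm h) ih

open Classical in
private noncomputable def Cms_C (M : CoxeterMatrix (Fin n)) (s : Fin n) : Finset (Fin n) :=
  Finset.univ.filter fun t => Relation.ReflTransGen (lnk M) s t

private theorem Cms_mem {s t : Fin n} : t ∈ Cms_C M s ↔ Relation.ReflTransGen (lnk M) s t := by
  unfold Cms_C
  simp

private def Cms_sat (M : CoxeterMatrix (Fin n)) (U : Finset (Fin n)) : Prop :=
  ∀ i ∈ U, ∀ j, lnk M i j → j ∈ U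

private theorem Cms_Csat (s : Fin n) : Cms_sat M (Cms_C M s) := by
  intro i hi j hij
  rw [Cms_mem] at hi ⊢
  exact hi.tail hij

private theorem Cms_self (s : Fin n) : s ∈ Cms_C M s := Cms_mem.2 Relation.ReflTransGen.refl

private theorem Cms_two {U : Finset (Fin n)} (hU : Cms_sat M U) {i j : Fin n} (hi : i ∈ U)
    (hj : j ∉ U) : M.M i j = 2 := by
  by_contra h
  exact hj (hU i hi j ⟨fun h' => hj (h' ▸ hi), h⟩)

private theorem Cms_two' {U : Finset (Fin n)} (hU : Cms_sat M U) {i j : Fin n} (hi : i ∉ U)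
    (hj : j ∈ U) : M.M i j = 2 := by
  rw [show M.M i j = M.M j i from M.symmetric i j]
  exact Cms_two hU hj hi

private theorem Cms_alt2 {G : Type} [Monoid G] (a b : G) : alt a b 2 = a * b := by
  simp [alt, List.range_succ]

private theorem Cms_alt1 {G : Type} [Monoid G] (m : ℕ) : alt (1 : G) 1 m = 1 := by
  unfold alt
  simp

private theorem Cms_alt_if {G : Type} [Group G] {U : Finset (Fin n)} (hU : Cms_sat M U)
    (f : Fin n → G) (h0 : ∀ i, i ∉ U → f i = 1)
    (h : ∀ i ∈ U, ∀ j ∈ U, alt (f i) (f j) (M.M i j) = alt (f j) (f i) (M.M i j)) (i j : Fin n) :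
    alt (f i) (f j) (M.M i j) = alt (f j) (f i) (M.M i j) := by
  by_cases hi : i ∈ U
  · by_cases hj : j ∈ U
    · exact h i hi j hj
    · rw [Cms_two hU hi hj, h0 j hj, Cms_alt2, Cms_alt2, mul_one, one_mul]
  · by_cases hj : j ∈ U
    · rw [Cms_two' hU hi hj, h0 i hi, Cms_alt2, Cms_alt2, mul_one, one_mul]
    · rw [h0 i hi, h0 j hj]

/-- Commuting on the generators. -/
private theorem Cms_comm {G : Type} [Group G] {m : ℕ} {N : CoxeterMatrix (Fin m)}
    (φ : Art N →* G) (g : G) (h : ∀ j, Commute g (φ (gn N j))) (y : Art N) : Commute g (φ y) := by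
  induction y using art_induction with
  | h1 => rw [map_one]; exact Commute.one_right g
  | hg i x ih => rw [map_mul]; exact (h i).mul_right ih
  | hi i x ih => rw [map_mul, map_inv]; exact (h i).inv_right.mul_right ih

private theorem Cms_gcomm (h1 : SArt) {U : Finset (Fin n)} (hU : Cms_sat M U) {i j : Fin n}
    (hi : i ∉ U) (hj : j ∈ U) : Commute (gn M i) (gn M j) := by
  have h := (h1 n M).1 i j
  rw [Cms_two' hU hi hj, Cms_alt2, Cms_alt2] at h
  exact h

/-- The endomorphism which kills the generators outside of `U`. -/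
private theorem Cms_r (h1 : SArt) {U : Finset (Fin n)} (hU : Cms_sat M U) :
    ∃ φ : Art M →* Art M, ∀ j, φ (gn M j) = if j ∈ U then gn M j else 1 := by
  refine (h1 n M).2.1 _ _ (Cms_alt_if hU _ (fun i hi => if_neg hi) ?_)
  intro i hi j hj
  rw [if_pos hi, if_pos hj]
  exact (h1 n M).1 i j

private theorem Cms_mul (h1 : SArt) {U C V : Finset (Fin n)} (hC : Cms_sat M C)
    (hUCV : ∀ i, i ∈ U ↔ i ∈ C ∨ i ∈ V) (hCV : ∀ i ∈ V, i ∉ C)
    (φ ψ φ' : Art M →* Art M) (hφ : ∀ j, φ (gn M j) = if j ∈ U then gn M j else 1)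
    (hψ : ∀ j, ψ (gn M j) = if j ∈ C then gn M j else 1)
    (hφ' : ∀ j, φ' (gn M j) = if j ∈ V then gn M j else 1) (z : Art M) :
    φ z = ψ z * φ' z := by
  have hc : ∀ x y, Commute (ψ x) (φ' y) := by
    intro x y
    refine Cms_comm φ' _ (fun j => ?_) y
    rw [hφ' j]
    split_ifs with hj
    · refine (Cms_comm ψ _ (fun i => ?_) x).symm
      rw [hψ i]
      split_ifs with hi
      · exact Cms_gcomm h1 hC (hCV j hj) hi
      · exact Commute.one_right _
    · exact Commute.one_right _
  let F : Art M →* Art M :=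
    { toFun := fun x => ψ x * φ' x
      map_one' := by rw [map_one, map_one, one_mul]
      map_mul' := by
        intro x y
        rw [map_mul, map_mul]
        have := hc y x
        calc ψ x * ψ y * (φ' x * φ' y) = ψ x * (ψ y * φ' x) * φ' y := by group
          _ = ψ x * (φ' x * ψ y) * φ' y := by rw [this.eq]
          _ = ψ x * φ' x * (ψ y * φ' y) := by group }
  have hF : φ = F := by
    refine art_ext fun i => ?_
    show φ (gn M i) = ψ (gn M i) * φ' (gn M i)
    rw [hφ, hψ, hφ']
    by_cases hi : i ∈ C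
    · rw [if_pos ((hUCV i).2 (Or.inl hi)), if_pos hi, if_neg (fun h => hCV i h hi), mul_one]
    · by_cases hi' : i ∈ V
      · rw [if_pos ((hUCV i).2 (Or.inr hi')), if_neg hi, if_pos hi', one_mul]
      · rw [if_neg (fun h => ((hUCV i).1 h).elim hi hi'), if_neg hi, if_neg hi', one_mul]
  rw [hF]
  rfl

private theorem Cms_inj (h1 : SArt) (z : Art M)
    (hz : ∀ s, ∀ ψ : Art M →* Art M, (∀ j, ψ (gn M j) = if j ∈ Cms_C M s then gn M j else 1) →
      ψ z = 1) : ∀ (m : ℕ) (U : Finset (Fin n)), U.card ≤ m → Cms_sat M U →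
      ∀ φ : Art M →* Art M, (∀ j, φ (gn M j) = if j ∈ U then gn M j else 1) → φ z = 1 := by
  intro m
  induction m with
  | zero =>
    intro U hU _ φ hφ
    have hU0 : U = ∅ := Finset.card_eq_zero.1 (Nat.le_zero.1 hU)
    have : φ = 1 := art_ext fun i => by
      rw [hφ, hU0, if_neg (Finset.notMem_empty i)]
      rfl
    rw [this]
    rfl
  | succ m ih =>
    intro U hU hsat φ hφ
    rcases U.eq_empty_or_nonempty with rfl | ⟨s, hs⟩
    · exact ih ∅ (by simp) hsat φ hφ
    · have hCU : ∀ i, i ∈ Cms_C M s → i ∈ U := by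
        intro i hi
        rw [Cms_mem] at hi
        induction hi with
        | refl => exact hs
        | tail _ h ih' => exact hsat _ ih' _ h
      have hV : Cms_sat M (U \ Cms_C M s) := by
        intro i hi j hij
        rw [Finset.mem_sdiff] at hi ⊢
        refine ⟨hsat i hi.1 j hij, fun hj => hi.2 (Cms_Csat s j hj i (Cms_lsymm hij))⟩
      obtain ⟨ψ, hψ⟩ := Cms_r h1 (Cms_Csat (M := M) s)
      obtain ⟨φ', hφ'⟩ := Cms_r h1 hV
      have hcard : (U \ Cms_C M s).card ≤ m := by
        have h3 : (U \ Cms_C M s).card < U.card := by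
          refine Finset.card_lt_card ⟨Finset.sdiff_subset, fun h => ?_⟩
          exact (Finset.mem_sdiff.1 (h hs)).2 (Cms_self s)
        omega
      rw [Cms_mul h1 (U := U) (C := Cms_C M s) (V := U \ Cms_C M s) (Cms_Csat s) ?_ ?_ φ ψ φ' hφ hψ
        hφ' z, hz s ψ hψ, ih _ hcard hV φ' hφ', one_mul]
      · intro i
        rw [Finset.mem_sdiff]
        constructor
        · intro h
          by_cases hi : i ∈ Cms_C M s
          · exact Or.inl hi
          · exact Or.inr ⟨h, hi⟩
        · rintro (h | h)
          · exact hCU i h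
          · exact h.1
      · intro i hi
        exact (Finset.mem_sdiff.1 hi).2

/-- The restriction of the matrix. -/
private def Cms_N (M : CoxeterMatrix (Fin n)) {k : ℕ} {C : Finset (Fin n)} (e : Fin k ≃ C) :
    CoxeterMatrix (Fin k) where
  M := Matrix.of fun i j => M.M (e i) (e j)
  isSymm := by
    ext i j
    simp only [Matrix.transpose_apply, Matrix.of_apply]
    exact M.symmetric _ _
  diagonal i := by
    simp only [Matrix.of_apply]
    exact M.diagonal _
  off_diagonal i j h := by
    simp only [Matrix.of_apply]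
    exact M.off_diagonal _ _ fun h' => h (e.injective (Subtype.ext h'))

private theorem Cms_N_apply {k : ℕ} {C : Finset (Fin n)} (e : Fin k ≃ C) (i j : Fin k) :
    (Cms_N M e).M i j = M.M (e i) (e j) := rfl

private theorem Cms_one (h1 : SArt) (hfin : Finite M.Group) (s : Fin n) :
    ∃ (k : ℕ) (N : CoxeterMatrix (Fin k)) (i : Art N →* Art M) (r : Art M →* Art N), Fac i r ∧
      (∀ z : Art M, r z = 1 → ∀ ψ : Art M →* Art M,
        (∀ j, ψ (gn M j) = if j ∈ Cms_C M s then gn M j else 1) → ψ z = 1) ∧
      Cn N ∧ 0 < k ∧ Finite N.Group := by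
  classical
  set C := Cms_C M s with hCdef
  have hC : Cms_sat M C := Cms_Csat s
  let e : Fin C.card ≃ C := C.equivFin.symm
  let N := Cms_N M e
  have hN : ∀ i j, N.M i j = M.M (e i) (e j) := fun i j => rfl
  obtain ⟨i, hi⟩ := (h1 _ N).2.1 (Art M) (fun a => gn M (e a)) (fun a b => (h1 n M).1 (e a) (e b))
  have hr0 : ∀ a b : Fin n, alt (if h : a ∈ C then gn N (e.symm ⟨a, h⟩) else 1)
      (if h : b ∈ C then gn N (e.symm ⟨b, h⟩) else 1) (M.M a b) =
      alt (if h : b ∈ C then gn N (e.symm ⟨b, h⟩) else 1)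
      (if h : a ∈ C then gn N (e.symm ⟨a, h⟩) else 1) (M.M a b) := by
    refine Cms_alt_if hC (fun a => if h : a ∈ C then gn N (e.symm ⟨a, h⟩) else 1)
      (fun a ha => dif_neg ha) ?_
    intro a ha b hb
    show alt (dite _ _ _) (dite _ _ _) _ = alt (dite _ _ _) (dite _ _ _) _
    rw [dif_pos ha, dif_pos hb]
    have h2 := (h1 _ N).1 (e.symm ⟨a, ha⟩) (e.symm ⟨b, hb⟩)
    rw [hN, Equiv.apply_symm_apply, Equiv.apply_symm_apply] at h2
    exact h2
  obtain ⟨r, hr⟩ := (h1 n M).2.1 (Art N) (fun a => if h : a ∈ C then gn N (e.symm ⟨a, h⟩) else 1) hr0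
  have hri : ∀ b, r (i b) = b := by
    intro b
    have : r.comp i = MonoidHom.id _ := art_ext fun a => by
      show r (i (gn N a)) = gn N a
      rw [hi, hr, dif_pos (e a).2]
      simp
    exact congrArg (fun f : Art N →* Art N => f b) this
  have hcomp : ∀ j, (i.comp r) (gn M j) = if j ∈ C then gn M j else 1 := by
    intro j
    show i (r (gn M j)) = _
    rw [hr]
    by_cases hj : j ∈ C
    · rw [dif_pos hj, if_pos hj, hi, Equiv.apply_symm_apply]
    · rw [dif_neg hj, if_neg hj, map_one]
  have hP : ∀ a b, Commute ((i (r a))⁻¹ * a) (i b) := by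
    intro a
    induction a using art_induction with
    | h1 =>
      intro b
      rw [map_one, map_one, inv_one, one_mul]
      exact Commute.one_left _
    | hg j x ih =>
      intro b
      have h3 := hcomp j
      by_cases hj : j ∈ C
      · rw [if_pos hj] at h3
        have h4 : i (r (gn M j)) = gn M j := h3
        have : (i (r (gn M j * x)))⁻¹ * (gn M j * x) = (i (r x))⁻¹ * x := by
          rw [map_mul, map_mul, h4]
          group
        rw [this]
        exact ih b
      · rw [if_neg hj] at h3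
        have h4 : i (r (gn M j)) = 1 := h3
        have h5 : ∀ b, Commute (gn M j) (i b) := fun b => Cms_comm i _ (fun a => by
          rw [hi]
          exact Cms_gcomm h1 hC hj (e a).2) b
        have : (i (r (gn M j * x)))⁻¹ * (gn M j * x) = gn M j * ((i (r x))⁻¹ * x) := by
          rw [map_mul, map_mul, h4, one_mul]
          have h6 := (h5 (r x)).inv_right
          calc (i (r x))⁻¹ * (gn M j * x) = ((i (r x))⁻¹ * gn M j) * x := by group
            _ = (gn M j * (i (r x))⁻¹) * x := by rw [h6.eq]
            _ = gn M j * ((i (r x))⁻¹ * x) := by group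
        rw [this]
        exact (h5 b).mul_left (ih b)
    | hi j x ih =>
      intro b
      have h3 := hcomp j
      by_cases hj : j ∈ C
      · rw [if_pos hj] at h3
        have h4 : i (r (gn M j)) = gn M j := h3
        have : (i (r ((gn M j)⁻¹ * x)))⁻¹ * ((gn M j)⁻¹ * x) = (i (r x))⁻¹ * x := by
          rw [map_mul, map_mul, map_inv, map_inv, h4]
          group
        rw [this]
        exact ih b
      · rw [if_neg hj] at h3
        have h4 : i (r (gn M j)) = 1 := h3
        have h5 : ∀ b, Commute (gn M j)⁻¹ (i b) := fun b => (Cms_comm i _ (fun a => by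
          rw [hi]
          exact Cms_gcomm h1 hC hj (e a).2) b).inv_left
        have : (i (r ((gn M j)⁻¹ * x)))⁻¹ * ((gn M j)⁻¹ * x) = (gn M j)⁻¹ * ((i (r x))⁻¹ * x) := by
          rw [map_mul, map_mul, map_inv, map_inv, h4, inv_one, one_mul]
          have h6 := (h5 (r x)).inv_right
          calc (i (r x))⁻¹ * ((gn M j)⁻¹ * x) = ((i (r x))⁻¹ * (gn M j)⁻¹) * x := by group
            _ = ((gn M j)⁻¹ * (i (r x))⁻¹) * x := by rw [h6.eq]
            _ = (gn M j)⁻¹ * ((i (r x))⁻¹ * x) := by group
        rw [this]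
        exact (h5 b).mul_left (ih b)
  refine ⟨C.card, N, i, r, ⟨hri, ?_⟩, ?_, ?_, Finset.card_pos.2 ⟨s, Cms_self s⟩, ?_⟩
  · intro a b ha
    have := hP a b
    rw [ha, map_one, inv_one, one_mul] at this
    exact this
  · intro z hz ψ hψ
    have : ψ = i.comp r := art_ext fun j => by rw [hψ, hcomp]
    rw [this]
    show i (r z) = 1
    rw [hz, map_one]
  · have hlift : ∀ t, Relation.ReflTransGen (lnk M) s t → ∀ (ht : t ∈ C),
        Relation.ReflTransGen (lnk N) (e.symm ⟨s, Cms_self s⟩) (e.symm ⟨t, ht⟩) := by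
      intro t h
      induction h with
      | refl => intro _; exact Relation.ReflTransGen.refl
      | @tail b c hsb hbc ih =>
        intro ht
        have hb : b ∈ C := Cms_mem.2 hsb
        refine (ih hb).tail ⟨fun h => hbc.1 ?_, ?_⟩
        · exact congrArg Subtype.val (e.symm.injective h)
        · rw [hN, Equiv.apply_symm_apply, Equiv.apply_symm_apply]
          exact hbc.2
    intro a b
    have h3 : ∀ a : Fin C.card, Relation.ReflTransGen (lnk N) (e.symm ⟨s, Cms_self s⟩) a := by
      intro a
      have := hlift (e a) (Cms_mem.1 (e a).2) (e a).2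
      simpa using this
    exact (Cms_rsymm (h3 a)).trans (h3 b)
  · let cs := M.toCoxeterSystem
    let cN := N.toCoxeterSystem
    let f : Fin n → N.Group := fun a => if h : a ∈ C then cN.simple (e.symm ⟨a, h⟩) else 1
    have hf : M.IsLiftable f := by
      intro a b
      by_cases ha : a ∈ C
      · by_cases hb : b ∈ C
        · have h3 := cN.simple_mul_simple_pow (e.symm ⟨a, ha⟩) (e.symm ⟨b, hb⟩)
          rw [show N.M (e.symm ⟨a, ha⟩) (e.symm ⟨b, hb⟩) = M.M a b by
            rw [hN, Equiv.apply_symm_apply, Equiv.apply_symm_apply]] at h3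
          simp only [f, dif_pos ha, dif_pos hb]
          exact h3
        · have h3 : M.M a b = 2 := Cms_two hC ha hb
          simp only [f, dif_pos ha, dif_neg hb, mul_one]
          rw [show M.M a b = 2 from h3]
          exact cN.simple_sq _
      · by_cases hb : b ∈ C
        · have h3 : M.M a b = 2 := Cms_two' hC ha hb
          simp only [f, dif_neg ha, dif_pos hb, one_mul]
          rw [show M.M a b = 2 from h3]
          exact cN.simple_sq _
        · simp only [f, dif_neg ha, dif_neg hb, one_mul, one_pow]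
    let F : M.Group →* N.Group := cs.lift ⟨f, hf⟩
    have hF : ∀ a, F (cs.simple a) = f a := fun a => cs.lift_apply_simple hf a
    have hsurj : Function.Surjective F := by
      rw [← MonoidHom.range_eq_top, eq_top_iff, ← cN.subgroup_closure_range_simple,
        Subgroup.closure_le]
      rintro _ ⟨a, rfl⟩
      refine ⟨cs.simple (e a), ?_⟩
      rw [hF]
      simp only [f]
      rw [dif_pos (e a).2]
      simp
    exact Finite.of_surjective F hsurj

theorem pCms (h1 : SArt) : SCms := by
  intro n M hfin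
  choose k N i r h using fun s => Cms_one (M := M) h1 hfin s
  refine ⟨k, N, i, r, fun c => (h c).1, ?_, fun c => (h c).2.2⟩
  intro z hz
  have h2 : Cms_sat M Finset.univ := fun i _ j _ => Finset.mem_univ j
  exact Cms_inj h1 z (fun s ψ hψ => (h s).2.1 z (hz s) ψ hψ) n Finset.univ (by simp) h2
    (MonoidHom.id _) (fun j => by rw [if_pos (Finset.mem_univ j)]; rfl)

end Pool.Agent.Lib.MP_97567f_al.U
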