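import Pool.Agent.Lib.MP_97567f_al.U.SpecM

/-!
# MP_97567f_al: all finite types: uniqueness properties from the eigenvalues
-/

set_option autoImplicit false

namespace Pool.Agent.Lib.MP_97567f_al.U

open Polynomial

section eig

variable {K : Type} [Field K]

private theorem Eig_count [DecidableEq K] {k : ℕ} (v : Fin k → K) (m : Fin k → ℕ) (w : K) :
    ((∏ j, (X - C (v j)) ^ m j : K[X]).roots.count w) = ∑ j, m j * (if w = v j then 1 else 0) := by
  have key : ∀ S : Finset (Fin k), (∏ j ∈ S, (X - C (v j)) ^ m j : K[X]).roots.count w =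
      ∑ j ∈ S, m j * (if w = v j then 1 else 0) := by
    intro S
    induction S using Finset.induction_on with
    | empty => simp
    | insert a S ha ih =>
      rw [Finset.prod_insert ha, Finset.sum_insert ha]
      have h1 : ((X - C (v a)) ^ m a : K[X]) ≠ 0 := pow_ne_zero _ (X_sub_C_ne_zero _)
      have h2 : (∏ j ∈ S, (X - C (v j)) ^ m j : K[X]) ≠ 0 :=
        Finset.prod_ne_zero_iff.2 fun j _ => pow_ne_zero _ (X_sub_C_ne_zero _)
      rw [roots_mul (mul_ne_zero h1 h2), Multiset.count_add, ih, roots_pow, roots_X_sub_C,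
        Multiset.count_nsmul, Multiset.count_singleton]
  exact key Finset.univ

/-- Comparing the roots. -/
private theorem Eig_eq {k : ℕ} {u v : Fin k → K} {m : Fin k → ℕ} (hu : Function.Injective u)
    (hv : Function.Injective v) (hm : Function.Injective m) (hpos : ∀ j, 0 < m j)
    (h : (∏ j, (X - C (u j)) ^ m j : K[X]) = ∏ j, (X - C (v j)) ^ m j) (j : Fin k) :
    u j = v j := by
  classical
  have h1 : ∑ i, m i * (if u j = u i then 1 else 0) = m j := by
    rw [Finset.sum_eq_single j]
    · rw [if_pos rfl, mul_one]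
    · intro i _ hij
      rw [if_neg fun h => hij (hu h).symm, mul_zero]
    · intro h
      exact absurd (Finset.mem_univ j) h
  have h2 : ∑ i, m i * (if u j = v i then 1 else 0) = m j := by
    rw [← Eig_count, ← h, Eig_count, h1]
  by_cases hex : ∃ i, u j = v i
  · obtain ⟨i, hi⟩ := hex
    have h3 : ∑ i', m i' * (if u j = v i' then 1 else 0) = m i := by
      rw [Finset.sum_eq_single i]
      · rw [if_pos hi, mul_one]
      · intro i' _ hi'
        rw [if_neg fun h => hi' (hv (h.symm.trans hi)), mul_zero]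
      · intro h
        exact absurd (Finset.mem_univ i) h
    rw [h3] at h2
    rw [hi, hm h2]
  · exfalso
    push Not at hex
    have h3 : ∑ i, m i * (if u j = v i then 1 else 0) = 0 :=
      Finset.sum_eq_zero fun i _ => by rw [if_neg (hex i), mul_zero]
    have := hpos j
    omega

variable {ι : Type} [Fintype ι] [DecidableEq ι]

/-- The characteristic polynomial of a multiple. -/
private theorem Eig_scale [Infinite K] (A : Matrix ι ι K) (c : K) (hc : c ≠ 0) {k : ℕ}
    (u : Fin k → K) (m : Fin k → ℕ) (h : A.charpoly = ∏ j, (X - C (u j)) ^ m j) :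
    (c • A).charpoly = ∏ j, (X - C (c * u j)) ^ m j := by
  have hN : Fintype.card ι = ∑ j, m j := by
    have h1 := A.charpoly_natDegree_eq_dim
    rw [h, natDegree_prod _ _ fun j _ => pow_ne_zero _ (X_sub_C_ne_zero _)] at h1
    rw [← h1]
    refine Finset.sum_congr rfl fun j _ => ?_
    rw [natDegree_pow, natDegree_X_sub_C, mul_one]
  apply Polynomial.funext
  intro t
  have e1 : (c • A).charpoly.eval t = (Matrix.scalar ι t - c • A).det := by
    rw [Matrix.eval_charpoly]
  have e2 : A.charpoly.eval (c⁻¹ * t) = (Matrix.scalar ι (c⁻¹ * t) - A).det := by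
    rw [Matrix.eval_charpoly]
  have e3 : Matrix.scalar ι t - c • A = c • (Matrix.scalar ι (c⁻¹ * t) - A) := by
    rw [smul_sub]
    congr 1
    ext i j
    rw [Matrix.smul_apply, Matrix.scalar_apply, Matrix.scalar_apply]
    by_cases hij : i = j
    · subst hij
      rw [Matrix.diagonal_apply_eq, Matrix.diagonal_apply_eq, smul_eq_mul, mul_inv_cancel_left₀ hc]
    · rw [Matrix.diagonal_apply_ne _ hij, Matrix.diagonal_apply_ne _ hij, smul_zero]
  rw [e1, e3, Matrix.det_smul, ← e2, h, hN, eval_prod, eval_prod, ← Finset.prod_pow_eq_pow_sum,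
    ← Finset.prod_mul_distrib]
  refine Finset.prod_congr rfl fun j _ => ?_
  simp only [eval_pow, eval_sub, eval_X, eval_C]
  rw [← mul_pow, mul_sub, mul_inv_cancel_left₀ hc]

end eig

theorem pEig (h1 : SCd) : SEig := by
  intro A _ R _ _ _ ι _ _ ρ hE
  refine ⟨h1 A R ι ρ hE, ?_⟩
  intro j η g hj hg
  obtain ⟨S, hS, hSE, -⟩ := hE
  have key : ∀ s ∈ S, η s = 1 := by
    intro s hs
    obtain ⟨k, u, m, hu1, hu2, hm1, hm2, ⟨j0, hj0⟩, hch⟩ := hSE s hs
    have c1 : ((ρ s).1.map j).charpoly = ∏ l, (X - C (j (u l))) ^ m l := by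
      rw [Matrix.charpoly_map, hch, Polynomial.map_prod]
      refine Finset.prod_congr rfl fun l _ => ?_
      rw [Polynomial.map_pow, Polynomial.map_sub, map_X, map_C]
    have c2 : (((η s : KKˣ) : KK) • (ρ s).1.map j).charpoly = ((ρ s).1.map j).charpoly := by
      rw [← hg s, Matrix.charpoly_mul_comm, ← mul_assoc, ← Units.val_mul, inv_mul_cancel,
        Units.val_one, one_mul]
    have hne : ((η s : KKˣ) : KK) ≠ 0 := (η s).ne_zero
    rw [Eig_scale _ _ hne _ m c1, c1] at c2
    have hall := Eig_eq (fun a b hab => hu2 (hj (mul_left_cancel₀ hne hab)))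
      (fun a b hab => hu2 (hj hab)) hm1 hm2 c2 j0
    rw [hj0, map_one, mul_one] at hall
    exact Units.ext hall
  ext b
  have hb : b ∈ Subgroup.closure S := by rw [hS]; trivial
  have h3 : Subgroup.closure S ≤ η.ker := by
    rw [Subgroup.closure_le]
    intro s hs
    exact key s hs
  have h4 : η b = 1 := h3 hb
  rw [h4]
  rfl

theorem pTrc : STrc := by
  intro A _ K _ ι _ _ ρ S hS htr η g hg
  have key : ∀ s ∈ S, η s = 1 := by
    intro s hs
    have h1 := congrArg Matrix.trace (hg s)
    rw [Matrix.trace_mul_comm, ← mul_assoc, ← Units.val_mul, inv_mul_cancel, Units.val_one,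
      one_mul, Matrix.trace_smul, smul_eq_mul] at h1
    have h2 : ((η s : Kˣ) : K) = 1 := by
      have h3 : ((η s : Kˣ) : K) * (ρ s).1.trace = 1 * (ρ s).1.trace := by rw [one_mul]; exact h1.symm
      exact mul_right_cancel₀ (htr s hs) h3
    exact Units.ext h2
  ext b
  have hb : b ∈ Subgroup.closure S := by rw [hS]; trivial
  have h3 : Subgroup.closure S ≤ η.ker := by
    rw [Subgroup.closure_le]
    intro s hs
    exact key s hs
  have h4 : η b = 1 := h3 hb
  rw [h4]
  rfl

end Pool.Agent.Lib.MP_97567f_al.U
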