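import Pool.Agent.Lib.MP_97567f_al.U.SpecM

/-!
# MP_97567f_al: all finite types: the main theorem from the types
-/

set_option autoImplicit false

namespace Pool.Agent.Lib.MP_97567f_al.U

/-- The components of finite type are good. -/
theorem Final_good (h2 : SRen) (h5 : SOne) (h6 : SSlg) (h7 : SCls) (a1 : SRF1) (a2 : SRF2)
    (a3 : SRF3) (a4 : SFHex) (hT : Types) (n : ℕ) (M : CoxeterMatrix (Fin n))
    (hf : Finite M.Group) (hc : Cn M) (hn : 0 < n) : Good (Art M) := by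
  rcases h7 n M hf hc hn with h | ⟨m, hm, h⟩ | ⟨h3, h⟩ | ⟨h3, h⟩ | h | h | h
  · subst h
    exact h5 M
  · exact h2.2 n 2 M _ h (hT.I m hm)
  · have hRF : RF M := ⟨a1 n M h, a2 n M h (a1 n M h), a3 n M h (a1 n M h) (a2 n M h (a1 n M h))⟩
    exact h6 n M h3 h hRF (a4 n M hRF) hc
  · exact h2.2 n n M _ h (hT.B n h3)
  · exact h2.2 n 4 M _ h hT.F
  · exact h2.2 n 3 M _ h hT.H3
  · exact h2.2 n 4 M _ h hT.H4

theorem pFinal (h2 : SRen) (h3 : SCms) (h4 : SAll) (h5 : SOne) (h6 : SSlg) (h7 : SCls)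
    (a1 : SRF1) (a2 : SRF2) (a3 : SRF3) (a4 : SFHex) (hT : Types) : SFinal := by
  intro n M hfin
  obtain ⟨k, N, i, r, hF, hinj, hN⟩ := h3 n M hfin
  refine h4 (Art M) (art_fg M) n (fun c => Art (N c)) i r hF ?_ hinj
  intro c
  obtain ⟨hc, hk, hf⟩ := hN c
  exact Final_good h2 h5 h6 h7 a1 a2 a3 a4 hT (k c) (N c) hf hc hk

end Pool.Agent.Lib.MP_97567f_al.U
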