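import Pool.Agent.Lib.MP_97567f_al.U.SpecM

/-!
# MP_97567f_al: all finite types: the machine
-/

set_option autoImplicit false

namespace Pool.Agent.Lib.MP_97567f_al.U

open Polynomial

section transfer

variable {A B : Type} [Group A] [Group B] {R : Type} [CommRing R] [IsDomain R] [Algebra ℂ R]
  {ι : Type} [Fintype ι] [DecidableEq ι]

private theorem Mach_twf {ρ : B →* GL ι R} {i : B →* A} {r : A →* B} (h : Fac i r)
    {f : A →* A} {θ : R →ₐ[ℂ] R} (hT : Twf (ρ.comp r) f θ) : Twf ρ ((r.comp f).comp i) θ := by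
  obtain ⟨hθ, χ, g, hx⟩ := hT
  refine ⟨hθ, χ.comp i, g, fun b => ?_⟩
  have h1 := hx (i b)
  have h2 : mK (ρ.comp r) (f (i b)) = mK ρ (((r.comp f).comp i) b) := rfl
  rw [← h2, h1]
  have h3 : (ρ.comp r) (i b) = ρ b := by rw [MonoidHom.comp_apply, h.ri]
  rw [h3]
  rfl

private theorem Mach_uniq {ρ : B →* GL ι R} {i : B →* A} {r : A →* B} (h : Fac i r)
    (hu : ∀ θ : R →ₐ[ℂ] R, Twf ρ (MonoidHom.id B) θ → θ = AlgHom.id ℂ R) :
    ∀ θ : R →ₐ[ℂ] R, Twf (ρ.comp r) (MonoidHom.id A) θ → θ = AlgHom.id ℂ R := by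
  intro θ hT
  refine hu θ ?_
  have h1 := Mach_twf h hT
  have h2 : (r.comp (MonoidHom.id A)).comp i = MonoidHom.id B := by
    ext b
    exact h.ri b
  rwa [h2] at h1

private theorem Mach_stab {ρ : B →* GL ι R} {i : B →* A} {r : A →* B} (h : Fac i r)
    {I : Ideal R} (hI : StabI ρ I) : StabI (ρ.comp r) I := fun _ θ hT x hx =>
  hI _ θ (Mach_twf h hT) x hx

private theorem Mach_fin {ρ : B →* GL ι R} {i : B →* A} {r : A →* B} (h : Fac i r)
    (hF : FinP ρ) : FinP (ρ.comp r) := by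
  obtain ⟨k, I, p, hI, hfin⟩ := hF
  exact ⟨k, I, p, fun c => ⟨Mach_stab h (hI c).1, (hI c).2⟩, hfin⟩

end transfer

theorem pMach (h1 : SSpan) (h2 : SCw) : SMach := by
  intro B _ R _ _ _ _ ι _ _ _ ρ hρ hj hsc hab
  obtain ⟨j, hj⟩ := hj
  refine ⟨?_, hab⟩
  intro A _ hA i r hir
  obtain ⟨H, hH, hα⟩ := h2 A R ι (ρ.comp r) (Mach_uniq hir hρ.uniq) (Mach_fin hir hρ.fin)
    (hρ.tw A hA i r hir)
  let J : FractionRing R →+* KK := IsFractionRing.lift (A := R) (g := j) hj
  have hJ : ∀ x : R, J (algebraMap R (FractionRing R) x) = j x := fun x =>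
    IsFractionRing.lift_algebraMap (A := R) (g := j) hj x
  let σ : B →* GL ι KK := (Matrix.GeneralLinearGroup.map j).comp ρ
  have hσ : ∀ b, (σ b).1 = (ρ b).1.map j := fun b => rfl
  have hmK : ∀ b, (mK ρ b).map J = (σ b).1 := by
    intro b
    ext x y
    exact hJ _
  refine ⟨ι, inferInstance, inferInstance, inferInstance, σ, H, hH, ?_, ?_, ?_, ?_⟩
  · exact h1 B R ι ρ hρ.irr KK j hj
  · intro η g hg
    exact hρ.eta j η g hj hg
  · intro α hαH
    obtain ⟨-, χ, g, hx⟩ := hα α hαH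
    refine ⟨(Units.map (j : R →* KK)).comp χ, Matrix.GeneralLinearGroup.map J g, fun x => ?_⟩
    have e1 := congrArg (fun Y : Matrix ι ι (FractionRing R) => Y.map J) (hx x)
    have e2 : (mK (ρ.comp r) (α x)).map J = ((σ.comp r) (α x)).1 := hmK (r (α x))
    rw [← e2]
    refine e1.trans ?_
    have e4 : (((ρ.comp r) x).1.map (AlgHom.id ℂ R)).map (algebraMap R (FractionRing R)) =
        mK ρ (r x) := by
      ext a b
      rfl
    have e5 : ((algebraMap R (FractionRing R) (χ x : R)) •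
        (g.1 * mK ρ (r x) * (g⁻¹).1)).map J =
        (j (χ x : R)) • (g.1 * mK ρ (r x) * (g⁻¹).1).map J := by
      ext a b
      simp only [Matrix.map_apply, Matrix.smul_apply, smul_eq_mul, map_mul]
      rw [hJ]
    have e6 : (g.1 * mK ρ (r x) * (g⁻¹).1).map J =
        (Matrix.GeneralLinearGroup.map J g).1 * ((σ.comp r) x).1 *
          ((Matrix.GeneralLinearGroup.map J g)⁻¹).1 := by
      rw [← map_inv]
      have e7 : (Matrix.GeneralLinearGroup.map J g).1 = g.1.map J := rfl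
      have e8 : (Matrix.GeneralLinearGroup.map J g⁻¹).1 = (g⁻¹).1.map J := rfl
      have e9 : ((σ.comp r) x).1 = (mK ρ (r x)).map J := (hmK (r x)).symm
      rw [e7, e8, e9, ← Matrix.map_mul, ← Matrix.map_mul]
    rw [e4]
    refine e5.trans ?_
    rw [e6]
    rfl
  · rintro z ⟨a, ha⟩
    refine hsc z ?_
    obtain ⟨i0⟩ := (inferInstance : Nonempty ι)
    refine ⟨algebraMap R (FractionRing R) ((ρ z).1 i0 i0), ?_⟩
    have ha' : ∀ x y, j ((ρ z).1 x y) = a * (1 : Matrix ι ι KK) x y := by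
      intro x y
      have := congrArg (fun Y : Matrix ι ι KK => Y x y) ha
      exact this
    ext x y
    rw [Matrix.smul_apply, smul_eq_mul]
    show algebraMap R (FractionRing R) ((ρ z).1 x y) = _
    by_cases hxy : x = y
    · subst hxy
      rw [Matrix.one_apply_eq, mul_one]
      congr 1
      apply hj
      rw [ha', ha', Matrix.one_apply_eq, Matrix.one_apply_eq]
    · rw [Matrix.one_apply_ne hxy, mul_zero]
      have : (ρ z).1 x y = 0 := by
        apply hj
        rw [ha', Matrix.one_apply_ne hxy, mul_zero, map_zero]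
      rw [this, map_zero]

end Pool.Agent.Lib.MP_97567f_al.U
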