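import Pool.Agent.Lib.MP_97567f_al.U.SpecM

/-!
# MP_97567f_al: all finite types: the infinite cyclic group
-/

set_option autoImplicit false

namespace Pool.Agent.Lib.MP_97567f_al.U

private theorem One_pow (h : SArt) (M : CoxeterMatrix (Fin 1)) (z : Art M) :
    ∃ k : ℤ, gn M 0 ^ k = z := by
  obtain ⟨-, -, -, h4, -⟩ := h 1 M
  have h1 : Set.range (gn M) = {gn M 0} := by
    ext x
    constructor
    · rintro ⟨i, rfl⟩
      rw [Subsingleton.elim i 0]
      rfl
    · rintro rfl
      exact ⟨0, rfl⟩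
  rw [h1, ← Subgroup.zpowers_eq_closure] at h4
  have h2 : z ∈ Subgroup.zpowers (gn M 0) := by
    rw [h4]
    exact Subgroup.mem_top z
  exact Subgroup.mem_zpowers_iff.1 h2

private theorem One_comm (h : SArt) (M : CoxeterMatrix (Fin 1)) (z b : Art M) :
    z * b = b * z := by
  obtain ⟨k, rfl⟩ := One_pow h M z
  obtain ⟨l, rfl⟩ := One_pow h M b
  rw [← zpow_add, ← zpow_add, add_comm]

/-- **The infinite cyclic group.** -/
theorem pOne (h : SArt) : SOne := by
  intro M
  constructor
  · intro A _ _ i r hf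
    refine ⟨Fin 1, inferInstance, inferInstance, inferInstance, 1, ⊤, inferInstance, ?_, ?_, ?_,
      fun z _ b => One_comm h M z b⟩
    · rw [eq_top_iff]
      intro Y _
      have h1 : Y = Y 0 0 • (1 : Matrix (Fin 1) (Fin 1) KK) := by
        ext a b
        rw [Subsingleton.elim a 0, Subsingleton.elim b 0]
        simp
      rw [h1]
      exact Submodule.smul_mem _ _ (Submodule.subset_span ⟨1, rfl⟩)
    · intro η g hg
      refine MonoidHom.ext fun x => ?_
      have h1 := hg x
      have h2 : g.1 * ((1 : Art M →* GL (Fin 1) KK) x).1 * (g⁻¹).1 = 1 := by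
        show g.1 * (1 : Matrix (Fin 1) (Fin 1) KK) * (g⁻¹).1 = 1
        rw [mul_one]
        exact g.mul_inv
      rw [h2] at h1
      have h3 := congrFun (congrFun h1 0) 0
      have h4 : (1 : KK) = (η x : KK) * 1 := h3
      rw [mul_one] at h4
      exact Units.ext h4.symm
    · intro α _
      refine ⟨1, 1, fun x => ?_⟩
      show (1 : Matrix (Fin 1) (Fin 1) KK) = ((1 : KKˣ) : KK) • (1 * 1 * (1⁻¹ : GL (Fin 1) KK).1)
      simp
  · intro z _ hφ
    obtain ⟨-, h2, -, -, -⟩ := h 1 M
    obtain ⟨φ, h3⟩ := h2 (Multiplicative ℤ) (fun _ => Multiplicative.ofAdd 1) (fun _ _ => rfl)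
    obtain ⟨k, rfl⟩ := One_pow h M z
    have h4 := hφ φ
    rw [map_zpow, h3, ← ofAdd_zsmul] at h4
    have h5 : k • (1 : ℤ) = 0 := h4
    rw [smul_eq_mul, mul_one] at h5
    rw [h5, zpow_zero]

end Pool.Agent.Lib.MP_97567f_al.U
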