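import Pool.Agent.Lib.MP_97567f_al.U.SpecM

/-!
# MP_97567f_al: rigid families: the automorphisms act by changes of the parameters
-/

set_option autoImplicit false

namespace Pool.Agent.Lib.MP_97567f_al.U

theorem pRT (h1 : STrans) (h2 : SCc) (h3 : SEig) : SRT := by
  intro B _ R _ _ _ _ ι _ _ _ ρ hρ
  obtain ⟨h4, h5⟩ := h3 B R ι ρ hρ.eig
  exact ⟨hρ.irr, fun E _ hE i r hir => h2 E hE R ι (ρ.comp r) (h1 E B R ι ρ i r hir hρ), h4, h5,
    hρ.fin⟩

end Pool.Agent.Lib.MP_97567f_al.U
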