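import Pool.Agent.Lib.MP_97567f_al.U.SpecM
import Pool.Agent.Lib.MP_97567f_al.Rt

/-!
# MP_97567f_al: all finite types: roots with different multiplicities
-/

set_option autoImplicit false

namespace Pool.Agent.Lib.MP_97567f_al.U

open Polynomial

theorem pRtm : SRtm := by
  classical
  intro K F _ _ _ _ P k w m hw hm hpos hP j
  have hfac : ∀ i, ((X - C (w i)) ^ m i : F[X]) ≠ 0 := fun i => pow_ne_zero _ (X_sub_C_ne_zero _)
  have hne : (∏ i, (X - C (w i)) ^ m i : F[X]) ≠ 0 := Finset.prod_ne_zero_iff.2 fun i _ => hfac i
  have hP0 : P ≠ 0 := by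
    rintro rfl
    rw [Polynomial.map_zero] at hP
    exact hne hP.symm
  have hs : (P.map (algebraMap K F)).Splits := by
    rw [hP]
    exact Splits.prod fun i _ => (Splits.X_sub_C (w i)).pow (m i)
  have hmu : ∀ v : F, (P.map (algebraMap K F)).rootMultiplicity v =
      ∑ i, m i * (if v = w i then 1 else 0) := by
    intro v
    rw [← count_roots, hP, roots_prod _ _ hne, Multiset.count_bind]
    change (Multiset.map _ (Finset.univ : Finset (Fin k)).val).sum =
      (Multiset.map _ (Finset.univ : Finset (Fin k)).val).sum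
    congr 1
    apply Multiset.map_congr rfl
    intro i _
    rw [roots_pow, roots_X_sub_C, Multiset.count_nsmul, Multiset.count_singleton]
  have hmw : ∀ i, (P.map (algebraMap K F)).rootMultiplicity (w i) = m i := by
    intro i
    rw [hmu, Finset.sum_eq_single i]
    · rw [if_pos rfl, mul_one]
    · intro b _ hb
      rw [if_neg fun h => hb (hw h).symm, mul_zero]
    · intro h
      exact absurd (Finset.mem_univ i) h
  have hroot : (P.map (algebraMap K F)).IsRoot (w j) := by
    refine (rootMultiplicity_pos (by rw [hP]; exact hne)).1 ?_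
    rw [hmw]
    exact hpos j
  refine rt_root P hP0 hs (w j) hroot fun v hv => ?_
  rw [hmw] at hv
  by_contra hne'
  have hex : ∃ i, v = w i := by
    by_contra hcon
    push Not at hcon
    rw [hmu, Finset.sum_eq_zero fun i _ => by rw [if_neg (hcon i), mul_zero]] at hv
    exact absurd hv (hpos j).ne
  obtain ⟨i, rfl⟩ := hex
  rw [hmw] at hv
  exact hne' (congrArg w (hm hv))

end Pool.Agent.Lib.MP_97567f_al.U
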