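import Pool.Agent.Lib.MP_97567f_al.U.SpecM

/-!
# MP_97567f_al, module U/Span : irreducibility and injective maps
-/

set_option autoImplicit false

namespace Pool.Agent.Lib.MP_97567f_al.U

open Polynomial

/-- Matrices as functions on pairs of indices. -/
private def Span_flat (F : Type) [Field F] (ι : Type) : Matrix ι ι F →ₗ[F] (ι × ι → F) where
  toFun m := fun q => m q.1 q.2
  map_add' _ _ := rfl
  map_smul' _ _ := rfl

private theorem Span_ker (F : Type) [Field F] (ι : Type) : LinearMap.ker (Span_flat F ι) = ⊥ := by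
  rw [LinearMap.ker_eq_bot]
  intro m m' h
  ext i j
  exact congrFun h (i, j)

/-- A family of matrices indexed by the pairs is independent iff the determinant of the entries is not zero. -/
private theorem Span_det (F : Type) [Field F] (ι : Type) [Fintype ι] [DecidableEq ι]
    (M : ι × ι → Matrix ι ι F) : LinearIndependent F M ↔
      (Matrix.of fun p q : ι × ι => M p q.1 q.2).det ≠ 0 := by
  rw [← LinearMap.linearIndependent_iff (Span_flat F ι) (Span_ker F ι)]
  have h := Matrix.linearIndependent_rows_iff_isUnit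
    (A := Matrix.of fun p q : ι × ι => M p q.1 q.2)
  rw [Matrix.isUnit_iff_isUnit_det, isUnit_iff_ne_zero] at h
  exact h

theorem pSpan : SSpan := by
  intro A _ R _ _ ι _ _ ρ hspan F _ ψ hψ
  classical
  obtain ⟨κ, a, ha1, ha2, ha3⟩ := exists_linearIndependent' (FractionRing R) (fun x : A => mK ρ x)
  rw [hspan] at ha2
  have hfin : Finite κ := ha3.finite
  have := Fintype.ofFinite κ
  have hb : Module.finrank (FractionRing R) (Matrix ι ι (FractionRing R)) = Fintype.card κ :=
    Module.finrank_eq_card_basis (Module.Basis.mk ha3 (by rw [ha2]))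
  have hcard : Fintype.card (ι × ι) = Fintype.card κ := by
    rw [← hb, Module.finrank_matrix, Module.finrank_self, mul_one, Fintype.card_prod]
  obtain ⟨e⟩ := Fintype.card_eq.1 hcard
  have h1 : LinearIndependent (FractionRing R) (fun p : ι × ι => mK ρ (a (e p))) :=
    ha3.comp e e.injective
  rw [Span_det] at h1
  have h2 : (Matrix.of fun p q : ι × ι => mK ρ (a (e p)) q.1 q.2).det =
      algebraMap R (FractionRing R)
        (Matrix.of fun p q : ι × ι => (ρ (a (e p))).1 q.1 q.2).det := by
    rw [RingHom.map_det]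
    rfl
  rw [h2] at h1
  have h3 : (Matrix.of fun p q : ι × ι => (ρ (a (e p))).1 q.1 q.2).det ≠ 0 := by
    intro h0
    rw [h0, map_zero] at h1
    exact h1 rfl
  have h4 : (Matrix.of fun p q : ι × ι => ((ρ (a (e p))).1.map ψ) q.1 q.2).det ≠ 0 := by
    have h5 : (Matrix.of fun p q : ι × ι => ((ρ (a (e p))).1.map ψ) q.1 q.2).det =
        ψ (Matrix.of fun p q : ι × ι => (ρ (a (e p))).1 q.1 q.2).det := by
      rw [RingHom.map_det]
      rfl
    rw [h5]
    exact fun h0 => h3 (hψ (by rw [h0, map_zero]))
  have h6 := (Span_det F ι (fun p : ι × ι => (ρ (a (e p))).1.map ψ)).2 h4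
  have h7 : Fintype.card (ι × ι) = Module.finrank F (Matrix ι ι F) := by
    rw [Module.finrank_matrix, Module.finrank_self, mul_one, Fintype.card_prod]
  have h8 := h6.span_eq_top_of_card_eq_finrank' h7
  rw [eq_top_iff, ← h8]
  refine Submodule.span_mono ?_
  rintro _ ⟨p, rfl⟩
  exact ⟨a (e p), rfl⟩

end Pool.Agent.Lib.MP_97567f_al.U
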