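import Pool.Agent.Lib.MP_97567f_al.U.SpecM

/-!
# MP_97567f_al: stabilizers of curves (general ring)
-/

set_option autoImplicit false

namespace Pool.Agent.Lib.MP_97567f_al.U

variable {R : Type} [CommRing R] [IsDomain R]

/-- Principal primes over a nonzero ideal are minimal primes. -/
private theorem Stb_min [IsNoetherianRing R] {I : Ideal R} (hI : I ≠ ⊥) {p : R} (hp : Prime p)
    (h : I ≤ Ideal.span {p}) : Ideal.span {p} ∈ I.minimalPrimes := by
  have hP : (Ideal.span {p}).IsPrime := (Ideal.span_singleton_prime hp.ne_zero).2 hp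
  refine ⟨⟨hP, h⟩, ?_⟩
  rintro P' ⟨hP', hIP'⟩ hle
  by_contra hnle
  have hpP' : p ∉ P' := fun hmem => hnle ((Ideal.span_singleton_le_iff_mem _).2 hmem)
  have key : ∀ n : ℕ, ∀ x ∈ P', p ^ n ∣ x := by
    intro n
    induction n with
    | zero => intro x _; simp
    | succ n ih =>
      intro x hx
      obtain ⟨y, rfl⟩ := Ideal.mem_span_singleton.1 (hle hx)
      have hy : y ∈ P' := (hP'.mem_or_mem hx).resolve_left hpP'
      obtain ⟨z, rfl⟩ := ih y hy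
      exact ⟨z, by ring⟩
  obtain ⟨x, hx, hx0⟩ := Submodule.exists_mem_ne_zero_of_ne_bot hI
  obtain ⟨n, hn⟩ := FiniteMultiplicity.of_not_isUnit hp.not_isUnit hx0
  exact hn (key (n + 1) x (hIP' hx))

private theorem Stb_map [Algebra ℂ R] (θ : R ≃ₐ[ℂ] R) {a b : R} (h : Ideal.span {a} = Ideal.span {b}) :
    Ideal.span {θ a} = Ideal.span {θ b} :=
  Ideal.span_singleton_eq_span_singleton.2
    ((Ideal.span_singleton_eq_span_singleton.1 h).map θ)

/-- The stabilizer. -/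
private noncomputable def Stb_gp [Algebra ℂ R] (Γ : Subgroup (R ≃ₐ[ℂ] R)) (p : R) :
    Subgroup (R ≃ₐ[ℂ] R) where
  carrier := {θ | θ ∈ Γ ∧ Ideal.span {θ p} = Ideal.span {p}}
  one_mem' := ⟨Γ.one_mem, by simp⟩
  mul_mem' := by
    rintro θ η ⟨h1, h2⟩ ⟨h3, h4⟩
    exact ⟨Γ.mul_mem h1 h3, (Stb_map θ h4).trans h2⟩
  inv_mem' := by
    rintro θ ⟨h1, h2⟩
    refine ⟨Γ.inv_mem h1, ?_⟩
    have h3 := Stb_map θ⁻¹ h2
    have h4 : θ⁻¹ (θ p) = p := by
      rw [← AlgEquiv.mul_apply, inv_mul_cancel, AlgEquiv.one_apply]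
    rw [h4] at h3
    exact h3.symm

theorem pStb : SStb := by
  intro R _ _ _ _ Γ I p hp hI hIp hΓ
  have hle : ∀ θ ∈ Γ, I ≤ Ideal.span {θ p} := by
    intro θ hθ x hx
    have h1 : θ⁻¹ x ∈ Ideal.span {p} := hIp (hΓ _ (Γ.inv_mem hθ) x hx)
    obtain ⟨y, hy⟩ := Ideal.mem_span_singleton.1 h1
    refine Ideal.mem_span_singleton.2 ⟨θ y, ?_⟩
    have h2 : θ (θ⁻¹ x) = x := by
      rw [← AlgEquiv.mul_apply, mul_inv_cancel, AlgEquiv.one_apply]
    rw [← h2, hy, map_mul]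
  have hpr : ∀ θ : R ≃ₐ[ℂ] R, Prime (θ p) := fun θ =>
    (MulEquiv.prime_iff (θ : R ≃* R)).2 hp
  refine ⟨Stb_gp Γ p, fun θ hθ => hθ.1, ?_, fun θ hθ => hθ.2⟩
  have hfin : (I.minimalPrimes).Finite := Ideal.finite_minimalPrimes_of_isNoetherianRing R I
  have hfin2 : Finite I.minimalPrimes := hfin
  have hq : Finite (Γ ⧸ (Stb_gp Γ p).subgroupOf Γ) := by
    refine Finite.of_injective (β := I.minimalPrimes)
      (fun x => ⟨Ideal.span {(x.out : R ≃ₐ[ℂ] R) p},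
        Stb_min hI (hpr _) (hle _ x.out.2)⟩) ?_
    intro x y hxy
    have h1 : Ideal.span {(x.out : R ≃ₐ[ℂ] R) p} = Ideal.span {(y.out : R ≃ₐ[ℂ] R) p} :=
      congrArg Subtype.val hxy
    have h2 : (x.out)⁻¹ * y.out ∈ (Stb_gp Γ p).subgroupOf Γ := by
      rw [Subgroup.mem_subgroupOf]
      refine ⟨(x.out⁻¹ * y.out).2, ?_⟩
      have h3 := Stb_map ((x.out : R ≃ₐ[ℂ] R)⁻¹) h1
      have h4 : (x.out : R ≃ₐ[ℂ] R)⁻¹ ((x.out : R ≃ₐ[ℂ] R) p) = p := by
        rw [← AlgEquiv.mul_apply, inv_mul_cancel, AlgEquiv.one_apply]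
      rw [h4] at h3
      exact h3.symm
    have h3 := QuotientGroup.eq.2 h2
    rwa [QuotientGroup.out_eq', QuotientGroup.out_eq'] at h3
  exact Subgroup.finiteIndex_of_finite_quotient

end Pool.Agent.Lib.MP_97567f_al.U
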