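import Pool.Agent.Lib.MP_97567f_al.U.SpecM

/-!
# MP_97567f_al: all finite types: from a factor to the group
-/

set_option autoImplicit false

namespace Pool.Agent.Lib.MP_97567f_al.U

open Polynomial

section Trans

variable {A B : Type} [Group A] [Group B] {i : B →* A} {r : A →* B}

private theorem Trans_ker (h : Fac i r) (x : A) : r ((i (r x))⁻¹ * x) = 1 := by
  rw [map_mul, map_inv, h.ri, inv_mul_cancel]

/-- The projection to the kernel. -/
private def Trans_a (h : Fac i r) : A →* A where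
  toFun x := (i (r x))⁻¹ * x
  map_one' := by simp
  map_mul' x y := by
    have h1 := h.co ((i (r x))⁻¹ * x) (r y) (Trans_ker h x)
    have h2 : ((i (r x))⁻¹ * x) * (i (r y))⁻¹ = (i (r y))⁻¹ * ((i (r x))⁻¹ * x) := by
      rw [mul_inv_eq_iff_eq_mul, mul_assoc _ _ (i (r y)), h1, inv_mul_cancel_left]
    rw [map_mul, map_mul, mul_inv_rev]
    calc (i (r y))⁻¹ * (i (r x))⁻¹ * (x * y) = ((i (r y))⁻¹ * ((i (r x))⁻¹ * x)) * y := by
          simp only [mul_assoc]
      _ = ((i (r x))⁻¹ * x) * (i (r y))⁻¹ * y := by rw [h2]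
      _ = _ := by simp only [mul_assoc]

private theorem Trans_a_apply (h : Fac i r) (x : A) : Trans_a h x = (i (r x))⁻¹ * x := rfl

private theorem Trans_a_mul (h : Fac i r) (x : A) : i (r x) * Trans_a h x = x := by
  rw [Trans_a_apply, mul_inv_cancel_left]

private theorem Trans_a_co (h : Fac i r) (x : A) (b : B) :
    Trans_a h x * i b = i b * Trans_a h x :=
  h.co _ _ (Trans_ker h x)

/-- A matrix that commutes with all matrices. -/
private theorem Trans_scalar {ι : Type} [Fintype ι] [DecidableEq ι] {F : Type} [Field F]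
    (N : Matrix ι ι F) (i0 : ι) (h : ∀ Y : Matrix ι ι F, N * Y = Y * N) :
    N = (N i0 i0) • (1 : Matrix ι ι F) := by
  have h1 : N ∈ Set.range (Matrix.scalar ι) :=
    Matrix.mem_range_scalar_of_commute_single fun a b _ => (h _).symm
  obtain ⟨c, hc⟩ := h1
  rw [← hc]
  ext a b
  rw [Matrix.scalar_apply, Matrix.smul_apply, Matrix.diagonal_apply_eq, smul_eq_mul]
  by_cases hab : a = b
  · subst hab
    rw [Matrix.diagonal_apply_eq, Matrix.one_apply_eq, mul_one]
  · rw [Matrix.diagonal_apply_ne _ hab, Matrix.one_apply_ne hab, mul_zero]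

variable {R : Type} [CommRing R] [IsDomain R] [Algebra ℂ R] {ι : Type} [Fintype ι]
  [DecidableEq ι] [Nonempty ι] {ρ : B →* GL ι R}

private theorem Trans_rig (h1 : SSpan) (hF : Fac i r)
    (hirr : Submodule.span (FractionRing R) (Set.range fun x : B => mK ρ x) = ⊤)
    (h : Rigid ρ) : Rigid (ρ.comp r) := by
  intro F _ _ _ O j ρ' hj hc hred
  obtain ⟨ψ, χ, g, hψj, hx⟩ := h F O j (ρ'.comp i) hj hc (fun b => by
    have := hred (i b)
    rw [MonoidHom.comp_apply, hF.ri] at this
    exact this)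
  have hψ : Function.Injective ψ := by
    intro a b hab
    obtain ⟨ha, ha'⟩ := hψj a
    obtain ⟨hb, hb'⟩ := hψj b
    refine hj ?_
    rw [← ha', ← hb']
    congr 1
    exact Subtype.ext hab
  have hspan := h1 B R ι ρ hirr F (ψ : R →+* F) hψ
  -- the matrices over `F`
  let M : A →* GL ι F := (Matrix.GeneralLinearGroup.map (algebraMap O F)).comp ρ'
  have hM : ∀ x, (M x).1 = (ρ' x).1.map (algebraMap O F) := fun _ => rfl
  have hMi : ∀ b, (M (i b)).1 = (χ b : F) • (g.1 * (ρ b).1.map ψ * (g⁻¹).1) := fun b => hx b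
  let N : A →* GL ι F := (MulAut.conj g⁻¹).toMonoidHom.comp (M.comp (Trans_a hF))
  have hN : ∀ x, N x = g⁻¹ * M (Trans_a hF x) * g := by
    intro x
    change (MulAut.conj g⁻¹) (M (Trans_a hF x)) = _
    rw [MulAut.conj_apply, inv_inv]
  have hNM : ∀ x, g * N x * g⁻¹ = M (Trans_a hF x) := by
    intro x
    rw [hN]
    group
  have hgg : g.1 * (g⁻¹).1 = 1 := by
    rw [← Units.val_mul, mul_inv_cancel, Units.val_one]
  have hgg' : (g⁻¹).1 * g.1 = 1 := by
    rw [← Units.val_mul, inv_mul_cancel, Units.val_one]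
  have hcomm : ∀ x b, (N x).1 * (ρ b).1.map ψ = (ρ b).1.map ψ * (N x).1 := by
    intro x b
    have e1 : (ρ b).1.map ψ = ((χ b)⁻¹ : Fˣ).1 • ((g⁻¹).1 * (M (i b)).1 * g.1) := by
      rw [hMi, mul_smul_comm, smul_mul_assoc, smul_smul, Units.inv_mul, one_smul]
      calc (ρ b).1.map ψ = ((g⁻¹).1 * g.1) * (ρ b).1.map ψ * ((g⁻¹).1 * g.1) := by
            rw [hgg', one_mul, mul_one]
        _ = _ := by simp only [mul_assoc]
    have e2 : N x * (g⁻¹ * M (i b) * g) = (g⁻¹ * M (i b) * g) * N x := by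
      have e3 : M (Trans_a hF x) * M (i b) = M (i b) * M (Trans_a hF x) := by
        rw [← map_mul, ← map_mul, Trans_a_co]
      calc N x * (g⁻¹ * M (i b) * g) = g⁻¹ * (M (Trans_a hF x) * M (i b)) * g := by
            rw [hN]; group
        _ = g⁻¹ * (M (i b) * M (Trans_a hF x)) * g := by rw [e3]
        _ = _ := by rw [hN]; group
    have e4 := congrArg Units.val e2
    simp only [Units.val_mul] at e4
    rw [e1, mul_smul_comm, smul_mul_assoc, e4]
  have hcomm' : ∀ x (Y : Matrix ι ι F), (N x).1 * Y = Y * (N x).1 := by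
    intro x Y
    have hY : Y ∈ Submodule.span F (Set.range fun x : B => (ρ x).1.map (ψ : R →+* F)) := by
      rw [hspan]
      exact Submodule.mem_top
    induction hY using Submodule.span_induction with
    | mem y hy =>
      obtain ⟨b, rfl⟩ := hy
      exact hcomm x b
    | zero => rw [mul_zero, zero_mul]
    | add y z _ _ hy hz => rw [mul_add, add_mul, hy, hz]
    | smul a y _ hy => rw [mul_smul_comm, smul_mul_assoc, hy]
  obtain ⟨i0⟩ := (inferInstance : Nonempty ι)
  have hNs : ∀ x, (N x).1 = ((N x).1 i0 i0) • (1 : Matrix ι ι F) := fun x =>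
    Trans_scalar _ i0 (hcomm' x)
  let c0 : A →* F :=
    { toFun := fun x => (N x).1 i0 i0
      map_one' := by
        rw [map_one, Units.val_one, Matrix.one_apply_eq]
      map_mul' := fun x y => by
        have e1 : (N (x * y)).1 = (N x).1 * (N y).1 := by
          rw [map_mul, Units.val_mul]
        rw [e1]
        conv_lhs => rw [hNs x, smul_mul_assoc, one_mul, Matrix.smul_apply, smul_eq_mul] }
  refine ⟨ψ, (χ.comp r) * c0.toHomUnits, g, hψj, fun x => ?_⟩
  have e5 : (((χ.comp r) * c0.toHomUnits) x : F) = (χ (r x) : F) * (N x).1 i0 i0 := rfl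
  have e6 : (M (Trans_a hF x)).1 = ((N x).1 i0 i0) • (1 : Matrix ι ι F) := by
    rw [← hNM, Units.val_mul, Units.val_mul, hNs x, mul_smul_comm, mul_one, smul_mul_assoc, hgg,
      Matrix.smul_apply, Matrix.one_apply_eq, smul_eq_mul, mul_one]
  have e7 : (M x).1 = (M (i (r x))).1 * (M (Trans_a hF x)).1 := by
    rw [← Units.val_mul, ← map_mul, Trans_a_mul]
  change (M x).1 = _
  rw [e5, e7, e6, hMi, mul_smul_comm, mul_one, smul_smul, mul_comm ((N x).1 i0 i0)]
  rfl

omit [IsDomain R] in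
private theorem Trans_eig (hF : Fac i r) (h : Eig ρ) : Eig (ρ.comp r) := by
  obtain ⟨S, hS, hSE, hgen⟩ := h
  refine ⟨i '' S ∪ (r.ker : Set A), ?_, ?_, ?_⟩
  · rw [eq_top_iff]
    intro x _
    rw [← Trans_a_mul hF x]
    refine Subgroup.mul_mem _ ?_ (Subgroup.subset_closure (Or.inr ?_))
    · have h1 : r x ∈ Subgroup.closure S := by
        rw [hS]
        exact Subgroup.mem_top _
      have h2 : i (r x) ∈ (Subgroup.closure S).map i := ⟨r x, h1, rfl⟩
      rw [MonoidHom.map_closure] at h2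
      exact Subgroup.closure_mono (Set.subset_union_left) h2
    · exact MonoidHom.mem_ker.2 (Trans_ker hF x)
  · rintro s (⟨s, hs, rfl⟩ | hs)
    · obtain ⟨k, u, m, hu1, hu2, hm1, hm2, hj0, hch⟩ := hSE s hs
      refine ⟨k, u, m, hu1, hu2, hm1, hm2, hj0, ?_⟩
      rw [MonoidHom.comp_apply, hF.ri]
      exact hch
    · refine ⟨1, fun _ => 1, fun _ => Fintype.card ι, fun _ => isUnit_one,
        Function.injective_of_subsingleton _, Function.injective_of_subsingleton _,
        fun _ => Fintype.card_pos, ⟨0, rfl⟩, ?_⟩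
      have h1 : r s = 1 := hs
      rw [MonoidHom.comp_apply, h1, map_one, Units.val_one, Matrix.charpoly_one,
        Fin.prod_univ_one, C_1]
  · rw [eq_top_iff, ← hgen]
    refine Algebra.adjoin_mono ?_
    rintro v ⟨w, hvw, s, hs, hv⟩
    refine ⟨w, hvw, i s, Or.inl ⟨s, hs, rfl⟩, ?_⟩
    rw [MonoidHom.comp_apply, hF.ri]
    exact hv

end Trans

/-- **From a factor to the group.** -/
theorem pTrans (h1 : SSpan) : STrans := by
  intro A B _ _ R _ _ _ ι _ _ _ ρ i r hF hρ
  refine ⟨?_, ?_, Trans_rig h1 hF hρ.irr hρ.rig, Trans_eig hF hρ.eig, ?_⟩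
  · rw [eq_top_iff, ← hρ.gen]
    refine Algebra.adjoin_mono ?_
    rintro v ⟨⟨b, k, l⟩, rfl⟩
    refine ⟨(i b, k, l), ?_⟩
    change (ρ (r (i b))).1 k l = (ρ b).1 k l
    rw [hF.ri]
  · rw [eq_top_iff, ← hρ.irr]
    refine Submodule.span_mono ?_
    rintro v ⟨b, rfl⟩
    refine ⟨i b, ?_⟩
    change mK ρ (r (i b)) = mK ρ b
    rw [hF.ri]
  · obtain ⟨k, I, p, hI, hfin⟩ := hρ.fin
    refine ⟨k, I, p, fun j => ⟨?_, (hI j).2⟩, hfin⟩
    intro f θ hT x hx
    obtain ⟨hθ, χ, g, hg⟩ := hT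
    refine (hI j).1 ((r.comp f).comp i) θ ⟨hθ, χ.comp i, g, fun b => ?_⟩ x hx
    have h2 := hg (i b)
    rw [MonoidHom.comp_apply, hF.ri] at h2
    exact h2

end Pool.Agent.Lib.MP_97567f_al.U
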