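import Pool.Agent.Lib.MP_97567f_al.All
import Pool.Agent.Lib.MP_97567f_al.I2.All
import Pool.Agent.Lib.MP_97567f_al.U.AbI
import Pool.Agent.Lib.MP_97567f_al.U.AbO
import Pool.Agent.Lib.MP_97567f_al.U.Adj
import Pool.Agent.Lib.MP_97567f_al.U.All
import Pool.Agent.Lib.MP_97567f_al.U.Art
import Pool.Agent.Lib.MP_97567f_al.U.Ca
import Pool.Agent.Lib.MP_97567f_al.U.Cb
import Pool.Agent.Lib.MP_97567f_al.U.Cc
import Pool.Agent.Lib.MP_97567f_al.U.Cd
import Pool.Agent.Lib.MP_97567f_al.U.Ce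
import Pool.Agent.Lib.MP_97567f_al.U.Cls
import Pool.Agent.Lib.MP_97567f_al.U.Cms
import Pool.Agent.Lib.MP_97567f_al.U.Cw
import Pool.Agent.Lib.MP_97567f_al.U.Eig
import Pool.Agent.Lib.MP_97567f_al.U.Final
import Pool.Agent.Lib.MP_97567f_al.U.Jle
import Pool.Agent.Lib.MP_97567f_al.U.Jnz
import Pool.Agent.Lib.MP_97567f_al.U.Jst
import Pool.Agent.Lib.MP_97567f_al.U.Mach
import Pool.Agent.Lib.MP_97567f_al.U.One
import Pool.Agent.Lib.MP_97567f_al.U.RT
import Pool.Agent.Lib.MP_97567f_al.U.Ren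
import Pool.Agent.Lib.MP_97567f_al.U.Rtm
import Pool.Agent.Lib.MP_97567f_al.U.Slg
import Pool.Agent.Lib.MP_97567f_al.U.Span
import Pool.Agent.Lib.MP_97567f_al.U.Stb
import Pool.Agent.Lib.MP_97567f_al.U.Trans

/-!
# MP_97567f_al: all finite types: the machine and the assembly put together
-/

set_option autoImplicit false

namespace Pool.Agent.Lib.MP_97567f_al.U

theorem uArt : SArt := pArt
theorem uRen : SRen := pRen uArt
theorem uCms : SCms := pCms uArt
theorem uAdj : SAdj := pAdj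
theorem uAll : SAll := pAll pInd pBlk uAdj pAb
theorem uOne : SOne := pOne uArt
theorem uAbI : SAbI := pAbI uArt
theorem uSpan : SSpan := pSpan
theorem uTrans : STrans := pTrans uSpan
theorem uCa : SCa := pCa pComp
theorem uCb : SCb := pCb pRtm
theorem uCc : SCc := pCc uCa uCb pDesc
theorem uEig : SEig := pEig pCd
theorem uCw : SCw := pCw pCe pStb
theorem uRT : SRT := pRT uTrans uCc uEig
theorem uMach : SMach := pMach uSpan uCw
theorem uSlg : SSlg :=
  pSlg uRT uMach pJst pAbO uAbI aRig aLkGen aLKr aIrr aChar aFinU pKerQ pKerF aIdA aIdB aIdC aIdD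
    aFai aLkW aLkA

/-- **The main theorem from the types** `B`, `F₄`, `H₃`, `H₄` and `I₂(m)`. -/
theorem uFinal (hT : Types) : SFinal :=
  pFinal uRen uCms uAll uOne uSlg pCls pRF1 pRF2 pRF3 pFHex hT

end Pool.Agent.Lib.MP_97567f_al.U
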