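import Pool.Agent.Lib.MP_97567f_al.U.SpecM

/-!
# MP_97567f_al: the types H3 and H4 inside D6 and E8: data

`D6`: the Coxeter matrix of type D6 (nodes 1, .., 6 of Mathlib's `E₈`, shifted by one; Mathlib's `CoxeterMatrix.D` is not
used). `Fold M M' p ι`: `ι : Art M → Art M'` maps the generator `s` to the product of the two commuting generators `p s 0`,
`p s 1`. `frp ι`: the Lawrence-Krammer representation of `Art M'` composed with `ι`.
-/

set_option autoImplicit false

namespace Pool.Agent.Lib.MP_97567f_al.U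

/-- The Coxeter matrix of type D6. -/
def D6 : CoxeterMatrix (Fin 6) where
  M := !![1, 2, 3, 2, 2, 2;
          2, 1, 3, 2, 2, 2;
          3, 3, 1, 3, 2, 2;
          2, 2, 3, 1, 3, 2;
          2, 2, 2, 3, 1, 3;
          2, 2, 2, 2, 3, 1]
  isSymm := by decide
  diagonal := by decide
  off_diagonal := by decide

/-- The nodes of D6 over the nodes of H3. -/
def p3 : Fin 3 → Fin 2 → Fin 6 := ![![1, 5], ![2, 4], ![0, 3]]

/-- The nodes of E8 over the nodes of H4. -/
def p4 : Fin 4 → Fin 2 → Fin 8 := ![![0, 7], ![2, 6], ![3, 5], ![1, 4]]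

/-- The folding homomorphism. -/
structure Fold {n k : ℕ} (M : CoxeterMatrix (Fin n)) (M' : CoxeterMatrix (Fin k))
    (p : Fin n → Fin 2 → Fin k) (ι : Art M →* Art M') : Prop where
  ne : ∀ s, p s 0 ≠ p s 1
  na : ∀ s, ¬ adj M' (p s 0) (p s 1)
  im : ∀ s, ι (gn M s) = gn M' (p s 0) * gn M' (p s 1)

/-- The folded representation. -/
noncomputable def frp {n k : ℕ} {M : CoxeterMatrix (Fin n)} {M' : CoxeterMatrix (Fin k)}
    (ι : Art M →* Art M') : Art M →* GL (PR M' Finset.univ) R2 :=
  (LKr M' Finset.univ qq ll).comp ι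

end Pool.Agent.Lib.MP_97567f_al.U
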