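import Pool.Agent.Lib.MP_97567f_al.U.SpecE

/-!
# MP_97567f_al, module U/EBlk: the plane of a node on a bond with label five
-/

set_option autoImplicit false

namespace Pool.Agent.Lib.MP_97567f_al.U

open Polynomial

/-- A path `a - b - c - d` of nodes. -/
private structure EBlk_P {k : ℕ} (M : CoxeterMatrix (Fin k)) (a b c d : Fin k) : Prop where
  ab : adj M a b
  bc : adj M b c
  cd : adj M c d
  nac : ¬ adj M a c
  nbd : ¬ adj M b d
  nad : ¬ adj M a d
  ac : a ≠ c
  bd : b ≠ d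
  ad : a ≠ d

section act

variable {k : ℕ} {M : CoxeterMatrix (Fin k)} {R : Type} [CommRing R] (q l : R)

/-- The image of the own basis vector. -/
private theorem EBlk_s (h1 : SLkA) (hR : RF M) (s : Fin k) :
    (lk M Finset.univ q l s).mulVec (xv M Finset.univ (e s)) = l • xv M Finset.univ (e s) := by
  obtain ⟨-, -, -, hes, hact⟩ := h1 k M hR Finset.univ
  rw [(hact R q l).1 s _ ((hes s).2 (Finset.mem_univ s))]
  unfold img
  rw [if_pos rfl]

/-- Pairing zero. -/
private theorem EBlk_0 (h1 : SLkA) (hR : RF M) (s : Fin k) (β : Fin k → ℤ) (hβ : Rt M β)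
    (hp : pr M β s = 0) (F : Polynomial ℤ) (hf : fh M s β = F) :
    (lk M Finset.univ q l s).mulVec (xv M Finset.univ β) = xv M Finset.univ β +
      (l * aeval q F) • xv M Finset.univ (e s) := by
  obtain ⟨hmem, -, -, -, hact⟩ := h1 k M hR Finset.univ
  rw [(hact R q l).1 s _ ((hmem β).2 ⟨hβ, fun i hi => absurd (Finset.mem_univ i) hi⟩)]
  unfold img
  have h : β ≠ e s := fun h => by rw [h, hR.a.pre] at hp; norm_num at hp
  rw [if_neg h, if_neg (by rw [hp]; norm_num), if_neg (by rw [hp]; norm_num), hf]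

/-- Pairing minus one. -/
private theorem EBlk_m (h1 : SLkA) (hR : RF M) (s : Fin k) (β : Fin k → ℤ) (hβ : Rt M β)
    (hp : pr M β s = -1) (F : Polynomial ℤ) (hf : fh M s β = F) :
    (lk M Finset.univ q l s).mulVec (xv M Finset.univ β) = xv M Finset.univ (β + e s) +
      (1 - q) • xv M Finset.univ β + (l * aeval q F) • xv M Finset.univ (e s) := by
  obtain ⟨hmem, -, -, -, hact⟩ := h1 k M hR Finset.univ
  rw [(hact R q l).1 s _ ((hmem β).2 ⟨hβ, fun i hi => absurd (Finset.mem_univ i) hi⟩)]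
  unfold img
  have h : β ≠ e s := fun h => by rw [h, hR.a.pre] at hp; norm_num at hp
  rw [if_neg h, if_pos hp, hf]

/-- Pairing one. -/
private theorem EBlk_p (h1 : SLkA) (hR : RF M) (s : Fin k) (β γ : Fin k → ℤ) (hβ : Rt M β)
    (hp : pr M β s = 1) (hγ : γ + e s = β) (F : Polynomial ℤ) (hf : fh M s β = F) :
    (lk M Finset.univ q l s).mulVec (xv M Finset.univ β) = q • xv M Finset.univ γ +
      (l * aeval q F) • xv M Finset.univ (e s) := by
  obtain ⟨hmem, -, -, -, hact⟩ := h1 k M hR Finset.univ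
  rw [(hact R q l).1 s _ ((hmem β).2 ⟨hβ, fun i hi => absurd (Finset.mem_univ i) hi⟩)]
  unfold img
  have h : β ≠ e s := fun h => by rw [h, hR.a.pre] at hp; norm_num at hp
  rw [if_neg h, if_neg (by rw [hp]; norm_num), if_pos hp, hf, ← hγ, add_sub_cancel_right]

end act

/-- The pairings, roots and values of the polynomials. -/
private structure EBlk_V {k : ℕ} (M : CoxeterMatrix (Fin k)) (a b c d : Fin k) : Prop where
  -- roots
  rab : Rt M (e a + e b)
  rcd : Rt M (e c + e d)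
  rcb : Rt M (e c + e b)
  rcdb : Rt M (e c + e d + e b)
  -- pairings of simple roots
  pab : pr M (e a) b = -1
  pac : pr M (e a) c = 0
  pad : pr M (e a) d = 0
  pba : pr M (e b) a = -1
  pbc : pr M (e b) c = -1
  pbd : pr M (e b) d = 0
  pca : pr M (e c) a = 0
  pcb : pr M (e c) b = -1
  pcd : pr M (e c) d = -1
  pda : pr M (e d) a = 0
  pdb : pr M (e d) b = 0
  pdc : pr M (e d) c = -1
  -- pairings of composite roots
  pab_a : pr M (e a + e b) a = 1
  pab_b : pr M (e a + e b) b = 1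
  pab_c : pr M (e a + e b) c = -1
  pab_d : pr M (e a + e b) d = 0
  pcb_a : pr M (e c + e b) a = -1
  pcb_b : pr M (e c + e b) b = 1
  pcb_c : pr M (e c + e b) c = 1
  pcb_d : pr M (e c + e b) d = -1
  pcd_a : pr M (e c + e d) a = 0
  pcd_b : pr M (e c + e d) b = -1
  pcd_c : pr M (e c + e d) c = 1
  pcd_d : pr M (e c + e d) d = 1
  pcdb_a : pr M (e c + e d + e b) a = -1
  pcdb_b : pr M (e c + e d + e b) b = 1
  pcdb_c : pr M (e c + e d + e b) c = 0
  pcdb_d : pr M (e c + e d + e b) d = 1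
  -- values for simple roots
  fab : fh M a (e b) = 0
  fac : fh M a (e c) = 0
  fad : fh M a (e d) = 0
  fba : fh M b (e a) = 0
  fbc : fh M b (e c) = 0
  fbd : fh M b (e d) = 0
  fca : fh M c (e a) = 0
  fcb : fh M c (e b) = 0
  fcd : fh M c (e d) = 0
  fda : fh M d (e a) = 0
  fdb : fh M d (e b) = 0
  fdc : fh M d (e c) = 0
  -- values for composite roots
  fa_ab : fh M a (e a + e b) = -(1 - X)
  fa_ba : fh M a (e b + e a) = -(1 - X)
  fb_ab : fh M b (e a + e b) = -(1 - X)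
  fc_ab : fh M c (e a + e b) = 0
  fd_ab : fh M d (e a + e b) = 0
  fa_cb : fh M a (e c + e b) = 0
  fb_cb : fh M b (e c + e b) = -(1 - X)
  fc_cb : fh M c (e c + e b) = -(1 - X)
  fc_bc : fh M c (e b + e c) = -(1 - X)
  fd_cb : fh M d (e c + e b) = 0
  fa_cd : fh M a (e c + e d) = 0
  fb_cd : fh M b (e c + e d) = 0
  fc_cd : fh M c (e c + e d) = -(1 - X)
  fc_dc : fh M c (e d + e c) = -(1 - X)
  fd_cd : fh M d (e c + e d) = -(1 - X)
  fa_cdb : fh M a (e c + e d + e b) = 0
  fb_cdb : fh M b (e c + e d + e b) = -(1 - X) * X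
  fc_cdb : fh M c (e c + e d + e b) = (1 - X) ^ 2
  fd_cdb : fh M d (e c + e d + e b) = -(1 - X) * X
  fa_cba : fh M a (e c + e b + e a) = -(1 - X) * X
  fc_abc : fh M c (e a + e b + e c) = -(1 - X) * X
  fa_cdba : fh M a (e c + e d + e b + e a) = -(1 - X) * X ^ 2

private theorem EBlk_vals {k : ℕ} {M : CoxeterMatrix (Fin k)} (hR : RF M) (hF : FH M (fh M))
    {a b c d : Fin k} (h : EBlk_P M a b c d) : EBlk_V M a b c d := by
  obtain ⟨ab, bc, cd, nac, nbd, nad, ac, bd, ad⟩ := h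
  have ba := adj_symm ab
  have cb := adj_symm bc
  have dc := adj_symm cd
  have nca : ¬ adj M c a := fun h => nac (adj_symm h)
  have ndb : ¬ adj M d b := fun h => nbd (adj_symm h)
  have nda : ¬ adj M d a := fun h => nad (adj_symm h)
  have pab := hR.a.pra a b ab
  have pba := hR.a.pra b a ba
  have pbc := hR.a.pra b c bc
  have pcb := hR.a.pra c b cb
  have pcd := hR.a.pra c d cd
  have pdc := hR.a.pra d c dc
  have pac := hR.a.prn a c ac nac
  have pca := hR.a.prn c a ac.symm nca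
  have pbd := hR.a.prn b d bd nbd
  have pdb := hR.a.prn d b bd.symm ndb
  have pad := hR.a.prn a d ad nad
  have pda := hR.a.prn d a ad.symm nda
  have paa := hR.a.pre a
  have pbb := hR.a.pre b
  have pcc := hR.a.pre c
  have pdd := hR.a.pre d
  have ra := hR.a.simple a
  have rb := hR.a.simple b
  have rc := hR.a.simple c
  have rd := hR.a.simple d
  have pab_a : pr M (e a + e b) a = 1 := by rw [hR.a.pr_add, paa, pba]; norm_num
  have pab_b : pr M (e a + e b) b = 1 := by rw [hR.a.pr_add, pab, pbb]; norm_num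
  have pab_c : pr M (e a + e b) c = -1 := by rw [hR.a.pr_add, pac, pbc]; norm_num
  have pab_d : pr M (e a + e b) d = 0 := by rw [hR.a.pr_add, pad, pbd]; norm_num
  have pcb_a : pr M (e c + e b) a = -1 := by rw [hR.a.pr_add, pca, pba]; norm_num
  have pcb_b : pr M (e c + e b) b = 1 := by rw [hR.a.pr_add, pcb, pbb]; norm_num
  have pcb_c : pr M (e c + e b) c = 1 := by rw [hR.a.pr_add, pcc, pbc]; norm_num
  have pcb_d : pr M (e c + e b) d = -1 := by rw [hR.a.pr_add, pcd, pbd]; norm_num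
  have pcd_a : pr M (e c + e d) a = 0 := by rw [hR.a.pr_add, pca, pda]; norm_num
  have pcd_b : pr M (e c + e d) b = -1 := by rw [hR.a.pr_add, pcb, pdb]; norm_num
  have pcd_c : pr M (e c + e d) c = 1 := by rw [hR.a.pr_add, pcc, pdc]; norm_num
  have pcd_d : pr M (e c + e d) d = 1 := by rw [hR.a.pr_add, pcd, pdd]; norm_num
  have pcdb_a : pr M (e c + e d + e b) a = -1 := by rw [hR.a.pr_add, pcd_a, pba]; norm_num
  have pcdb_b : pr M (e c + e d + e b) b = 1 := by rw [hR.a.pr_add, pcd_b, pbb]; norm_num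
  have pcdb_c : pr M (e c + e d + e b) c = 0 := by rw [hR.a.pr_add, pcd_c, pbc]; norm_num
  have pcdb_d : pr M (e c + e d + e b) d = 1 := by rw [hR.a.pr_add, pcd_d, pbd]; norm_num
  have rab : Rt M (e a + e b) := hR.a.up _ _ ra pab
  have rcd : Rt M (e c + e d) := hR.a.up _ _ rc pcd
  have rcb : Rt M (e c + e b) := hR.a.up _ _ rc pcb
  have rcdb : Rt M (e c + e d + e b) := hR.a.up _ _ rcd pcd_b
  have hab : ht (e a + e b) = 2 := by rw [hR.b.htu _ _ ra, hR.b.hte]
  have hcd : ht (e c + e d) = 2 := by rw [hR.b.htu _ _ rc, hR.b.hte]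
  have hcb : ht (e c + e b) = 2 := by rw [hR.b.htu _ _ rc, hR.b.hte]
  have hcdb : ht (e c + e d + e b) = 3 := by rw [hR.b.htu _ _ rcd, hcd]
  have pcba_a : pr M (e c + e b + e a) a = 1 := by rw [hR.a.pr_add, pcb_a, paa]; norm_num
  have rcba : Rt M (e c + e b + e a) := hR.a.up _ _ rcb pcb_a
  have hcba : ht (e c + e b + e a) = 3 := by rw [hR.b.htu _ _ rcb, hcb]
  have pabc_c : pr M (e a + e b + e c) c = 1 := by rw [hR.a.pr_add, pab_c, pcc]; norm_num
  have rabc : Rt M (e a + e b + e c) := hR.a.up _ _ rab pab_c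
  have habc : ht (e a + e b + e c) = 3 := by rw [hR.b.htu _ _ rab, hab]
  have pcdba_a : pr M (e c + e d + e b + e a) a = 1 := by
    rw [hR.a.pr_add, pcdb_a, paa]; norm_num
  have rcdba : Rt M (e c + e d + e b + e a) := hR.a.up _ _ rcdb pcdb_a
  have hcdba : ht (e c + e d + e b + e a) = 4 := by rw [hR.b.htu _ _ rcdb, hcdb]
  have f2 : ∀ s β, Rt M β → pr M β s = 1 → ht β = 2 → fh M s β = -(1 - X) := by
    intro s β h1 h2 h3
    rw [hF.one s β h1 h2, h3]
    norm_num
  have f3 : ∀ s β, Rt M β → pr M β s = 1 → ht β = 3 → fh M s β = -(1 - X) * X := by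
    intro s β h1 h2 h3
    rw [hF.one s β h1 h2, h3]
    norm_num
  have f4 : ∀ s β, Rt M β → pr M β s = 1 → ht β = 4 → fh M s β = -(1 - X) * X ^ 2 := by
    intro s β h1 h2 h3
    rw [hF.one s β h1 h2, h3]
  have nab := adj_ne ab
  have nbc := adj_ne bc
  have ncd := adj_ne cd
  have fab := hF.simple a b nab
  have fac := hF.simple a c ac
  have fad := hF.simple a d ad
  have fba := hF.simple b a nab.symm
  have fbc := hF.simple b c nbc
  have fbd := hF.simple b d bd
  have fca := hF.simple c a ac.symm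
  have fcb := hF.simple c b nbc.symm
  have fcd := hF.simple c d ncd
  have fda := hF.simple d a ad.symm
  have fdb := hF.simple d b bd.symm
  have fdc := hF.simple d c ncd.symm
  have fa_ab := f2 a _ rab pab_a hab
  have fc_cb := f2 c _ rcb pcb_c hcb
  have fc_cd := f2 c _ rcd pcd_c hcd
  have fa_cb : fh M a (e c + e b) = 0 := by
    rw [add_comm, hF.comm a c (e b) ac nac rb pbc, fab, mul_zero]
  have fc_cdb : fh M c (e c + e d + e b) = (1 - X) ^ 2 := by
    rw [hF.r1 c b _ cb rcd pcd_c pcd_b, add_sub_cancel_left, fbd, fc_cd]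
    ring
  have fa_cdb : fh M a (e c + e d + e b) = 0 := by
    rw [show e c + e d + e b = e c + e b + e d by abel,
      hF.comm a d _ ad nad rcb pcb_d, fa_cb, mul_zero]
  exact
    { rab := rab, rcd := rcd, rcb := rcb, rcdb := rcdb
      pab := pab, pac := pac, pad := pad, pba := pba, pbc := pbc, pbd := pbd
      pca := pca, pcb := pcb, pcd := pcd, pda := pda, pdb := pdb, pdc := pdc
      pab_a := pab_a, pab_b := pab_b, pab_c := pab_c, pab_d := pab_d
      pcb_a := pcb_a, pcb_b := pcb_b, pcb_c := pcb_c, pcb_d := pcb_d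
      pcd_a := pcd_a, pcd_b := pcd_b, pcd_c := pcd_c, pcd_d := pcd_d
      pcdb_a := pcdb_a, pcdb_b := pcdb_b, pcdb_c := pcdb_c, pcdb_d := pcdb_d
      fab := fab, fac := fac, fad := fad, fba := fba, fbc := fbc, fbd := fbd
      fca := fca, fcb := fcb, fcd := fcd, fda := fda, fdb := fdb, fdc := fdc
      fa_ab := fa_ab
      fa_ba := by rw [add_comm, fa_ab]
      fb_ab := f2 b _ rab pab_b hab
      fc_ab := by rw [add_comm, hF.comm c a (e b) ac.symm nca rb pba, fcb, mul_zero]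
      fd_ab := by rw [add_comm, hF.comm d a (e b) ad.symm nda rb pba, fdb, mul_zero]
      fa_cb := fa_cb
      fb_cb := f2 b _ rcb pcb_b hcb
      fc_cb := fc_cb
      fc_bc := by rw [add_comm, fc_cb]
      fd_cb := by rw [hF.comm d b (e c) bd.symm ndb rc pcb, fdc, mul_zero]
      fa_cd := by rw [hF.comm a d (e c) ad nad rc pcd, fac, mul_zero]
      fb_cd := by rw [hF.comm b d (e c) bd nbd rc pcd, fbc, mul_zero]
      fc_cd := fc_cd
      fc_dc := by rw [add_comm, fc_cd]
      fd_cd := f2 d _ rcd pcd_d hcd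
      fa_cdb := fa_cdb
      fb_cdb := f3 b _ rcdb pcdb_b hcdb
      fc_cdb := fc_cdb
      fd_cdb := f3 d _ rcdb pcdb_d hcdb
      fa_cba := f3 a _ rcba pcba_a hcba
      fc_abc := f3 c _ rabc pabc_c habc
      fa_cdba := f4 a _ rcdba pcdba_a hcdba }

section main

variable {k : ℕ} {M : CoxeterMatrix (Fin k)} {R : Type} [CommRing R] (q l : R)

/-- The images under the product of the generators `b` and `d`. -/
private theorem EBlk_T (h1 : SLkA) (hR : RF M) {a b c d : Fin k} (V : EBlk_V M a b c d) :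
    (lk M Finset.univ q l b * lk M Finset.univ q l d).mulVec (xv M Finset.univ (e a)) =
      xv M Finset.univ (e a + e b) + (1 - q) • xv M Finset.univ (e a) ∧
    (lk M Finset.univ q l b * lk M Finset.univ q l d).mulVec (xv M Finset.univ (e c)) =
      xv M Finset.univ (e c + e d + e b) + (1 - q) • xv M Finset.univ (e c + e d) +
        (1 - q) • (xv M Finset.univ (e c + e b) + (1 - q) • xv M Finset.univ (e c)) ∧
    (lk M Finset.univ q l b * lk M Finset.univ q l d).mulVec (xv M Finset.univ (e a + e b)) =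
      q • xv M Finset.univ (e a) + (l * (q - 1)) • xv M Finset.univ (e b) ∧
    (lk M Finset.univ q l b * lk M Finset.univ q l d).mulVec (xv M Finset.univ (e c + e d)) =
      q • xv M Finset.univ (e c + e b) + (q * (1 - q)) • xv M Finset.univ (e c) +
        (l * (q - 1)) • xv M Finset.univ (e d) ∧
    (lk M Finset.univ q l b * lk M Finset.univ q l d).mulVec (xv M Finset.univ (e c + e b)) =
      q • xv M Finset.univ (e c + e d) + (q * (1 - q)) • xv M Finset.univ (e c) +
        (l * (q - 1)) • xv M Finset.univ (e b) ∧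
    (lk M Finset.univ q l b * lk M Finset.univ q l d).mulVec
        (xv M Finset.univ (e c + e d + e b)) =
      (q ^ 2) • xv M Finset.univ (e c) + (q * l * (q - 1)) • xv M Finset.univ (e b) +
        (l * q * (q - 1)) • xv M Finset.univ (e d) := by
  have ra := hR.a.simple a
  have rc := hR.a.simple c
  have rd := hR.a.simple d
  -- images under the generator of d
  have d_a := EBlk_0 q l h1 hR d _ ra V.pad _ V.fda
  have d_c := EBlk_m q l h1 hR d _ rc V.pcd _ V.fdc
  have d_ab := EBlk_0 q l h1 hR d _ V.rab V.pab_d _ V.fd_ab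
  have d_cd := EBlk_p q l h1 hR d _ (e c) V.rcd V.pcd_d rfl _ V.fd_cd
  have d_cb := EBlk_m q l h1 hR d _ V.rcb V.pcb_d _ V.fd_cb
  have d_cdb := EBlk_p q l h1 hR d _ (e c + e b) V.rcdb V.pcdb_d (by abel) _ V.fd_cdb
  -- images under the generator of b
  have b_a := EBlk_m q l h1 hR b _ ra V.pab _ V.fba
  have b_c := EBlk_m q l h1 hR b _ rc V.pcb _ V.fbc
  have b_d := EBlk_0 q l h1 hR b _ rd V.pdb _ V.fbd
  have b_ab := EBlk_p q l h1 hR b _ (e a) V.rab V.pab_b rfl _ V.fb_ab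
  have b_cd := EBlk_m q l h1 hR b _ V.rcd V.pcd_b _ V.fb_cd
  have b_cb := EBlk_p q l h1 hR b _ (e c) V.rcb V.pcb_b rfl _ V.fb_cb
  have b_cdb := EBlk_p q l h1 hR b _ (e c + e d) V.rcdb V.pcdb_b rfl _ V.fb_cdb
  rw [show e c + e b + e d = e c + e d + e b by abel] at d_cb
  simp only [map_neg, map_sub, map_one, aeval_X, map_mul, map_zero, mul_zero, zero_smul,
    add_zero] at d_a d_c d_ab d_cd d_cb d_cdb b_a b_c b_d b_ab b_cd b_cb b_cdb
  simp only [← Matrix.mulVec_mulVec]
  refine ⟨?_, ?_, ?_, ?_, ?_, ?_⟩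
  · rw [d_a, b_a]
  · rw [d_c, Matrix.mulVec_add, Matrix.mulVec_smul, b_cd, b_c]
  · rw [d_ab, b_ab]
    module
  · rw [d_cd, Matrix.mulVec_add, Matrix.mulVec_smul, Matrix.mulVec_smul, b_c, b_d]
    module
  · rw [d_cb, Matrix.mulVec_add, Matrix.mulVec_smul, b_cdb, b_cb]
    module
  · rw [d_cdb, Matrix.mulVec_add, Matrix.mulVec_smul, Matrix.mulVec_smul, b_cb, b_d]
    module

/-- The values of the functionals of the nodes `a` and `c`. -/
private theorem EBlk_F (hR : RF M) {a b c d : Fin k} (V : EBlk_V M a b c d)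
    (ac : a ≠ c) :
    (cubf M q l a (e a) = (l - 1) * (l + q) ∧ cubf M q l a (e b) = l * (q - 1) ∧
      cubf M q l a (e c) = 0 ∧ cubf M q l a (e d) = 0 ∧
      cubf M q l a (e a + e b) = (l + q - 1) * (l * (q - 1)) ∧
      cubf M q l a (e c + e b) = l * q * (q - 1) ∧
      cubf M q l a (e c + e d) = 0 ∧
      cubf M q l a (e c + e d + e b) = l * (q - 1) * q ^ 2) ∧
    (cubf M q l c (e a) = 0 ∧ cubf M q l c (e b) = l * (q - 1) ∧
      cubf M q l c (e c) = (l - 1) * (l + q) ∧ cubf M q l c (e d) = l * (q - 1) ∧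
      cubf M q l c (e a + e b) = l * q * (q - 1) ∧
      cubf M q l c (e c + e b) = (l + q - 1) * (l * (q - 1)) ∧
      cubf M q l c (e c + e d) = (l + q - 1) * (l * (q - 1)) ∧
      cubf M q l c (e c + e d + e b) = (l + q) * l * (1 - q) ^ 2) := by
  have s : ∀ i, cubf M q l i (e i) = (l - 1) * (l + q) := fun i => by
    unfold cubf
    rw [if_pos rfl]
  have z : ∀ i β, pr M β i = 0 → cubf M q l i β = (l + q) * (l * aeval q (fh M i β)) := by
    intro i β hp
    unfold cubf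
    have h : β ≠ e i := fun h => by rw [h, hR.a.pre] at hp; norm_num at hp
    rw [if_neg h, if_pos hp]
  have m : ∀ i β, pr M β i = -1 → cubf M q l i β =
      l * aeval q (fh M i (β + e i)) + l * (l * aeval q (fh M i β)) := by
    intro i β hp
    unfold cubf
    have h : β ≠ e i := fun h => by rw [h, hR.a.pre] at hp; norm_num at hp
    rw [if_neg h, if_neg (by rw [hp]; norm_num), if_pos hp]
  have o : ∀ i β γ, pr M β i = 1 → γ + e i = β → cubf M q l i β =
      q * (l * aeval q (fh M i γ)) + (l + q - 1) * (l * aeval q (fh M i β)) := by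
    intro i β γ hp hγ
    unfold cubf
    have h : β ≠ e i := fun h => by rw [h, hR.a.pre] at hp; norm_num at hp
    rw [if_neg h, if_neg (by rw [hp]; norm_num), if_neg (by rw [hp]; norm_num), ← hγ,
      add_sub_cancel_right]
  refine ⟨⟨s a, ?_, ?_, ?_, ?_, ?_, ?_, ?_⟩, ?_, ?_, s c, ?_, ?_, ?_, ?_, ?_⟩
  · rw [m _ _ V.pba, V.fa_ba, V.fab]
    simp only [map_neg, map_sub, map_one, aeval_X, map_zero]
    ring
  · rw [z _ _ V.pca, V.fac, map_zero, mul_zero, mul_zero]
  · rw [z _ _ V.pda, V.fad, map_zero, mul_zero, mul_zero]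
  · rw [o _ _ (e b) V.pab_a (add_comm _ _), V.fab, V.fa_ab]
    simp only [map_neg, map_sub, map_one, aeval_X, map_zero]
    ring
  · rw [m _ _ V.pcb_a, V.fa_cba, V.fa_cb]
    simp only [map_neg, map_sub, map_one, aeval_X, map_zero, map_mul]
    ring
  · rw [z _ _ V.pcd_a, V.fa_cd, map_zero, mul_zero, mul_zero]
  · rw [m _ _ V.pcdb_a, V.fa_cdba, V.fa_cdb]
    simp only [map_neg, map_sub, map_one, aeval_X, map_zero, map_mul, map_pow]
    ring
  · rw [z _ _ V.pac, V.fca, map_zero, mul_zero, mul_zero]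
  · rw [m _ _ V.pbc, V.fc_bc, V.fcb]
    simp only [map_neg, map_sub, map_one, aeval_X, map_zero]
    ring
  · rw [m _ _ V.pdc, V.fc_dc, V.fcd]
    simp only [map_neg, map_sub, map_one, aeval_X, map_zero]
    ring
  · rw [m _ _ V.pab_c, V.fc_abc, V.fc_ab]
    simp only [map_neg, map_sub, map_one, aeval_X, map_zero, map_mul]
    ring
  · rw [o _ _ (e b) V.pcb_c (add_comm _ _), V.fcb, V.fc_cb]
    simp only [map_neg, map_sub, map_one, aeval_X, map_zero]
    ring
  · rw [o _ _ (e d) V.pcd_c (add_comm _ _), V.fcd, V.fc_cd]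
    simp only [map_neg, map_sub, map_one, aeval_X, map_zero]
    ring
  · rw [z _ _ V.pcdb_c, V.fc_cdb]
    simp only [map_sub, map_one, aeval_X, map_pow]
    ring

/-- The eight products. -/
private theorem EBlk_E (h1 : SLkA) (h3 : SEFun) (hR : RF M) {a b c d : Fin k}
    (V : EBlk_V M a b c d) (ac : a ≠ c) (T : Matrix (PR M Finset.univ) (PR M Finset.univ) R)
    (hT : T = lk M Finset.univ q l b * lk M Finset.univ q l d) :
    ((cub M q l a).mulVec (T.mulVec (xv M Finset.univ (e a))) =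
      (q * (q - 1)) • xv M Finset.univ (e a) ∧
    (cub M q l a).mulVec (T.mulVec (xv M Finset.univ (e c))) =
      (q * l * (q - 1)) • xv M Finset.univ (e a) ∧
    (cub M q l c).mulVec (T.mulVec (xv M Finset.univ (e a))) =
      (q * l * (q - 1)) • xv M Finset.univ (e c) ∧
    (cub M q l c).mulVec (T.mulVec (xv M Finset.univ (e c))) =
      ((1 - q) ^ 2 * (l - q)) • xv M Finset.univ (e c)) ∧
    (cub M q l a).mulVec ((T * T).mulVec (xv M Finset.univ (e a))) =
      ((q + (1 - q) ^ 2) * ((l - 1) * (l + q)) + l ^ 2 * (q - 1) ^ 2 +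
        (1 - q) * ((l + q - 1) * (l * (q - 1)))) • xv M Finset.univ (e a) ∧
    (cub M q l a).mulVec ((T * T).mulVec (xv M Finset.univ (e c))) =
      (l * (q - 1) ^ 2 * (l - q)) • xv M Finset.univ (e a) ∧
    (cub M q l c).mulVec ((T * T).mulVec (xv M Finset.univ (e a))) =
      (l * (q - 1) ^ 2 * (l - q)) • xv M Finset.univ (e c) ∧
    (cub M q l c).mulVec ((T * T).mulVec (xv M Finset.univ (e c))) =
      ((q ^ 2 + 2 * q * (1 - q) ^ 2 + (1 - q) ^ 4) * ((l - 1) * (l + q)) +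
        2 * l ^ 2 * (q - 1) ^ 2 +
        2 * (q * (1 - q) + (1 - q) ^ 3) * ((l + q - 1) * (l * (q - 1))) +
        (1 - q) ^ 2 * ((l + q) * l * (1 - q) ^ 2)) • xv M Finset.univ (e c) := by
  obtain ⟨Ta, Tc, Tab, Tcd, Tcb, Tcdb⟩ := EBlk_T q l h1 hR V
  rw [← hT] at Ta Tc Tab Tcd Tcb Tcdb
  obtain ⟨⟨Fa_a, Fa_b, Fa_c, Fa_d, Fa_ab, Fa_cb, Fa_cd, Fa_cdb⟩, Fc_a, Fc_b, Fc_c, Fc_d, Fc_ab,
    Fc_cb, Fc_cd, Fc_cdb⟩ := EBlk_F q l hR V ac
  have hmem : ∀ β, Rt M β → β ∈ roots M Finset.univ := fun β hβ =>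
    ((h1 k M hR Finset.univ).1 β).2 ⟨hβ, fun i hi => absurd (Finset.mem_univ i) hi⟩
  have C : ∀ i β, Rt M β → ∀ x : R, cubf M q l i β = x →
      (cub M q l i).mulVec (xv M Finset.univ β) = x • xv M Finset.univ (e i) := by
    intro i β hβ x hx
    rw [← hx]
    exact h3 k M hR R q l i β (hmem β hβ)
  have ra := hR.a.simple a
  have rb := hR.a.simple b
  have rc := hR.a.simple c
  have rd := hR.a.simple d
  have Ca_a := C a _ ra _ Fa_a
  have Ca_b := C a _ rb _ Fa_b
  have Ca_c := C a _ rc _ Fa_c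
  have Ca_d := C a _ rd _ Fa_d
  have Ca_ab := C a _ V.rab _ Fa_ab
  have Ca_cb := C a _ V.rcb _ Fa_cb
  have Ca_cd := C a _ V.rcd _ Fa_cd
  have Ca_cdb := C a _ V.rcdb _ Fa_cdb
  have Cc_a := C c _ ra _ Fc_a
  have Cc_b := C c _ rb _ Fc_b
  have Cc_c := C c _ rc _ Fc_c
  have Cc_d := C c _ rd _ Fc_d
  have Cc_ab := C c _ V.rab _ Fc_ab
  have Cc_cb := C c _ V.rcb _ Fc_cb
  have Cc_cd := C c _ V.rcd _ Fc_cd
  have Cc_cdb := C c _ V.rcdb _ Fc_cdb
  simp only [← Matrix.mulVec_mulVec, Ta, Tc, Matrix.mulVec_add, Matrix.mulVec_smul, Tab, Tcd, Tcb,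
    Tcdb, Ca_a, Ca_b, Ca_c, Ca_d, Ca_ab, Ca_cb, Ca_cd, Ca_cdb, Cc_a, Cc_b, Cc_c, Cc_d, Cc_ab,
    Cc_cb, Cc_cd, Cc_cdb]
  refine ⟨⟨?_, ?_, ?_, ?_⟩, ?_, ?_, ?_, ?_⟩
  · module
  · module
  · module
  · module
  · module
  · module
  · module
  · module

end main

theorem pEBlk (h1 : SLkA) (h2 : SLKr) (h3 : SEFun) : SEBlk := by
  intro n k M M' p ι s t hM hR hF hι hab hbc hcd had hne
  obtain ⟨hx, hy, hz⟩ := hι
  have hP : EBlk_P M' (p s 0) (p t 0) (p s 1) (p t 1) :=
    ⟨hab, hbc, hcd, hy s, hy t, had, hx s, hx t, hne⟩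
  have V := EBlk_vals hR hF hP
  have hsat : Sat M' (Finset.univ : Finset (Fin k)) := fun _ _ j _ => Finset.mem_univ j
  have hu : (frp ι (gn M t)).1 =
      lk M' Finset.univ qq ll (p t 0) * lk M' Finset.univ qq ll (p t 1) := by
    unfold frp
    rw [MonoidHom.comp_apply, hz, map_mul, Units.val_mul,
      (h2 k M' hM hR hF _ hsat).1 R2 qq ll qq_unit ll_unit,
      (h2 k M' hM hR hF _ hsat).1 R2 qq ll qq_unit ll_unit]
  have hv : (frp ι (gn M t * gn M t)).1 = (frp ι (gn M t)).1 * (frp ι (gn M t)).1 := by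
    rw [map_mul, Units.val_mul]
  obtain ⟨⟨E1, E2, E3, E4⟩, E5, E6, E7, E8⟩ := EBlk_E qq ll h1 h3 hR V (hx s) _ hu
  rw [← hv] at E5 E6 E7 E8
  refine ⟨gn M t, gn M t * gn M t, _, _, _, _, _, _, ?_, E1, E2, E3, E4, E5, E6, E7, E8⟩
  intro h
  obtain ⟨φ, hq, hl⟩ := R2_lift (S := ℂ) (a := 2) (b := 3)
    (isUnit_iff_ne_zero.2 (by norm_num)) (isUnit_iff_ne_zero.2 (by norm_num))
  have h5 := congrArg φ h
  simp only [map_mul, map_sub, map_add, map_pow, map_one, map_ofNat, hq, hl] at h5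
  norm_num at h5

end Pool.Agent.Lib.MP_97567f_al.U
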