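import Pool.Agent.Lib.MP_97567f_al.U.HDat

/-!
# MP_97567f_al: the types H3 and H4: irreducibility, characteristic polynomials, special curves (statements)

Every statement is a proposition `SName`; the module `U/Name.lean` proves `pName : SName`, or, if the docstring names
other statements, `pName` takes these as hypotheses. `M'` is simply laced, `Fold M M' p ι`, `ρ = frp ι` the Lawrence-Krammer
representation of `Art M'` restricted to `Art M`.
-/

set_option autoImplicit false

namespace Pool.Agent.Lib.MP_97567f_al.U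

open Polynomial

section

/-- The cubic operator `(g i - 1) (g i + q)` of the node `i`. -/
noncomputable def cub {k : ℕ} (M' : CoxeterMatrix (Fin k)) {R : Type} [CommRing R] (q l : R) (i : Fin k) :
    Matrix (PR M' Finset.univ) (PR M' Finset.univ) R :=
  (lk M' Finset.univ q l i - 1) * (lk M' Finset.univ q l i + q • (1 : Matrix _ _ R))

/-- The values of the functional of the cubic operator. -/
noncomputable def cubf {k : ℕ} (M' : CoxeterMatrix (Fin k)) {R : Type} [CommRing R] (q l : R) (i : Fin k)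
    (b : Fin k → ℤ) : R :=
  if b = e i then (l - 1) * (l + q)
  else if pr M' b i = 0 then (l + q) * (l * aeval q (fh M' i b))
  else if pr M' b i = -1 then l * aeval q (fh M' i (b + e i)) + l * (l * aeval q (fh M' i b))
  else q * (l * aeval q (fh M' i (b - e i))) + (l + q - 1) * (l * aeval q (fh M' i b))

/-- **The functional of the cubic operator** (from `SLkA`, 80 lines).
Proof. Write `g = lk i`, `x b = xv b`, `f b = l * aeval q (fh i b)`; `(g - 1) (g + q) x = g (g x + q x) - (g x + q x)`. `b = e i`: `g x = l x`. `pr b i = 0`: `g x = x + f x_i`, `(g + q) x = (1 + q) x + f x_i`, `g - 1` of it: `(1 + q) f x_i + f (l - 1) x_i`. `pr b i = -1`: with `y = x (b + e i)`, `f' = f (b + e i)`: `g x = y + (1 - q) x + f x_i`,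
`g y = q x + f' x_i` (`pr (b + e i) i = 1`, `b + e i ≠ e i`), `(g + q) x = y + x + f x_i`, `g - 1` of it: `q x + f' x_i + y + (1 - q) x + f x_i + f l x_i - y - x - f x_i = (f' + l f) x_i`. `pr b i = 1`, `b ≠ e i`: with `y = x (b - e i)`, `f' = f (b - e i)`: `g x = q y + f x_i`, `g y = x + (1 - q) y + f' x_i`, `(g + q) x = q y + q x + f x_i`,
`g - 1` of it: `q (x + (1 - q) y + f' x_i) + q (q y + f x_i) + f l x_i - q y - q x - f x_i = (q f' + (l + q - 1) f) x_i`. Other pairings do not occur (`RF1.bnd`). -/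
def SEFun : Prop :=
  ∀ (k : ℕ) (M' : CoxeterMatrix (Fin k)), RF M' → ∀ (R : Type) [CommRing R] (q l : R) (i : Fin k),
    ∀ b ∈ roots M' Finset.univ, (cub M' q l i).mulVec (xv M' Finset.univ b) =
      cubf M' q l i b • xv M' Finset.univ (e i)

/-- **Products of two commuting generators** (from `SLkA`, `SLkC`, `SEFun`, 120 lines).
Proof. `A = lk i`, `B = lk j`, commuting (`SLkC`), `E = cub i`, `E' = cub j`. Rules: `A² = (1 - q) A + q + E`, `B² = (1 - q) B + q + E'` (definition of `cub`); `A E = E A = l E`, `B E = E B = E` (`E v` is a multiple of `x_i`, `lk i x_i = l x_i`, `lk j x_i = x_i` as `fh j (e i) = 0`; `E` is a polynomial in `A`, so it commutes with `A` and `B`), in the same way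
`A E' = E' A = E'`, `B E' = E' B = l E'`, and `E E' = 0` (`cubf i (e j) = 0`: the pairing and `fh i (e j)` are `0`). Let `a = 1 - q + q²`, `b = q (1 - q)`, `c = 1 - q + l`. Then `A³ = a A + b + c E`, `B³ = a B + b + c E'`, and with `G = A B`: `G² = A² B² = (1 - q)² G + b (A + B) + q² + E + E'`,
`G³ = A³ B³ = a² G + a b (A + B) + b² + c (E + E')` (use `a + b = 1`). `(G - 1) (G + q) (G - q²) = G³ - a G² - q a G + q³`; the coefficient of `A + B` is `a b - a b = 0`, the constant `b² - a q² + q³ = 0`, that of `G` is `a² - a (1 - q)² - q a = 0` (as `a - (1 - q)² = q`), that of `E + E'` is `c - a = l - q²`. The last two parts: `G x_i = A B x_i = l x_i`. -/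
def SEPro : Prop :=
  ∀ (k : ℕ) (M' : CoxeterMatrix (Fin k)), SL M' → RF M' → FH M' (fh M') → ∀ (R : Type) [CommRing R]
    (q l : R) (i j : Fin k), i ≠ j → ¬ adj M' i j →
    let G := lk M' Finset.univ q l i * lk M' Finset.univ q l j
    (G - 1) * (G + q • (1 : Matrix _ _ R)) * (G - (q ^ 2) • (1 : Matrix _ _ R)) =
      (l - q ^ 2) • (cub M' q l i + cub M' q l j) ∧
    G.mulVec (xv M' Finset.univ (e i)) = l • xv M' Finset.univ (e i) ∧
    G.mulVec (xv M' Finset.univ (e j)) = l • xv M' Finset.univ (e j)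

/-- The condition on the plane of the node `s`: two elements act by symmetric noncommuting matrices. -/
def Blk {n k : ℕ} {M : CoxeterMatrix (Fin n)} (M' : CoxeterMatrix (Fin k)) (ι : Art M →* Art M')
    (i j : Fin k) : Prop :=
  ∃ (u v : Art M) (A B C A' B' C' : R2), B * (A' - C') ≠ B' * (A - C) ∧
    (cub M' qq ll i).mulVec ((frp ι u).1.mulVec (xv M' Finset.univ (e i))) =
      A • xv M' Finset.univ (e i) ∧
    (cub M' qq ll i).mulVec ((frp ι u).1.mulVec (xv M' Finset.univ (e j))) =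
      B • xv M' Finset.univ (e i) ∧
    (cub M' qq ll j).mulVec ((frp ι u).1.mulVec (xv M' Finset.univ (e i))) =
      B • xv M' Finset.univ (e j) ∧
    (cub M' qq ll j).mulVec ((frp ι u).1.mulVec (xv M' Finset.univ (e j))) =
      C • xv M' Finset.univ (e j) ∧
    (cub M' qq ll i).mulVec ((frp ι v).1.mulVec (xv M' Finset.univ (e i))) =
      A' • xv M' Finset.univ (e i) ∧
    (cub M' qq ll i).mulVec ((frp ι v).1.mulVec (xv M' Finset.univ (e j))) =
      B' • xv M' Finset.univ (e i) ∧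
    (cub M' qq ll j).mulVec ((frp ι v).1.mulVec (xv M' Finset.univ (e i))) =
      B' • xv M' Finset.univ (e j) ∧
    (cub M' qq ll j).mulVec ((frp ι v).1.mulVec (xv M' Finset.univ (e j))) =
      C' • xv M' Finset.univ (e j)

/-- The orbits at `q = 1`: every basis vector is mapped to a multiple of one of the two basis vectors of the plane. -/
def Orb {n k : ℕ} {M : CoxeterMatrix (Fin n)} (M' : CoxeterMatrix (Fin k)) (ι : Art M →* Art M')
    (i j : Fin k) : Prop :=
  ∀ b ∈ roots M' Finset.univ, ∃ (x : Art M) (c : ℤ) (m : Fin k), (m = i ∨ m = j) ∧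
    (LKr M' Finset.univ 1 xx (ι x)).1.mulVec (xv M' Finset.univ b) =
      (xx ^ c) • xv M' Finset.univ (e m)

/-- **Absolute irreducibility** (from `SLkA`, `SLKr`, `SLkO`, `SMono`, `SKerQ`, `SEFun`, `SEPro`, 250 lines; model: module `Irr`).
Proof. Let `𝒜` be the span over `K2 = FractionRing R2`, a subalgebra (matrices of a group). `i = p s 0`, `j = p s 1`, `x_i`, `x_j` the basis vectors of `e i`, `e j`, `F_m` the linear functional with `cub m v = F_m v • x_m` (`m = i, j`; over `R2` and over `K2`), `x_m ⊗ F_m'` the matrix of `v ↦ F_m' v • x_m`, so `cub m = x_m ⊗ F_m`.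
(1) By `SEPro` for `G = ρ (gn s) ∈ 𝒜`: `Π = (G - 1) (G + q) (G - q²) = (l - q²) (x_i ⊗ F_i + x_j ⊗ F_j) ∈ 𝒜`, so `Π₀ = x_i ⊗ F_i + x_j ⊗ F_j ∈ 𝒜` (`l ≠ q²`). (2) For `a ∈ 𝒜` let `m(a)` be the 2 x 2 matrix `F_m (a x_m')`, `m, m' ∈ {i, j}`; `Π₀ a Π₀ = ∑ m(a)_{m m'} x_m ⊗ F_m'`. For a 2 x 2 matrix `Y` let
`[Y] = ∑ Y_{m m'} x_m ⊗ F_m'`; `[Y] a [Z] = [Y m(a) Z]`. So the set of the `Y` with `[Y] ∈ 𝒜` is a linear space which contains `1`, `m(u)`, `m(v)` and `m(u) m(v)` (`Π₀ u Π₀ v Π₀`), with `u`, `v` of `Blk`: `m(u) = [[A, B], [B, C]]`, `m(v) = [[A', B'], [B', C']]`. These four are independent: if `x + y m(u) + z m(v) + w m(u) m(v) = 0` then the antisymmetric part gives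
`w (B (C' - A') + B' (A - C)) = 0` (the entries `(0, 1)` and `(1, 0)` of `m(u) m(v)` are `A B' + B C'` and `B A' + C B'`), so `w = 0`; `y B + z B' = 0`, `y (A - C) + z (A' - C') = 0` give `y = z = 0`, and `x = 0`. So all `x_m ⊗ F_m' ∈ 𝒜`.
(3) For a root `b` let `h b ∈ Art M`, `m b ∈ {i, j}` be as in `Orb`: at `q = 1`: `ρ (h b) x_b = xx ^ c • x_(m b)`. Let `φ b = F_(m b) ∘ ρ (h b)` and `y b = ρ (h b)⁻¹ x_(m b)`. The matrix `Q = (φ b (x c))` (entries in `R2`) is mapped by `π : R2 → K1` (`SKerQ`) to an invertible diagonal matrix: at `q = 1` the functional `F_m` is `(xx² - 1)` times the coordinate at `e m` (`cubf` and `FH.ev`: `fh`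
vanishes at `1` on nonsimple roots and on other simple roots, so only `b = e m`, and for `pr b m = ±1` the roots `b ± e m`, have to be considered; they are not `e m`: if `b - e m = e m` then `pr b m = 4`; if `b + e m = e m` then `b = 0`), and `ρ (h b)` at `q = 1` is monomial (`SMono`), so `ρ (h b) x_c` is a multiple of `x_(c')` with `c' ≠ e (m b)` for `c ≠ b`. Similarly the matrix `Y` with the columns `y b` is
mapped by `π` to the diagonal matrix with entries `xx ^ (-c)`. So `det Q ≠ 0`, `det Y ≠ 0` over `K2`. (4) `ρ (h b)⁻¹ (x_(m b) ⊗ F_(m c)) ρ (h c) = y b ⊗ φ c = Y E_{b c} Q ∈ 𝒜` for all roots `b, c`, so `Y Z Q ∈ 𝒜` for all matrices `Z`, so `𝒜` is everything. -/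
def SEIrr : Prop :=
  ∀ (n k : ℕ) (M : CoxeterMatrix (Fin n)) (M' : CoxeterMatrix (Fin k)) (p : Fin n → Fin 2 → Fin k)
    (ι : Art M →* Art M') (s : Fin n), SL M' → RF M' → FH M' (fh M') → Fold M M' p ι →
    Orb M' ι (p s 0) (p s 1) → Blk M' ι (p s 0) (p s 1) →
    Submodule.span K2 (Set.range fun x : Art M => mK (frp ι) x) = ⊤

/-- **The plane of a node on a bond with label five** (from `SLkA`, `SLKr`, `SEFun`, `SKerQ`-like evaluation only, 250 lines).
Proof. Write `1, 2, 3, 4` for the nodes `p s 0`, `p t 0`, `p s 1`, `p t 1` (a path), `f a b` for `fh a b`, `q`, `l` for `qq`, `ll`. Roots `e 1`, .., and `12 = e 1 + e 2`, `23`, `34`, `123`, `234`, `1234`. Values of `f` (with `q = X`), from `FH`: `f 1 12 = f 2 12 = f 2 23 = f 3 23 = f 3 34 = f 4 34 = - (1 - q)` (`one`), `f 1 23 = f 1 34 = f 2 34 = 0`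
(`comm` or `r0` from simple roots, see below), `f 3 12 = 0`, `f 4 12 = f 4 23 = 0`, `f 1 123 = f 3 123 = f 2 234 = f 4 234 = - (1 - q) q`, `f 2 123`, `f 3 234`, `f 4 123`, `f 1 234`, and `1234` as needed: every value is obtained from `FH.comm`, `FH.r0`, `FH.r1`, `FH.one` by adding simple roots one by one (`f s (b + e u)` with `pr b u = -1`).
Let `T = ρ (gn t) = g 2 g 4`. `T x_1 = x_12 + (1 - q) x_1`. `T x_3 = g 2 (x_34 + (1 - q) x_3) = x_234 + (1 - q) x_34 + (..) x_2 + (1 - q) (x_23 + (1 - q) x_3)` with the coefficients `l f 2 34`, `l f 2 3 = 0`. Take `u = gn t`, `v = gn t * gn t`. With `SEFun` for the nodes `1` and `3`: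
`A = F_1 (T x_1) = q (q - 1)`, `B = F_3 (T x_1) = F_1 (T x_3) = q l (q - 1)`, `C = F_3 (T x_3) = - (q - 1)² (q - l)`; for `T²`: `B' = - l (q - 1)² (q - l)`, `A' = l² - q - q l - q l² + q² + q² l + q² l² - q³`,
`C' = l + 2 l² - q - 4 q l - 4 q l² + 2 q² + 5 q² l + 3 q² l² - 3 q³ - 3 q³ l + 2 q⁴ + q⁴ l - q⁵`, and `B (A' - C') - B' (A - C) = l (q - 1)² (l² - q l² + q² l - q² l² - q⁴ l + q⁵)`, which is `-147` for `q = 2`, `l = 3` (`R2_lift`), so it is not zero. (Computed exactly by machine; `x_b = xv b`.) -/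
def SEBlk : Prop :=
  ∀ (n k : ℕ) (M : CoxeterMatrix (Fin n)) (M' : CoxeterMatrix (Fin k)) (p : Fin n → Fin 2 → Fin k)
    (ι : Art M →* Art M') (s t : Fin n), SL M' → RF M' → FH M' (fh M') → Fold M M' p ι →
    adj M' (p s 0) (p t 0) → adj M' (p t 0) (p s 1) → adj M' (p s 1) (p t 1) →
    ¬ adj M' (p s 0) (p t 1) → p s 0 ≠ p t 1 → Blk M' ι (p s 0) (p s 1)

/-- **The characteristic polynomial of the product of two commuting generators** (from `SLkA`, `SLKr`, `SEFun`, `SEPro`, 200 lines; model: module `Char`).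
Proof. Over `K2`: `G = lk i * lk j` satisfies `(G - l) (G - 1) (G + q) (G - q²) = 0` (`SEPro`: `(G - l) (E + E') = 0` as the image of `E + E'` is spanned by `x_i`, `x_j`), so all irreducible factors of the characteristic polynomial are among `X - l`, `X - 1`, `X + q`, `X - q²` and it is `(X - l) ^ m (X - 1) ^ a (X + q) ^ b (X - q²) ^ c`; its degree and the
trace give `m + a + b + c = N`, `m l + a - b q + c q² = trace G`. Diagonal entries of `G`: for `b = e i`, `e j`: `l`. Otherwise `G x_b = lk i (φ_j x_b + f_j x_j)`, and the coefficient of `x_b` is `d i b * d j b` with `d i b = 1`, `1 - q`, `0` if `pr b i = 0, -1, 1` (`lk i` maps `x_b`, `x_(b ± e j)` to combinations of `x_(.)`, `x_(. ± e i)`, `x_i`; the pairing with `i` does not change if `e j` is added).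
So the trace is `2 l + n00 + (1 - q) (n10 + n01) + (1 - q)² n11`, and `1, q, q², l` are linearly independent over the integers in `R2`. `n` are the numbers of roots with the pairings `(0, 0)`, `(-1, 0)`, `(0, -1)`, `(-1, -1)` with `(i, j)`. The polynomial identity over `R2` follows from the one over `K2`. -/
def SEChar : Prop :=
  ∀ (k : ℕ) (M' : CoxeterMatrix (Fin k)), SL M' → RF M' → FH M' (fh M') → ∀ (i j : Fin k), i ≠ j →
    ¬ adj M' i j → ∀ n : ℤ → ℤ → ℕ,
    (∀ x y, n x y = ((roots M' Finset.univ).filter fun b => pr M' b i = x ∧ pr M' b j = y).card) →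
    (lk M' Finset.univ qq ll i * lk M' Finset.univ qq ll j).charpoly =
      (X - C ll) ^ 2 * (X - C 1) ^ (n 0 0 + n (-1) 0 + n 0 (-1) + n (-1) (-1)) *
        (X - C (-qq)) ^ (n (-1) 0 + n 0 (-1) + 2 * n (-1) (-1)) * (X - C (qq ^ 2)) ^ n (-1) (-1) ∧
    (lk M' Finset.univ qq ll i * lk M' Finset.univ qq ll j).trace =
      2 * ll + (n 0 0 : R2) + (1 - qq) * ((n (-1) 0 : R2) + (n 0 (-1) : R2)) +
        (1 - qq) ^ 2 * (n (-1) (-1) : R2)

/-- **Traces are not zero** (from `SLKr`, `SEChar`, 40 lines).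
Proof. `frp ι (gn M s)` is `lk (p s 0) * lk (p s 1)` (`SLKr`), its trace `2 l + P (q)` with an integral polynomial `P`; the homomorphisms `R2 → ℂ` with `qq ↦ 1`, `ll ↦ 1` and `ll ↦ 2` (`R2_lift`) have different values on it, so it is not zero. -/
def SETr : Prop :=
  ∀ (n k : ℕ) (M : CoxeterMatrix (Fin n)) (M' : CoxeterMatrix (Fin k)) (p : Fin n → Fin 2 → Fin k)
    (ι : Art M →* Art M'), SL M' → RF M' → FH M' (fh M') → Fold M M' p ι →
    ∀ s, (frp ι (gn M s)).1.trace ≠ 0

/-- **Uniqueness of the parameters** (80 lines; as `SCd` of SpecM).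
Proof. `θ` is injective. Let `u` be the image in `K2` of `χ (gn M s)`, not zero. The characteristic polynomials over `K2` of `mK (frp ι) (gn M s)` and of `u • g θ(ρ) g⁻¹` are equal: `(X - l)² (X - 1)^a (X + q)^b (X - q²)^c = (X - u θ l)² (X - u)^a (X + u θ q)^b (X - u θ q²)^c`. On both sides the four roots are different (`l, 1, -q, q²` are different in `R2`: apply homomorphisms to `ℂ`;
`θ` injective, `u ≠ 0`). The root of multiplicity `a` (the largest) is `1` on the left and `u` on the right (`Polynomial.rootMultiplicity`): `u = 1`. The root of multiplicity `b`: `-q = -θ q`. Cancel: `(X - l)² = (X - θ l)²`, so `θ l = l`. `R2_ext`. -/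
def SEUq : Prop :=
  ∀ (n k : ℕ) (M : CoxeterMatrix (Fin n)) (M' : CoxeterMatrix (Fin k)) (ι : Art M →* Art M')
    (s : Fin n) (a b c : ℕ), 2 ≤ c → c < b → b < a →
    (frp ι (gn M s)).1.charpoly = (X - C ll) ^ 2 * (X - C 1) ^ a * (X - C (-qq)) ^ b *
      (X - C (qq ^ 2)) ^ c →
    ∀ θ : R2 →ₐ[ℂ] R2, Twf (frp ι) (MonoidHom.id _) θ → θ = AlgHom.id ℂ R2

/-- **Powers do not commute** (from `SLkA`, `SLkQ`, `SLKr`, 150 lines; model: module `IdA`).
Proof. `a, a'` = `p s 0`, `p s 1`, `b, b'` = `p t 0`, `p t 1`. `lk a'` and `lk b'` fix `x_b`, `x_a`, `x_(a + b)` (`fh a' (e b) = fh a' (e a) = 0`, `fh a' (e b + e a) = X * fh a' (e b) = 0` by `comm`; the pairings are `0`), and `lk a`, `lk b` map the span `T` of these three vectors into itself. So on `T` the matrix of `gn s` is `A = lk a` and that of `gn t` is `B = lk b`. Suppose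
`ρ (gn s ^ j * gn t ^ j) = ρ (gn t ^ j * gn s ^ j)` and let `y = A ^ j x_b ∈ T`. Then `B ^ j y = A ^ j B ^ j x_b = l ^ j y` (`B x_b = l x_b`). As in `IdA_core` (module `IdA`; only `B ^ j y = l ^ j y` is used): `(l - 1) (l + q) y` is a multiple of `x_b`. But `y = α x_(b + a) + ..` with `(1 + q) α = 1 - (- q) ^ j ≠ 0`. -/
def SEPow : Prop :=
  ∀ (n k : ℕ) (M : CoxeterMatrix (Fin n)) (M' : CoxeterMatrix (Fin k)) (p : Fin n → Fin 2 → Fin k)
    (ι : Art M →* Art M') (s t : Fin n), SL M' → RF M' → FH M' (fh M') → Fold M M' p ι →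
    adj M' (p s 0) (p t 0) → ¬ adj M' (p s 0) (p t 1) → ¬ adj M' (p s 1) (p t 0) →
    p s 0 ≠ p t 1 → p s 1 ≠ p t 0 → p s 0 ≠ p t 0 → ∀ j : ℕ, 1 ≤ j →
      frp ι (gn M s ^ j * gn M t ^ j) ≠ frp ι (gn M t ^ j * gn M s ^ j)

/-- **The special curves** (from `SJst`, `SJnz`, `SJle`, `SKerQ`, `SKerF`, `SFinU`, `SLkA`, `SLkW`, `SLKr`, `SMono`, 150 lines; models: modules `IdB`, `IdD`).
Proof. `F` from `SLkW` for `C = univ`. `I 0 = J1 N! (frp ι)`, `N` the number of roots, `p 0 = qq - 1`: `StabI` by `SJst`; not zero by `SJnz` and the hypothesis on powers (`j = N! ≥ 1`); prime by `SKerQ`; contained in the span by the last part of `SJle` with `φ = π` of `SKerQ` (`LKr 1 xx` is monomial, `SMono`; `Pi.single b 1 = xv b.1`, `SLKr` for `π`). `I 1 = J2 (frp ι)`, `p 1 = aeval qq F * ll - 1`: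
not zero by `SJnz`; prime by `SKerF`; contained in the span by `SJle`, `φ = π` of `SKerF`: the vector `w = (1, .., 1)` is fixed by all `lk s` for the parameters `xx`, `(aeval xx F)⁻¹` (`SLkW`), so by all elements of the group, so every matrix `Y` in the span satisfies `Y w ∈ K w`, and not all matrices do (there are at least two roots). The set of the `θ` is finite by `SFinU`. -/
def SEFin : Prop :=
  ∀ (n k : ℕ) (M : CoxeterMatrix (Fin n)) (M' : CoxeterMatrix (Fin k)) (ι : Art M →* Art M'),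
    SL M' → RF M' → FH M' (fh M') → Conn M' Finset.univ → 2 ≤ k →
    Submodule.span K2 (Set.range fun x : Art M => mK (frp ι) x) = ⊤ →
    (∃ x y : Art M, ∀ j : ℕ, 1 ≤ j → frp ι (x ^ j * y ^ j) ≠ frp ι (y ^ j * x ^ j)) →
    FinP (frp ι)

end

end Pool.Agent.Lib.MP_97567f_al.U
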