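import Pool.Agent.Lib.MP_97567f_al.U.HTab
import Pool.Agent.Lib.MP_97567f_al.U.SpecE

/-!
# MP_97567f_al: the characteristic polynomials of the generators of H3 and H4
-/

set_option autoImplicit false

namespace Pool.Agent.Lib.MP_97567f_al.U

open Polynomial

/-- The pairing of a code is `0` (`x = false`) or `-1` (`x = true`). -/
def prq (nb : ℕ → List ℕ) (c i : ℕ) (x : Bool) : Bool :=
  if x then 2 * dg c i + 1 == sn nb c i else 2 * dg c i == sn nb c i

/-- The value of the pairing. -/
def vq (x : Bool) : ℤ := if x then -1 else 0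

theorem prq_iff {k : ℕ} {M' : CoxeterMatrix (Fin k)} {nb : ℕ → List ℕ} {L : List ℕ}
    (hT : Tb k M' nb L) (c : ℕ) (i : Fin k) (x : Bool) :
    pr M' (rtc k c) i = vq x ↔ prq nb c i x = true := by
  rw [pr_rtc hT]
  unfold prq vq
  cases x
  · simp only [Bool.false_eq_true, if_false, beq_iff_eq]
    omega
  · simp only [if_true, beq_iff_eq]
    omega

theorem card_prq {k : ℕ} {M' : CoxeterMatrix (Fin k)} {nb : ℕ → List ℕ} {L : List ℕ}
    (hT : Tb k M' nb L) (hR : RF M') (hA : SLkA) (i j : Fin k) (x y : Bool) :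
    ((roots M' Finset.univ).filter fun b => pr M' b i = vq x ∧ pr M' b j = vq y).card =
      (L.filter fun c => prq nb c i x && prq nb c j y).length := by
  refine card_eq hT hR hA _ _ fun c _ => ?_
  rw [prq_iff hT, prq_iff hT, Bool.and_eq_true]

theorem count6 (s : Fin 3) (x y : Bool) :
    (L6.filter fun c => prq nb6 c (p3 s 0) x && prq nb6 c (p3 s 1) y).length =
      if x && y then 2 else 4 := by
  revert s x y
  decide +kernel

theorem count8 (s : Fin 4) (x y : Bool) :
    (L8.filter fun c => prq nb8 c (p4 s 0) x && prq nb8 c (p4 s 1) y).length =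
      if x && y then 6 else if x || y then 16 else 30 := by
  revert s x y
  decide +kernel

theorem cp3 (h : SEChar) (hA : SLkA) (hS : SL D6) (hR : RF D6) (hF : FH D6 (fh D6)) (s : Fin 3) :
    (lk D6 Finset.univ qq ll (p3 s 0) * lk D6 Finset.univ qq ll (p3 s 1)).charpoly =
      (X - C ll) ^ 2 * (X - C 1) ^ 14 * (X - C (-qq)) ^ 12 * (X - C (qq ^ 2)) ^ 2 := by
  have h1 := (h 6 D6 hS hR hF (p3 s 0) (p3 s 1) (by revert s; decide) (by revert s; decide)
    (fun x y => ((roots D6 Finset.univ).filter fun b => pr D6 b (p3 s 0) = x ∧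
      pr D6 b (p3 s 1) = y).card) (fun _ _ => rfl)).1
  rw [h1]
  have e := card_prq tb6 hR hA (p3 s 0) (p3 s 1)
  have e00 := e false false
  have e10 := e true false
  have e01 := e false true
  have e11 := e true true
  rw [count6] at e00 e10 e01 e11
  simp only [vq, Bool.false_eq_true, if_false, if_true, Bool.and_false, Bool.and_true] at e00 e10 e01 e11
  simp only [e00, e10, e01, e11]

theorem cp4 (h : SEChar) (hA : SLkA) (hS : SL CoxeterMatrix.E₈) (hR : RF CoxeterMatrix.E₈)
    (hF : FH CoxeterMatrix.E₈ (fh CoxeterMatrix.E₈)) (s : Fin 4) :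
    (lk CoxeterMatrix.E₈ Finset.univ qq ll (p4 s 0) *
      lk CoxeterMatrix.E₈ Finset.univ qq ll (p4 s 1)).charpoly =
      (X - C ll) ^ 2 * (X - C 1) ^ 68 * (X - C (-qq)) ^ 44 * (X - C (qq ^ 2)) ^ 6 := by
  have h1 := (h 8 CoxeterMatrix.E₈ hS hR hF (p4 s 0) (p4 s 1) (by revert s; decide)
    (by revert s; decide)
    (fun x y => ((roots CoxeterMatrix.E₈ Finset.univ).filter fun b =>
      pr CoxeterMatrix.E₈ b (p4 s 0) = x ∧ pr CoxeterMatrix.E₈ b (p4 s 1) = y).card)
    (fun _ _ => rfl)).1
  rw [h1]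
  have e := card_prq tb8 hR hA (p4 s 0) (p4 s 1)
  have e00 := e false false
  have e10 := e true false
  have e01 := e false true
  have e11 := e true true
  rw [count8] at e00 e10 e01 e11
  simp only [vq, Bool.false_eq_true, if_false, if_true, Bool.and_false, Bool.and_true,
    Bool.or_false, Bool.or_true] at e00 e10 e01 e11
  simp only [e00, e10, e01, e11]

end Pool.Agent.Lib.MP_97567f_al.U
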