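import Pool.Agent.Lib.MP_97567f_al.U.SpecE

/-!
# MP_97567f_al: the types H3 and H4: the special curves (`SEFin`)
-/

set_option autoImplicit false

namespace Pool.Agent.Lib.MP_97567f_al.U

open Polynomial

private theorem EFin_xx : (xx : K1) ≠ 0 := by
  unfold xx
  intro h
  have h2 := (map_eq_zero_iff (algebraMap ℂ[X] K1) (IsFractionRing.injective ℂ[X] K1)).1 h
  exact X_ne_zero h2

private theorem EFin_xv {n : ℕ} {M : CoxeterMatrix (Fin n)} {C : Finset (Fin n)} {K : Type}
    [Field K] (b : PR M C) : (xv M C b.1 : PR M C → K) = Pi.single b 1 := by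
  funext g
  rw [Pi.single_apply]
  unfold xv
  by_cases hg : g = b
  · rw [if_pos hg, if_pos (by rw [hg])]
  · rw [if_neg hg, if_neg (fun h' => hg (Subtype.ext h'))]

private theorem EFin_fix {n : ℕ} {M : CoxeterMatrix (Fin n)} {C : Finset (Fin n)} {K : Type}
    [Field K] {q l : K} {w : PR M C → K}
    (hg : ∀ s, (LKr M C q l (gn M s)).1.mulVec w = w) (x : Art M) :
    (LKr M C q l x).1.mulVec w = w := by
  induction x using art_induction with
  | h1 =>
    rw [map_one]
    exact Matrix.one_mulVec w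
  | hg i x hx =>
    rw [map_mul, Units.val_mul, ← Matrix.mulVec_mulVec, hx, hg]
  | hi i x hx =>
    rw [map_mul, Units.val_mul, ← Matrix.mulVec_mulVec, hx]
    have h1 := congrArg (fun v => (LKr M C q l (gn M i)⁻¹).1.mulVec v) (hg i)
    simp only [Matrix.mulVec_mulVec] at h1
    rw [← h1, ← Units.val_mul, ← map_mul, inv_mul_cancel, map_one]
    exact Matrix.one_mulVec w

private theorem EFin_span {N K A : Type} [Fintype N] [DecidableEq N] [Field K] {b0 b1 : N}
    (hb : b0 ≠ b1) (Y : A → Matrix N N K)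
    (hY : ∀ i, (Y i).mulVec (fun _ => 1) = fun _ => 1) :
    Submodule.span K (Set.range Y) ≠ ⊤ := by
  let L : Matrix N N K →ₗ[K] K :=
    { toFun := fun A => A.mulVec (fun _ => 1) b1 - A.mulVec (fun _ => 1) b0
      map_add' := by
        intro A B
        rw [Matrix.add_mulVec, Pi.add_apply, Pi.add_apply]
        ring
      map_smul' := by
        intro c A
        rw [Matrix.smul_mulVec, Pi.smul_apply, Pi.smul_apply, RingHom.id_apply, smul_sub] }
  have hL : ∀ A, L A = A.mulVec (fun _ => 1) b1 - A.mulVec (fun _ => 1) b0 := fun A => rfl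
  intro hspan
  have hle : Submodule.span K (Set.range Y) ≤ LinearMap.ker L := by
    rw [Submodule.span_le]
    rintro _ ⟨i, rfl⟩
    rw [SetLike.mem_coe, LinearMap.mem_ker, hL, hY, sub_self]
  rw [hspan] at hle
  have h1 : Matrix.single b1 b1 (1 : K) ∈ LinearMap.ker L := hle Submodule.mem_top
  rw [LinearMap.mem_ker, hL] at h1
  have h2 : (Matrix.single b1 b1 (1 : K)).mulVec (fun _ => 1) b1 = 1 := by
    simp [Matrix.mulVec, dotProduct, Matrix.single_apply]
  have h3 : (Matrix.single b1 b1 (1 : K)).mulVec (fun _ => 1) b0 = 0 := by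
    simp [Matrix.mulVec, dotProduct, Ne.symm hb]
  rw [h2, h3, sub_zero] at h1
  exact one_ne_zero h1

private theorem EFin_int {R : Type} [CommRing R] [Algebra ℤ R] (q : R) (F : ℤ[X]) :
    @aeval ℤ R _ _ (Ring.toIntAlgebra R) q F = aeval q F := by
  have h : (Ring.toIntAlgebra R : Algebra ℤ R) = ‹Algebra ℤ R› := Subsingleton.elim _ _
  rw [h]

/-- **The special curves.** -/
theorem pEFin (h1 : SJst) (h2 : SJnz) (h3 : SJle) (h4 : SKerQ) (h5 : SKerF) (h6 : SFinU)
    (h7 : SLkA) (h8 : SLkW) (h9 : SLKr) (h10 : SMono) : SEFin := by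
  intro n k M M' ι hSL hRF hFH hconn hk hspan hpow
  have hSat : Sat M' Finset.univ := fun _ _ _ _ => Finset.mem_univ _
  obtain ⟨F, hF, hW⟩ := h8 k M' hRF hFH Finset.univ hSat hconn
  obtain ⟨πq, hq1, hq2, hqker, hpq⟩ := h4
  obtain ⟨hne, πl, hl1, hl2, hlker, hpl⟩ := h5 F hF
  obtain ⟨hgen, hmap⟩ := h9 k M' hSL hRF hFH Finset.univ hSat
  obtain ⟨-, -, -, hroots, hA⟩ := h7 k M' hRF Finset.univ
  obtain ⟨hs1, hs2⟩ := h1 (Art M) R2 (PR M' Finset.univ) (frp ι)
  obtain ⟨hz1, hz2⟩ := h2 (Art M) R2 (PR M' Finset.univ) (frp ι) hspan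
  obtain ⟨x, y, hxy⟩ := hpow
  refine ⟨2, ![J1 (Fintype.card (PR M' Finset.univ)).factorial (frp ι), J2 (frp ι)],
    ![qq - 1, aeval qq F * ll - 1], ?_, ?_⟩
  · intro i
    fin_cases i
    · refine ⟨hs1 _, hz1 _ x y (hxy _ (Nat.factorial_pos _)), hpq, ?_⟩
      refine (h3 (Art M) R2 (PR M' Finset.univ) (frp ι) K1 (πq : R2 →+* K1) (qq - 1) hqker).2.2 ?_
      intro z
      obtain ⟨σ, m, hm⟩ := (h10 k M' hSL hRF hFH Finset.univ hSat K1 xx EFin_xx).1 (ι z)
      refine ⟨σ, fun b => xx ^ m b, fun b => ?_⟩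
      have h := hmap R2 K1 (πq : R2 →+* K1) qq ll qq_unit ll_unit (ι z)
      have e1 : (πq : R2 →+* K1) qq = 1 := hq1
      have e2 : (πq : R2 →+* K1) ll = xx := hq2
      rw [e1, e2] at h
      have h' := hm b
      rw [h, EFin_xv, EFin_xv] at h'
      exact h'
    · refine ⟨hs2, hz2, hpl, ?_⟩
      refine (h3 (Art M) R2 (PR M' Finset.univ) (frp ι) K1 (πl : R2 →+* K1)
        (aeval qq F * ll - 1) hlker).2.1 ?_
      have hst : (⟨0, by omega⟩ : Fin k) ≠ ⟨1, by omega⟩ := by
        intro h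
        have := congrArg Fin.val h
        simp at this
      generalize (⟨0, by omega⟩ : Fin k) = s at hst
      generalize (⟨1, by omega⟩ : Fin k) = t at hst
      have hest : e s ≠ e t := by
        intro h
        have h5 := congrFun h s
        unfold e at h5
        rw [Pi.single_eq_same, Pi.single_eq_of_ne hst] at h5
        exact one_ne_zero h5
      have hq : IsUnit (πl qq) := qq_unit.map πl
      have hl : IsUnit (πl ll) := ll_unit.map πl
      have hfix : ∀ z : Art M',
          (LKr M' Finset.univ (πl qq) (πl ll) z).1.mulVec (fun _ => 1) = fun _ => 1 := by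
        refine EFin_fix fun s => ?_
        rw [hgen K1 (πl qq) (πl ll) hq hl s, hW K1 (πl qq) (πl ll) s (Finset.mem_univ s)]
        have h6 : πl ll * @aeval ℤ K1 _ _ (Ring.toIntAlgebra K1) (πl qq) F - 1 = 0 := by
          rw [EFin_int, hl2, hl1, sub_eq_zero]
          exact inv_mul_cancel₀ hne
        rw [h6, zero_smul, add_zero]
      refine EFin_span (b0 := (⟨e s, (hroots s).2 (Finset.mem_univ s)⟩ : PR M' Finset.univ))
        (b1 := (⟨e t, (hroots t).2 (Finset.mem_univ t)⟩ : PR M' Finset.univ))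
        (fun h => hest (congrArg Subtype.val h)) _ fun z => ?_
      have h := hmap R2 K1 (πl : R2 →+* K1) qq ll qq_unit ll_unit (ι z)
      have h' := hfix (ι z)
      have h'' : (LKr M' Finset.univ (πl qq) (πl ll) (ι z)).1 =
          ((frp ι z).1.map (πl : R2 →+* K1)) := h
      rw [h''] at h'
      exact h'
  · refine (h6 F hF).subset ?_
    intro θ hθ
    exact ⟨hθ 0, hθ 1⟩

end Pool.Agent.Lib.MP_97567f_al.U
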