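import Pool.Agent.Lib.MP_97567f_al.U.SpecE

/-!
# MP_97567f_al, module U/EFun: the functional of the cubic operator
-/

set_option autoImplicit false

namespace Pool.Agent.Lib.MP_97567f_al.U

open Polynomial

private theorem EFun_vec {n : ℕ} {M : CoxeterMatrix (Fin n)} {C : Finset (Fin n)} {R : Type}
    [CommRing R] (q : R) (G : Matrix (PR M C) (PR M C) R) (v : PR M C → R) :
    ((G - 1) * (G + q • (1 : Matrix (PR M C) (PR M C) R))).mulVec v =
      G.mulVec (G.mulVec v) + (q - 1) • G.mulVec v - q • v := by
  rw [← Matrix.mulVec_mulVec, Matrix.add_mulVec, Matrix.smul_mulVec, Matrix.one_mulVec,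
    Matrix.sub_mulVec, Matrix.one_mulVec, Matrix.mulVec_add, Matrix.mulVec_smul]
  module

theorem pEFun (h1 : SLkA) : SEFun := by
  intro k M hR R _ q l s b hb
  obtain ⟨hmem, hup, hdn, hes, hact⟩ := h1 k M hR Finset.univ
  obtain ⟨act, -, -, -⟩ := hact R q l
  have hs := (hes s).2 (Finset.mem_univ s)
  have hpe := hR.a.pre s
  have es : (lk M Finset.univ q l s).mulVec (xv M Finset.univ (e s)) =
      l • xv M Finset.univ (e s) := by
    rw [act s _ hs]; simp [img]
  unfold cub cubf
  by_cases h : b = e s
  · subst h
    rw [if_pos rfl, EFun_vec, es, Matrix.mulVec_smul, es]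
    module
  · rw [if_neg h]
    have hne : ∀ c : Fin k → ℤ, pr M c s ≠ 2 → c ≠ e s := fun c hc h' => hc (by rw [h', hpe])
    rcases hR.a.bnd b s ((hmem b).1 hb).1 h with h1 | h1 | h1
    · have hb' := hup b hb s h1 (Finset.mem_univ s)
      have h2 : pr M (b + e s) s = 1 := by rw [hR.a.pr_add, h1, hpe]; norm_num
      have h3 : b + e s ≠ e s := hne _ (by rw [h2]; norm_num)
      rw [if_neg (by rw [h1]; norm_num), if_pos h1]
      have a1 : (lk M Finset.univ q l s).mulVec (xv M Finset.univ b) =
          (xv M Finset.univ (b + e s) + (1 - q) • xv M Finset.univ b) +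
          (l * Polynomial.aeval q (fh M s b)) • xv M Finset.univ (e s) := by
        rw [act s _ hb]
        unfold img
        rw [if_neg h, if_pos h1]
      have a2 : (lk M Finset.univ q l s).mulVec (xv M Finset.univ (b + e s)) =
          q • xv M Finset.univ b +
          (l * Polynomial.aeval q (fh M s (b + e s))) • xv M Finset.univ (e s) := by
        rw [act s _ hb']
        unfold img
        rw [if_neg h3, if_neg (by rw [h2]; norm_num), if_pos h2, add_sub_cancel_right]
      generalize l * Polynomial.aeval q (fh M s b) = f at *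
      generalize l * Polynomial.aeval q (fh M s (b + e s)) = f' at *
      rw [EFun_vec, a1, Matrix.mulVec_add, Matrix.mulVec_add, Matrix.mulVec_smul,
        Matrix.mulVec_smul, a1, a2, es]
      module
    · rw [if_pos h1]
      have a1 : (lk M Finset.univ q l s).mulVec (xv M Finset.univ b) = xv M Finset.univ b +
          (l * Polynomial.aeval q (fh M s b)) • xv M Finset.univ (e s) := by
        rw [act s _ hb]
        unfold img
        rw [if_neg h, if_neg (by rw [h1]; norm_num), if_neg (by rw [h1]; norm_num)]
      generalize l * Polynomial.aeval q (fh M s b) = f at *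
      rw [EFun_vec, a1, Matrix.mulVec_add, Matrix.mulVec_smul, a1, es]
      module
    · have hb' := hdn b hb s h1
      have h2 : pr M (b - e s) s = -1 := by rw [hR.a.pr_sub, h1, hpe]; norm_num
      have h3 : b - e s ≠ e s := hne _ (by rw [h2]; norm_num)
      rw [if_neg (by rw [h1]; norm_num), if_neg (by rw [h1]; norm_num)]
      have a1 : (lk M Finset.univ q l s).mulVec (xv M Finset.univ b) =
          q • xv M Finset.univ (b - e s) +
          (l * Polynomial.aeval q (fh M s b)) • xv M Finset.univ (e s) := by
        rw [act s _ hb]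
        unfold img
        rw [if_neg h, if_neg (by rw [h1]; norm_num), if_pos h1]
      have a2 : (lk M Finset.univ q l s).mulVec (xv M Finset.univ (b - e s)) =
          (xv M Finset.univ b + (1 - q) • xv M Finset.univ (b - e s)) +
          (l * Polynomial.aeval q (fh M s (b - e s))) • xv M Finset.univ (e s) := by
        rw [act s _ hb']
        unfold img
        rw [if_neg h3, if_pos h2, sub_add_cancel]
      generalize l * Polynomial.aeval q (fh M s b) = f at *
      generalize l * Polynomial.aeval q (fh M s (b - e s)) = f' at *
      rw [EFun_vec, a1, Matrix.mulVec_add, Matrix.mulVec_smul,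
        Matrix.mulVec_smul, a2, es]
      module

end Pool.Agent.Lib.MP_97567f_al.U
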