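import Pool.Agent.Lib.MP_97567f_al.U.SpecE

/-!
# MP_97567f_al: absolute irreducibility of the folded representation
-/

set_option autoImplicit false

namespace Pool.Agent.Lib.MP_97567f_al.U

open Polynomial

section two

variable {K : Type} [Field K]

/-- The matrices of the plane. -/
private theorem EIrr_two (A B C A' B' C' : K) (hD : B * (A' - C') ≠ B' * (A - C))
    (Y : Matrix (Fin 2) (Fin 2) K) : ∃ x y z w : K,
      Y = x • (1 : Matrix (Fin 2) (Fin 2) K) + y • !![A, B; B, C] + z • !![A', B'; B', C'] +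
        w • (!![A, B; B, C] * !![A', B'; B', C']) := by
  have hD' : B * (A' - C') - B' * (A - C) ≠ 0 := sub_ne_zero.2 hD
  obtain ⟨D, hDD⟩ : ∃ D, D = B * (A' - C') - B' * (A - C) := ⟨_, rfl⟩
  rw [← hDD] at hD'
  obtain ⟨w, hw⟩ : ∃ w, w * D = Y 1 0 - Y 0 1 := ⟨(Y 1 0 - Y 0 1) / D, div_mul_cancel₀ _ hD'⟩
  obtain ⟨t1, ht1⟩ : ∃ t1, t1 = Y 0 0 - w * (A * A' + B * B') := ⟨_, rfl⟩
  obtain ⟨t2, ht2⟩ : ∃ t2, t2 = Y 1 0 - w * (B * A' + C * B') := ⟨_, rfl⟩
  obtain ⟨t3, ht3⟩ : ∃ t3, t3 = Y 1 1 - w * (B * B' + C * C') := ⟨_, rfl⟩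
  obtain ⟨y, hy⟩ : ∃ y, y * D = t2 * (A' - C') - B' * (t1 - t3) :=
    ⟨(t2 * (A' - C') - B' * (t1 - t3)) / D, div_mul_cancel₀ _ hD'⟩
  obtain ⟨z, hz⟩ : ∃ z, z * D = B * (t1 - t3) - t2 * (A - C) :=
    ⟨(B * (t1 - t3) - t2 * (A - C)) / D, div_mul_cancel₀ _ hD'⟩
  have k1 : y * B + z * B' = t2 := by
    apply mul_right_cancel₀ hD'
    linear_combination B * hy + B' * hz - t2 * hDD
  have k2 : y * (A - C) + z * (A' - C') = t1 - t3 := by
    apply mul_right_cancel₀ hD'
    linear_combination (A - C) * hy + (A' - C') * hz - (t1 - t3) * hDD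
  refine ⟨t3 - y * C - z * C', y, z, w, ?_⟩
  ext a b
  fin_cases a <;> fin_cases b
  · simp
    linear_combination -ht1 - k2
  · simp
    linear_combination -ht2 - k1 + hw - w * hDD
  · simp
    linear_combination -ht2 - k1
  · simp
    linear_combination -ht3

end two

section abs

variable {ι : Type} [Fintype ι] [DecidableEq ι] {K G : Type} [Field K] [Group G]

private theorem EIrr_mul (ρ : G → Matrix ι ι K) (hmul : ∀ x y, ρ (x * y) = ρ x * ρ y)
    {a b : Matrix ι ι K} (ha : a ∈ Submodule.span K (Set.range ρ))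
    (hb : b ∈ Submodule.span K (Set.range ρ)) : a * b ∈ Submodule.span K (Set.range ρ) := by
  have h1 := Submodule.mul_mem_mul ha hb
  rw [Submodule.span_mul_span] at h1
  refine Submodule.span_mono ?_ h1
  rintro _ ⟨_, ⟨x, rfl⟩, _, ⟨y, rfl⟩, rfl⟩
  exact ⟨x * y, hmul x y⟩

omit [Fintype ι] [DecidableEq ι] in
/-- the entries of a product with a matrix unit in the middle -/
private theorem EIrr_entry (P : Matrix ι (Fin 2) K) (Q : Matrix (Fin 2) ι K) (a b : Fin 2)
    (r s : ι) : (P * (Matrix.single a b 1 : Matrix (Fin 2) (Fin 2) K) * Q) r s =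
      P r a * Q b s := by
  rw [Matrix.mul_apply, Finset.sum_eq_single b]
  · rw [Matrix.mul_apply, Finset.sum_eq_single a]
    · rw [Matrix.single_apply_same, mul_one]
    · intro c _ hc
      rw [Matrix.single_apply_of_ne _ _ _ _ _ (fun h => hc h.1.symm), mul_zero]
    · intro h
      exact absurd (Finset.mem_univ _) h
  · intro c _ hc
    have h1 : (P * (Matrix.single a b 1 : Matrix (Fin 2) (Fin 2) K)) r c = 0 := by
      rw [Matrix.mul_apply]
      refine Finset.sum_eq_zero fun d _ => ?_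
      rw [Matrix.single_apply_of_ne _ _ _ _ _ (fun h => hc h.2.symm), mul_zero]
    rw [h1, zero_mul]
  · intro h
    exact absurd (Finset.mem_univ _) h

/-- Two vectors, two functionals, and enough elements which move them. -/
private theorem EIrr_abs (ρ : G → Matrix ι ι K) (hmul : ∀ x y, ρ (x * y) = ρ x * ρ y)
    (V : Matrix ι (Fin 2) K) (W : Matrix (Fin 2) ι K)
    (h1 : V * W ∈ Submodule.span K (Set.range ρ)) (u v : G) (A B C A' B' C' : K)
    (hu : W * ρ u * V = !![A, B; B, C]) (hv : W * ρ v * V = !![A', B'; B', C'])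
    (hD : B * (A' - C') ≠ B' * (A - C)) (h : ι → G) (m : ι → Fin 2)
    (hQ : (Matrix.of fun b c => (W * ρ (h b)) (m b) c).det ≠ 0)
    (hY : (Matrix.of fun b c => (ρ (h c)⁻¹ * V) b (m c)).det ≠ 0) :
    Submodule.span K (Set.range ρ) = ⊤ := by
  let S := Submodule.span K (Set.range ρ)
  have hρ : ∀ x, ρ x ∈ S := fun x => Submodule.subset_span ⟨x, rfl⟩
  have e1 : V * (W * ρ u * V) * W ∈ S := by
    have e2 : V * (W * ρ u * V) * W = V * W * ρ u * (V * W) := by
      simp only [Matrix.mul_assoc]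
    rw [e2]
    exact EIrr_mul ρ hmul (EIrr_mul ρ hmul h1 (hρ u)) h1
  have e2 : V * (W * ρ v * V) * W ∈ S := by
    have e2 : V * (W * ρ v * V) * W = V * W * ρ v * (V * W) := by
      simp only [Matrix.mul_assoc]
    rw [e2]
    exact EIrr_mul ρ hmul (EIrr_mul ρ hmul h1 (hρ v)) h1
  have e3 : V * ((W * ρ u * V) * (W * ρ v * V)) * W ∈ S := by
    have e2 : V * ((W * ρ u * V) * (W * ρ v * V)) * W =
        V * W * ρ u * (V * W) * ρ v * (V * W) := by
      simp only [Matrix.mul_assoc]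
    rw [e2]
    exact EIrr_mul ρ hmul (EIrr_mul ρ hmul (EIrr_mul ρ hmul (EIrr_mul ρ hmul h1 (hρ u)) h1)
      (hρ v)) h1
  rw [hu] at e1 e3
  rw [hv] at e2 e3
  have e4 : ∀ Y : Matrix (Fin 2) (Fin 2) K, V * Y * W ∈ S := by
    intro Y
    obtain ⟨x, y, z, w, hY'⟩ := EIrr_two A B C A' B' C' hD Y
    rw [hY', Matrix.mul_add, Matrix.mul_add, Matrix.mul_add, Matrix.add_mul, Matrix.add_mul,
      Matrix.add_mul, Matrix.mul_smul, Matrix.mul_smul, Matrix.mul_smul, Matrix.mul_smul,
      Matrix.smul_mul, Matrix.smul_mul, Matrix.smul_mul, Matrix.smul_mul, Matrix.mul_one]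
    exact S.add_mem (S.add_mem (S.add_mem (S.smul_mem _ h1) (S.smul_mem _ e1))
      (S.smul_mem _ e2)) (S.smul_mem _ e3)
  let Q : Matrix ι ι K := Matrix.of fun b c => (W * ρ (h b)) (m b) c
  let Y : Matrix ι ι K := Matrix.of fun b c => (ρ (h c)⁻¹ * V) b (m c)
  have e5 : ∀ Z : Matrix ι ι K, Y * Z * Q ∈ S := by
    intro Z
    have e6 : Y * Z * Q = ∑ b, ∑ c, Z b c • (ρ (h b)⁻¹ *
        (V * (Matrix.single (m b) (m c) 1 : Matrix (Fin 2) (Fin 2) K) * W) * ρ (h c)) := by
      ext r s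
      have e7 : ∀ b c, ρ (h b)⁻¹ *
          (V * (Matrix.single (m b) (m c) 1 : Matrix (Fin 2) (Fin 2) K) * W) * ρ (h c) =
          (ρ (h b)⁻¹ * V) * (Matrix.single (m b) (m c) 1 : Matrix (Fin 2) (Fin 2) K) *
            (W * ρ (h c)) := by
        intro b c
        simp only [Matrix.mul_assoc]
      simp only [e7, Matrix.sum_apply, Matrix.smul_apply, EIrr_entry, smul_eq_mul]
      rw [Finset.sum_comm, Matrix.mul_apply]
      refine Finset.sum_congr rfl fun c _ => ?_
      rw [Matrix.mul_apply, Finset.sum_mul]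
      refine Finset.sum_congr rfl fun b _ => ?_
      show (ρ (h b)⁻¹ * V) r (m b) * Z b c * (W * ρ (h c)) (m c) s = _
      ring
    rw [e6]
    exact S.sum_mem fun b _ => S.sum_mem fun c _ => S.smul_mem _
      (EIrr_mul ρ hmul (EIrr_mul ρ hmul (hρ _) (e4 _)) (hρ _))
  rw [eq_top_iff]
  intro N _
  have e6 : N = Y * (Y⁻¹ * N * Q⁻¹) * Q := by
    have e7 : Y * (Y⁻¹ * N * Q⁻¹) * Q = (Y * Y⁻¹) * N * (Q⁻¹ * Q) := by
      simp only [Matrix.mul_assoc]
    rw [e7, Matrix.mul_nonsing_inv Y (isUnit_iff_ne_zero.2 hY),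
      Matrix.nonsing_inv_mul Q (isUnit_iff_ne_zero.2 hQ), Matrix.one_mul, Matrix.mul_one]
  rw [e6]
  exact e5 _

end abs

section lk

variable {k : ℕ} {M : CoxeterMatrix (Fin k)} {R : Type} [CommRing R]

private theorem EIrr_xv [DecidableEq (PR M Finset.univ)] (c : PR M Finset.univ) :
    xv M Finset.univ (R := R) c.1 = Pi.single c 1 := by
  funext g
  by_cases h : g = c
  · subst h
    rw [Pi.single_eq_same]
    exact if_pos rfl
  · rw [Pi.single_eq_of_ne h]
    exact if_neg fun h' => h (Subtype.ext h')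

private theorem EIrr_col (A : Matrix (PR M Finset.univ) (PR M Finset.univ) R)
    (g c : PR M Finset.univ) : (A.mulVec (xv M Finset.univ c.1)) g = A g c := by
  classical
  rw [EIrr_xv, Matrix.mulVec_single_one]
  rfl

private theorem EIrr_xx : xx ^ 2 - 1 ≠ 0 := by
  intro h
  have h1 : algebraMap ℂ[X] K1 (X ^ 2 - 1) = 0 := by
    rw [map_sub, map_pow, map_one]
    exact h
  have h2 : (X ^ 2 - 1 : ℂ[X]) = 0 := by
    apply IsFractionRing.injective ℂ[X] K1
    rw [h1, map_zero]
  have h3 := congrArg (Polynomial.eval 0) h2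
  norm_num at h3

private theorem EIrr_xx0 : xx ≠ 0 := by
  intro h
  have h2 : (X : ℂ[X]) = 0 := by
    apply IsFractionRing.injective ℂ[X] K1
    rw [map_zero]
    exact h
  exact X_ne_zero h2

/-- the functional of the cubic operator for `q = 1` -/
private theorem EIrr_cubf (hR : RF M) (hF : FH M (fh M)) (h1 : SLkA) (π : R →+* K1) (q l : R)
    (hq : π q = 1) (hl : π l = xx) (i : Fin k) (b : PR M Finset.univ) :
    π (cubf M q l i b.1) = if b.1 = e i then xx ^ 2 - 1 else 0 := by
  obtain ⟨hmem, hup, hdn, hes, -⟩ := h1 k M hR Finset.univ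
  have hb := ((hmem b.1).1 b.2).1
  have hev : ∀ c : Fin k → ℤ, Rt M c → c ≠ e i → π (aeval q (fh M i c)) = 0 := by
    intro c hc hne
    rw [Polynomial.aeval_def, Polynomial.hom_eval₂, hq, Polynomial.eval₂_at_one,
      hF.ev i c hc hne, map_zero]
  by_cases h : b.1 = e i
  · rw [if_pos h]
    unfold cubf
    rw [if_pos h, map_mul, map_sub, map_add, map_one, hq, hl]
    ring
  · rw [if_neg h]
    unfold cubf
    rw [if_neg h]
    have h0 := hev b.1 hb h
    split_ifs with h2 h3
    · rw [map_mul, map_mul, h0, mul_zero, mul_zero]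
    · have h4 : Rt M (b.1 + e i) := ((hmem _).1 (hup b.1 b.2 i h3 (Finset.mem_univ i))).1
      have h5 : b.1 + e i ≠ e i := by
        intro h'
        have h6 : b.1 = 0 := by
          have h7 := congrArg (fun w => w - e i) h'
          simpa using h7
        rw [h6] at h3
        unfold pr at h3
        simp at h3
      rw [map_add, map_mul, map_mul, map_mul, h0, hev _ h4 h5]
      ring
    · have h3' : pr M b.1 i = 1 := by
        rcases hR.a.bnd b.1 i hb h with h4 | h4 | h4
        · exact absurd h4 h3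
        · exact absurd h4 h2
        · exact h4
      have h4 : Rt M (b.1 - e i) := ((hmem _).1 (hdn b.1 b.2 i h3')).1
      have h5 : b.1 - e i ≠ e i := by
        intro h'
        have h6 := hR.a.pr_sub b.1 (e i) i
        rw [h', h3', hR.a.pre] at h6
        norm_num at h6
      rw [map_add, map_mul, map_mul, map_mul, map_mul, h0, hev _ h4 h5]
      ring

end lk

theorem pEIrr (h1 : SLkA) (h2 : SLKr) (h4 : SMono) (h5 : SKerQ) (h6 : SEFun)
    (h7 : SEPro) : SEIrr := by
  classical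
  intro n k M M' p ι s hSL hR hF hfold horb hblk
  have hC : Sat M' Finset.univ := fun _ _ j _ => Finset.mem_univ j
  obtain ⟨hmem, hup, hdn, hes, hact⟩ := h1 k M' hR Finset.univ
  obtain ⟨hgen, hmap⟩ := h2 k M' hSL hR hF Finset.univ hC
  obtain ⟨π, hπq, hπl, -, -⟩ := id h5
  obtain ⟨hmon, -⟩ := h4 k M' hSL hR hF Finset.univ hC K1 xx EIrr_xx0
  have hre : ∀ i, e i ∈ roots M' Finset.univ := fun i => (hes i).2 (Finset.mem_univ i)
  -- the vectors and the functionals over `R2`
  let V0 : Matrix (PR M' Finset.univ) (Fin 2) R2 := Matrix.of fun g m =>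
    xv M' Finset.univ (e (p s m)) g
  let W0 : Matrix (Fin 2) (PR M' Finset.univ) R2 := Matrix.of fun m c =>
    cubf M' qq ll (p s m) c.1
  have hcub : ∀ i g c, cub M' qq ll i g c = cubf M' qq ll i c.1 * xv M' Finset.univ (e i) g := by
    intro i g c
    rw [← EIrr_col (cub M' qq ll i) g c, h6 k M' hR R2 qq ll i c.1 c.2]
    rfl
  have hone : ∀ (R : Type) [CommRing R] (i : Fin k),
      xv M' Finset.univ (R := R) (e i) ⟨e i, hre i⟩ = 1 := fun R _ i => if_pos rfl
  -- the values of the functionals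
  have hval : ∀ (i : Fin k) (v : PR M' Finset.univ → R2) (a : R2),
      (cub M' qq ll i).mulVec v = a • xv M' Finset.univ (e i) →
      ∑ c, cubf M' qq ll i c.1 * v c = a := by
    intro i v a h
    have e1 := congrFun h ⟨e i, hre i⟩
    rw [Pi.smul_apply, hone, smul_eq_mul, mul_one, Matrix.mulVec, dotProduct] at e1
    rw [← e1]
    refine Finset.sum_congr rfl fun c _ => ?_
    rw [hcub, hone, mul_one]
  -- the representation over `K2`
  let φ := algebraMap R2 K2
  have hinj : Function.Injective φ := IsFractionRing.injective R2 K2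
  let ρ : Art M → Matrix (PR M' Finset.univ) (PR M' Finset.univ) K2 := fun x => mK (frp ι) x
  have hρ : ∀ x, ρ x = (frp ι x).1.map φ := fun _ => rfl
  have hρmul : ∀ x y, ρ (x * y) = ρ x * ρ y := by
    intro x y
    rw [hρ, hρ, hρ, map_mul, Units.val_mul, Matrix.map_mul]
  have hρone : ρ 1 = 1 := by
    rw [hρ, map_one, Units.val_one]
    exact Matrix.map_one _ (map_zero _) (map_one _)
  -- the entry of `W0 * U * V0`
  have hent : ∀ (U : Matrix (PR M' Finset.univ) (PR M' Finset.univ) R2) (a b : Fin 2) (r : R2),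
      (cub M' qq ll (p s a)).mulVec (U.mulVec (xv M' Finset.univ (e (p s b)))) =
        r • xv M' Finset.univ (e (p s a)) → (W0 * U * V0) a b = r := by
    intro U a b r h
    rw [← hval _ _ _ h, Matrix.mul_assoc, Matrix.mul_apply]
    rfl
  obtain ⟨u, v, A, B, C, A', B', C', hD, b1, b2, b3, b4, b5, b6, b7, b8⟩ := hblk
  have hu0 : W0 * (frp ι u).1 * V0 = !![A, B; B, C] := by
    ext a b
    fin_cases a <;> fin_cases b
    · exact hent _ 0 0 _ b1
    · exact hent _ 0 1 _ b2
    · exact hent _ 1 0 _ b3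
    · exact hent _ 1 1 _ b4
  have hv0 : W0 * (frp ι v).1 * V0 = !![A', B'; B', C'] := by
    ext a b
    fin_cases a <;> fin_cases b
    · exact hent _ 0 0 _ b5
    · exact hent _ 0 1 _ b6
    · exact hent _ 1 0 _ b7
    · exact hent _ 1 1 _ b8
  have hmap2 : ∀ a b c d : R2, (!![a, b; c, d] : Matrix (Fin 2) (Fin 2) R2).map φ =
      !![φ a, φ b; φ c, φ d] := by
    intro a b c d
    ext i j
    fin_cases i <;> fin_cases j <;> rfl
  have hD2 : φ B * (φ A' - φ C') ≠ φ B' * (φ A - φ C) := by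
    intro h
    apply hD
    apply hinj
    rw [map_mul, map_mul, map_sub, map_sub]
    exact h
  -- the elements of the orbits
  have horb' : ∀ b : PR M' Finset.univ, ∃ (x : Art M) (c : ℤ) (m : Fin 2),
      (LKr M' Finset.univ 1 xx (ι x)).1.mulVec (xv M' Finset.univ b.1) =
        (xx ^ c) • xv M' Finset.univ (e (p s m)) := by
    intro b
    obtain ⟨x, c, m, hm, hx⟩ := horb b.1 b.2
    rcases hm with hm | hm
    · exact ⟨x, c, 0, by rw [← hm]; exact hx⟩
    · exact ⟨x, c, 1, by rw [← hm]; exact hx⟩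
  choose h c m hh using horb'
  have hπmap : ∀ x : Art M, (frp ι x).1.map π = (LKr M' Finset.univ 1 xx (ι x)).1 := by
    intro x
    have e1 := hmap R2 K1 (π : R2 →+* K1) qq ll qq_unit ll_unit (ι x)
    have e2 : (π : R2 →+* K1) qq = 1 := hπq
    have e3 : (π : R2 →+* K1) ll = xx := hπl
    rw [e2, e3] at e1
    rw [e1]
    rfl
  have hcf : ∀ (i : Fin k) (b : PR M' Finset.univ),
      π (cubf M' qq ll i b.1) = if b.1 = e i then xx ^ 2 - 1 else 0 := fun i b =>
    EIrr_cubf hR hF h1 (π : R2 →+* K1) qq ll hπq hπl i b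
  -- the matrix `Q`
  let Q0 : Matrix (PR M' Finset.univ) (PR M' Finset.univ) R2 := Matrix.of fun b c =>
    (W0 * (frp ι (h b)).1) (m b) c
  let Y0 : Matrix (PR M' Finset.univ) (PR M' Finset.univ) R2 := Matrix.of fun b c =>
    ((frp ι (h c)⁻¹).1 * V0) b (m c)
  have hQ1 : Q0.map π = Matrix.diagonal fun b => (xx ^ 2 - 1) * xx ^ c b := by
    ext b d
    have e0 : (Q0.map π) b d = (xx ^ 2 - 1) *
        ((LKr M' Finset.univ 1 xx (ι (h b))).1.mulVec (xv M' Finset.univ d.1))
          ⟨e (p s (m b)), hre _⟩ := by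
      show π ((W0 * (frp ι (h b)).1) (m b) d) = _
      rw [Matrix.mul_apply, map_sum, Finset.sum_eq_single ⟨e (p s (m b)), hre _⟩]
      · rw [map_mul, EIrr_col, ← hπmap]
        show π (cubf M' qq ll (p s (m b)) (e (p s (m b)))) * _ = _
        rw [hcf (p s (m b)) ⟨e (p s (m b)), hre _⟩, if_pos rfl]
        rfl
      · intro d' _ hd
        rw [map_mul]
        show π (cubf M' qq ll (p s (m b)) d'.1) * _ = 0
        rw [hcf (p s (m b)) d', if_neg fun h' => hd (Subtype.ext h'),
          zero_mul]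
      · intro h'
        exact absurd (Finset.mem_univ _) h'
    rw [e0]
    by_cases hbd : b = d
    · subst hbd
      rw [hh b, Matrix.diagonal_apply_eq, Pi.smul_apply, hone, smul_eq_mul, mul_one]
    · rw [Matrix.diagonal_apply_ne _ hbd]
      obtain ⟨σ, t, hσ⟩ := hmon (ι (h b))
      have e3 : (e (p s (m b)) : Fin k → ℤ) = (σ b).1 := by
        by_contra h'
        have e4 := congrFun (hσ b) ⟨e (p s (m b)), hre _⟩
        rw [hh b, Pi.smul_apply, Pi.smul_apply, hone, smul_eq_mul, mul_one] at e4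
        have e5 : xv M' Finset.univ (R := K1) (σ b).1 ⟨e (p s (m b)), hre _⟩ = 0 := if_neg h'
        rw [e5, smul_zero] at e4
        exact zpow_ne_zero _ EIrr_xx0 e4
      have e4 : ¬ (e (p s (m b)) : Fin k → ℤ) = (σ d).1 := fun h' =>
        hbd (σ.injective (Subtype.ext (e3.symm.trans h')))
      have e5 : xv M' Finset.univ (R := K1) (σ d).1 ⟨e (p s (m b)), hre _⟩ = 0 := if_neg e4
      rw [hσ d, Pi.smul_apply, e5, smul_zero, mul_zero]
  have hY1 : Y0.map π = Matrix.diagonal fun b => (xx ^ c b)⁻¹ := by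
    ext b d
    have hinv : (LKr M' Finset.univ 1 xx (ι (h d)⁻¹)).1.mulVec
        (xv M' Finset.univ (e (p s (m d)))) = (xx ^ c d)⁻¹ • xv M' Finset.univ d.1 := by
      have e1 : xv M' Finset.univ (R := K1) (e (p s (m d))) = (xx ^ c d)⁻¹ •
          (LKr M' Finset.univ 1 xx (ι (h d))).1.mulVec (xv M' Finset.univ d.1) := by
        rw [hh d, smul_smul, inv_mul_cancel₀ (zpow_ne_zero _ EIrr_xx0), one_smul]
      rw [e1, Matrix.mulVec_smul, Matrix.mulVec_mulVec, ← Units.val_mul, ← map_mul, ← map_mul,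
        inv_mul_cancel, map_one, map_one, Units.val_one, Matrix.one_mulVec]
    have e0 : (Y0.map π) b d = ((LKr M' Finset.univ 1 xx (ι (h d)⁻¹)).1.mulVec
        (xv M' Finset.univ (e (p s (m d))))) b := by
      show π (((frp ι (h d)⁻¹).1 * V0) b (m d)) = _
      rw [← hπmap, Matrix.mul_apply, map_sum, Matrix.mulVec, dotProduct]
      refine Finset.sum_congr rfl fun g _ => ?_
      rw [map_mul]
      congr 1
      show π (if g.1 = e (p s (m d)) then 1 else 0) = if g.1 = e (p s (m d)) then 1 else 0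
      split_ifs
      · exact map_one _
      · exact map_zero _
    rw [e0, hinv, Pi.smul_apply, smul_eq_mul]
    by_cases hbd : b = d
    · subst hbd
      rw [Matrix.diagonal_apply_eq]
      show _ * (if b.1 = b.1 then (1 : K1) else 0) = _
      rw [if_pos rfl, mul_one]
    · rw [Matrix.diagonal_apply_ne _ hbd]
      show _ * (if b.1 = d.1 then (1 : K1) else 0) = _
      rw [if_neg fun h' => hbd (Subtype.ext h'), mul_zero]
  have hdet : ∀ (Z : Matrix (PR M' Finset.univ) (PR M' Finset.univ) R2)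
      (f : PR M' Finset.univ → K1), (∀ b, f b ≠ 0) → Z.map π = Matrix.diagonal f →
      (Z.map φ).det ≠ 0 := by
    intro Z f hf hZ h0
    have e1 : φ Z.det = 0 := by
      rw [RingHom.map_det]
      exact h0
    have e2 : Z.det = 0 := hinj (e1.trans (map_zero _).symm)
    have e3 : π Z.det = (Z.map π).det := by
      rw [AlgHom.map_det]
      rfl
    rw [e2, map_zero, hZ, Matrix.det_diagonal] at e3
    exact Finset.prod_ne_zero_iff.2 (fun b _ => hf b) e3.symm
  refine EIrr_abs ρ hρmul (V0.map φ) (W0.map φ) ?_ u v (φ A) (φ B) (φ C) (φ A') (φ B') (φ C')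
    ?_ ?_ hD2 h m ?_ ?_
  · -- the operator of rank two
    obtain ⟨g1, -, -⟩ := h7 k M' hSL hR hF R2 qq ll (p s 0) (p s 1) (hfold.ne s) (hfold.na s)
    have hG : (frp ι (gn M s)).1 =
        lk M' Finset.univ qq ll (p s 0) * lk M' Finset.univ qq ll (p s 1) := by
      unfold frp
      rw [MonoidHom.comp_apply, hfold.im, map_mul, Units.val_mul, hgen R2 qq ll qq_unit ll_unit,
        hgen R2 qq ll qq_unit ll_unit]
    rw [← hG] at g1
    have e1 : cub M' qq ll (p s 0) + cub M' qq ll (p s 1) = V0 * W0 := by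
      ext g d
      rw [Matrix.add_apply, hcub, hcub, Matrix.mul_apply, Fin.sum_univ_two]
      show _ = xv M' Finset.univ (e (p s 0)) g * cubf M' qq ll (p s 0) d.1 +
        xv M' Finset.univ (e (p s 1)) g * cubf M' qq ll (p s 1) d.1
      ring
    rw [e1] at g1
    have g2 := congrArg (fun Z : Matrix (PR M' Finset.univ) (PR M' Finset.univ) R2 => Z.map φ) g1
    have hsm : ∀ (r : R2) (Z : Matrix (PR M' Finset.univ) (PR M' Finset.univ) R2),
        (r • Z).map φ = φ r • Z.map φ := by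
      intro r Z
      ext a b
      exact map_mul φ r (Z a b)
    have hone' : (1 : Matrix (PR M' Finset.univ) (PR M' Finset.univ) R2).map φ = 1 :=
      Matrix.map_one _ (map_zero _) (map_one _)
    rw [Matrix.map_mul, Matrix.map_mul, Matrix.map_sub φ (fun a b => map_sub φ a b),
      Matrix.map_sub φ (fun a b => map_sub φ a b), Matrix.map_add φ (fun a b => map_add φ a b),
      hsm, hsm, hsm, Matrix.map_mul, hone', ← hρ] at g2
    have hne : φ (ll - qq ^ 2) ≠ 0 := by
      intro h0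
      have e2 : ll - qq ^ 2 = 0 := hinj (h0.trans (map_zero _).symm)
      obtain ⟨ψ, h8, h9⟩ := R2_lift (S := ℂ) isUnit_one (IsUnit.mk0 2 two_ne_zero)
      have e3 := congrArg ψ e2
      rw [map_sub, map_pow, h8, h9, map_zero] at e3
      norm_num at e3
    have hmem1 : (1 : Matrix (PR M' Finset.univ) (PR M' Finset.univ) K2) ∈
        Submodule.span K2 (Set.range ρ) := by
      rw [← hρone]
      exact Submodule.subset_span ⟨1, rfl⟩
    have hmemG : ρ (gn M s) ∈ Submodule.span K2 (Set.range ρ) := Submodule.subset_span ⟨_, rfl⟩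
    have g3 : φ (ll - qq ^ 2) • (V0.map φ * W0.map φ) ∈ Submodule.span K2 (Set.range ρ) := by
      rw [← g2]
      exact EIrr_mul ρ hρmul (EIrr_mul ρ hρmul (Submodule.sub_mem _ hmemG hmem1)
        (Submodule.add_mem _ hmemG (Submodule.smul_mem _ _ hmem1)))
        (Submodule.sub_mem _ hmemG (Submodule.smul_mem _ _ hmem1))
    have g4 := Submodule.smul_mem _ (φ (ll - qq ^ 2))⁻¹ g3
    rw [smul_smul, inv_mul_cancel₀ hne, one_smul] at g4
    exact g4
  · rw [hρ, ← Matrix.map_mul, ← Matrix.map_mul, hu0, hmap2]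
  · rw [hρ, ← Matrix.map_mul, ← Matrix.map_mul, hv0, hmap2]
  · have e1 : (Matrix.of fun b c => (W0.map φ * ρ (h b)) (m b) c) = Q0.map φ := by
      ext b d
      show (W0.map φ * (frp ι (h b)).1.map φ) (m b) d = φ ((W0 * (frp ι (h b)).1) (m b) d)
      rw [← Matrix.map_mul]
      rfl
    rw [e1]
    exact hdet Q0 _ (fun b => mul_ne_zero EIrr_xx (zpow_ne_zero _ EIrr_xx0)) hQ1
  · have e1 : (Matrix.of fun b c => (ρ (h c)⁻¹ * V0.map φ) b (m c)) = Y0.map φ := by
      ext b d
      show ((frp ι (h d)⁻¹).1.map φ * V0.map φ) b (m d) = φ (((frp ι (h d)⁻¹).1 * V0) b (m d))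
      rw [← Matrix.map_mul]
      rfl
    rw [e1]
    exact hdet Y0 _ (fun b => inv_ne_zero (zpow_ne_zero _ EIrr_xx0)) hY1

end Pool.Agent.Lib.MP_97567f_al.U
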