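import Pool.Agent.Lib.MP_97567f_al.U.HTab
import Pool.Agent.Lib.MP_97567f_al.U.SpecE

/-!
# MP_97567f_al: the orbits of H3 and H4 on the roots of D6 and E8
-/

set_option autoImplicit false

namespace Pool.Agent.Lib.MP_97567f_al.U

/-- The reflection of a code. -/
def rf (nb : ℕ → List ℕ) (c s : ℕ) : ℕ :=
  if 2 * dg c s + 1 = sn nb c s then c + 8 ^ s
  else if 2 * dg c s = sn nb c s + 1 then c - 8 ^ s else c

theorem rf_spec {k : ℕ} {M' : CoxeterMatrix (Fin k)} {nb : ℕ → List ℕ} {L : List ℕ}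
    (hT : Tb k M' nb L) (hR : RF M') (c : ℕ) (hc : c ∈ L) (s : Fin k)
    (hs : c ≠ 8 ^ (s : ℕ)) : rf nb c s ∈ L ∧
      rtc k (rf nb c s) = rtc k c - (pr M' (rtc k c) s) • e s := by
  have hne : rtc k c ≠ e s := by
    intro h
    rw [← rtc_pow] at h
    exact hs (rtc_inj (hT.lt c hc) (Nat.pow_lt_pow_right (by norm_num) s.2) h)
  have hb := hR.a.bnd (rtc k c) s (rt_rtc hT c hc) hne
  have hp := pr_rtc hT c s
  unfold rf
  split_ifs with h1 h2
  · obtain ⟨h3, h4⟩ := rtc_up hT c hc s h1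
    refine ⟨h3, ?_⟩
    rw [h4, hp, show 2 * (dg c s : ℤ) - (sn nb c s : ℤ) = -1 by omega, neg_one_smul, sub_neg_eq_add]
  · obtain ⟨h3, h4, h5⟩ := hT.dn c hc s s.2 h2
    refine ⟨h4, ?_⟩
    obtain ⟨_, h6⟩ := rtc_up hT _ h4 s h5
    rw [Nat.sub_add_cancel h3] at h6
    rw [hp, show 2 * (dg c s : ℤ) - (sn nb c s : ℤ) = 1 by omega, one_smul, h6]
    abel
  · refine ⟨hc, ?_⟩
    have : pr M' (rtc k c) s = 0 := by
      rcases hb with h | h | h
      · omega
      · exact h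
      · omega
    rw [this, zero_smul, sub_zero]

/-- The condition on the order of the list. -/
def Ordd {n k : ℕ} (p : Fin n → Fin 2 → Fin k) (nb : ℕ → List ℕ) (L : List ℕ) (s0 : Fin n) : Prop :=
  ∀ i < L.length, L.getD i 0 = 8 ^ (p s0 0 : ℕ) ∨ L.getD i 0 = 8 ^ (p s0 1 : ℕ) ∨
    ∃ t : Fin n, L.getD i 0 ≠ 8 ^ (p t 1 : ℕ) ∧ rf nb (L.getD i 0) (p t 1) ≠ 8 ^ (p t 0 : ℕ) ∧
      rf nb (rf nb (L.getD i 0) (p t 1)) (p t 0) ∈ L.take i

instance {n k : ℕ} (p : Fin n → Fin 2 → Fin k) (nb : ℕ → List ℕ) (L : List ℕ) (s0 : Fin n) :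
    Decidable (Ordd p nb L s0) := by
  unfold Ordd
  infer_instance

theorem orb_of {n k : ℕ} {M : CoxeterMatrix (Fin n)} {M' : CoxeterMatrix (Fin k)}
    {nb : ℕ → List ℕ} {L : List ℕ} {p : Fin n → Fin 2 → Fin k} {ι : Art M →* Art M'}
    (hT : Tb k M' nb L) (hS : SL M') (hR : RF M') (hF : FH M' (fh M')) (hA : SLkA) (hK : SLKr)
    (hO : SLkO) (hf : Fold M M' p ι) (s0 : Fin n) (ho : Ordd p nb L s0) :
    Orb M' ι (p s0 0) (p s0 1) := by
  have hsat : Sat M' Finset.univ := fun _ _ _ _ => Finset.mem_univ _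
  have hu : IsUnit xx := isUnit_iff_ne_zero.2 (by
    unfold xx
    intro h
    rw [map_eq_zero_iff _ (IsFractionRing.injective (Polynomial ℂ) K1)] at h
    exact Polynomial.X_ne_zero h)
  have hgen := (hK k M' hS hR hF Finset.univ hsat).1 K1 1 xx isUnit_one hu
  have hstep : ∀ c ∈ L, ∀ t : Fin n, c ≠ 8 ^ (p t 1 : ℕ) → rf nb c (p t 1) ≠ 8 ^ (p t 0 : ℕ) →
      (LKr M' Finset.univ 1 xx (ι (gn M t))).1.mulVec (xv M' Finset.univ (rtc k c)) =
        xv M' Finset.univ (rtc k (rf nb (rf nb c (p t 1)) (p t 0))) := by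
    intro c hc t h1 h2
    rw [hf.im, map_mul, Units.val_mul, hgen, hgen, ← Matrix.mulVec_mulVec]
    obtain ⟨h3, h4⟩ := rf_spec hT hR c hc (p t 1) h1
    obtain ⟨h5, h6⟩ := rf_spec hT hR _ h3 (p t 0) h2
    have ne : ∀ c ∈ L, ∀ s : Fin k, c ≠ 8 ^ (s : ℕ) → rtc k c ≠ e s := by
      intro c hc s hs h
      rw [← rtc_pow] at h
      exact hs (rtc_inj (hT.lt c hc) (Nat.pow_lt_pow_right (by norm_num) s.2) h)
    have hr : ∀ c ∈ L, rtc k c ∈ roots M' Finset.univ := fun c hc =>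
      (roots_eq hT hR hA _).2 ⟨c, hc, rfl⟩
    rw [((hO k M' hR hF Finset.univ hsat K1 xx (p t 1) _ (hr c hc)).2 (ne c hc _ h1)).2, ← h4,
      ((hO k M' hR hF Finset.univ hsat K1 xx (p t 0) _ (hr _ h3)).2 (ne _ h3 _ h2)).2, ← h6]
  have key : ∀ i ≤ L.length, ∀ c ∈ L.take i, ∃ (x : Art M) (z : ℤ) (m : Fin k),
      (m = p s0 0 ∨ m = p s0 1) ∧
      (LKr M' Finset.univ 1 xx (ι x)).1.mulVec (xv M' Finset.univ (rtc k c)) =
        (xx ^ z) • xv M' Finset.univ (e m) := by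
    intro i
    induction i with
    | zero =>
      intro _ c hc
      simp at hc
    | succ i ih =>
      intro hi c hc
      rw [List.take_add_one, List.mem_append] at hc
      rcases hc with hc | hc
      · exact ih (by omega) c hc
      · have hi' : i < L.length := by omega
        have hc2 : c = L.getD i 0 := by
          rw [List.getElem?_eq_getElem hi'] at hc
          simp only [Option.toList_some, List.mem_singleton] at hc
          rw [hc, List.getD_eq_getElem _ _ hi']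
        have hcL : c ∈ L := by
          rw [hc2, List.getD_eq_getElem _ _ hi']
          exact List.getElem_mem _
        rcases ho i hi' with h | h | ⟨t, h1, h2, h3⟩
        · refine ⟨1, 0, p s0 0, Or.inl rfl, ?_⟩
          rw [hc2, h, rtc_pow, map_one, map_one, Units.val_one, Matrix.one_mulVec, zpow_zero,
            one_smul]
        · refine ⟨1, 0, p s0 1, Or.inr rfl, ?_⟩
          rw [hc2, h, rtc_pow, map_one, map_one, Units.val_one, Matrix.one_mulVec, zpow_zero,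
            one_smul]
        · rw [← hc2] at h1 h2 h3
          obtain ⟨x, z, m, hm, hx⟩ := ih (by omega) _ h3
          refine ⟨x * gn M t, z, m, hm, ?_⟩
          rw [map_mul, map_mul, Units.val_mul, ← Matrix.mulVec_mulVec, hstep c hcL t h1 h2, hx]
  intro b hb
  obtain ⟨c, hc, rfl⟩ := (roots_eq hT hR hA b).1 hb
  exact key L.length le_rfl c (by rw [List.take_length]; exact hc)

theorem ord6 : Ordd p3 nb6 L6 2 := by decide +kernel

theorem ord8 : Ordd p4 nb8 L8 3 := by decide +kernel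

end Pool.Agent.Lib.MP_97567f_al.U
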