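import Pool.Agent.Lib.MP_97567f_al.U.SpecE

/-!
# MP_97567f_al: the types H3 and H4: powers do not commute
-/

set_option autoImplicit false

namespace Pool.Agent.Lib.MP_97567f_al.U

private theorem EPow_pow {ι R : Type} [Fintype ι] [DecidableEq ι] [CommRing R] (B : Matrix ι ι R)
    (v : ι → R) (μ : R) (h : B.mulVec v = μ • v) (k : ℕ) : (B ^ k).mulVec v = μ ^ k • v := by
  induction k with
  | zero => simp
  | succ k ih => rw [pow_succ, ← Matrix.mulVec_mulVec, h, Matrix.mulVec_smul, ih, smul_smul,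
      pow_succ, mul_comm]

private theorem EPow_canc {ι R : Type} [CommRing R] [IsDomain R] {a b : R} {u : ι → R}
    (h : a • u = b • u) (hab : a ≠ b) : u = 0 := by
  funext i
  have h1 := congrFun h i
  simp only [Pi.smul_apply, smul_eq_mul] at h1
  have h2 : (a - b) * u i = 0 := by rw [sub_mul, h1, sub_self]
  rcases mul_eq_zero.1 h2 with h3 | h3
  · exact absurd (sub_eq_zero.1 h3) hab
  · exact h3

private theorem EPow_core {ι R : Type} [Fintype ι] [DecidableEq ι] [CommRing R] [IsDomain R]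
    (B : Matrix ι ι R) (q l : R) (j : ℕ) (x y : ι → R) (hTy : (B ^ j).mulVec y = l ^ j • y)
    (hx : B.mulVec x = l • x) (F : (ι → R) →ₗ[R] R)
    (hF : ∀ v, ((B - 1) * (B + q • (1 : Matrix ι ι R))).mulVec v = F v • x)
    (h1 : l ^ j ≠ 1) (h2 : (-q) ^ j ≠ l ^ j) :
    ∃ c : R, ((l - 1) * (l + q)) • y = c • x := by
  have hcomm : B ^ j * B = B * B ^ j := by rw [← pow_succ, ← pow_succ']
  have hBy : (B ^ j).mulVec (B.mulVec y) = l ^ j • B.mulVec y := by
    rw [Matrix.mulVec_mulVec, hcomm, ← Matrix.mulVec_mulVec, hTy, Matrix.mulVec_smul]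
  set u := B.mulVec y - l • y with hu
  have hTu : (B ^ j).mulVec u = l ^ j • u := by
    rw [hu, Matrix.mulVec_sub, Matrix.mulVec_smul, hBy, hTy, smul_sub, smul_comm]
  have hu0 : ((B - 1) * (B + q • (1 : Matrix ι ι R))).mulVec u = 0 := by
    have e1 : u = (B - l • (1 : Matrix ι ι R)).mulVec y := by
      rw [hu, Matrix.sub_mulVec, Matrix.smul_mulVec, Matrix.one_mulVec]
    have e2 : ((B - 1) * (B + q • (1 : Matrix ι ι R))) * (B - l • (1 : Matrix ι ι R)) =
        (B - l • (1 : Matrix ι ι R)) * ((B - 1) * (B + q • (1 : Matrix ι ι R))) := by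
      have c1 : Commute B (B - l • (1 : Matrix ι ι R)) :=
        (Commute.refl B).sub_right ((Commute.one_right B).smul_right l)
      have c2 : Commute (1 : Matrix ι ι R) (B - l • (1 : Matrix ι ι R)) := Commute.one_left _
      exact ((c1.sub_left c2).mul_left (c1.add_left (c2.smul_left q))).eq
    rw [e1, Matrix.mulVec_mulVec, e2, ← Matrix.mulVec_mulVec, hF, Matrix.mulVec_smul,
      Matrix.sub_mulVec, Matrix.smul_mulVec, Matrix.one_mulVec, hx, sub_self, smul_zero]
  set u1 := (B + q • (1 : Matrix ι ι R)).mulVec u with hu1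
  have hu1' : u1 = B.mulVec u + q • u := by
    rw [hu1, Matrix.add_mulVec, Matrix.smul_mulVec, Matrix.one_mulVec]
  have hBu1 : B.mulVec u1 = (1 : R) • u1 := by
    rw [← Matrix.mulVec_mulVec, ← hu1, Matrix.sub_mulVec, Matrix.one_mulVec] at hu0
    rw [one_smul]
    exact sub_eq_zero.1 hu0
  have hTu1 : (B ^ j).mulVec u1 = l ^ j • u1 := by
    rw [hu1', Matrix.mulVec_add, Matrix.mulVec_smul, hTu, Matrix.mulVec_mulVec, hcomm,
      ← Matrix.mulVec_mulVec, hTu, Matrix.mulVec_smul, smul_add, smul_comm q]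
  have hu10 : u1 = 0 := by
    refine EPow_canc (a := l ^ j) (b := 1) ?_ h1
    rw [← hTu1, EPow_pow B u1 1 hBu1 j, one_pow]
  have hBu : B.mulVec u = (-q) • u := by
    rw [hu10] at hu1'
    rw [neg_smul]
    exact eq_neg_of_add_eq_zero_left hu1'.symm
  have hu00 : u = 0 := by
    refine EPow_canc (a := (-q) ^ j) (b := l ^ j) ?_ h2
    rw [← hTu, EPow_pow B u (-q) hBu j]
  have hBy' : B.mulVec y = l • y := by
    rw [hu00] at hu
    exact sub_eq_zero.1 hu.symm
  refine ⟨F y, ?_⟩
  rw [← hF y, ← Matrix.mulVec_mulVec, Matrix.add_mulVec, Matrix.smul_mulVec, Matrix.one_mulVec, hBy',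
    ← add_smul, Matrix.mulVec_smul, Matrix.sub_mulVec, Matrix.one_mulVec, hBy']
  rw [show l • y - y = (l - 1) • y by rw [sub_smul, one_smul], smul_smul, mul_comm]

private theorem EPow_img {n : ℕ} (M : CoxeterMatrix (Fin n)) (C : Finset (Fin n)) {R : Type}
    [CommRing R] (q l : R) (s : Fin n) (b : Fin n → ℤ) (hb : b ≠ e s) (hp : pr M b s = 1) :
    ∃ f : R, img M C q l s b = q • xv M C (b - e s) + f • xv M C (e s) := by
  refine ⟨l * Polynomial.aeval q (fh M s b), ?_⟩
  unfold img
  rw [if_neg hb, if_neg (by rw [hp]; norm_num), if_pos hp]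

/-- evaluation homomorphisms -/
private theorem EPow_ev (a b : ℂ) (ha : a ≠ 0) (hb : b ≠ 0) :
    ∃ φ : R2 →ₐ[ℂ] ℂ, φ qq = a ∧ φ ll = b :=
  R2_lift (isUnit_iff_ne_zero.2 ha) (isUnit_iff_ne_zero.2 hb)

private theorem EPow_two (j : ℕ) (hj : 1 ≤ j) : (2 : ℂ) ^ j ≠ 1 ∧ (-1 : ℂ) ^ j ≠ 2 ^ j ∧
    (-2 : ℂ) ^ j ≠ 1 := by
  have h1 : (1 : ℝ) < 2 ^ j := one_lt_pow₀ (by norm_num) (by omega)
  refine ⟨fun h => ?_, fun h => ?_, fun h => ?_⟩
  · have := congrArg norm h
    rw [norm_pow, norm_one, Complex.norm_ofNat] at this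
    linarith
  · have := congrArg norm h
    rw [norm_pow, norm_pow, norm_neg, norm_one, one_pow, Complex.norm_ofNat] at this
    linarith
  · have := congrArg norm h
    rw [norm_pow, norm_neg, norm_one, Complex.norm_ofNat] at this
    linarith

/-- The second factor is trivial on an invariant subspace. -/
private theorem EPow_sub {ι R : Type} [Fintype ι] [DecidableEq ι] [CommRing R]
    (P Q : Matrix ι ι R) (S : Set (ι → R)) (hQ : ∀ v ∈ S, Q.mulVec v = v)
    (hP : ∀ v ∈ S, P.mulVec v ∈ Submodule.span R S) (j : ℕ) :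
    ∀ v ∈ Submodule.span R S, (P ^ j).mulVec v ∈ Submodule.span R S ∧
      ((P * Q) ^ j).mulVec v = (P ^ j).mulVec v := by
  have hQ' : ∀ v ∈ Submodule.span R S, Q.mulVec v = v := by
    intro v hv
    induction hv using Submodule.span_induction with
    | mem x hx => exact hQ x hx
    | zero => rw [Matrix.mulVec_zero]
    | add x y _ _ hx hy => rw [Matrix.mulVec_add, hx, hy]
    | smul a x _ hx => rw [Matrix.mulVec_smul, hx]
  have hP' : ∀ v ∈ Submodule.span R S, P.mulVec v ∈ Submodule.span R S := by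
    intro v hv
    induction hv using Submodule.span_induction with
    | mem x hx => exact hP x hx
    | zero => rw [Matrix.mulVec_zero]; exact Submodule.zero_mem _
    | add x y _ _ hx hy => rw [Matrix.mulVec_add]; exact Submodule.add_mem _ hx hy
    | smul a x _ hx => rw [Matrix.mulVec_smul]; exact Submodule.smul_mem _ a hx
  induction j with
  | zero =>
    intro v hv
    rw [pow_zero, pow_zero, Matrix.one_mulVec]
    exact ⟨hv, rfl⟩
  | succ j ih =>
    intro v hv
    obtain ⟨h1, h2⟩ := ih v hv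
    have e1 : (P ^ (j + 1)).mulVec v = P.mulVec ((P ^ j).mulVec v) := by
      rw [pow_succ', Matrix.mulVec_mulVec]
    refine ⟨?_, ?_⟩
    · rw [e1]
      exact hP' _ h1
    · rw [pow_succ', ← Matrix.mulVec_mulVec, h2, e1, ← Matrix.mulVec_mulVec, hQ' _ h1]

theorem pEPow (h1 : SLkA) (h2 : SLkQ) (h3 : SLKr) : SEPow := by
  intro n k M M' p ι s' t' hM hRF hFH hFold hst hn1 hn2 hd1 hd2 hd0 j hj1 hcon
  set s := p s' 0 with hs
  set t := p t' 0 with ht
  set s1 := p s' 1 with hs1
  set t1 := p t' 1 with ht1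
  have hss1 : s ≠ s1 := hFold.ne s'
  have htt1 : t ≠ t1 := hFold.ne t'
  have nss1 : ¬ adj M' s s1 := hFold.na s'
  have ntt1 : ¬ adj M' t t1 := hFold.na t'
  have hne : s ≠ t := hd0
  set C : Finset (Fin k) := Finset.univ with hCdef
  have hC : ∀ x : Fin k, x ∈ C := fun x => Finset.mem_univ x
  have hSat : Sat M' C := fun i _ j _ => hC j
  obtain ⟨hroots, hup, _, hsimp, hact⟩ := h1 k M' hRF C
  obtain ⟨hlk, _⟩ := hact R2 qq ll
  obtain ⟨hLK, _⟩ := h3 k M' hM hRF hFH C hSat
  have hLK' := hLK R2 qq ll qq_unit ll_unit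
  obtain ⟨hF, _⟩ := h2 k M' hRF C hSat R2 qq ll
  obtain ⟨F, _, hF⟩ := hF t (hC t)
  -- the vectors
  have hprts : pr M' (e t) s = -1 := hRF.a.pra t s (adj_symm hst)
  have hprst : pr M' (e s) t = -1 := hRF.a.pra s t hst
  have het : e t ∈ roots M' C := (hsimp t).2 (hC t)
  have hes : e s ∈ roots M' C := (hsimp s).2 (hC s)
  have hets : e t + e s ∈ roots M' C := hup (e t) het s hprts (hC s)
  have hRt : Rt M' (e t) := ((hroots _).1 het).1
  have hRs : Rt M' (e s) := ((hroots _).1 hes).1
  have hprs : pr M' (e t + e s) s = 1 := by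
    rw [hRF.a.pr_add, hprts, hRF.a.pre]
    norm_num
  have hprt : pr M' (e t + e s) t = 1 := by
    rw [hRF.a.pr_add, hprst, hRF.a.pre]
    norm_num
  have ht_ne_s : (e t : Fin k → ℤ) ≠ e s := by
    intro h
    have := congrFun h t
    unfold e at this
    rw [Pi.single_eq_same, Pi.single_eq_of_ne (Ne.symm hne)] at this
    norm_num at this
  have hts_ne_s : (e t + e s : Fin k → ℤ) ≠ e s := by
    intro h
    have := congrFun h t
    unfold e at this
    rw [Pi.add_apply, Pi.single_eq_same, Pi.single_eq_of_ne (Ne.symm hne)] at this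
    norm_num at this
  have hts_ne_t : (e t + e s : Fin k → ℤ) ≠ e t := by
    intro h
    have := congrFun h s
    unfold e at this
    rw [Pi.add_apply, Pi.single_eq_same, Pi.single_eq_of_ne hne] at this
    norm_num at this
  have hBt : (lk M' C qq ll t).mulVec (xv M' C (e t)) = ll • xv M' C (e t) := by
    rw [hlk t (e t) het]
    unfold img
    rw [if_pos rfl]
  have hBs : (lk M' C qq ll t).mulVec (xv M' C (e s)) =
      xv M' C (e t + e s) + (1 - qq) • xv M' C (e s) := by
    rw [hlk t (e s) hes]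
    unfold img
    rw [if_neg ht_ne_s.symm, if_pos hprst, hFH.simple t s hne.symm, map_zero, mul_zero, zero_smul,
      add_zero, add_comm (e s) (e t)]
  have hAt : (lk M' C qq ll s).mulVec (xv M' C (e t)) =
      xv M' C (e t + e s) + (1 - qq) • xv M' C (e t) := by
    rw [hlk s (e t) het]
    unfold img
    rw [if_neg ht_ne_s, if_pos hprts, hFH.simple s t hne, map_zero, mul_zero, zero_smul, add_zero]
  have hAs : (lk M' C qq ll s).mulVec (xv M' C (e s)) = ll • xv M' C (e s) := by
    rw [hlk s (e s) hes]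
    unfold img
    rw [if_pos rfl]
  obtain ⟨f, hAts⟩ : ∃ f : R2, (lk M' C qq ll s).mulVec (xv M' C (e t + e s)) =
      qq • xv M' C (e t) + f • xv M' C (e s) := by
    obtain ⟨f, hf⟩ := EPow_img M' C qq ll s (e t + e s) hts_ne_s hprs
    refine ⟨f, ?_⟩
    rw [hlk s (e t + e s) hets, hf, add_sub_cancel_right]
  obtain ⟨f', hBts⟩ : ∃ f : R2, (lk M' C qq ll t).mulVec (xv M' C (e t + e s)) =
      qq • xv M' C (e s) + f • xv M' C (e t) := by
    obtain ⟨f, hf⟩ := EPow_img M' C qq ll t (e t + e s) hts_ne_t hprt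
    refine ⟨f, ?_⟩
    rw [hlk t (e t + e s) hets, hf, add_sub_cancel_left]
  -- a commuting node fixes the three vectors
  have hfix1 : ∀ u v : Fin k, u ≠ v → ¬ adj M' v u →
      (lk M' C qq ll u).mulVec (xv M' C (e v)) = xv M' C (e v) := by
    intro u v huv hav
    have hp0 : pr M' (e v) u = 0 := hRF.a.prn v u huv.symm hav
    rw [hlk u (e v) ((hsimp v).2 (hC v))]
    unfold img
    rw [if_neg, if_neg (by rw [hp0]; norm_num), if_neg (by rw [hp0]; norm_num),
      hFH.simple u v huv, map_zero, mul_zero, zero_smul, add_zero]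
    intro h
    have := congrFun h v
    unfold e at this
    rw [Pi.single_eq_same, Pi.single_eq_of_ne huv.symm] at this
    norm_num at this
  have hfix2 : ∀ u : Fin k, u ≠ s → u ≠ t → ¬ adj M' u s → ¬ adj M' u t →
      (lk M' C qq ll u).mulVec (xv M' C (e t + e s)) = xv M' C (e t + e s) := by
    intro u hus hut nus nut
    have hp0 : pr M' (e t + e s) u = 0 := by
      rw [hRF.a.pr_add, hRF.a.prn t u hut.symm (fun h => nut (adj_symm h)),
        hRF.a.prn s u hus.symm (fun h => nus (adj_symm h)), add_zero]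
    rw [hlk u (e t + e s) hets]
    unfold img
    rw [if_neg, if_neg (by rw [hp0]; norm_num), if_neg (by rw [hp0]; norm_num),
      hFH.comm u s (e t) hus nus hRt hprts, hFH.simple u t hut, mul_zero, map_zero, mul_zero,
      zero_smul, add_zero]
    intro h
    have := congrFun h s
    unfold e at this
    rw [Pi.add_apply, Pi.single_eq_same, Pi.single_eq_of_ne hne, Pi.single_eq_of_ne hus.symm]
      at this
    norm_num at this
  set S : Set (PR M' C → R2) := {xv M' C (e t), xv M' C (e t + e s), xv M' C (e s)} with hS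
  have mS1 : xv M' C (R := R2) (e t) ∈ Submodule.span R2 S :=
    Submodule.subset_span (by rw [hS]; simp)
  have mS2 : xv M' C (R := R2) (e t + e s) ∈ Submodule.span R2 S :=
    Submodule.subset_span (by rw [hS]; simp)
  have mS3 : xv M' C (R := R2) (e s) ∈ Submodule.span R2 S :=
    Submodule.subset_span (by rw [hS]; simp)
  have hSA := EPow_sub (lk M' C qq ll s) (lk M' C qq ll s1) S (by
      intro v hv
      rw [hS] at hv
      rcases hv with rfl | rfl | rfl
      · exact hfix1 s1 t hd2 (fun h => hn2 (adj_symm h))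
      · exact hfix2 s1 hss1.symm hd2 (fun h => nss1 (adj_symm h)) hn2
      · exact hfix1 s1 s hss1.symm nss1) (by
      intro v hv
      rw [hS] at hv
      rcases hv with rfl | rfl | rfl
      · rw [hAt]
        exact Submodule.add_mem _ mS2 (Submodule.smul_mem _ _ mS1)
      · rw [hAts]
        exact Submodule.add_mem _ (Submodule.smul_mem _ _ mS1) (Submodule.smul_mem _ _ mS3)
      · rw [hAs]
        exact Submodule.smul_mem _ _ mS3) j
  have hSB := EPow_sub (lk M' C qq ll t) (lk M' C qq ll t1) S (by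
      intro v hv
      rw [hS] at hv
      rcases hv with rfl | rfl | rfl
      · exact hfix1 t1 t htt1.symm ntt1
      · exact hfix2 t1 hd1.symm htt1.symm (fun h => hn1 (adj_symm h))
          (fun h => ntt1 (adj_symm h))
      · exact hfix1 t1 s hd1.symm hn1) (by
      intro v hv
      rw [hS] at hv
      rcases hv with rfl | rfl | rfl
      · rw [hBt]
        exact Submodule.smul_mem _ _ mS1
      · rw [hBts]
        exact Submodule.add_mem _ (Submodule.smul_mem _ _ mS3) (Submodule.smul_mem _ _ mS1)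
      · rw [hBs]
        exact Submodule.add_mem _ mS2 (Submodule.smul_mem _ _ mS3)) j
  -- commutation
  have hfr : ∀ r, (frp ι (gn M r)).1 = lk M' C qq ll (p r 0) * lk M' C qq ll (p r 1) := by
    intro r
    unfold frp
    rw [MonoidHom.comp_apply, hFold.im, map_mul, Units.val_mul, hLK', hLK']
  have hcomm : (lk M' C qq ll s * lk M' C qq ll s1) ^ j * (lk M' C qq ll t * lk M' C qq ll t1) ^ j =
      (lk M' C qq ll t * lk M' C qq ll t1) ^ j * (lk M' C qq ll s * lk M' C qq ll s1) ^ j := by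
    have h7 := congrArg (fun X : GL (PR M' Finset.univ) R2 => X.1) hcon
    simp only [map_mul, map_pow, Units.val_mul, Units.val_pow_eq_pow_val] at h7
    rw [hfr, hfr] at h7
    exact h7
  have hTy : (lk M' C qq ll t ^ j).mulVec ((lk M' C qq ll s ^ j).mulVec (xv M' C (e t))) =
      ll ^ j • (lk M' C qq ll s ^ j).mulVec (xv M' C (e t)) := by
    rw [← (hSB _ (hSA _ mS1).1).2, ← (hSA _ mS1).2, Matrix.mulVec_mulVec, ← hcomm,
      ← Matrix.mulVec_mulVec, (hSB _ mS1).2, EPow_pow _ _ _ hBt j, Matrix.mulVec_smul]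
  have hpow : ∀ k : ℕ, ∃ α β γ : R2, (lk M' C qq ll s ^ k).mulVec (xv M' C (e t)) =
      α • xv M' C (e t + e s) + β • xv M' C (e t) + γ • xv M' C (e s) ∧
      (1 + qq) * α = 1 - (-qq) ^ k ∧ (1 + qq) * β = 1 - (-qq) ^ (k + 1) := by
    intro k
    induction k with
    | zero =>
      refine ⟨0, 1, 0, ?_, ?_, ?_⟩
      · simp
      · simp
      · ring
    | succ k ih =>
      obtain ⟨α, β, γ, hk, hα, hβ⟩ := ih
      refine ⟨β, α * qq + (1 - qq) * β, α * f + γ * ll, ?_, hβ, ?_⟩
      · rw [pow_succ', ← Matrix.mulVec_mulVec, hk, Matrix.mulVec_add, Matrix.mulVec_add,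
          Matrix.mulVec_smul, Matrix.mulVec_smul, Matrix.mulVec_smul, hAts, hAt, hAs]
        simp only [smul_add, smul_smul, add_smul]
        rw [mul_comm β (1 - qq)]
        abel
      · have : (1 + qq) * (α * qq + (1 - qq) * β) =
            qq * ((1 + qq) * α) + (1 - qq) * ((1 + qq) * β) := by ring
        rw [this, hα, hβ]
        ring
  obtain ⟨α, β, γ, hk, hα, _⟩ := hpow j
  obtain ⟨hn1', hn2', hn3'⟩ := EPow_two j hj1
  obtain ⟨φ, hφq, hφl⟩ := EPow_ev 1 2 (by norm_num) (by norm_num)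
  obtain ⟨φ', hφq', _⟩ := EPow_ev 2 2 (by norm_num) (by norm_num)
  have hc1 : ll ^ j ≠ 1 := by
    intro h
    have := congrArg φ h
    rw [map_pow, map_one, hφl] at this
    exact hn1' this
  have hc2 : (-qq) ^ j ≠ ll ^ j := by
    intro h
    have := congrArg φ h
    rw [map_pow, map_pow, map_neg, hφl, hφq] at this
    exact hn2' this
  have hc3 : (ll - 1) * (ll + qq) ≠ 0 := by
    intro h
    have := congrArg φ h
    rw [map_mul, map_sub, map_add, map_one, hφl, hφq, map_zero] at this
    norm_num at this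
  have hα0 : α ≠ 0 := by
    rintro rfl
    rw [mul_zero] at hα
    have := congrArg φ' hα
    rw [map_zero, map_sub, map_one, map_pow, map_neg, hφq'] at this
    exact hn3' (sub_eq_zero.1 this.symm).symm
  obtain ⟨c, hc⟩ := EPow_core (lk M' C qq ll t) qq ll j (xv M' C (e t)) _ hTy hBt F hF
    hc1 hc2
  have hcoord := congrFun hc ⟨e t + e s, hets⟩
  rw [hk] at hcoord
  simp only [Pi.smul_apply, Pi.add_apply, smul_eq_mul, xv, if_neg hts_ne_t, if_neg hts_ne_s,
    if_true, mul_zero, mul_one, add_zero] at hcoord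
  exact mul_ne_zero hc3 hα0 hcoord

end Pool.Agent.Lib.MP_97567f_al.U
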