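import Pool.Agent.Lib.MP_97567f_al.U.SpecE

/-!
# MP_97567f_al, module U/EPro: products of two commuting generators
-/

set_option autoImplicit false

namespace Pool.Agent.Lib.MP_97567f_al.U

open Polynomial

private theorem EPro_alg {S : Type} [CommRing S] (a b q l : S)
    (H1 : b * ((a - 1) * (a + q)) = (a - 1) * (a + q))
    (H2 : a * ((b - 1) * (b + q)) = (b - 1) * (b + q))
    (H3 : a * ((a - 1) * (a + q)) = l * ((a - 1) * (a + q)))
    (H4 : b * ((b - 1) * (b + q)) = l * ((b - 1) * (b + q)))
    (H5 : ((a - 1) * (a + q)) * ((b - 1) * (b + q)) = 0) :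
    (a * b - 1) * (a * b + q) * (a * b - q ^ 2) =
      (l - q ^ 2) * ((a - 1) * (a + q) + (b - 1) * (b + q)) := by
  have hG2 : (a * b) ^ 2 = (1 - q) ^ 2 * (a * b) + q * (1 - q) * (a + b) + q ^ 2 +
      ((a - 1) * (a + q) + (b - 1) * (b + q)) := by
    linear_combination (1 - q) * H1 + (1 - q) * H2 + H5
  have ha3 : a ^ 3 = (1 - q + q ^ 2) * a + q * (1 - q) + (1 - q + l) * ((a - 1) * (a + q)) := by
    linear_combination H3
  have hb3 : b ^ 3 = (1 - q + q ^ 2) * b + q * (1 - q) + (1 - q + l) * ((b - 1) * (b + q)) := by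
    linear_combination H4
  have hG3 : (a * b) ^ 3 = (1 - q + q ^ 2) ^ 2 * (a * b) +
      (1 - q + q ^ 2) * (q * (1 - q)) * (a + b) + (q * (1 - q)) ^ 2 +
      (1 - q + l) * ((a - 1) * (a + q) + (b - 1) * (b + q)) := by
    linear_combination b ^ 3 * ha3 +
      ((1 - q + q ^ 2) * a + q * (1 - q) + (1 - q + l) * ((a - 1) * (a + q))) * hb3 +
      (1 - q + l) * (1 - q + q ^ 2) * H1 + (1 - q + l) * (1 - q + q ^ 2) * H2 +
      (1 - q + l) ^ 2 * H5
  linear_combination hG3 - (1 - q + q ^ 2) * hG2

private theorem EPro_ring {T : Type} [Ring T] (a b q l : T) (hab : a * b = b * a)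
    (hq : ∀ x, q * x = x * q) (hl : ∀ x, l * x = x * l)
    (H1 : b * ((a - 1) * (a + q)) = (a - 1) * (a + q))
    (H2 : a * ((b - 1) * (b + q)) = (b - 1) * (b + q))
    (H3 : a * ((a - 1) * (a + q)) = l * ((a - 1) * (a + q)))
    (H4 : b * ((b - 1) * (b + q)) = l * ((b - 1) * (b + q)))
    (H5 : ((a - 1) * (a + q)) * ((b - 1) * (b + q)) = 0) :
    (a * b - 1) * (a * b + q) * (a * b - q ^ 2) =
      (l - q ^ 2) * ((a - 1) * (a + q) + (b - 1) * (b + q)) := by
  have hcomm : ∀ x ∈ ({a, b, q, l} : Set T), ∀ y ∈ ({a, b, q, l} : Set T), x * y = y * x := by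
    rintro x (rfl | rfl | rfl | rfl) y (rfl | rfl | rfl | rfl)
    · rfl
    · exact hab
    · exact (hq _).symm
    · exact (hl _).symm
    · exact hab.symm
    · rfl
    · exact (hq _).symm
    · exact (hl _).symm
    · exact hq _
    · exact hq _
    · rfl
    · exact hq _
    · exact hl _
    · exact hl _
    · exact hl _
    · rfl
  letI : CommRing (Subring.closure ({a, b, q, l} : Set T)) := Subring.closureCommRingOfComm hcomm
  have ma : a ∈ Subring.closure ({a, b, q, l} : Set T) := Subring.subset_closure (by simp)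
  have mb : b ∈ Subring.closure ({a, b, q, l} : Set T) := Subring.subset_closure (by simp)
  have mq : q ∈ Subring.closure ({a, b, q, l} : Set T) := Subring.subset_closure (by simp)
  have ml : l ∈ Subring.closure ({a, b, q, l} : Set T) := Subring.subset_closure (by simp)
  have key := EPro_alg (S := Subring.closure ({a, b, q, l} : Set T)) ⟨a, ma⟩ ⟨b, mb⟩ ⟨q, mq⟩
    ⟨l, ml⟩ (Subtype.ext H1) (Subtype.ext H2) (Subtype.ext H3) (Subtype.ext H4) (Subtype.ext H5)
  exact congrArg Subtype.val key

private theorem EPro_ext {k : ℕ} {M' : CoxeterMatrix (Fin k)} {R : Type} [CommRing R]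
    {P Q : Matrix (PR M' Finset.univ) (PR M' Finset.univ) R}
    (h : ∀ b ∈ roots M' Finset.univ, P.mulVec (xv M' Finset.univ b) =
      Q.mulVec (xv M' Finset.univ b)) : P = Q := by
  apply Matrix.ext_of_mulVec_single
  intro b
  have hx : (xv M' Finset.univ b.1 : PR M' Finset.univ → R) = Pi.single b 1 := by
    funext g
    rw [Pi.single_apply]
    unfold xv
    by_cases hg : g = b
    · rw [if_pos hg, if_pos (by rw [hg])]
    · rw [if_neg hg, if_neg (fun h' => hg (Subtype.ext h'))]
  rw [← hx]
  exact h b.1 b.2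

theorem pEPro (h1 : SLkA) (h2 : SLkC) (h3 : SEFun) : SEPro := by
  intro k M' hSL hR hF R _ q l i j hij hadj G
  obtain ⟨hmem, hup, hdn, hes, hact⟩ := h1 k M' hR Finset.univ
  obtain ⟨act, -, -, -⟩ := hact R q l
  have hei : e i ∈ roots M' Finset.univ := (hes i).2 (Finset.mem_univ i)
  have hej : e j ∈ roots M' Finset.univ := (hes j).2 (Finset.mem_univ j)
  have hadj' : ¬ adj M' j i := fun h => hadj (adj_symm h)
  have hne : (e i : Fin k → ℤ) ≠ e j := by
    intro h
    have h4 := congrFun h i
    unfold e at h4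
    rw [Pi.single_eq_same, Pi.single_eq_of_ne hij] at h4
    exact one_ne_zero h4
  have hsat : Sat M' Finset.univ := fun _ _ j _ => Finset.mem_univ j
  have hab := h2 k M' hR hF Finset.univ hsat R q l i j hij hadj
  have hself : ∀ s : Fin k, (lk M' Finset.univ q l s).mulVec (xv M' Finset.univ (e s)) =
      l • xv M' Finset.univ (e s) := by
    intro s
    rw [act s _ ((hes s).2 (Finset.mem_univ s))]
    simp [img]
  have hoth : ∀ s t : Fin k, s ≠ t → ¬ adj M' s t → (e t : Fin k → ℤ) ≠ e s →
      (lk M' Finset.univ q l s).mulVec (xv M' Finset.univ (e t)) = xv M' Finset.univ (e t) := by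
    intro s t hst hna hn
    have hp : pr M' (e t) s = 0 := hR.a.prn t s (Ne.symm hst) (fun h => hna (adj_symm h))
    rw [act s _ ((hes t).2 (Finset.mem_univ t))]
    unfold img
    rw [if_neg hn, if_neg (by rw [hp]; norm_num), if_neg (by rw [hp]; norm_num), hF.simple s t hst,
      map_zero, mul_zero, zero_smul, add_zero]
  have hcub : ∀ s t : Fin k, s ≠ t → ¬ adj M' s t → (e t : Fin k → ℤ) ≠ e s →
      cubf M' q l s (e t) = 0 := by
    intro s t hst hna hn
    have hp : pr M' (e t) s = 0 := hR.a.prn t s (Ne.symm hst) (fun h => hna (adj_symm h))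
    unfold cubf
    rw [if_neg hn, if_pos hp, hF.simple s t hst, map_zero, mul_zero, mul_zero]
  have hE : ∀ s, ∀ b ∈ roots M' Finset.univ, ((lk M' Finset.univ q l s - 1) *
      (lk M' Finset.univ q l s + q • (1 : Matrix (PR M' Finset.univ) (PR M' Finset.univ) R))).mulVec
        (xv M' Finset.univ b) = cubf M' q l s b • xv M' Finset.univ (e s) :=
    fun s b hb => h3 k M' hR R q l s b hb
  refine ⟨?_, ?_, ?_⟩
  · have key := EPro_ring (lk M' Finset.univ q l i) (lk M' Finset.univ q l j)
      (q • (1 : Matrix (PR M' Finset.univ) (PR M' Finset.univ) R))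
      (l • (1 : Matrix (PR M' Finset.univ) (PR M' Finset.univ) R)) hab
      (fun x => by rw [smul_mul_assoc, mul_smul_comm, one_mul, mul_one])
      (fun x => by rw [smul_mul_assoc, mul_smul_comm, one_mul, mul_one])
      (EPro_ext fun b hb => by
        rw [← Matrix.mulVec_mulVec, hE i b hb, Matrix.mulVec_smul, hoth j i (Ne.symm hij) hadj' hne])
      (EPro_ext fun b hb => by
        rw [← Matrix.mulVec_mulVec, hE j b hb, Matrix.mulVec_smul, hoth i j hij hadj (Ne.symm hne)])
      (EPro_ext fun b hb => by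
        rw [← Matrix.mulVec_mulVec, hE i b hb, Matrix.mulVec_smul, hself i, smul_mul_assoc, one_mul,
          Matrix.smul_mulVec, hE i b hb, smul_comm])
      (EPro_ext fun b hb => by
        rw [← Matrix.mulVec_mulVec, hE j b hb, Matrix.mulVec_smul, hself j, smul_mul_assoc, one_mul,
          Matrix.smul_mulVec, hE j b hb, smul_comm])
      (EPro_ext fun b hb => by
        rw [← Matrix.mulVec_mulVec, hE j b hb, Matrix.mulVec_smul, hE i (e j) hej,
          hcub i j hij hadj (Ne.symm hne), zero_smul, smul_zero, Matrix.zero_mulVec])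
    have e1 : (q • (1 : Matrix (PR M' Finset.univ) (PR M' Finset.univ) R)) ^ 2 =
        (q ^ 2) • (1 : Matrix (PR M' Finset.univ) (PR M' Finset.univ) R) := by
      rw [_root_.smul_pow, one_pow]
    rw [e1] at key
    have e2 : l • (1 : Matrix (PR M' Finset.univ) (PR M' Finset.univ) R) -
        (q ^ 2) • (1 : Matrix (PR M' Finset.univ) (PR M' Finset.univ) R) =
        (l - q ^ 2) • (1 : Matrix (PR M' Finset.univ) (PR M' Finset.univ) R) := by
      rw [sub_smul]
    rw [e2, smul_mul_assoc, one_mul] at key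
    exact key
  · change (lk M' Finset.univ q l i * lk M' Finset.univ q l j).mulVec _ = _
    rw [← Matrix.mulVec_mulVec, hoth j i (Ne.symm hij) hadj' hne, hself i]
  · change (lk M' Finset.univ q l i * lk M' Finset.univ q l j).mulVec _ = _
    rw [← Matrix.mulVec_mulVec, hself j, Matrix.mulVec_smul, hoth i j hij hadj (Ne.symm hne)]

end Pool.Agent.Lib.MP_97567f_al.U
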