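import Pool.Agent.Lib.MP_97567f_al.U.SpecE

/-!
# MP_97567f_al: the traces of the generators in the folded representation are not zero
-/

set_option autoImplicit false

namespace Pool.Agent.Lib.MP_97567f_al.U

theorem pETr (h1 : SLKr) (h2 : SEChar) : SETr := by
  intro n k M M' p ι hSL hR hF hfold s htr
  have hC : Sat M' Finset.univ := fun _ _ j _ => Finset.mem_univ j
  have hgen := (h1 k M' hSL hR hF Finset.univ hC).1 R2 qq ll qq_unit ll_unit
  have e1 : (frp ι (gn M s)).1 = lk M' Finset.univ qq ll (p s 0) * lk M' Finset.univ qq ll (p s 1) := by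
    unfold frp
    rw [MonoidHom.comp_apply, hfold.im, map_mul, Units.val_mul, hgen, hgen]
  obtain ⟨-, h3⟩ := h2 k M' hSL hR hF (p s 0) (p s 1) (hfold.ne s) (hfold.na s)
    (fun x y => ((roots M' Finset.univ).filter fun b => pr M' b (p s 0) = x ∧
      pr M' b (p s 1) = y).card) (fun _ _ => rfl)
  rw [e1, h3] at htr
  obtain ⟨φ, h4, h5⟩ := R2_lift (S := ℂ) isUnit_one isUnit_one
  have h6 := congrArg φ htr
  simp only [map_add, map_mul, map_sub, map_one, map_natCast, map_pow, map_ofNat, map_zero,
    h4, h5, sub_self, zero_mul, mul_one, add_zero, ne_eq, OfNat.ofNat_ne_zero, not_false_eq_true,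
    zero_pow] at h6
  have h7 : ((2 + ((roots M' Finset.univ).filter fun b => pr M' b (p s 0) = 0 ∧
      pr M' b (p s 1) = 0).card : ℕ) : ℂ) = ((0 : ℕ) : ℂ) := by
    push_cast
    exact h6
  have h8 := Nat.cast_injective h7
  omega

end Pool.Agent.Lib.MP_97567f_al.U
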