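import Pool.Agent.Lib.MP_97567f_al.Pad.Ali
import Pool.Agent.Lib.MP_97567f_al.Pad.CertH
import Pool.Agent.Lib.MP_97567f_al.Pad.ChF
import Pool.Agent.Lib.MP_97567f_al.Pad.Cob
import Pool.Agent.Lib.MP_97567f_al.Pad.Dif
import Pool.Agent.Lib.MP_97567f_al.Pad.EgH
import Pool.Agent.Lib.MP_97567f_al.Pad.Ext
import Pool.Agent.Lib.MP_97567f_al.Pad.Fam
import Pool.Agent.Lib.MP_97567f_al.Pad.Glue
import Pool.Agent.Lib.MP_97567f_al.Pad.Hdv
import Pool.Agent.Lib.MP_97567f_al.Pad.Hep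
import Pool.Agent.Lib.MP_97567f_al.Pad.Hol
import Pool.Agent.Lib.MP_97567f_al.Pad.Hom
import Pool.Agent.Lib.MP_97567f_al.Pad.Hpi
import Pool.Agent.Lib.MP_97567f_al.Pad.Hrd
import Pool.Agent.Lib.MP_97567f_al.Pad.Htn
import Pool.Agent.Lib.MP_97567f_al.Pad.Hwp
import Pool.Agent.Lib.MP_97567f_al.Pad.Inj
import Pool.Agent.Lib.MP_97567f_al.Pad.Irp
import Pool.Agent.Lib.MP_97567f_al.Pad.Lau
import Pool.Agent.Lib.MP_97567f_al.Pad.Lim
import Pool.Agent.Lib.MP_97567f_al.Pad.Ord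
import Pool.Agent.Lib.MP_97567f_al.Pad.Pad
import Pool.Agent.Lib.MP_97567f_al.Pad.Rtu
import Pool.Agent.Lib.MP_97567f_al.Pad.Stp
import Pool.Agent.Lib.MP_97567f_al.Pad.TFa
import Pool.Agent.Lib.MP_97567f_al.Pad.ThR
import Pool.Agent.Lib.MP_97567f_al.Pad.Tng
import Pool.Agent.Lib.MP_97567f_al.Pad.TwL
import Pool.Agent.Lib.MP_97567f_al.Pad.TwR
import Pool.Agent.Lib.MP_97567f_al.Pad.UnH
import Pool.Agent.Lib.MP_97567f_al.U.EBlk
import Pool.Agent.Lib.MP_97567f_al.U.EChar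
import Pool.Agent.Lib.MP_97567f_al.U.ECp
import Pool.Agent.Lib.MP_97567f_al.U.EFin
import Pool.Agent.Lib.MP_97567f_al.U.EFun
import Pool.Agent.Lib.MP_97567f_al.U.EIrr
import Pool.Agent.Lib.MP_97567f_al.U.EOrb
import Pool.Agent.Lib.MP_97567f_al.U.EPow
import Pool.Agent.Lib.MP_97567f_al.U.EPro
import Pool.Agent.Lib.MP_97567f_al.U.ETr
import Pool.Agent.Lib.MP_97567f_al.U.Top
import Pool.Agent.Lib.MP_97567f_al.U.UnfF

/-!
# MP_97567f_al: Theorem R and the types `H₃`, `H₄`: assembly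
-/

set_option autoImplicit false

namespace Pool.Agent.Lib.MP_97567f_al.Pad

theorem rStp : SStp := pStp pDif (pTng pDif pHol) pCob pFam
theorem rThR : SThR := pThR (pLim pFam rStp)
theorem rPad : SPad := pPad pAli pHom pLau (pIrp pLau) pExt (pTwL pDesc) pTwR pInj
theorem rTFa : STFa := pTFa rPad
theorem rEgH : SEgH := pEgH (pChF pLau) pRtu

end Pool.Agent.Lib.MP_97567f_al.Pad

namespace Pool.Agent.Lib.MP_97567f_al.U

open Polynomial Pad

theorem eFun : SEFun := pEFun aLkA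
theorem ePro : SEPro := pEPro aLkA aLkC eFun
theorem eChar : SEChar := pEChar aLkA aLKr eFun ePro
theorem eBlk : SEBlk := pEBlk aLkA aLKr eFun
theorem eIrr : SEIrr := pEIrr aLkA aLKr aMono pKerQ eFun ePro
theorem eTr : SETr := pETr aLKr eChar
theorem ePow : SEPow := pEPow aLkA aLkQ aLKr
theorem eFin : SEFin := pEFin pJst pJnz pJle pKerQ pKerF aFinU aLkA aLkW aLKr aMono

theorem rf_D6 : RF D6 :=
  ⟨pRF1 6 D6 SL_D6, pRF2 6 D6 SL_D6 (pRF1 6 D6 SL_D6),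
    pRF3 6 D6 SL_D6 (pRF1 6 D6 SL_D6) (pRF2 6 D6 SL_D6 (pRF1 6 D6 SL_D6))⟩

theorem rf_E8 : RF CoxeterMatrix.E₈ :=
  ⟨pRF1 8 _ SL_E8, pRF2 8 _ SL_E8 (pRF1 8 _ SL_E8),
    pRF3 8 _ SL_E8 (pRF1 8 _ SL_E8) (pRF2 8 _ SL_E8 (pRF1 8 _ SL_E8))⟩

/-- The exponent sum. -/
theorem expsum {n : ℕ} (M : CoxeterMatrix (Fin n)) : ∃ φ : Art M →* Multiplicative ℤ,
    ∀ s, φ (gn M s) = Multiplicative.ofAdd 1 :=
  (pArt n M).2.1 _ (fun _ => Multiplicative.ofAdd 1) fun _ _ => rfl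

private theorem z7a : (1 : ZMod 7) ≠ 0 := by decide

private theorem z7b : (2 : ZMod 7) * 1 ≠ 1 := by decide

/-- **The folded families.** -/
theorem tfam_H {n k : ℕ} {M : CoxeterMatrix (Fin n)} {M' : CoxeterMatrix (Fin k)}
    {p : Fin n → Fin 2 → Fin k} (ι : Art M →* Art M') (hf : Fold M M' p ι) (hS : SL M')
    (hR : RF M') (hc : Conn M' Finset.univ) (hk : 2 ≤ k) (hn : 0 < n)
    (hord : (Subgroup.normalClosure (Set.range fun s => gn M s * gn M s)).FiniteIndex ∧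
      ¬ 7 ∣ (Subgroup.normalClosure (Set.range fun s => gn M s * gn M s)).index)
    (hcert : ∀ [Fact (Nat.Prime 7)] (E : Fin k → PR M' Finset.univ)
      (G : Fin k → Equiv.Perm (PR M' Finset.univ)), RDat M' E G →
      ∀ (Φ : NFam (Art M) (PR M' Finset.univ) (Fin 2)) (π : Art M →* Equiv.Perm (PR M' Finset.univ)),
      (∀ s, π (gn M s) = G (p s 0) * G (p s 1)) → WPt 7 Φ (gn M) π (TT p E G) →
      CertC 7 (fun _ : Fin n => ()) (gn M) π (TT p E G) (fun _ => 1))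
    (a b c : ℕ) (h2b : 2 < b) (h0c : 0 < c) (hcb : c < b) (hba : b < a)
    (hch : ∀ s, (lk M' Finset.univ qq ll (p s 0) * lk M' Finset.univ qq ll (p s 1)).charpoly =
      (X - C ll) ^ 2 * (X - C 1) ^ a * (X - C (-qq)) ^ b * (X - C (qq ^ 2)) ^ c)
    (hirr : Submodule.span K2 (Set.range fun x : Art M => mK (frp ι) x) = ⊤)
    (hpow : ∃ x y : Art M, ∀ j : ℕ, 1 ≤ j → frp ι (x ^ j * y ^ j) ≠ frp ι (y ^ j * x ^ j)) :
    TFam (frp ι) := by
  haveI h7 : Fact (Nat.Prime 7) := ⟨by norm_num⟩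
  have hF : FH M' (fh M') := pFHex _ _ hR
  have hC : Sat M' Finset.univ := fun _ _ j _ => Finset.mem_univ j
  have hgen := (aLKr k M' hS hR hF Finset.univ hC).1 R2 qq ll qq_unit ll_unit
  have hNat : NatLK M' := (aLKr k M' hS hR hF Finset.univ hC).2
  obtain ⟨E, G, hRD⟩ := pHrd aLkA k M' hR
  obtain ⟨π, hπ, hW⟩ := pHwp (pHpi aLkA aLkC aLkB aLKr) (pHep pHdv aLkA) aLKr n k M M' p ι hf hS hR
    hF hNat E G hRD 7 hord.1 hord.2
  obtain ⟨φ, hφ⟩ := expsum M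
  have hThR : ThmR 7 (nfm ι hNat) (fun _ => 1) := by
    refine rThR 7 (Art M) (PR M' Finset.univ) (Fin 2) (Fin n) Unit (fun _ => ()) (fun _ => φ)
      (nfm ι hNat) (gn M) π (TT p E G) (fun _ => 1) (by norm_num) ?_ hW
      (hcert E G hRD (nfm ι hNat) π hπ hW)
    intro c s
    rw [hφ, if_pos rfl]
  haveI : Nonempty (PR M' Finset.univ) := ⟨E ⟨0, by omega⟩⟩
  refine tfam_fold rTFa rEgH pUnH ι hn (nfm ι hNat) (fun _ _ _ _ => rfl) 7 (by norm_num)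
    (fun _ => 1) z7a z7a z7b hThR a b c 2 (by norm_num) h2b h0c hcb hba
    ?_ hirr (eTr n k M M' p ι hS hR hF hf) (eFin n k M M' ι hS hR hF hc hk hirr hpow)
  intro s
  have e1 : (frp ι (gn M s)).1 =
      lk M' Finset.univ qq ll (p s 0) * lk M' Finset.univ qq ll (p s 1) := by
    unfold frp
    rw [MonoidHom.comp_apply, hf.im, map_mul, Units.val_mul, hgen, hgen]
  rw [e1]
  exact hch s

/-- **The type `H₃`.** -/
theorem good_H3' : Good (Art CoxeterMatrix.H₃) := by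
  refine good_H3 uMach pAbO uAbI fun ι hf _ => ?_
  have hF : FH D6 (fh D6) := pFHex _ _ rf_D6
  refine tfam_H ι hf SL_D6 rf_D6 conn_D6 (by norm_num) (by norm_num) ordH3
    (fun E G hRD Φ π hπ hW => cert_H3 pHtn aLkA rf_D6 E G hRD Φ π hπ hW) 14 12 2 (by norm_num)
    (by norm_num) (by norm_num) (by norm_num) (cp3 eChar aLkA SL_D6 rf_D6 hF) ?_ ?_
  · exact eIrr 3 6 _ D6 p3 ι 2 SL_D6 rf_D6 hF hf
      (orb_of tb6 SL_D6 rf_D6 hF aLkA aLKr aLkO hf 2 ord6)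
      (eBlk 3 6 _ D6 p3 ι 2 1 SL_D6 rf_D6 hF hf (by decide) (by decide) (by decide) (by decide)
        (by decide))
  · exact ⟨_, _, ePow 3 6 _ D6 p3 ι 0 1 SL_D6 rf_D6 hF hf (by decide) (by decide) (by decide)
      (by decide) (by decide) (by decide)⟩

/-- **The type `H₄`.** -/
theorem good_H4' : Good (Art CoxeterMatrix.H₄) := by
  refine good_H4 uMach pAbO uAbI fun ι hf _ => ?_
  have hF : FH CoxeterMatrix.E₈ (fh CoxeterMatrix.E₈) := pFHex _ _ rf_E8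
  refine tfam_H ι hf SL_E8 rf_E8 conn_E8 (by norm_num) (by norm_num) ordH4
    (fun E G hRD Φ π hπ hW => cert_H4 pHtn aLkA rf_E8 E G hRD Φ π hπ hW) 68 44 6 (by norm_num)
    (by norm_num) (by norm_num) (by norm_num) (cp4 eChar aLkA SL_E8 rf_E8 hF) ?_ ?_
  · exact eIrr 4 8 _ _ p4 ι 3 SL_E8 rf_E8 hF hf
      (orb_of tb8 SL_E8 rf_E8 hF aLkA aLKr aLkO hf 3 ord8)
      (eBlk 4 8 _ _ p4 ι 3 2 SL_E8 rf_E8 hF hf (by decide) (by decide) (by decide) (by decide)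
        (by decide))
  · exact ⟨_, _, ePow 4 8 _ _ p4 ι 0 1 SL_E8 rf_E8 hF hf (by decide) (by decide) (by decide)
      (by decide) (by decide) (by decide)⟩

end Pool.Agent.Lib.MP_97567f_al.U
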