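import Pool.Agent.Lib.MP_97567f_al.SpecZ

/-!
# MP_97567f_al: all finite types: the interface

`KK`: the common field. `Fac i r`: `B` is a direct factor of `A`, with inclusion `i` and projection `r`. `Good B`: what a
component has to satisfy. `RFam ρ`: an irreducible rigid family of representations over the ring `R` of parameters.
-/

set_option autoImplicit false

namespace Pool.Agent.Lib.MP_97567f_al.U

open Polynomial

/-- The common field. -/
abbrev KK : Type := FractionRing (MvPolynomial ℕ ℂ)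

/-- `B` is a direct factor of `A`. -/
structure Fac {A B : Type} [Group A] [Group B] (i : B →* A) (r : A →* B) : Prop where
  ri : ∀ b, r (i b) = b
  co : ∀ a b, r a = 1 → a * i b = i b * a

/-- The properties of a component. In `cd`, the third property says that `ρ` is not a nontrivial twist of itself (for
example all elements of a generating set have a nonzero trace). -/
structure Good (B : Type) [Group B] : Prop where
  cd : ∀ (A : Type) [Group A], Group.FG A → ∀ (i : B →* A) (r : A →* B), Fac i r →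
    ∃ (d : Type) (_ : Fintype d) (_ : DecidableEq d) (_ : Nonempty d) (ρ : B →* GL d KK)
      (H : Subgroup (MulAut A)), H.FiniteIndex ∧
      Submodule.span KK (Set.range fun x => (ρ x).1) = ⊤ ∧
      (∀ (η : B →* KKˣ) (g : GL d KK), (∀ x, g.1 * (ρ x).1 * (g⁻¹).1 = (η x : KK) • (ρ x).1) →
        η = 1) ∧
      (∀ α ∈ H, TS (ρ.comp r) α) ∧
      ∀ z, (∃ a : KK, (ρ z).1 = a • (1 : Matrix d d KK)) → ∀ b, z * b = b * z
  ab : ∀ z : B, (∀ b, z * b = b * z) → (∀ φ : B →* Multiplicative ℤ, φ z = 1) → z = 1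

/-- The matrix of `x` over the field of fractions. -/
noncomputable def mK {A : Type} [Group A] {R : Type} [CommRing R] {ι : Type} [Fintype ι]
    [DecidableEq ι] (ρ : A →* GL ι R) (x : A) : Matrix ι ι (FractionRing R) :=
  (ρ x).1.map (algebraMap R (FractionRing R))

section fam

variable {A : Type} [Group A] {R : Type} [CommRing R] [IsDomain R] [Algebra ℂ R] {ι : Type}
  [Fintype ι] [DecidableEq ι]

/-- Every lift to a valuation ring is a twist of the representation for other parameters. -/
def Rigid (ρ : A →* GL ι R) : Prop :=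
  ∀ (F : Type) [Field F] [IsAlgClosed F] [Algebra ℂ F] (O : ValuationSubring F)
    (j : R →+* IsLocalRing.ResidueField O) (ρ' : A →* GL ι O), Function.Injective j →
    (∀ c : ℂ, ∃ h : algebraMap ℂ F c ∈ O,
        IsLocalRing.residue O ⟨algebraMap ℂ F c, h⟩ = j (algebraMap ℂ R c)) →
    (∀ x, (ρ' x).1.map (IsLocalRing.residue O) = (ρ x).1.map j) →
    ∃ (ψ : R →ₐ[ℂ] F) (χ : A →* Fˣ) (g : GL ι F),
      (∀ r, ∃ h : ψ r ∈ O, IsLocalRing.residue O ⟨ψ r, h⟩ = j r) ∧
      ∀ x, (ρ' x).1.map (algebraMap O F) = (χ x : F) • (g.1 * (ρ x).1.map ψ * (g⁻¹).1)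

/-- The characteristic polynomial of `s` has unit roots with different multiplicities, and one of them is `1`. -/
def EigAt (ρ : A →* GL ι R) (s : A) : Prop :=
  ∃ (k : ℕ) (u : Fin k → R) (m : Fin k → ℕ), (∀ j, IsUnit (u j)) ∧ Function.Injective u ∧
    Function.Injective m ∧ (∀ j, 0 < m j) ∧ (∃ j, u j = 1) ∧
    (ρ s).1.charpoly = ∏ j, (X - C (u j)) ^ m j

/-- There is a generating set as in `EigAt` such that the roots and their inverses generate the ring of parameters. -/
def Eig (ρ : A →* GL ι R) : Prop :=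
  ∃ S : Set A, Subgroup.closure S = ⊤ ∧ (∀ s ∈ S, EigAt ρ s) ∧
    Algebra.adjoin ℂ {v : R | ∃ w, v * w = 1 ∧ ∃ s ∈ S, (ρ s).1.charpoly.IsRoot v ∨
      (ρ s).1.charpoly.IsRoot w} = ⊤

/-- The representation composed with `f` is a twist of the one with the parameters changed by `θ`. -/
def Twf (ρ : A →* GL ι R) (f : A →* A) (θ : R →ₐ[ℂ] R) : Prop :=
  Function.Injective θ ∧ ∃ (χ : A →* Rˣ) (g : GL ι (FractionRing R)), ∀ x,
    mK ρ (f x) = (algebraMap R (FractionRing R) (χ x : R)) •
      (g.1 * ((ρ x).1.map θ).map (algebraMap R (FractionRing R)) * (g⁻¹).1)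

/-- The ideal is stable under the changes of parameters of all twists. -/
def StabI (ρ : A →* GL ι R) (I : Ideal R) : Prop :=
  ∀ (f : A →* A) (θ : R →ₐ[ℂ] R), Twf ρ f θ → ∀ r ∈ I, θ r ∈ I

/-- There are curves (hypersurfaces) in the space of parameters which are preserved up to finite index and whose common
stabilizer is finite. -/
def FinP (ρ : A →* GL ι R) : Prop :=
  ∃ (k : ℕ) (I : Fin k → Ideal R) (p : Fin k → R), (∀ i, StabI ρ (I i) ∧ I i ≠ ⊥ ∧
    Prime (p i) ∧ I i ≤ Ideal.span {p i}) ∧
    {θ : R ≃ₐ[ℂ] R | ∀ i, Ideal.span {θ (p i)} = Ideal.span {p i}}.Finite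

/-- An absolutely irreducible rigid family of representations. -/
structure RFam (ρ : A →* GL ι R) : Prop where
  gen : Algebra.adjoin ℂ (Set.range fun p : A × ι × ι => (ρ p.1).1 p.2.1 p.2.2) = ⊤
  irr : Submodule.span (FractionRing R) (Set.range fun x : A => mK ρ x) = ⊤
  rig : Rigid ρ
  eig : Eig ρ
  fin : FinP ρ

/-- A family for which a finite index subgroup of the automorphisms acts by changes of the parameters (weaker than
`RFam`). `uniq`: the parameters are unique; `eta`: `ρ` is not a nontrivial twist of itself (for `uniq` and `eta` see `SEig`,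
`STrc`). -/
structure TFam (ρ : A →* GL ι R) : Prop where
  irr : Submodule.span (FractionRing R) (Set.range fun x : A => mK ρ x) = ⊤
  tw : ∀ (E : Type) [Group E], Group.FG E → ∀ (i : A →* E) (r : E →* A), Fac i r →
    ∃ H : Subgroup (MulAut E), H.FiniteIndex ∧
      ∀ α ∈ H, ∃ θ : R →ₐ[ℂ] R, Twf (ρ.comp r) α.toMonoidHom θ
  uniq : ∀ θ : R →ₐ[ℂ] R, Twf ρ (MonoidHom.id A) θ → θ = AlgHom.id ℂ R
  eta : ∀ (j : R →+* KK) (η : A →* KKˣ) (g : GL ι KK), Function.Injective j →
    (∀ x, g.1 * (ρ x).1.map j * (g⁻¹).1 = (η x : KK) • (ρ x).1.map j) → η = 1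
  fin : FinP ρ

/-- The commutator of the powers with exponent `k`. -/
def cmy (k : ℕ) (x y : A) : A := x ^ k * y ^ k * (x ^ k)⁻¹ * (y ^ k)⁻¹

/-- The ideal of the commutators of powers. -/
noncomputable def J1 (k : ℕ) (ρ : A →* GL ι R) : Ideal R :=
  Ideal.span {r | ∃ x y z : A, r = (ρ (z * cmy k x y)).1.trace - (ρ z).1.trace}

/-- The ideal of the Gram determinants. -/
noncomputable def J2 (ρ : A →* GL ι R) : Ideal R :=
  Ideal.span {r | ∃ x : ι × ι → A, r = (Matrix.of fun i j => (ρ (x i * x j)).1.trace).det}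

end fam

end Pool.Agent.Lib.MP_97567f_al.U
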