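import Pool.Agent.Lib.MP_97567f_al.U.SpecM

/-!
# MP_97567f_al: all finite types: composition of twists
-/

set_option autoImplicit false

namespace Pool.Agent.Lib.MP_97567f_al.U

/-- **Composition.** -/
theorem pCe : SCe := by
  intro A _ R _ _ _ ι _ _ ρ f h θ η hf hh
  obtain ⟨hθ, χ, g, hx⟩ := hf
  obtain ⟨hη, χ', k, hy⟩ := hh
  have hinj : Function.Injective ((algebraMap R (FractionRing R)).comp (θ : R →+* R)) :=
    (IsFractionRing.injective R (FractionRing R)).comp hθ
  let Θ : FractionRing R →+* FractionRing R := IsFractionRing.lift (A := R) hinj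
  have hΘ : ∀ r : R, Θ (algebraMap R (FractionRing R) r) = algebraMap R (FractionRing R) (θ r) :=
    fun r => IsFractionRing.lift_algebraMap (A := R) hinj r
  refine ⟨hθ.comp hη, (χ.comp h) * ((Units.map ((θ : R →+* R) : R →* R)).comp χ'),
    g * Matrix.GeneralLinearGroup.map Θ k, fun x => ?_⟩
  have e1 : ((ρ (h x)).1.map θ).map (algebraMap R (FractionRing R)) = (mK ρ (h x)).map Θ := by
    ext i j
    exact (hΘ _).symm
  have e2 : ((ρ x).1.map (θ.comp η)).map (algebraMap R (FractionRing R)) =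
      (((ρ x).1.map η).map (algebraMap R (FractionRing R))).map Θ := by
    ext i j
    exact (hΘ _).symm
  have e3 : ∀ (c : FractionRing R) (A : Matrix ι ι (FractionRing R)),
      (c • (k.1 * A * (k⁻¹).1)).map Θ = Θ c • ((Matrix.GeneralLinearGroup.map Θ k).1 *
        A.map Θ * ((Matrix.GeneralLinearGroup.map Θ k)⁻¹).1) := by
    intro c A
    have h2 : ((Matrix.GeneralLinearGroup.map Θ k)⁻¹).1 = (k⁻¹).1.map Θ := by
      rw [← map_inv]
      rfl
    have h3 : (Matrix.GeneralLinearGroup.map Θ k).1 = k.1.map Θ := rfl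
    rw [h2, h3, ← Matrix.map_mul, ← Matrix.map_mul]
    ext i j
    rw [Matrix.map_apply, Matrix.smul_apply, Matrix.smul_apply, smul_eq_mul, smul_eq_mul, map_mul,
      Matrix.map_apply]
  have e4 : mK ρ ((f.comp h) x) = mK ρ (f (h x)) := rfl
  rw [e4, hx (h x), e1, hy x, e3, ← e2, hΘ, mul_smul_comm, smul_mul_assoc, smul_smul]
  have e5 : algebraMap R (FractionRing R) ((((χ.comp h) *
      ((Units.map ((θ : R →+* R) : R →* R)).comp χ')) x : Rˣ) : R) =
      algebraMap R (FractionRing R) (χ (h x) : R) *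
        algebraMap R (FractionRing R) (θ (χ' x : R)) := by
    rw [← map_mul]
    rfl
  rw [e5]
  congr 1
  have h4 : ((g * Matrix.GeneralLinearGroup.map Θ k)⁻¹ : GL ι (FractionRing R)).1 =
      ((Matrix.GeneralLinearGroup.map Θ k)⁻¹).1 * (g⁻¹).1 := by
    rw [mul_inv_rev, Units.val_mul]
  rw [h4, Units.val_mul]
  simp only [mul_assoc]

end Pool.Agent.Lib.MP_97567f_al.U
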