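import Pool.Agent.Lib.MP_97567f_al.U.SpecM

/-!
# MP_97567f_al: a finite index subgroup acts by twists with the same parameters (general ring)
-/

set_option autoImplicit false

namespace Pool.Agent.Lib.MP_97567f_al.U

open Polynomial

/-- A group of automorphisms which preserves the ideals of `FinP` is finite. -/
private theorem Cf_fin (h4 : SStb) {R : Type} [CommRing R] [IsDomain R] [IsNoetherianRing R]
    [Algebra ℂ R] (Γ : Subgroup (R ≃ₐ[ℂ] R)) (k : ℕ) (I : Fin k → Ideal R) (p : Fin k → R)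
    (hI : ∀ i, I i ≠ ⊥ ∧ Prime (p i) ∧ I i ≤ Ideal.span {p i})
    (hs : ∀ i, ∀ θ ∈ Γ, ∀ x ∈ I i, θ x ∈ I i)
    (hfin : {θ : R ≃ₐ[ℂ] R | ∀ i, Ideal.span {θ (p i)} = Ideal.span {p i}}.Finite) :
    Finite Γ := by
  have hex : ∀ i, ∃ Γ' : Subgroup (R ≃ₐ[ℂ] R), Γ' ≤ Γ ∧ (Γ'.subgroupOf Γ).FiniteIndex ∧
      ∀ θ ∈ Γ', Ideal.span {θ (p i)} = Ideal.span {p i} := fun i =>
    h4 R Γ (I i) (p i) (hI i).2.1 (hI i).1 (hI i).2.2 (hs i)
  choose Γ' _ hf hstab using hex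
  have hfi : (⨅ i, (Γ' i).subgroupOf Γ : Subgroup Γ).FiniteIndex := by
    have := hf
    exact Subgroup.finiteIndex_iInf hf
  have hset : ((⨅ i, (Γ' i).subgroupOf Γ : Subgroup Γ) : Set Γ).Finite := by
    refine Set.Finite.subset (hfin.preimage (f := (Subtype.val : Γ → _))
      (Subtype.val_injective.injOn)) ?_
    intro θ hθ i
    have h1 : θ ∈ (Γ' i).subgroupOf Γ := by
      have h2 : θ ∈ (⨅ i, (Γ' i).subgroupOf Γ : Subgroup Γ) := hθ
      exact (Subgroup.mem_iInf.1 h2) i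
    exact hstab i θ.1 h1
  have : Finite (⨅ i, (Γ' i).subgroupOf Γ : Subgroup Γ) := hset.to_subtype
  exact Finite.of_subgroup_quotient (⨅ i, (Γ' i).subgroupOf Γ : Subgroup Γ)

/-- **A finite index subgroup acts by twists with the same parameters.** -/
theorem pCf (h1 : SCc) (h2 : SCd) (h3 : SCe) (h4 : SStb) : SCf := by
  intro A _ hA R _ _ _ _ _ ι _ _ ρ hρ
  obtain ⟨H, hH, hα⟩ := h1 A hA R ι ρ hρ
  have hun := h2 A R ι ρ hρ.eig
  have hco := h3 A R ι ρ
  have hex : ∀ α : H, ∃ θ : R →ₐ[ℂ] R, Twf ρ (α : MulAut A).toMonoidHom θ := fun α => hα α α.2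
  choose θ hθ using hex
  have hcomp : ∀ (α β γ : H), α * β = γ →
      ((α : MulAut A).toMonoidHom).comp ((β : MulAut A).toMonoidHom) =
        (γ : MulAut A).toMonoidHom := by
    rintro α β γ rfl
    rfl
  have hid : ((1 : H) : MulAut A).toMonoidHom = MonoidHom.id A := rfl
  have hli : ∀ α : H, (θ α⁻¹).comp (θ α) = AlgHom.id ℂ R := by
    intro α
    refine hun _ ?_
    have h := hco _ _ _ _ (hθ α⁻¹) (hθ α)
    rwa [hcomp _ _ _ (inv_mul_cancel α), hid] at h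
  have hri : ∀ α : H, (θ α).comp (θ α⁻¹) = AlgHom.id ℂ R := by
    intro α
    refine hun _ ?_
    have h := hco _ _ _ _ (hθ α) (hθ α⁻¹)
    rwa [hcomp _ _ _ (mul_inv_cancel α), hid] at h
  have huniq : ∀ (α : H) (η : R →ₐ[ℂ] R), Twf ρ (α : MulAut A).toMonoidHom η → η = θ α := by
    intro α η hη
    have h10 : η.comp (θ α⁻¹) = AlgHom.id ℂ R := by
      refine hun _ ?_
      have h := hco _ _ _ _ hη (hθ α⁻¹)
      rwa [hcomp _ _ _ (mul_inv_cancel α), hid] at h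
    calc η = η.comp ((θ α⁻¹).comp (θ α)) := by rw [hli, AlgHom.comp_id]
      _ = (η.comp (θ α⁻¹)).comp (θ α) := by rw [AlgHom.comp_assoc]
      _ = θ α := by rw [h10, AlgHom.id_comp]
  have hmul : ∀ α β : H, θ (α * β) = (θ α).comp (θ β) := by
    intro α β
    refine (huniq (α * β) _ ?_).symm
    have h := hco _ _ _ _ (hθ α) (hθ β)
    rwa [hcomp _ _ _ rfl] at h
  let Θ : H →* (R ≃ₐ[ℂ] R) := MonoidHom.mk'
    (fun α => AlgEquiv.ofAlgHom (θ α) (θ α⁻¹) (hri α) (hli α)) (by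
      intro α β
      apply AlgEquiv.ext
      intro r
      change θ (α * β) r = θ α (θ β r)
      rw [hmul]
      rfl)
  have hΘ : ∀ α r, Θ α r = θ α r := fun α r => rfl
  obtain ⟨k, I, p, hI, hfp⟩ := hρ.fin
  have hfin : Finite Θ.range := by
    refine Cf_fin h4 Θ.range k I p (fun i => (hI i).2) ?_ hfp
    rintro i _ ⟨α, rfl⟩ x hx
    rw [hΘ]
    exact (hI i).1 _ _ (hθ α) x hx
  have hker : Θ.ker.FiniteIndex := inferInstance
  refine ⟨Θ.ker.map H.subtype, ?_, ?_⟩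
  · refine ⟨?_⟩
    rw [Subgroup.index_map_subtype]
    exact mul_ne_zero hker.index_ne_zero hH.index_ne_zero
  · rintro _ ⟨α, hαk, rfl⟩
    have e : θ α = AlgHom.id ℂ R := by
      apply AlgHom.ext
      intro r
      have h := hΘ α r
      have hαk' : Θ α = 1 := hαk
      rw [hαk'] at h
      exact h.symm
    rw [← e]
    exact hθ α

end Pool.Agent.Lib.MP_97567f_al.U
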