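import Pool.Agent.Lib.MP_97567f_al.U.Base

/-!
# MP_97567f_al: the common field embeds into the complex numbers
-/

set_option autoImplicit false

namespace Pool.Agent.Lib.MP_97567f_al.U

open Cardinal

theorem mk_KK : #KK = 𝔠 := by
  rw [KK, Cardinal.mk_fractionRing, MvPolynomial.cardinalMk_eq_max, Cardinal.mk_complex]
  simp [Cardinal.aleph0_le_continuum]

theorem KK_complex : Nonempty (KK →+* ℂ) := by
  have h0 : CharZero KK := by
    have : CharZero (MvPolynomial ℕ ℂ) := inferInstance
    infer_instance
  have h1 : #(AlgebraicClosure KK) = 𝔠 := by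
    refine le_antisymm ?_ ?_
    · refine (Algebra.IsAlgebraic.cardinalMk_le_max KK (AlgebraicClosure KK)).trans ?_
      rw [mk_KK]
      exact max_le le_rfl Cardinal.aleph0_le_continuum
    · rw [← mk_KK]
      exact Cardinal.mk_le_of_injective (algebraMap KK (AlgebraicClosure KK)).injective
  have h2 : Nonempty (AlgebraicClosure KK ≃ ℂ) := by
    rw [← Cardinal.eq, h1, Cardinal.mk_complex]
  have h3 : CharZero (AlgebraicClosure KK) := inferInstance
  obtain ⟨e⟩ := IsAlgClosed.ringEquiv_of_equiv_of_charZero (K := AlgebraicClosure KK) (L := ℂ)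
    (by rw [h1]; exact Cardinal.aleph0_lt_continuum) h2
  exact ⟨(e : AlgebraicClosure KK →+* ℂ).comp (algebraMap KK (AlgebraicClosure KK))⟩

/-- Linearity over the complex numbers. -/
theorem lin_complex {G : Type} [Group G] (h : LinOver KK G) : LinOver ℂ G := by
  obtain ⟨d, f, hf⟩ := h
  obtain ⟨j⟩ := KK_complex
  refine ⟨d, (Matrix.GeneralLinearGroup.map j).comp f, ?_⟩
  intro x y hxy
  have hxy' : Matrix.GeneralLinearGroup.map j (f x) = Matrix.GeneralLinearGroup.map j (f y) := hxy
  apply hf
  apply Units.ext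
  ext a b
  have h1 := congrArg (fun g : GL (Fin d) ℂ => g.1 a b) hxy'
  exact j.injective h1

end Pool.Agent.Lib.MP_97567f_al.U
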