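import Pool.Agent.Lib.MP_97567f_al.U.SpecE

/-!
# MP_97567f_al: the characteristic polynomial of the product of two commuting generators
-/

set_option autoImplicit false

namespace Pool.Agent.Lib.MP_97567f_al.U

open Polynomial

/-! ### Matrices with four eigenvalues -/

private theorem EChar_multiset {F : Type} [Field F] (x y z t : F) (S : Multiset F)
    (hS : ∀ μ ∈ S, μ = x ∨ μ = y ∨ μ = z ∨ μ = t) :
    ∃ m a b c : ℕ, (S.map fun μ => (X - C μ : Polynomial F)).prod =
      (X - C x) ^ m * (X - C y) ^ a * (X - C z) ^ b * (X - C t) ^ c ∧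
      S.sum = m * x + a * y + b * z + c * t := by
  induction S using Multiset.induction_on with
  | empty => exact ⟨0, 0, 0, 0, by simp, by simp⟩
  | cons μ S ih =>
    obtain ⟨m, a, b, c, h1, h2⟩ := ih fun ν hν => hS ν (Multiset.mem_cons_of_mem hν)
    rcases hS μ (Multiset.mem_cons_self μ S) with h | h | h | h
    · refine ⟨m + 1, a, b, c, ?_, ?_⟩
      · rw [Multiset.map_cons, Multiset.prod_cons, h1, h]
        ring
      · rw [Multiset.sum_cons, h2, h]
        push_cast
        ring
    · refine ⟨m, a + 1, b, c, ?_, ?_⟩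
      · rw [Multiset.map_cons, Multiset.prod_cons, h1, h]
        ring
      · rw [Multiset.sum_cons, h2, h]
        push_cast
        ring
    · refine ⟨m, a, b + 1, c, ?_, ?_⟩
      · rw [Multiset.map_cons, Multiset.prod_cons, h1, h]
        ring
      · rw [Multiset.sum_cons, h2, h]
        push_cast
        ring
    · refine ⟨m, a, b, c + 1, ?_, ?_⟩
      · rw [Multiset.map_cons, Multiset.prod_cons, h1, h]
        ring
      · rw [Multiset.sum_cons, h2, h]
        push_cast
        ring

private theorem EChar_split {ι Ω : Type} [Fintype ι] [DecidableEq ι] [Field Ω] [IsAlgClosed Ω]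
    (G : Matrix ι ι Ω) (x y z t : Ω)
    (hG : ∀ (μ : Ω) (v : ι → Ω), v ≠ 0 → G.mulVec v = μ • v →
      μ = x ∨ μ = y ∨ μ = z ∨ μ = t) :
    ∃ m a b c : ℕ, G.charpoly = (X - C x) ^ m * (X - C y) ^ a * (X - C z) ^ b * (X - C t) ^ c ∧
      G.trace = m * x + a * y + b * z + c * t := by
  have hs : G.charpoly.Splits := IsAlgClosed.splits _
  have h3 : ∀ μ ∈ G.charpoly.roots, μ = x ∨ μ = y ∨ μ = z ∨ μ = t := by
    intro μ hμ
    have h4 : G.charpoly.eval μ = 0 := (mem_roots'.1 hμ).2
    rw [Matrix.eval_charpoly] at h4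
    obtain ⟨v, hv, h5⟩ := Matrix.exists_mulVec_eq_zero_iff.2 h4
    refine hG μ v hv ?_
    rw [Matrix.sub_mulVec, sub_eq_zero] at h5
    rw [← h5]
    ext i
    simp [Matrix.scalar_apply, Matrix.mulVec_diagonal]
  obtain ⟨m, a, b, c, h1, h2⟩ := EChar_multiset x y z t _ h3
  refine ⟨m, a, b, c, ?_, ?_⟩
  · rw [← h1]
    exact hs.eq_prod_roots_of_monic (Matrix.charpoly_monic G)
  · rw [← h2]
    exact Matrix.trace_eq_sum_roots_charpoly_of_splits hs

/-! ### The trace -/

section trace

variable {k : ℕ} {M : CoxeterMatrix (Fin k)} {C : Finset (Fin k)}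

private theorem EChar_e_ne (s : Fin k) : (e s : Fin k → ℤ) ≠ 0 := by
  intro h
  have h1 := congrFun h s
  unfold e at h1
  rw [Pi.single_eq_same] at h1
  exact one_ne_zero h1

private theorem EChar_e_inj {s t : Fin k} (hst : s ≠ t) : (e s : Fin k → ℤ) ≠ e t := by
  intro h
  have h1 := congrFun h s
  unfold e at h1
  rw [Pi.single_eq_same, Pi.single_eq_of_ne hst] at h1
  exact one_ne_zero h1

private theorem EChar_img0 {R : Type} [CommRing R] (q l : R) (s : Fin k) (c : Fin k → ℤ)
    (b : PR M C) (h1 : b.1 ≠ c) (h2 : b.1 ≠ e s) (h3 : b.1 ≠ c + e s) (h4 : b.1 ≠ c - e s) :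
    img M C q l s c b = 0 := by
  unfold img
  split_ifs <;> simp [xv, h1, h2, h3, h4]

private theorem EChar_img1 {R : Type} [CommRing R] (q l : R) (s : Fin k) (b : PR M C)
    (hb : b.1 ≠ e s) :
    img M C q l s b.1 b = if pr M b.1 s = -1 then 1 - q else if pr M b.1 s = 1 then 0 else 1 := by
  have h1 : ¬ b.1 = b.1 + e s := by
    intro h
    exact EChar_e_ne s (left_eq_add.1 h)
  have h2 : ¬ b.1 = b.1 - e s := by
    intro h
    exact EChar_e_ne s (sub_eq_self.1 h.symm)
  unfold img
  rw [if_neg hb]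
  by_cases h3 : pr M b.1 s = -1
  · rw [if_pos h3, if_pos h3]
    simp [xv, hb, h1]
  · rw [if_neg h3, if_neg h3]
    by_cases h4 : pr M b.1 s = 1
    · rw [if_pos h4, if_pos h4]
      simp [xv, hb, h2]
    · rw [if_neg h4, if_neg h4]
      simp [xv, hb]

private theorem EChar_col {R : Type} [CommRing R] (A : Matrix (PR M C) (PR M C) R)
    (g c : PR M C) : (A.mulVec (xv M C c.1)) g = A g c := by
  classical
  have h : xv M C (R := R) c.1 = Pi.single c 1 := by
    funext g
    by_cases h : g = c
    · subst h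
      rw [Pi.single_eq_same]
      exact if_pos rfl
    · rw [Pi.single_eq_of_ne h]
      exact if_neg fun h' => h (Subtype.ext h')
  rw [h, Matrix.mulVec_single_one]
  rfl

/-- The diagonal entries of the product of two commuting generators. -/
private theorem EChar_diag (h1 : SLkA) (hR : RF M) (hF : FH M (fh M)) {R : Type} [CommRing R]
    (q l : R) (i j : Fin k) (hij : i ≠ j) (hadj : ¬ adj M i j) (b : PR M Finset.univ) :
    (lk M Finset.univ q l i * lk M Finset.univ q l j) b b =
      (if b.1 = e i then l else 0) + (if b.1 = e j then l else 0) +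
      (if pr M b.1 i = 0 ∧ pr M b.1 j = 0 then 1 else 0) +
      (1 - q) * ((if pr M b.1 i = -1 ∧ pr M b.1 j = 0 then 1 else 0) +
        (if pr M b.1 i = 0 ∧ pr M b.1 j = -1 then 1 else 0)) +
      (1 - q) ^ 2 * (if pr M b.1 i = -1 ∧ pr M b.1 j = -1 then 1 else 0) := by
  obtain ⟨hmem, hup, hdn, hes, hact⟩ := h1 k M hR Finset.univ
  have hact' := (hact R q l).1
  have hadj' : ¬ adj M j i := fun h => hadj (adj_symm h)
  have hji : (e j : Fin k → ℤ) ≠ e i := EChar_e_inj hij.symm
  have hpj : pr M (e j) i = 0 := hR.a.prn j i hij.symm hadj'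
  have hpi : pr M (e i) j = 0 := hR.a.prn i j hij hadj
  have hpii : pr M (e i) i = 2 := hR.a.pre i
  have hpjj : pr M (e j) j = 2 := hR.a.pre j
  have hri : e i ∈ roots M Finset.univ := (hes i).2 (Finset.mem_univ i)
  have hrj : e j ∈ roots M Finset.univ := (hes j).2 (Finset.mem_univ j)
  have hfix : (lk M Finset.univ q l i).mulVec (xv M Finset.univ (e j)) =
      xv M Finset.univ (R := R) (e j) := by
    rw [hact' i (e j) hrj]
    unfold img
    rw [if_neg hji, hpj, hF.simple i j hij]
    simp
  have hfix2 : (lk M Finset.univ q l j).mulVec (xv M Finset.univ (e i)) =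
      xv M Finset.univ (R := R) (e i) := by
    rw [hact' j (e i) hri]
    unfold img
    rw [if_neg hji.symm, hpi, hF.simple j i hij.symm]
    simp
  have e1 : (lk M Finset.univ q l i * lk M Finset.univ q l j) b b =
      ((lk M Finset.univ q l i).mulVec ((lk M Finset.univ q l j).mulVec
        (xv M Finset.univ b.1))) b := by
    rw [Matrix.mulVec_mulVec, EChar_col]
  rw [e1]
  by_cases hbi : b.1 = e i
  · rw [hbi, hfix2, hact' i (e i) hri]
    unfold img
    rw [if_pos rfl, hpii, hpi]
    simp [xv, hbi, hji.symm]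
  by_cases hbj : b.1 = e j
  · rw [hbj, hact' j (e j) hrj]
    unfold img
    rw [if_pos rfl, Matrix.mulVec_smul, hfix, hpjj, hpj]
    simp [xv, hbj, hji]
  have hb := (hmem b.1).1 b.2
  rw [hact' j b.1 b.2]
  have hLin : ∀ (v : PR M Finset.univ → R) (c : R),
      ((lk M Finset.univ q l i).mulVec (v + c • xv M Finset.univ (e j))) b =
        ((lk M Finset.univ q l i).mulVec v) b := by
    intro v c
    rw [Matrix.mulVec_add, Matrix.mulVec_smul, hfix]
    simp [xv, hbj]
  have hdi : ((lk M Finset.univ q l i).mulVec (xv M Finset.univ (R := R) b.1)) b =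
      if pr M b.1 i = -1 then 1 - q else if pr M b.1 i = 1 then 0 else 1 := by
    rw [hact' i b.1 b.2, EChar_img1 q l i b hbi]
  unfold img
  rw [if_neg hbj, hLin]
  rcases hR.a.bnd b.1 j hb.1 hbj with h | h | h
  · -- pairing -1 with j
    have hup' : b.1 + e j ∈ roots M Finset.univ := hup b.1 b.2 j h (Finset.mem_univ j)
    rw [if_pos h, Matrix.mulVec_add, Matrix.mulVec_smul, Pi.add_apply, Pi.smul_apply, hdi,
      hact' i _ hup', EChar_img0 q l i (b.1 + e j) b
        (fun h' => EChar_e_ne j (left_eq_add.1 h')) hbi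
        (by
          intro h'
          have h6 : (e j : Fin k → ℤ) + e i = 0 := by
            rw [add_assoc] at h'
            exact left_eq_add.1 h'
          have h7 : pr M (e j + e i) i = 2 := by rw [hR.a.pr_add, hpj, hpii]; norm_num
          have h8 : pr M (0 : Fin k → ℤ) i = 0 := by unfold pr; simp
          rw [h6, h8] at h7
          norm_num at h7)
        (by
          intro h'
          have h6 : (e j : Fin k → ℤ) = e i := by
            rw [add_sub_assoc] at h'
            exact sub_eq_zero.1 (left_eq_add.1 h')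
          exact hji h6)]
    rcases hR.a.bnd b.1 i hb.1 hbi with h' | h' | h' <;> simp [hbi, hbj, h, h'] <;> ring
  · rw [if_neg (by rw [h]; norm_num), if_neg (by rw [h]; norm_num), hdi]
    rcases hR.a.bnd b.1 i hb.1 hbi with h' | h' | h' <;> simp [hbi, hbj, h, h']
  · have hdn' : b.1 - e j ∈ roots M Finset.univ := hdn b.1 b.2 j h
    rw [if_neg (by rw [h]; norm_num), if_pos h, Matrix.mulVec_smul, Pi.smul_apply,
      hact' i _ hdn', EChar_img0 q l i (b.1 - e j) b
        (fun h' => EChar_e_ne j (sub_eq_self.1 h'.symm)) hbi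
        (by
          intro h'
          rw [sub_add] at h'
          exact hji (sub_eq_zero.1 (sub_eq_self.1 h'.symm)))
        (by
          intro h'
          have h6 : (e j : Fin k → ℤ) + e i = 0 := by
            rw [sub_sub] at h'
            exact sub_eq_self.1 h'.symm
          have h7 : pr M (e j + e i) i = 2 := by rw [hR.a.pr_add, hpj, hpii]; norm_num
          have h8 : pr M (0 : Fin k → ℤ) i = 0 := by unfold pr; simp
          rw [h6, h8] at h7
          norm_num at h7)]
    rcases hR.a.bnd b.1 i hb.1 hbi with h' | h' | h' <;> simp [hbi, hbj, h, h']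

private theorem EChar_trace (h1 : SLkA) (hR : RF M) (hF : FH M (fh M)) {R : Type} [CommRing R]
    (q l : R) (i j : Fin k) (hij : i ≠ j) (hadj : ¬ adj M i j) (n : ℤ → ℤ → ℕ)
    (hn : ∀ x y, n x y =
      ((roots M Finset.univ).filter fun b => pr M b i = x ∧ pr M b j = y).card) :
    (lk M Finset.univ q l i * lk M Finset.univ q l j).trace =
      2 * l + (n 0 0 : R) + (1 - q) * ((n (-1) 0 : R) + (n 0 (-1) : R)) +
        (1 - q) ^ 2 * (n (-1) (-1) : R) := by
  obtain ⟨hmem, hup, hdn, hes, hact⟩ := h1 k M hR Finset.univ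
  unfold Matrix.trace
  simp only [Matrix.diag_apply]
  rw [Finset.sum_congr rfl fun b _ => EChar_diag h1 hR hF q l i j hij hadj b]
  simp only [Finset.sum_add_distrib, ← Finset.mul_sum]
  have e1 : ∀ s : Fin k, ∑ b : PR M Finset.univ, (if b.1 = e s then l else 0) = l := by
    intro s
    rw [Finset.sum_coe_sort (roots M Finset.univ) (fun b => if b = e s then l else 0),
      Finset.sum_ite_eq' (roots M Finset.univ) (e s) (fun _ => l),
      if_pos ((hes s).2 (Finset.mem_univ s))]
  have e2 : ∀ x y : ℤ, ∑ b : PR M Finset.univ,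
      (if pr M b.1 i = x ∧ pr M b.1 j = y then (1 : R) else 0) = (n x y : R) := by
    intro x y
    rw [Finset.sum_coe_sort (roots M Finset.univ)
      (fun b => if pr M b i = x ∧ pr M b j = y then (1 : R) else 0), Finset.sum_boole, hn]
  rw [e1 i, e1 j, e2, e2, e2, e2]
  ring

end trace

/-- The closure of the field `K2`. -/
private noncomputable abbrev EChar_Om : Type := AlgebraicClosure K2

private noncomputable def EChar_rho : R2 →+* EChar_Om :=
  (algebraMap K2 EChar_Om).comp (algebraMap R2 K2)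

private theorem EChar_rho_inj : Function.Injective EChar_rho :=
  (RingHom.injective (algebraMap K2 EChar_Om)).comp (IsFractionRing.injective R2 K2)

/-- Comparing the coefficients of the trace. -/
private theorem EChar_indep (m a b c n0 n1 n2 n3 : ℕ)
    (h : 2 * ll + (n0 : R2) + (1 - qq) * ((n1 : R2) + (n2 : R2)) + (1 - qq) ^ 2 * (n3 : R2) =
      m * ll + a * 1 + b * (-qq) + c * qq ^ 2) :
    m = 2 ∧ a = n0 + n1 + n2 + n3 ∧ b = n1 + n2 + 2 * n3 ∧ c = n3 := by
  have key : ∀ x y : ℂ, x ≠ 0 → y ≠ 0 →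
      2 * y + (n0 : ℂ) + (1 - x) * ((n1 : ℂ) + (n2 : ℂ)) + (1 - x) ^ 2 * (n3 : ℂ) =
        m * y + a * 1 + b * (-x) + c * x ^ 2 := by
    intro x y hx hy
    obtain ⟨φ, h1, h2⟩ := R2_lift (IsUnit.mk0 x hx) (IsUnit.mk0 y hy)
    have h3 := congrArg φ h
    simpa only [map_add, map_mul, map_neg, map_sub, map_one, map_natCast, map_pow, map_ofNat,
      h1, h2] using h3
  have k1 := key 1 1 one_ne_zero one_ne_zero
  have k2 := key 2 1 two_ne_zero one_ne_zero
  have k3 := key 1 2 one_ne_zero two_ne_zero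
  have k4 := key 3 1 three_ne_zero one_ne_zero
  have e0 : (m : ℂ) = ((2 : ℕ) : ℂ) := by
    push_cast
    linear_combination k1 - k3
  have e1 : (c : ℂ) = (n3 : ℂ) := by
    linear_combination k2 - (1 / 2) * k1 - (1 / 2) * k4
  have e2 : (b : ℂ) = ((n1 + n2 + 2 * n3 : ℕ) : ℂ) := by
    push_cast
    linear_combination k2 - k1 + 3 * e1
  have e3 : (a : ℂ) = ((n0 + n1 + n2 + n3 : ℕ) : ℂ) := by
    push_cast
    push_cast at e0 e2
    linear_combination -k1 - e0 + e2 - e1
  exact ⟨Nat.cast_injective e0, Nat.cast_injective e3, Nat.cast_injective e2,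
    Nat.cast_injective e1⟩

theorem pEChar (h1 : SLkA) (h2 : SLKr) (h4 : SEFun) (h5 : SEPro) : SEChar := by
  intro k M hSL hR hF i j hij hadj n hn
  have hC : Sat M Finset.univ := fun _ _ j _ => Finset.mem_univ j
  have htr : ∀ {R : Type} [CommRing R] (q l : R),
      (lk M Finset.univ q l i * lk M Finset.univ q l j).trace =
      2 * l + (n 0 0 : R) + (1 - q) * ((n (-1) 0 : R) + (n 0 (-1) : R)) +
        (1 - q) ^ 2 * (n (-1) (-1) : R) := by
    intro R _ q l
    exact EChar_trace h1 hR hF q l i j hij hadj n hn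
  refine ⟨?_, htr qq ll⟩
  obtain ⟨hmem, hup, -, hes, hact⟩ := h1 k M hR Finset.univ
  -- base change
  have hbase : ∀ (S : Type) [CommRing S] (φ : R2 →+* S) (s : Fin k),
      lk M Finset.univ (φ qq) (φ ll) s = (lk M Finset.univ qq ll s).map φ := by
    intro S _ φ s
    have e1 := (h2 k M hSL hR hF Finset.univ hC).1 R2 qq ll qq_unit ll_unit s
    have e2 := (h2 k M hSL hR hF Finset.univ hC).1 S (φ qq) (φ ll) (qq_unit.map φ)
      (ll_unit.map φ) s
    have e3 := (h2 k M hSL hR hF Finset.univ hC).2 R2 S φ qq ll qq_unit ll_unit (gn M s)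
    rw [← e2, e3, e1]
  -- over the closure
  have hl : ∀ (q l : EChar_Om) (s : Fin k)
      (hG : (lk M Finset.univ q l i * lk M Finset.univ q l j).mulVec (xv M Finset.univ (e s)) =
        l • xv M Finset.univ (e s)) (v : PR M Finset.univ → EChar_Om),
      (lk M Finset.univ q l i * lk M Finset.univ q l j).mulVec ((cub M q l s).mulVec v) =
        l • (cub M q l s).mulVec v := by
    intro q l s hG v
    have e1 : (cub M q l s).mulVec v = (∑ b : PR M Finset.univ, v b * cubf M q l s b.1) •
        xv M Finset.univ (e s) := by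
      conv_lhs => rw [(hact EChar_Om q l).2.2.1 v]
      rw [Matrix.mulVec_sum, Finset.sum_smul]
      refine Finset.sum_congr rfl fun b _ => ?_
      rw [Matrix.mulVec_smul, h4 k M hR EChar_Om q l s b.1 b.2, smul_smul]
    rw [e1, Matrix.mulVec_smul, hG, smul_comm]
  obtain ⟨m, a, b, c, hp, ht⟩ := EChar_split
    (lk M Finset.univ (EChar_rho qq) (EChar_rho ll) i *
      lk M Finset.univ (EChar_rho qq) (EChar_rho ll) j)
    (EChar_rho ll) 1 (-EChar_rho qq) (EChar_rho qq ^ 2) (by
      intro μ v hv hμ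
      obtain ⟨g1, g2, g3⟩ := h5 k M hSL hR hF EChar_Om (EChar_rho qq) (EChar_rho ll) i j hij hadj
      have g4 := hl _ _ i g2 v
      have g5 := hl _ _ j g3 v
      revert g1 hμ g4 g5
      generalize (lk M Finset.univ (EChar_rho qq) (EChar_rho ll) i *
        lk M Finset.univ (EChar_rho qq) (EChar_rho ll) j) = G
      generalize cub M (EChar_rho qq) (EChar_rho ll) i = E1
      generalize cub M (EChar_rho qq) (EChar_rho ll) j = E2
      generalize EChar_rho qq = q
      generalize EChar_rho ll = l
      intro hμ g1 g4 g5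
      have a1 : (G - (q ^ 2) • (1 : Matrix _ _ EChar_Om)).mulVec v = (μ - q ^ 2) • v := by
        rw [Matrix.sub_mulVec, Matrix.smul_mulVec, Matrix.one_mulVec, hμ, ← sub_smul]
      have a2 : (G + q • (1 : Matrix _ _ EChar_Om)).mulVec v = (μ + q) • v := by
        rw [Matrix.add_mulVec, Matrix.smul_mulVec, Matrix.one_mulVec, hμ, ← add_smul]
      have a3 : (G - 1).mulVec v = (μ - 1) • v := by
        rw [Matrix.sub_mulVec, Matrix.one_mulVec, hμ, sub_smul, one_smul]
      have k1 : ((G - 1) * (G + q • (1 : Matrix _ _ EChar_Om)) *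
          (G - (q ^ 2) • (1 : Matrix _ _ EChar_Om))).mulVec v =
          ((μ - 1) * (μ + q) * (μ - q ^ 2)) • v := by
        rw [← Matrix.mulVec_mulVec, ← Matrix.mulVec_mulVec, a1, Matrix.mulVec_smul, a2,
          Matrix.mulVec_smul, Matrix.mulVec_smul, a3, smul_smul, smul_smul]
        congr 1
        ring
      have k2 : G.mulVec (((l - q ^ 2) • (E1 + E2)).mulVec v) =
          l • ((l - q ^ 2) • (E1 + E2)).mulVec v := by
        rw [Matrix.smul_mulVec, Matrix.mulVec_smul, Matrix.add_mulVec, Matrix.mulVec_add, g4, g5,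
          ← smul_add, smul_comm]
      rw [← g1, k1, Matrix.mulVec_smul, hμ, smul_smul, smul_smul] at k2
      have k3 : ((μ - l) * ((μ - 1) * (μ + q) * (μ - q ^ 2))) • v = 0 := by
        have k4 := sub_eq_zero.2 k2
        rw [← sub_smul] at k4
        rw [← k4]
        congr 1
        ring
      rw [smul_eq_zero_iff_left hv] at k3
      rcases mul_eq_zero.1 k3 with k4 | k4
      · exact Or.inl (sub_eq_zero.1 k4)
      · rcases mul_eq_zero.1 k4 with k4 | k4
        · rcases mul_eq_zero.1 k4 with k4 | k4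
          · exact Or.inr (Or.inl (sub_eq_zero.1 k4))
          · exact Or.inr (Or.inr (Or.inl (eq_neg_of_add_eq_zero_left k4)))
        · exact Or.inr (Or.inr (Or.inr (sub_eq_zero.1 k4))))
  rw [htr] at ht
  obtain ⟨hm, ha, hb, hc⟩ := EChar_indep m a b c (n 0 0) (n (-1) 0) (n 0 (-1)) (n (-1) (-1)) (by
      apply EChar_rho_inj
      simp only [map_add, map_mul, map_neg, map_sub, map_one, map_natCast, map_pow, map_ofNat]
      exact ht)
  rw [hm, ha, hb, hc] at hp
  apply Polynomial.map_injective EChar_rho EChar_rho_inj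
  rw [← Matrix.charpoly_map, Matrix.map_mul, ← hbase, ← hbase, hp]
  simp only [Polynomial.map_mul, Polynomial.map_pow, Polynomial.map_sub, Polynomial.map_X,
    Polynomial.map_C, Polynomial.map_neg, Polynomial.map_one, map_neg, map_one, map_pow]

end Pool.Agent.Lib.MP_97567f_al.U
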