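import Pool.Agent.Lib.MP_97567f_al.U.SpecE

/-!
# MP_97567f_al: the types H3 and H4: uniqueness of the parameters
-/

set_option autoImplicit false

namespace Pool.Agent.Lib.MP_97567f_al.U

open Polynomial

section EUq

variable {K : Type} [Field K]

private theorem EUq_count [DecidableEq K] {k : ℕ} (v : Fin k → K) (m : Fin k → ℕ) (w : K) :
    ((∏ j, (X - C (v j)) ^ m j : K[X]).roots.count w) = ∑ j, m j * (if w = v j then 1 else 0) := by
  have key : ∀ S : Finset (Fin k), (∏ j ∈ S, (X - C (v j)) ^ m j : K[X]).roots.count w =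
      ∑ j ∈ S, m j * (if w = v j then 1 else 0) := by
    intro S
    induction S using Finset.induction_on with
    | empty => simp
    | insert a S ha ih =>
      rw [Finset.prod_insert ha, Finset.sum_insert ha]
      have h1 : ((X - C (v a)) ^ m a : K[X]) ≠ 0 := pow_ne_zero _ (X_sub_C_ne_zero _)
      have h2 : (∏ j ∈ S, (X - C (v j)) ^ m j : K[X]) ≠ 0 :=
        Finset.prod_ne_zero_iff.2 fun j _ => pow_ne_zero _ (X_sub_C_ne_zero _)
      rw [roots_mul (mul_ne_zero h1 h2), Multiset.count_add, ih, roots_pow, roots_X_sub_C,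
        Multiset.count_nsmul, Multiset.count_singleton]
  exact key Finset.univ

/-- Comparing the roots. -/
private theorem EUq_eq {k : ℕ} {u v : Fin k → K} {m : Fin k → ℕ} (hu : Function.Injective u)
    (hv : Function.Injective v) (hpos : ∀ j, 0 < m j)
    (h : (∏ j, (X - C (u j)) ^ m j : K[X]) = ∏ j, (X - C (v j)) ^ m j) (j : Fin k) :
    ∃ i, u j = v i ∧ m i = m j := by
  classical
  have h1 : ∑ i, m i * (if u j = u i then 1 else 0) = m j := by
    rw [Finset.sum_eq_single j]
    · rw [if_pos rfl, mul_one]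
    · intro i _ hij
      rw [if_neg fun h => hij (hu h).symm, mul_zero]
    · intro h
      exact absurd (Finset.mem_univ j) h
  have h2 : ∑ i, m i * (if u j = v i then 1 else 0) = m j := by
    rw [← EUq_count, ← h, EUq_count, h1]
  by_cases hex : ∃ i, u j = v i
  · obtain ⟨i, hi⟩ := hex
    have h3 : ∑ i', m i' * (if u j = v i' then 1 else 0) = m i := by
      rw [Finset.sum_eq_single i]
      · rw [if_pos hi, mul_one]
      · intro i' _ hi'
        rw [if_neg fun h => hi' (hv (h.symm.trans hi)), mul_zero]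
      · intro h
        exact absurd (Finset.mem_univ i) h
    rw [h3] at h2
    exact ⟨i, hi, h2⟩
  · exfalso
    push Not at hex
    have h3 : ∑ i, m i * (if u j = v i then 1 else 0) = 0 :=
      Finset.sum_eq_zero fun i _ => by rw [if_neg (hex i), mul_zero]
    have := hpos j
    omega

variable {ι : Type} [Fintype ι] [DecidableEq ι]

/-- The characteristic polynomial of a multiple. -/
private theorem EUq_scale [Infinite K] (A : Matrix ι ι K) (c : K) (hc : c ≠ 0) {k : ℕ}
    (u : Fin k → K) (m : Fin k → ℕ) (h : A.charpoly = ∏ j, (X - C (u j)) ^ m j) :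
    (c • A).charpoly = ∏ j, (X - C (c * u j)) ^ m j := by
  have hN : Fintype.card ι = ∑ j, m j := by
    have h1 := A.charpoly_natDegree_eq_dim
    rw [h, natDegree_prod _ _ fun j _ => pow_ne_zero _ (X_sub_C_ne_zero _)] at h1
    rw [← h1]
    refine Finset.sum_congr rfl fun j _ => ?_
    rw [natDegree_pow, natDegree_X_sub_C, mul_one]
  apply Polynomial.funext
  intro t
  have e1 : (c • A).charpoly.eval t = (Matrix.scalar ι t - c • A).det := by
    rw [Matrix.eval_charpoly]
  have e2 : A.charpoly.eval (c⁻¹ * t) = (Matrix.scalar ι (c⁻¹ * t) - A).det := by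
    rw [Matrix.eval_charpoly]
  have e3 : Matrix.scalar ι t - c • A = c • (Matrix.scalar ι (c⁻¹ * t) - A) := by
    rw [smul_sub]
    congr 1
    ext i j
    rw [Matrix.smul_apply, Matrix.scalar_apply, Matrix.scalar_apply]
    by_cases hij : i = j
    · subst hij
      rw [Matrix.diagonal_apply_eq, Matrix.diagonal_apply_eq, smul_eq_mul, mul_inv_cancel_left₀ hc]
    · rw [Matrix.diagonal_apply_ne _ hij, Matrix.diagonal_apply_ne _ hij, smul_zero]
  rw [e1, e3, Matrix.det_smul, ← e2, h, hN, eval_prod, eval_prod, ← Finset.prod_pow_eq_pow_sum,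
    ← Finset.prod_mul_distrib]
  refine Finset.prod_congr rfl fun j _ => ?_
  simp only [eval_pow, eval_sub, eval_X, eval_C]
  rw [← mul_pow, mul_sub, mul_inv_cancel_left₀ hc]

/-- The four roots. -/
private noncomputable def EUq_u : Fin 4 → R2 := ![ll, 1, -qq, qq ^ 2]

private theorem EUq_inj : Function.Injective EUq_u := by
  obtain ⟨φ, hφq, hφl⟩ := R2_lift (S := ℂ) (a := 2) (b := 3)
    (isUnit_iff_ne_zero.2 (by norm_num)) (isUnit_iff_ne_zero.2 (by norm_num))
  have h : Function.Injective fun j => φ (EUq_u j) := by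
    intro i j hij
    simp only [EUq_u] at hij
    fin_cases i <;> fin_cases j <;> simp [hφq, hφl] at hij ⊢ <;> norm_num at hij
  exact fun i j hij => h (congrArg φ hij)

/-- The multiplicities. -/
private def EUq_m (a b c : ℕ) : Fin 4 → ℕ := ![2, a, b, c]

private theorem EUq_prod (a b c : ℕ) : (∏ j, (X - C (EUq_u j)) ^ EUq_m a b c j : R2[X]) =
    (X - C ll) ^ 2 * (X - C 1) ^ a * (X - C (-qq)) ^ b * (X - C (qq ^ 2)) ^ c := by
  rw [Fin.prod_univ_four]
  rfl

end EUq

theorem pEUq : SEUq := by
  classical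
  intro n k M M' ι s a b c hc2 hcb hba hch θ hTw
  obtain ⟨hθ, χ, g, hx⟩ := hTw
  have hinf : Infinite (FractionRing R2) :=
    Infinite.of_injective (algebraMap ℂ (FractionRing R2))
      (algebraMap ℂ (FractionRing R2)).injective
  have hinj : Function.Injective (algebraMap R2 (FractionRing R2)) :=
    IsFractionRing.injective R2 (FractionRing R2)
  rw [← EUq_prod] at hch
  set ρ := frp ι with hρ
  set m := EUq_m a b c with hm
  have c1 : (mK ρ (gn M s)).charpoly =
      ∏ j, (X - C (algebraMap R2 (FractionRing R2) (EUq_u j))) ^ m j := by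
    have h1 : (mK ρ (gn M s)).charpoly =
        (ρ (gn M s)).1.charpoly.map (algebraMap R2 (FractionRing R2)) :=
      Matrix.charpoly_map _ _
    rw [h1, hch, Polynomial.map_prod]
    refine Finset.prod_congr rfl fun j _ => ?_
    rw [Polynomial.map_pow, Polynomial.map_sub, map_X, map_C]
  have c2 : (((ρ (gn M s)).1.map θ).map (algebraMap R2 (FractionRing R2))).charpoly =
      ∏ j, (X - C (algebraMap R2 (FractionRing R2) (θ (EUq_u j)))) ^ m j := by
    have h1 : (((ρ (gn M s)).1.map θ).map (algebraMap R2 (FractionRing R2))).charpoly =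
        ((ρ (gn M s)).1.charpoly.map (θ : R2 →+* R2)).map
          (algebraMap R2 (FractionRing R2)) := by
      rw [Matrix.charpoly_map]
      congr 1
      exact Matrix.charpoly_map (ρ (gn M s)).1 (θ : R2 →+* R2)
    rw [h1, hch, Polynomial.map_prod, Polynomial.map_prod]
    refine Finset.prod_congr rfl fun j _ => ?_
    rw [Polynomial.map_pow, Polynomial.map_sub, map_X, map_C, Polynomial.map_pow,
      Polynomial.map_sub, map_X, map_C]
    rfl
  have hxs := hx (gn M s)
  rw [MonoidHom.id_apply] at hxs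
  set d : FractionRing R2 := algebraMap R2 (FractionRing R2) (χ (gn M s) : R2) with hddef
  have hd : d ≠ 0 := ((χ (gn M s)).isUnit.map (algebraMap R2 (FractionRing R2))).ne_zero
  have e1 : (mK ρ (gn M s)).charpoly =
      (d • ((ρ (gn M s)).1.map θ).map (algebraMap R2 (FractionRing R2))).charpoly := by
    have e2 : d • (g.1 * ((ρ (gn M s)).1.map θ).map (algebraMap R2 (FractionRing R2)) *
        (g⁻¹).1) =
        g.1 * (d • ((ρ (gn M s)).1.map θ).map (algebraMap R2 (FractionRing R2))) *
        (g⁻¹).1 := by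
      rw [mul_smul_comm, smul_mul_assoc]
    rw [hxs, e2, Matrix.charpoly_mul_comm, ← mul_assoc, ← Units.val_mul, inv_mul_cancel,
      Units.val_one, one_mul]
  rw [c1, EUq_scale _ d hd _ m c2] at e1
  have hpos : ∀ j, 0 < m j := by
    intro j
    rw [hm]
    fin_cases j <;> simp [EUq_m] <;> omega
  have hall := EUq_eq (fun i j hij => EUq_inj (hinj hij))
    (fun i j hij => EUq_inj (hθ (hinj (mul_left_cancel₀ hd hij)))) hpos e1
  -- the root of multiplicity `a`
  have hd1 : d = 1 := by
    obtain ⟨i, hi, hmi⟩ := hall 1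
    have hi1 : i = 1 := by
      rw [hm] at hmi
      fin_cases i <;> simp [EUq_m] at hmi ⊢ <;> omega
    rw [hi1] at hi
    have h1 : EUq_u 1 = 1 := rfl
    rw [h1, map_one θ, map_one, mul_one] at hi
    exact hi.symm
  have hq : θ qq = qq := by
    obtain ⟨i, hi, hmi⟩ := hall 2
    have hi1 : i = 2 := by
      rw [hm] at hmi
      fin_cases i <;> simp [EUq_m] at hmi ⊢ <;> omega
    rw [hi1, hd1, one_mul] at hi
    have h1 : EUq_u 2 = -qq := rfl
    rw [h1] at hi
    have h2 := hinj hi
    rw [map_neg, neg_inj] at h2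
    exact h2.symm
  have hl : θ ll = ll := by
    obtain ⟨i, hi, hmi⟩ := hall 0
    have hi1 : i = 0 := by
      by_contra hne
      have hi3 : i = 3 := by
        rw [hm] at hmi
        fin_cases i <;> simp [EUq_m] at hmi hne ⊢ <;> omega
      rw [hi3, hd1, one_mul] at hi
      have h1 : EUq_u 3 = qq ^ 2 := rfl
      have h2 := hinj hi
      rw [h1, map_pow, hq] at h2
      have h3 : EUq_u 0 = EUq_u 3 := h2
      have h4 := EUq_inj h3
      exact absurd h4 (by decide)
    rw [hi1, hd1, one_mul] at hi
    exact (hinj hi).symm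
  exact R2_ext (by rw [hq]; rfl) (by rw [hl]; rfl)

end Pool.Agent.Lib.MP_97567f_al.U
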