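import Pool.Agent.Lib.MP_97567f_al.U.HDat

/-!
# MP_97567f_al: tables of the positive roots of D6 and E8

A positive root `b` is coded by the number `∑ b s * 8 ^ s`. `L6`, `L8`: the lists of the codes (in an order such that every
code after the first two is obtained from an earlier one by a generator of H3, H4).
-/

set_option autoImplicit false

namespace Pool.Agent.Lib.MP_97567f_al.U

/-- The digits of a code. -/
def dg (c s : ℕ) : ℕ := c / 8 ^ s % 8

/-- The vector of a code. -/
def rtc (k c : ℕ) : Fin k → ℤ := fun s => (dg c s : ℤ)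

/-- The sum of the digits of the neighbours. -/
def sn (nb : ℕ → List ℕ) (c s : ℕ) : ℕ := ((nb s).map fun j => dg c j).sum

/-- The neighbours of the nodes of D6. -/
def nb6 : ℕ → List ℕ
  | 0 => [2]
  | 1 => [2]
  | 2 => [0, 1, 3]
  | 3 => [2, 4]
  | 4 => [3, 5]
  | 5 => [4]
  | _ => []

/-- The neighbours of the nodes of E8. -/
def nb8 : ℕ → List ℕ
  | 0 => [2]
  | 1 => [3]
  | 2 => [0, 3]
  | 3 => [1, 2, 4]
  | 4 => [3, 5]
  | 5 => [4, 6]
  | 6 => [5, 7]
  | 7 => [6]
  | _ => []

/-- The codes of the positive roots of D6. -/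
def L6 : List ℕ := [1, 512, 65, 4672, 73, 576, 37448, 4673, 584, 4608, 37449, 577, 4680, 37376, 4096,
  37513, 585, 64, 37440, 4681, 36864, 4745, 38025, 72, 37441, 649, 32768, 5257, 42121, 8]

/-- The codes of the positive roots of E8. -/
def L8 : List ℕ := [8, 4096, 520, 37376, 584, 4608, 299584, 37384, 585, 4672, 36864, 2396737,
  299592, 4616, 4673, 37440, 299008, 32768, 2396745, 300104, 4680, 512, 37441, 299520, 37448,
  2396160, 294912, 2397257, 37960, 304200, 4681, 576, 299585, 37449, 2396672, 299528, 5192,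
  2392064, 262144, 2397321, 2401353, 37961, 42056, 336968, 577, 64, 2396736, 299593, 5193,
  2396680, 2359296, 300169, 2401417, 2434121, 42057, 65, 2396744, 300105, 5257, 2097152, 304265,
  2434697, 2696329, 1, 2397256, 38025, 304201, 337545, 2696841, 2438801, 2401352, 42121, 336969,
  341649, 2700945, 2439313, 2434120, 42633, 337033, 342161, 2734225, 2701521, 2696264, 304777,
  42641, 2434185, 342225, 2734289, 2738321, 2701522, 2696265, 2401929, 304785, 2439378, 2734290,
  2738385, 2401937, 337553, 2738386, 2738897, 2434705, 341641, 2738898, 2738905, 2696849, 2438793,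
  2738962, 2738906, 2700937, 2738970, 2733705, 2739482, 2733713, 2743578, 2701457, 2776346,
  2439377, 3038490, 342226, 5135642]

/-- The properties of a table. -/
structure Tb (k : ℕ) (M' : CoxeterMatrix (Fin k)) (nb : ℕ → List ℕ) (L : List ℕ) : Prop where
  nbp : ∀ (b : Fin k → ℤ) (s : Fin k), pr M' b s =
    2 * b s - ((nb s).map fun j => if h : j < k then b ⟨j, h⟩ else 0).sum
  nbk : ∀ s < k, ∀ j ∈ nb s, j < k
  simple : ∀ s < k, 8 ^ s ∈ L
  up : ∀ c ∈ L, ∀ s < k, 2 * dg c s + 1 = sn nb c s → c + 8 ^ s ∈ L ∧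
    ∀ t < k, dg (c + 8 ^ s) t = dg c t + if t = s then 1 else 0
  dn : ∀ c ∈ L, ∀ s < k, 2 * dg c s = sn nb c s + 1 → 8 ^ s ≤ c ∧ c - 8 ^ s ∈ L ∧
    2 * dg (c - 8 ^ s) s + 1 = sn nb (c - 8 ^ s) s
  nrm : ∀ c ∈ L, ((List.range k).map fun s => dg c s * (2 * dg c s)).sum =
    ((List.range k).map fun s => dg c s * sn nb c s).sum + 2
  lt : ∀ c ∈ L, c < 8 ^ k
  nd : L.Nodup

theorem tb6 : Tb 6 D6 nb6 L6 where
  nbp := by
    intro b s
    unfold pr
    fin_cases s <;> simp [Fin.sum_univ_succ, adj, D6, nb6]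
  nbk := by decide +kernel
  simple := by decide +kernel
  up := by decide +kernel
  dn := by decide +kernel
  nrm := by decide +kernel
  lt := by decide +kernel
  nd := by decide +kernel

theorem tb8 : Tb 8 CoxeterMatrix.E₈ nb8 L8 where
  nbp := by
    intro b s
    unfold pr
    fin_cases s <;> simp [Fin.sum_univ_succ, adj, CoxeterMatrix.E₈, nb8]
  nbk := by decide +kernel
  simple := by decide +kernel
  up := by decide +kernel
  dn := by decide +kernel
  nrm := by decide +kernel
  lt := by decide +kernel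
  nd := by decide +kernel

section tables

variable {k : ℕ} {M' : CoxeterMatrix (Fin k)} {nb : ℕ → List ℕ} {L : List ℕ}

theorem dg_pow (s t : ℕ) : dg (8 ^ s) t = if t = s then 1 else 0 := by
  unfold dg
  rcases lt_trichotomy t s with h | h | h
  · rw [if_neg h.ne, Nat.pow_div h.le (by norm_num)]
    obtain ⟨m, hm⟩ := Nat.exists_eq_succ_of_ne_zero (Nat.sub_ne_zero_of_lt h)
    rw [hm, pow_succ]
    omega
  · subst h
    rw [if_pos rfl, Nat.div_self (by positivity)]
  · rw [if_neg h.ne', Nat.div_eq_of_lt (Nat.pow_lt_pow_right (by norm_num) h)]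

theorem rtc_pow (s : Fin k) : rtc k (8 ^ (s : ℕ)) = e s := by
  funext t
  unfold rtc e
  rw [dg_pow]
  by_cases h : t = s
  · subst h
    simp
  · rw [if_neg (fun h' => h (Fin.ext h')), Pi.single_eq_of_ne h]
    rfl

theorem pr_rtc (hT : Tb k M' nb L) (c : ℕ) (s : Fin k) :
    pr M' (rtc k c) s = 2 * (dg c s : ℤ) - (sn nb c s : ℤ) := by
  rw [hT.nbp]
  unfold rtc sn
  congr 1
  push_cast
  rw [List.map_map]
  congr 1
  refine List.map_congr_left fun j hj => ?_
  have := hT.nbk s s.2 j hj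
  simp [this]

theorem rtc_up (hT : Tb k M' nb L) (c : ℕ) (hc : c ∈ L) (s : Fin k)
    (h : 2 * dg c s + 1 = sn nb c s) : c + 8 ^ (s : ℕ) ∈ L ∧
      rtc k (c + 8 ^ (s : ℕ)) = rtc k c + e s := by
  obtain ⟨h1, h2⟩ := hT.up c hc s s.2 h
  refine ⟨h1, ?_⟩
  funext t
  rw [Pi.add_apply]
  unfold rtc e
  rw [h2 t t.2]
  by_cases h3 : t = s
  · subst h3
    simp
  · rw [if_neg (fun h' => h3 (Fin.ext h')), Pi.single_eq_of_ne h3]
    simp

private theorem range_sum (k : ℕ) (f : ℕ → ℕ) :
    ((List.range k).map f).sum = ∑ s : Fin k, f s := by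
  rw [← Finset.sum_range]
  induction k with
  | zero => rfl
  | succ k ih => rw [List.range_succ, List.map_append, List.sum_append, ih, Finset.sum_range_succ]; simp

theorem rt_rtc (hT : Tb k M' nb L) (c : ℕ) (hc : c ∈ L) : Rt M' (rtc k c) := by
  refine ⟨?_, fun i => by unfold rtc; positivity⟩
  unfold bf
  have h1 := hT.nrm c hc
  rw [range_sum, range_sum] at h1
  have h2 := congrArg (Nat.cast : ℕ → ℤ) h1
  push_cast at h2
  have h3 : ∀ s : Fin k, rtc k c s * pr M' (rtc k c) s =
      (dg c s : ℤ) * (2 * (dg c s : ℤ)) - (dg c s : ℤ) * (sn nb c s : ℤ) := by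
    intro s
    rw [pr_rtc hT]
    unfold rtc
    ring
  rw [Finset.sum_congr rfl fun s _ => h3 s, Finset.sum_sub_distrib, h2]
  ring

theorem rtc_of_rt (hT : Tb k M' nb L) (hR : RF M') (b : Fin k → ℤ) (hb : Rt M' b) :
    ∃ c ∈ L, b = rtc k c := by
  have key : ∀ (h : ℕ) (b : Fin k → ℤ), Rt M' b → ht b = h → ∃ c ∈ L, b = rtc k c := by
    intro h
    induction h with
    | zero =>
      intro b hb h0
      have := hR.b.ht1 b hb
      omega
    | succ h ih =>
      intro b hb h0
      by_cases hs : ∃ s, b = e s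
      · obtain ⟨s, rfl⟩ := hs
        exact ⟨8 ^ (s : ℕ), hT.simple s s.2, (rtc_pow s).symm⟩
      · push Not at hs
        obtain ⟨s, hs1⟩ := hR.a.desc b hb hs
        have hd := hR.a.down b s hb hs1
        have hh := hR.b.htd b s hb hs1
        obtain ⟨c, hc, hbc⟩ := ih (b - e s) hd (by omega)
        have hp : pr M' (b - e s) s = -1 := by
          rw [hR.a.pr_sub, hs1, hR.a.pre]
          norm_num
        rw [hbc, pr_rtc hT] at hp
        obtain ⟨h1, h2⟩ := rtc_up hT c hc s (by omega)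
        refine ⟨_, h1, ?_⟩
        rw [h2, ← hbc]
        abel
  exact key (ht b) b hb rfl

theorem rtc_inj {k c c' : ℕ} (hc : c < 8 ^ k) (hc' : c' < 8 ^ k) (h : rtc k c = rtc k c') :
    c = c' := by
  have key : ∀ (k : ℕ) (c c' : ℕ), c < 8 ^ k → c' < 8 ^ k → (∀ s < k, dg c s = dg c' s) →
      c = c' := by
    intro k
    induction k with
    | zero =>
      intro c c' h1 h2 _
      rw [pow_zero] at h1 h2
      omega
    | succ k ih =>
      intro c c' h1 h2 h3
      have h4 : c / 8 = c' / 8 := by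
        refine ih _ _ ?_ ?_ ?_
        · rw [pow_succ] at h1
          omega
        · rw [pow_succ] at h2
          omega
        · intro s hs
          have := h3 (s + 1) (by omega)
          unfold dg at this ⊢
          rwa [pow_succ', ← Nat.div_div_eq_div_mul, ← Nat.div_div_eq_div_mul] at this
      have h5 := h3 0 (by omega)
      unfold dg at h5
      rw [pow_zero, Nat.div_one, Nat.div_one] at h5
      omega
  refine key k c c' hc hc' fun s hs => ?_
  have := congrFun h ⟨s, hs⟩
  unfold rtc at this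
  exact_mod_cast this

theorem roots_eq (hT : Tb k M' nb L) (hR : RF M') (hA : SLkA) (b : Fin k → ℤ) :
    b ∈ roots M' Finset.univ ↔ ∃ c ∈ L, b = rtc k c := by
  rw [((hA k M' hR Finset.univ).1 b)]
  constructor
  · rintro ⟨h, _⟩
    exact rtc_of_rt hT hR b h
  · rintro ⟨c, hc, rfl⟩
    exact ⟨rt_rtc hT c hc, fun i hi => absurd (Finset.mem_univ i) hi⟩

theorem card_eq (hT : Tb k M' nb L) (hR : RF M') (hA : SLkA) (P : (Fin k → ℤ) → Prop)
    [DecidablePred P] (Q : ℕ → Bool) (h : ∀ c ∈ L, (P (rtc k c) ↔ Q c = true)) :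
    ((roots M' Finset.univ).filter P).card = (L.filter Q).length := by
  classical
  have h1 : (roots M' Finset.univ).filter P = ((L.filter Q).toFinset).image (rtc k) := by
    ext b
    rw [Finset.mem_filter, roots_eq hT hR hA, Finset.mem_image]
    constructor
    · rintro ⟨⟨c, hc, rfl⟩, hP⟩
      exact ⟨c, List.mem_toFinset.2 (List.mem_filter.2 ⟨hc, (h c hc).1 hP⟩), rfl⟩
    · rintro ⟨c, hc, rfl⟩
      obtain ⟨h2, h3⟩ := List.mem_filter.1 (List.mem_toFinset.1 hc)
      exact ⟨⟨c, h2, rfl⟩, (h c h2).2 h3⟩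
  rw [h1, Finset.card_image_of_injOn, List.toFinset_card_of_nodup (hT.nd.filter _)]
  intro c hc c' hc' hcc
  have h2 := (List.mem_filter.1 (List.mem_toFinset.1 (Finset.mem_coe.1 hc))).1
  have h3 := (List.mem_filter.1 (List.mem_toFinset.1 (Finset.mem_coe.1 hc'))).1
  exact rtc_inj (hT.lt c h2) (hT.lt c' h3) hcc

end tables

end Pool.Agent.Lib.MP_97567f_al.U
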