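import Pool.Agent.Lib.MP_97567f_al.U.TB.Top
import Pool.Agent.Lib.MP_97567f_al.U.Top

/-!
# MP_97567f_al: the main theorem from the types `F₄`, `H₃`, `H₄`
-/

set_option autoImplicit false

namespace Pool.Agent.Lib.MP_97567f_al.U

/-- **The main theorem** from the exceptional types which are not simply laced. -/
theorem last_of (hF : Good (Art CoxeterMatrix.F₄)) (hH3 : Good (Art CoxeterMatrix.H₃))
    (hH4 : Good (Art CoxeterMatrix.H₄)) (n : ℕ) (M : CoxeterMatrix (Fin n))
    (hf : Finite M.Group) : LinOver KK (MulAut (Art M)) :=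
  uFinal ⟨good_I2m, TB.bBgood, hF, hH3, hH4⟩ n M hf

end Pool.Agent.Lib.MP_97567f_al.U
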