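import Pool.Agent.Lib.MP_97567f_al.U.SpecM

/-!
# MP_97567f_al: all finite types: other numberings
-/

set_option autoImplicit false

namespace Pool.Agent.Lib.MP_97567f_al.U

private theorem Ren_fac {A B B' : Type} [Group A] [Group B] [Group B'] (e : B ≃* B') {i : B' →* A}
    {r : A →* B'} (h : Fac i r) : Fac (i.comp e.toMonoidHom) (e.symm.toMonoidHom.comp r) := by
  refine ⟨fun b => ?_, fun a b hb => ?_⟩
  · show e.symm (r (i (e b))) = b
    rw [h.ri, e.symm_apply_apply]
  · have h1 : e.symm (r a) = 1 := hb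
    exact h.co a (e b) ((map_eq_one_iff e.symm e.symm.injective).1 h1)

private theorem Ren_good {B B' : Type} [Group B] [Group B'] (e : B ≃* B') (h : Good B) :
    Good B' := by
  constructor
  · intro A _ hA i r hf
    obtain ⟨d, _, _, _, ρ, H, hH, h1, h2, h3, h4⟩ := h.cd A hA _ _ (Ren_fac e hf)
    refine ⟨d, _, _, ‹_›, ρ.comp e.symm.toMonoidHom, H, hH, ?_, ?_, h3, ?_⟩
    · have h5 : (Set.range fun x => ((ρ.comp e.symm.toMonoidHom) x).1) =
          Set.range fun x => (ρ x).1 :=
        e.symm.surjective.range_comp (fun x => (ρ x).1)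
      rw [h5]
      exact h1
    · intro η g hg
      have h5 : η.comp e.toMonoidHom = 1 := by
        apply h2 _ g
        intro x
        have h6 := hg (e x)
        have h7 : (ρ.comp e.symm.toMonoidHom) (e x) = ρ x := congrArg ρ (e.symm_apply_apply x)
        rw [h7] at h6
        exact h6
      ext1 x
      have h6 := DFunLike.congr_fun h5 (e.symm x)
      have h7 : η.comp e.toMonoidHom (e.symm x) = η x := congrArg η (e.apply_symm_apply x)
      rw [h7] at h6
      exact h6
    · intro z hz b
      have h5 := h4 (e.symm z) hz (e.symm b)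
      rw [← map_mul, ← map_mul] at h5
      exact e.symm.injective h5
  · intro z hz hφ
    have h1 : e.symm z = 1 := by
      apply h.ab
      · intro b
        have h2 := hz (e b)
        apply e.injective
        rw [map_mul, map_mul, e.apply_symm_apply]
        exact h2
      · intro φ
        exact hφ (φ.comp e.symm.toMonoidHom)
    exact (map_eq_one_iff e.symm e.symm.injective).1 h1

/-- **Other numberings.** -/
theorem pRen (h : SArt) : SRen := by
  refine ⟨fun B B' _ _ ⟨e⟩ => Ren_good e, fun n k M N ⟨e, he⟩ => ?_⟩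
  obtain ⟨hM1, hM2, hM3, -, -⟩ := h n M
  obtain ⟨hN1, hN2, hN3, -, -⟩ := h k N
  obtain ⟨φ, hφ⟩ := hN2 (Art M) (fun i => gn M (e i)) (by
    intro i j
    rw [← he]
    exact hM1 _ _)
  obtain ⟨ψ, hψ⟩ := hM2 (Art N) (fun i => gn N (e.symm i)) (by
    intro i j
    have h1 := hN1 (e.symm i) (e.symm j)
    rw [← he, e.apply_symm_apply, e.apply_symm_apply] at h1
    exact h1)
  refine Ren_good (MonoidHom.toMulEquiv φ ψ ?_ ?_)
  · apply hN3
    intro i
    show ψ (φ (gn N i)) = gn N i
    rw [hφ, hψ, e.symm_apply_apply]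
  · apply hM3
    intro i
    show φ (ψ (gn M i)) = gn M i
    rw [hψ, hφ, e.apply_symm_apply]

end Pool.Agent.Lib.MP_97567f_al.U
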