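import Pool.Agent.Lib.MP_97567f_al.All
import Pool.Agent.Lib.MP_97567f_al.I2.Tor
import Pool.Agent.Lib.MP_97567f_al.I2.Pow
import Pool.Agent.Lib.MP_97567f_al.I2.Gen
import Pool.Agent.Lib.MP_97567f_al.I2.Aut0
import Pool.Agent.Lib.MP_97567f_al.I2.Aut2
import Pool.Agent.Lib.MP_97567f_al.I2.Out
import Pool.Agent.Lib.MP_97567f_al.I2.Ping
import Pool.Agent.Lib.MP_97567f_al.I2.Val
import Pool.Agent.Lib.MP_97567f_al.I2.Pres
import Pool.Agent.Lib.MP_97567f_al.I2.Pi
import Pool.Agent.Lib.MP_97567f_al.I2.Span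
import Pool.Agent.Lib.MP_97567f_al.I2.Good
import Pool.Agent.Lib.MP_97567f_al.U.Span
import Pool.Agent.Lib.MP_97567f_al.U.Trans
import Pool.Agent.Lib.MP_97567f_al.U.Ca
import Pool.Agent.Lib.MP_97567f_al.U.Cb
import Pool.Agent.Lib.MP_97567f_al.U.Cc
import Pool.Agent.Lib.MP_97567f_al.U.Cd
import Pool.Agent.Lib.MP_97567f_al.U.Ce
import Pool.Agent.Lib.MP_97567f_al.U.Stb
import Pool.Agent.Lib.MP_97567f_al.U.Rtm
import Pool.Agent.Lib.MP_97567f_al.U.Cw
import Pool.Agent.Lib.MP_97567f_al.U.Eig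
import Pool.Agent.Lib.MP_97567f_al.U.RT
import Pool.Agent.Lib.MP_97567f_al.U.Mach
import Pool.Agent.Lib.MP_97567f_al.U.Jst
import Pool.Agent.Lib.MP_97567f_al.U.Jnz
import Pool.Agent.Lib.MP_97567f_al.U.Jle
import Pool.Agent.Lib.MP_97567f_al.U.AbO
import Pool.Agent.Lib.MP_97567f_al.U.AbI
import Pool.Agent.Lib.MP_97567f_al.U.Art
import Pool.Agent.Lib.MP_97567f_al.U.Ren
import Pool.Agent.Lib.MP_97567f_al.U.One
import Pool.Agent.Lib.MP_97567f_al.U.Adj
import Pool.Agent.Lib.MP_97567f_al.U.All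
import Pool.Agent.Lib.MP_97567f_al.U.Cms
import Pool.Agent.Lib.MP_97567f_al.U.Cls
import Pool.Agent.Lib.MP_97567f_al.U.Slg
import Pool.Agent.Lib.MP_97567f_al.U.Final

/-!
# MP_97567f_al: all finite types: the reduction, assembled

`final_of`: the main theorem from the types `B_n` (`n ≥ 3`), `F_4`, `H_3`, `H_4`. `final_BI`: without `F_4`, `H_3`, `H_4`.
-/

set_option autoImplicit false

namespace Pool.Agent.Lib.MP_97567f_al.U

theorem uTrans : STrans := pTrans pSpan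
theorem uCa : SCa := pCa pComp
theorem uCb : SCb := pCb pRtm
theorem uCc : SCc := pCc uCa uCb pDesc
theorem uCw : SCw := pCw pCe pStb
theorem uEig : SEig := pEig pCd
theorem uRT : SRT := pRT uTrans uCc uEig
theorem uMach : SMach := pMach pSpan uCw
theorem uAbI : SAbI := pAbI pArt
theorem uRen : SRen := pRen pArt
theorem uOne : SOne := pOne pArt
theorem uAll : SAll := pAll pInd pBlk pAdj pAb
theorem uCms : SCms := pCms pArt
theorem uSlg : SSlg := pSlg uRT uMach pJst pAbO uAbI aRig aLkGen aLKr aIrr aChar aFinU pKerQ pKerF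
  aIdA aIdB aIdC aIdD aFai aLkW aLkA

theorem uXGood : XGood :=
  qGood (qPres pComp) (qOut (qAut0 qTor qPow qGen) (qAut2 qTor qGen)) qPing qSpan qVal qPi

theorem uI (m : ℕ) (hm : 1 ≤ m) : Good (Art (CoxeterMatrix.I m)) := by
  refine uXGood (CoxeterMatrix.I m) ?_
  show 3 ≤ (if (0 : Fin 2) = 1 then 1 else m + 2)
  rw [if_neg (by decide)]
  omega

/-- The main theorem from the types. -/
theorem final_of (hB : ∀ n, 3 ≤ n → Good (Art (CoxeterMatrix.B n)))
    (hF : Good (Art CoxeterMatrix.F₄)) (hH3 : Good (Art CoxeterMatrix.H₃))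
    (hH4 : Good (Art CoxeterMatrix.H₄)) (n : ℕ) (M : CoxeterMatrix (Fin n))
    (hf : Finite M.Group) : LinOver KK (MulAut (Art M)) :=
  pFinal uRen uCms uAll uOne uSlg pCls pRF1 pRF2 pRF3 pFHex ⟨uI, hB, hF, hH3, hH4⟩ n M hf

end Pool.Agent.Lib.MP_97567f_al.U
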