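import Pool.Agent.Lib.MP_97567f_al.U.SpecM
import Pool.Agent.Lib.MP_97567f_al.U.R3

/-!
# MP_97567f_al: type `B`: definitions and statements of the modules

`BM n`: the Coxeter matrix (the nodes `0`, `1` have the bond with label 4). `bg n i`, `ag n i`: the generators of the
Artin groups of type `B` and `A`. `Pr n`: the pairs `(j, k)` with `j < k ≤ n`, `yv n j k` their basis vectors.
`sm n q P L i` (`i < n`), `tm n q P L`: the matrices of the generators. `Brep n q P L`: the family for type `B`,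
`Arep n q L`: the one for type `A` (all `sm n q 0 L i`, `i < n`). `B3 n`: the generic representation over `R3`, with
`q = r0`, `P = r1`, `q ^ n P L = r2`.

Every statement is a proposition `SName`; the module `U/TB/Name.lean` (the name without the first letter `S`, namespace `Pool.Agent.Lib.MP_97567f_al.U.TB`) proves
`pName : SName`, or, if the docstring names other statements, `pName` takes these as hypotheses.
-/

set_option autoImplicit false

namespace Pool.Agent.Lib.MP_97567f_al.U.TB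

open Polynomial

section group

/-- The Coxeter matrix of type `B`; the nodes `0` and `1` have the bond with label 4. -/
def BM (n : ℕ) : CoxeterMatrix (Fin n) where
  M := Matrix.of fun i j : Fin n ↦ if i = j then 1 else
    if (i.1 = 0 ∧ j.1 = 1) ∨ (j.1 = 0 ∧ i.1 = 1) then 4 else
      if i.1 + 1 = j.1 ∨ j.1 + 1 = i.1 then 3 else 2
  isSymm := by
    unfold Matrix.IsSymm
    ext i j
    simp only [Matrix.transpose_apply, Matrix.of_apply, eq_comm (a := j) (b := i),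
      or_comm (a := j.1 = 0 ∧ i.1 = 1), or_comm (a := j.1 + 1 = i.1)]
  diagonal := by simp
  off_diagonal := by
    intro i j hij
    simp only [Matrix.of_apply, if_neg hij]
    split_ifs <;> norm_num

/-- The generators of the Artin group of type `B`. -/
def bg (n i : ℕ) : Art (BM n) := if h : i < n then gn (BM n) ⟨i, h⟩ else 1

/-- The generators of the Artin group of type `A`. -/
def ag (n i : ℕ) : Art (CoxeterMatrix.A n) :=
  if h : i < n then gn (CoxeterMatrix.A n) ⟨i, h⟩ else 1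

/-- **The presentation of type `B`** (from `SArt`, 100 lines).
Proof. `SArt` for `M = BM n`; `alt a b 4 = a * b * a * b`, `alt a b 3 = a * b * a`, `alt a b 2 = a * b` (`List.range_succ`), `alt a a 1 = a`. -/
def SBg : Prop :=
  ∀ n : ℕ, (2 ≤ n → bg n 0 * bg n 1 * bg n 0 * bg n 1 = bg n 1 * bg n 0 * bg n 1 * bg n 0) ∧
    (∀ i, 1 ≤ i → i + 1 < n →
      bg n i * bg n (i + 1) * bg n i = bg n (i + 1) * bg n i * bg n (i + 1)) ∧
    (∀ i j, i + 2 ≤ j → bg n i * bg n j = bg n j * bg n i) ∧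
    (∀ (G : Type) [Group G] (f : ℕ → G),
      (2 ≤ n → f 0 * f 1 * f 0 * f 1 = f 1 * f 0 * f 1 * f 0) →
      (∀ i, 1 ≤ i → i + 1 < n → f i * f (i + 1) * f i = f (i + 1) * f i * f (i + 1)) →
      (∀ i j, i + 2 ≤ j → j < n → f i * f j = f j * f i) →
      ∃ φ : Art (BM n) →* G, ∀ i, i < n → φ (bg n i) = f i) ∧
    (∀ (G : Type) [Group G] (φ ψ : Art (BM n) →* G),
      (∀ i, i < n → φ (bg n i) = ψ (bg n i)) → φ = ψ) ∧
    Subgroup.closure {x | ∃ i, i < n ∧ x = bg n i} = ⊤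

/-- **The presentation of type `A`** (from `SArt`, 80 lines). Proof. As `SBg`. -/
def SAg : Prop :=
  ∀ n : ℕ, (∀ i, i + 1 < n → ag n i * ag n (i + 1) * ag n i = ag n (i + 1) * ag n i * ag n (i + 1)) ∧
    (∀ i j, i + 2 ≤ j → ag n i * ag n j = ag n j * ag n i) ∧
    (∀ (G : Type) [Group G] (f : ℕ → G),
      (∀ i, i + 1 < n → f i * f (i + 1) * f i = f (i + 1) * f i * f (i + 1)) →
      (∀ i j, i + 2 ≤ j → j < n → f i * f j = f j * f i) →
      ∃ φ : Art (CoxeterMatrix.A n) →* G, ∀ i, i < n → φ (ag n i) = f i) ∧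
    (∀ (G : Type) [Group G] (φ ψ : Art (CoxeterMatrix.A n) →* G),
      (∀ i, i < n → φ (ag n i) = ψ (ag n i)) → φ = ψ) ∧
    Subgroup.closure {x | ∃ i, i < n ∧ x = ag n i} = ⊤

/-- **Type `B` in type `A`** (from `SBg`, `SAg`, 200 lines).
Proof. `φ` exists by `SBg`: with `a = ag 0`, `b = ag 1`: `a a b a a b = b a a b a a` (`a b a = b a b`). Injective: let `G = Art (BM n)`, `s i = bg n i` (`i ≥ 1`), `t = bg n 0`, `T k = (s 1 ⋯ s (k - 1))⁻¹ * t * (s 1 ⋯ s (k - 1))`, that is `T 1 = t`, `T (k + 1) = (s k)⁻¹ * T k * s k` (`k ≥ 1`).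
On `G × Fin (n + 1)` (or `G × ℕ`) let `σ i` (`i < n`) be the permutation `(g, k) ↦ (g * s i, k)` if `i > k`; `(g, k + 1)` if `i = k`; `(g * T k, k - 1)` if `i = k - 1`; `(g * s (i + 1), k)` if `i < k - 1`. (The second component is the position of the first strand, the first one is in the stabilizer of position `0`.)
Facts: (1) `s i` commutes with `T k` for `i ≥ k + 1` and (2) for `1 ≤ i ≤ k - 2`: `s 1 ⋯ s (k - 1) * s i = s (i + 1) * s 1 ⋯ s (k - 1)`, and `s (i + 1)` commutes with `t`; (3) `T k * s k = s k * T (k + 1)`; (4) `s k * T k * s k * T k = T k * s k * T k * s k`: for `k = 1` the relation; conjugation by `y = s (k + 1) * s k` maps the pair `(T k, s k)` to `(T (k + 1), s (k + 1))`: `y⁻¹ * s k * y = s (k + 1)`, `y⁻¹ * T k * y = T (k + 1)` by (1).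
The `σ i` satisfy the relations of type `A` (products in the opposite order: first `σ i`, then `σ (i + 1)`; use `MulOpposite` or the inverses): commuting `σ i, σ j`: (1), (2) if one of them moves `k`; braid relation of `σ i, σ (i + 1)` at `k`: `i > k`: the relation of the `s`; `i = k`: both sides are `(g * s (k + 1), k + 2)`; `i + 1 = k`: `(g * T k * s k, k) = (g * s k * T (k + 1), k)`, (3);
`i + 2 = k`: `(g * s (k - 1) * T k * T (k - 1), k - 2) = (g * T k * T (k - 1) * s (k - 1), k - 2)`, (3), (4) for `k - 1`; `i + 2 < k`: relation of the `s`. So `Art A n` acts from the right, and `φ x` maps `(g, 0)` to `(g * x, 0)`: `ag 0 ^ 2`: `(g, 0) ↦ (g, 1) ↦ (g * T 1, 0)`, and `ag i`, `i ≥ 1`: `(g * s i, 0)`. So `φ x = 1` implies `x = 1`. -/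
def SPhi : Prop :=
  ∀ n : ℕ, ∃ φ : Art (BM n) →* Art (CoxeterMatrix.A n), Function.Injective φ ∧
    φ (bg n 0) = ag n 0 ^ 2 ∧ ∀ i, 1 ≤ i → φ (bg n i) = ag n i

/-- **Type `A` is positive definite** (60 lines).
Proof. `bf x x = ∑ s, x s * (2 x s - x (s - 1) - x (s + 1)) = x 0 ^ 2 + ∑ (x s - x (s + 1)) ^ 2 + x (n - 1) ^ 2` (with `x (-1) = x n = 0`: `∑ s ≤ n, (x s - x (s - 1)) ^ 2`), positive for `x ≠ 0`. -/
def SAsl : Prop := ∀ n : ℕ, SL (CoxeterMatrix.A n)

end group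

/-- The pairs `(j, k)` with `j < k ≤ n`. -/
abbrev Pr (n : ℕ) : Type := {p : Fin (n + 1) × Fin (n + 1) // p.1 < p.2}

section rep

variable {R : Type} [CommRing R] (n : ℕ) (q P L : R)

/-- The basis vector of the pair `(j, k)` (zero if it is not in `Pr n`). -/
def yv (j k : ℕ) : Pr n → R := fun g => if (g.1.1 : ℕ) = j ∧ (g.1.2 : ℕ) = k then 1 else 0

/-- The weight of the row `j`. -/
def wj (j : ℕ) : R := if j = 0 then 1 - P else 1

/-- The image of `yv n j k` under the generator `i`. -/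
def simg (i j k : ℕ) : Pr n → R :=
  if j = i ∧ k = i + 1 then (q ^ 2 * L) • yv n i (i + 1)
  else if j = i + 1 then q • yv n i k + (1 - q) • yv n (i + 1) k
  else if j = i then yv n (i + 1) k - (q * (1 - q) * L) • yv n i (i + 1)
  else if k = i then q • yv n j (i + 1) + (1 - q) • yv n j i
  else if k = i + 1 then yv n j i - (q * (1 - q) * L * wj P j) • yv n i (i + 1)
  else if j < i ∧ i + 1 < k then yv n j k + ((1 - q) ^ 2 * L * wj P j) • yv n i (i + 1)
  else yv n j k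

/-- The image of `yv n j k` under the generator `0` of type `B`. -/
def timg (j k : ℕ) : Pr n → R :=
  if j = 0 ∧ k = 1 then (q ^ 2 * P ^ 2 * L ^ 2) • yv n 0 1
  else if j = 0 then q • yv n 0 k + ((1 - q) * (1 - P)) • yv n 1 k -
    ((1 - q) * q * P ^ 2 * L ^ 2) • yv n 0 1
  else if j = 1 then (1 - q + q * P) • yv n 1 k + q • yv n 0 k - (q * P * L) • yv n 0 1
  else yv n j k

/-- The matrix of the generator `i`. -/
def sm (i : ℕ) : Matrix (Pr n) (Pr n) R := Matrix.of fun g b => simg n q P L i b.1.1 b.1.2 g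

/-- The matrix of the generator `0` of type `B`. -/
def tm : Matrix (Pr n) (Pr n) R := Matrix.of fun g b => timg n q P L b.1.1 b.1.2 g

/-- The matrices of the generators of type `B`. -/
def bm (i : ℕ) : Matrix (Pr n) (Pr n) R := if i = 0 then tm n q P L else sm n q P L i

open Classical in
/-- The family of representations for type `B`. -/
noncomputable def Brep : Art (BM n) →* GL (Pr n) R :=
  if h : ∃ ρ : Art (BM n) →* GL (Pr n) R, ∀ i, i < n → (ρ (bg n i)).1 = bm n q P L i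
  then h.choose else 1

open Classical in
/-- The family of representations for type `A`. -/
noncomputable def Arep : Art (CoxeterMatrix.A n) →* GL (Pr n) R :=
  if h : ∃ ρ : Art (CoxeterMatrix.A n) →* GL (Pr n) R, ∀ i, i < n → (ρ (ag n i)).1 = sm n q 0 L i
  then h.choose else 1

/-- The functional of the generator `i`: `(s - 1) (s + q) x = (Fs x) v i`. -/
def Fs (i j k : ℕ) : R :=
  if j = i ∧ k = i + 1 then (q ^ 2 * L - 1) * (q ^ 2 * L + q)
  else if j = i + 1 then -(q ^ 2 * (1 - q) * L)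
  else if j = i then q * (1 - q) * L * (1 - q - q ^ 2 * L)
  else if k = i then -(q ^ 2 * (1 - q) * L * wj P j)
  else if k = i + 1 then q * (1 - q) * L * wj P j * (1 - q - q ^ 2 * L)
  else if j < i ∧ i + 1 < k then (1 - q) ^ 2 * L * wj P j * q * (q * L + 1)
  else 0

/-- The functional of the generator `0` of type `B`: `(t - 1) (t - q P) x = (Ft x) y 0 1`. -/
def Ft (j k : ℕ) : R :=
  if j = 0 ∧ k = 1 then (q ^ 2 * P ^ 2 * L ^ 2 - 1) * (q ^ 2 * P ^ 2 * L ^ 2 - q * P)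
  else if j = 0 then -((1 - q) * q * P ^ 2 * L ^ 2 * (q ^ 2 * P ^ 2 * L ^ 2 + q - 1 - q * P)) -
    (1 - q) * (1 - P) * (q * P * L)
  else if j = 1 then -(q * P * L * (q ^ 2 * P ^ 2 * L ^ 2 - q)) -
    q * ((1 - q) * q * P ^ 2 * L ^ 2)
  else 0

end rep

section reps

/-- **The basis** (100 lines). Proof. Definitions; matrices with the same columns are equal. -/
def SBa : Prop :=
  ∀ (R : Type) [CommRing R] (n : ℕ) (q P L : R),
    (∀ i j k : ℕ, j < k → k ≤ n → (sm n q P L i).mulVec (yv n j k) = simg n q P L i j k) ∧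
    (∀ j k : ℕ, j < k → k ≤ n → (tm n q P L).mulVec (yv n j k) = timg n q P L j k) ∧
    (∀ A B : Matrix (Pr n) (Pr n) R, (∀ j k : ℕ, j < k → k ≤ n →
      A.mulVec (yv n j k) = B.mulVec (yv n j k)) → A = B) ∧
    (∀ b : Pr n, (Pi.single b 1 : Pr n → R) = yv n b.1.1 b.1.2) ∧
    ∀ x : Pr n → R, x = ∑ b : Pr n, x b • yv n b.1.1 b.1.2

/-- **The relations of the `sm`** (from `SBa`, 250 lines).
Proof. `SBa`: compare the images of all `yv n j k`, in all cases of the positions of `j`, `k` with respect to `i`, `i + 1`, `i + 2`. Typical: `k = i`, `j < i`, braid relation: `y j i ↦ q y j (i+1) + (1-q) y j i`. For `j = 0` the weight is `1 - P` (a factor of all terms), it only occurs with `i ≥ 1`. All identities are polynomial (checked by computer for `n ≤ 6`). -/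
def SBb : Prop :=
  ∀ (R : Type) [CommRing R] (n : ℕ) (q P L : R) (i : ℕ), (1 ≤ i ∨ P = 0) →
    (i + 1 < n → sm n q P L i * sm n q P L (i + 1) * sm n q P L i =
      sm n q P L (i + 1) * sm n q P L i * sm n q P L (i + 1)) ∧
    ∀ j, i + 2 ≤ j → j < n → sm n q P L i * sm n q P L j = sm n q P L j * sm n q P L i

/-- **The relations of `tm`** (from `SBa`, 200 lines).
Proof. `SBa`: compare the images of all `yv n j k`; cases `j = 0, 1, 2` or `j > 2` and `k = 1, 2` or `k > 2` for the first one. -/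
def SBc : Prop :=
  ∀ (R : Type) [CommRing R] (n : ℕ) (q P L : R),
    (2 ≤ n → tm n q P L * sm n q P L 1 * tm n q P L * sm n q P L 1 =
      sm n q P L 1 * tm n q P L * sm n q P L 1 * tm n q P L) ∧
    ∀ j, 2 ≤ j → j < n → tm n q P L * sm n q P L j = sm n q P L j * tm n q P L

/-- **The quadratic relations** (from `SBa`, 200 lines).
Proof. `SBa`. -/
def SBq : Prop :=
  ∀ (R : Type) [CommRing R] (n : ℕ) (q P L : R),
    (∀ i, i < n → (1 ≤ i ∨ P = 0) → (sm n q P L i - 1) * (sm n q P L i + q • 1) =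
      Matrix.vecMulVec (yv n i (i + 1)) fun b => Fs q P L i b.1.1 b.1.2) ∧
    (1 ≤ n → (tm n q P L - 1) * (tm n q P L - (q * P) • 1) =
      Matrix.vecMulVec (yv n 0 1) fun b => Ft q P L b.1.1 b.1.2)

/-- **The representations exist** (from `SBg`, `SAg`, `SBb`, `SBc`, `SBq`, 150 lines).
Proof. The matrices are invertible: `(s - q ^ 2 L) (s - 1) (s + q) = 0` by `SBq` (`s v i = q ^ 2 L v i`), with unit constant term, so `s` has an inverse which is a polynomial in `s`; `(t - q ^ 2 P ^ 2 L ^ 2) (t - 1) (t - q P) = 0`. Base change: both sides are homomorphisms to `GL (Pr n) S` (`Units.map` of `RingHom.mapMatrix`) with the same values on the generators. -/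
def SBr : Prop :=
  (∀ (R : Type) [CommRing R] (n : ℕ) (q P L : R), IsUnit q → IsUnit P → IsUnit L →
    (∀ i, i < n → (Brep n q P L (bg n i)).1 = bm n q P L i) ∧
    ∀ (S : Type) [CommRing S] (φ : R →+* S) (x : Art (BM n)),
      (Brep n q P L x).1.map φ = (Brep n (φ q) (φ P) (φ L) x).1) ∧
  ∀ (R : Type) [CommRing R] (n : ℕ) (q L : R), IsUnit q → IsUnit L →
    (∀ i, i < n → (Arep n q L (ag n i)).1 = sm n q 0 L i) ∧
    ∀ (S : Type) [CommRing S] (φ : R →+* S) (x : Art (CoxeterMatrix.A n)),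
      (Arep n q L x).1.map φ = (Arep n (φ q) (φ L) x).1

/-- **Restriction of type `A`** (from `SBa`, `SBr`, `SBg`, 150 lines).
Proof. `D` is the diagonal matrix with the entries `1 - q` for the pairs `(0, k)` and `1` for the others. On generators: `D * bm n q q L i = sm n q 0 L i * D` for `i ≥ 1`, `D * tm n q q L = sm n q 0 L 0 * sm n q 0 L 0 * D` (`SBa`). The set of the `x` with `D * Brep x = Arep (φ x) * D` is a subgroup (for `x⁻¹` multiply by the inverses on both sides). -/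
def SBd : Prop :=
  ∀ (R : Type) [CommRing R] (n : ℕ) (q L : R), IsUnit q → IsUnit L →
    ∀ φ : Art (BM n) →* Art (CoxeterMatrix.A n), φ (bg n 0) = ag n 0 ^ 2 →
      (∀ i, 1 ≤ i → φ (bg n i) = ag n i) → ∀ x,
      Matrix.diagonal (fun b : Pr n => if (b.1.1 : ℕ) = 0 then 1 - q else 1) * (Brep n q q L x).1 =
        (Arep n q L (φ x)).1 * Matrix.diagonal (fun b : Pr n => if (b.1.1 : ℕ) = 0 then 1 - q else 1)

/-- **Type `A` is faithful** (from `SAsl`, `SRF1`, `SRF2`, `SRF3`, `SFHex`, `SUniv`, `SIrr`, `SFai`, `SBa`, `SBr`, `SAg`, 200 lines).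
Proof. `M = CoxeterMatrix.A n`, `q = qq`, `l = ll = q ^ 2 L` in `K2`. `SUniv` for `W = Pr n → K2`, `g = Arep n q L` (as linear equivalences, `Matrix.GeneralLinearGroup.toLin` or by hand), `v s = yv n s (s + 1)`, `C = univ`: for `s = i`, `t = i + 1`: `s t v s = q v t`, `t s v t = q v s`, `s s v t = (1 - q) s v t + q v t - (1 - q) l v s`, `t t v s = ..` (from the formulas of `simg` with `P = 0`).
`Θ` commutes with all group elements: `Θ (LKr q l x y) = g x (Θ y)`. The kernel of `Θ` is stable under all `LKr x`, so under all matrices (`SIrr`), and not everything (`Θ (xv (e s)) = v s ≠ 0`), so `Θ` is injective. If `Arep x = 1` then `Θ (LKr x y) = Θ y` for all `y`, so `LKr x = 1` over `K2`, so over `R2`, and `x = 1` by `SFai`. -/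
def SAf : Prop :=
  ∀ n : ℕ, 1 ≤ n → Function.Injective (Arep n (algebraMap R2 K2 qq)
    (algebraMap R2 K2 ll * ((algebraMap R2 K2 qq) ^ 2)⁻¹))

/-- The parameter `L` of the generic representation: `q ^ n P L = r2`. -/
noncomputable def Ln (n : ℕ) : R3 := r2 * ((r0_unit.unit ^ n * r1_unit.unit)⁻¹ : R3ˣ)

/-- The generic representation of type `B`. -/
noncomputable def B3 (n : ℕ) : Art (BM n) →* GL (Pr n) R3 := Brep n r0 r1 (Ln n)

/-- **Faithfulness** (from `SPhi`, `SAf`, `SBd`, `SBr`, 80 lines).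
Proof. Let `B3 n x = 1`. Apply `π : R3 →ₐ[ℂ] K2` with `π r0 = π r1 = qq`, `π (Ln n) = ll / qq ^ 2`, so `π r2 = qq ^ (n + 1) * ll / qq ^ 2` (`R3_lift`): `Brep n q q L x = 1` over `K2` (`SBr`). `SBd`: `D = Arep (φ x) * D`, and `D` is invertible (`q ≠ 1`), so `Arep (φ x) = 1`, `φ x = 1`, `x = 1`. -/
def SBf : Prop := ∀ n : ℕ, 1 ≤ n → Function.Injective (B3 n)

/-- **Cyclic vectors** (from `SBa`, `SBr`, 150 lines).
Proof. Let `U` be the first span, stable under the matrices of all generators (it is stable under the group). `y 0 1 ∈ U`; `y 0 (k+1) = q⁻¹ (s k y 0 k - (1 - q) y 0 k) ∈ U`. `t y 0 2 = q y 0 2 + (1 - q) (1 - P) y 1 2 - (..) y 0 1` gives `y 1 2 ∈ U`. With `v j = y j (j+1)`: `s j s (j+1) v j = q v (j+1)` (`j ≥ 1`), so all `v j ∈ U`, and `y j (k+1) = q⁻¹ (s k y j k - (1 - q) y j k)`. So `U` contains all basis vectors.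
Second span `U'` (stable, contains `y 1 2`): `Z = t y 1 2 - (1 - q + q P) y 1 2 = q y 0 2 - q P L y 0 1 ∈ U'`, `s 1 Z = q y 0 1 - q P L (q y 0 2 + (1 - q) y 0 1) - (..) y 1 2`, and `s 1 Z + (..) y 1 2 + q P L Z = q (1 - P L) (1 + q P L) y 0 1`. So `y 0 1 ∈ U'` and `U' = U`. -/
def SBy : Prop :=
  ∀ (n : ℕ), 2 ≤ n → ∀ (K : Type) [Field K] (q P L : K), q ≠ 0 → P ≠ 0 → L ≠ 0 → q ≠ 1 → P ≠ 1 →
    Submodule.span K {y | ∃ x, y = (Brep n q P L x).1.mulVec (yv n 0 1)} = ⊤ ∧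
    (P * L ≠ 1 → q * P * L ≠ -1 →
      Submodule.span K {y | ∃ x, y = (Brep n q P L x).1.mulVec (yv n 1 2)} = ⊤)

/-- **The monomial action at `q = P = 1`** (from `SBa`, `SBr`, 100 lines).
Proof. At `q = P = 1` the `s i` (`i ≥ 1`) permute the vectors `y b` up to a factor `L` at `v i`: `y j i ↔ y j (i+1)`, `y i k ↔ y (i+1) k`. (`H`: the subgroup generated by the `bg i`, `i ≥ 1`; the set of the `x` with the first property is a subgroup.) Second and third part: `s (k-1) ⋯` moves `(0, k)` to `(0, 1)`; for `1 ≤ j < k`: first move `k` down to `j + 1`, then both down. -/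
def SBm : Prop :=
  ∀ (n : ℕ) (K : Type) [Field K] (L : K), L ≠ 0 →
    ∃ H : Subgroup (Art (BM n)),
      (∀ x ∈ H, ∃ (σ : Equiv.Perm (Pr n)) (c : Pr n → K), ∀ b : Pr n, c b ≠ 0 ∧
        (((σ b).1.1 : ℕ) = 0 ↔ (b.1.1 : ℕ) = 0) ∧ (Brep n 1 1 L x).1.mulVec
          (yv n b.1.1 b.1.2) = c b • yv n (σ b).1.1 (σ b).1.2) ∧
      (∀ b : Pr n, (b.1.1 : ℕ) = 0 → ∃ x ∈ H, ∃ c : K, c ≠ 0 ∧
        (Brep n 1 1 L x).1.mulVec (yv n b.1.1 b.1.2) = c • yv n 0 1) ∧
      ∀ b : Pr n, (b.1.1 : ℕ) ≠ 0 → ∃ x ∈ H, ∃ c : K, c ≠ 0 ∧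
        (Brep n 1 1 L x).1.mulVec (yv n b.1.1 b.1.2) = c • yv n 1 2

/-- **Absolute irreducibility** (from `SBq`, `SBr`, `SBy`, `SBm`, 200 lines).
Proof. `K = FractionRing R3`, `A` = the span, a subalgebra. `SBq`: `A` contains `vecMulVec (y 1 2) F`, `F = Fs 1`, and `vecMulVec (y 0 1) F'`, `F' = Ft`. Multiply by group elements on both sides: with `SBy` `A` contains `vecMulVec x (F ∘ h)` and `vecMulVec x (F' ∘ h)` for all vectors `x` and all `h ∈ Art (BM n)`.
For every `b : Pr n` let `h b ∈ H` be as in `SBm` (for `K1`, `L = xx`), and `u b = F' ∘ h b` if `b` is in the row `0`, `u b = F ∘ h b` otherwise (rows with entries in `R3`). The matrix `Q` with the rows `u b` is mapped by `π : R3 → K1`, `r0, r1 ↦ 1`, `r2 ↦ xx` (so `Ln n ↦ xx`), to an injective matrix: at `q = P = 1` one has `F (y b) = 0` for `b ≠ (1, 2)`, `F (y 1 2) = xx ^ 2 - 1`, and `F' (y b) = 0`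
for `b` in the row `0`, `b ≠ (0, 1)`, `F' (y 0 1) = (xx ^ 2 - 1) ^ 2`. If `π Q x = 0`: for `b` not in the row `0`, `F (h b (∑ c, x c y c)) = x b * (nonzero)`, as `h b` permutes the basis vectors up to nonzero factors (`SBm`), so `x b = 0`; then for `b` in the row `0`, `F' (h b (∑ c, x c y c)) = x b * (nonzero)`. So `det Q ≠ 0`, the `u b` span the dual space over `K`, and `A = ⊤`. -/
def SBi : Prop :=
  ∀ n : ℕ, 2 ≤ n → Submodule.span (FractionRing R3) (Set.range fun x => mK (B3 n) x) = ⊤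

/-- **The invariant vector** (from `SBa`, 80 lines).
Proof. In general `s i w = w + ((1 - q) * (q ^ n * P * L - 1) * q) • y i (i+1)` and `t w = w + ((q ^ n * P * L - 1) * (q * P * L + 1) * q) • y 0 1`. (Geometric sums; induction, or compare coordinates: only the coordinate at `y i (i+1)` (resp. `y 0 1`) is a sum: rows: it is `q ^ 2 L (1 - q) q - q (1 - q) L ∑_{k > i+1} (1 - q) q ^ (k - i) - ..`.) -/
def SBo : Prop :=
  ∀ (R : Type) [CommRing R] (n : ℕ) (q P L : R), q ^ n * P * L = 1 → ∀ i, i < n →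
    (bm n q P L i).mulVec (fun b : Pr n => if (b.1.1 : ℕ) = 0 then q ^ (b.1.2 : ℕ)
      else (1 - q) * q ^ ((b.1.2 : ℕ) - (b.1.1 : ℕ))) =
    fun b : Pr n => if (b.1.1 : ℕ) = 0 then q ^ (b.1.2 : ℕ)
      else (1 - q) * q ^ ((b.1.2 : ℕ) - (b.1.1 : ℕ))

/-- **Reducible parameters** (from `SBa`, 60 lines).
Proof. The formulas of `simg`, `timg`: the span of the `y 0 k` is stable if `(1 - q) (1 - P) = 0`. -/
def SBe : Prop :=
  ∀ (R : Type) [CommRing R] (n : ℕ) (q P L : R), (1 - q) * (1 - P) = 0 → ∀ i, i < n →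
    ∀ g b : Pr n, (b.1.1 : ℕ) = 0 → (g.1.1 : ℕ) ≠ 0 → bm n q P L i g b = 0

end reps

section rings

/-- The variables. -/
noncomputable def rr (i : Fin 3) : R3 := ![r0, r1, r2] i

/-- **The units** (120 lines; as `SUnits`, module `Units`).
Proof. `u = algebraMap f / (X0 X1 X2) ^ k`, `u⁻¹ = algebraMap g / (X0 X1 X2) ^ m`, so `f * g = (X0 X1 X2) ^ (k + m)` in the factorial ring `P3`, where the `X i` are prime. So `f` is a constant times a monomial. -/
def SRu : Prop :=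
  ∀ u : R3, IsUnit u → ∃ (c : ℂ) (i j k : ℤ), c ≠ 0 ∧ u = algebraMap ℂ R3 c *
    ((r0_unit.unit ^ i * r1_unit.unit ^ j * r2_unit.unit ^ k : R3ˣ) : R3)

/-- **The surfaces `r i = 1`** (150 lines; as `SKerQ`, module `KerQ`).
Proof. `π` from `R3_lift` with values in `R2`, then `R2 → K2`. Kernel: there is `σ : R2 →ₐ[ℂ] R3` with `π ∘ σ = id` and `x - σ (π x) ∈ span {r i - 1}` for all `x` (this holds for `x = r j`, and the set of the `x` with this property is a subalgebra closed under inverses of units: if it holds for the unit `u` then `u⁻¹ - σ (π u⁻¹) = - u⁻¹ σ (π u)⁻¹ (u - σ (π u))`; `R3` is generated by the variables and their inverses,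
or: the two algebra maps `R3 → R3 ⧸ span {r i - 1}`, the quotient map and `mk ∘ σ ∘ π`, are equal by `R3_ext`). Prime: the quotient embeds into `K2`, and `r i ≠ 1`. -/
def SRs : Prop :=
  ∀ i : Fin 3, ∃ π : R3 →ₐ[ℂ] K2, (∀ x, π x = 0 → x ∈ Ideal.span {rr i - 1}) ∧
    Prime (rr i - 1) ∧ π (rr i) = 1 ∧ π (rr (i + 1)) = algebraMap R2 K2 qq ∧
    π (rr (i + 2)) = algebraMap R2 K2 ll

/-- **The automorphisms fixing the three surfaces** (from `SRu`, `SRs`, 120 lines).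
Proof. `θ (r i)` is a unit, `c * r0 ^ a * r1 ^ b * r2 ^ c'`; `π (θ (r i)) = 1` for the map `π` of `SRs`, so `c * qq ^ .. * ll ^ .. = 1` with the exponents of the other two variables, so these are `0` and `c = 1` (`qq`, `ll` are independent: use maps to `ℂ`, `R2_lift`, or `SUnits`-like arguments), `θ (r i) = r i ^ a i`. The same for `θ⁻¹`, so `a i = 1` or `a i = -1`. `θ` is determined by the `θ (r i)` (`R3_ext`). -/
def SRf : Prop :=
  {θ : R3 ≃ₐ[ℂ] R3 | ∀ i : Fin 3, Ideal.span {θ (rr i - 1)} = Ideal.span {rr i - 1}}.Finite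

/-- **The common field** (60 lines).
Proof. `MvPolynomial.rename Fin.val : P3 → MvPolynomial ℕ ℂ` is injective; extend it to the localization (`IsLocalization.lift`, `IsLocalization.lift_injective_iff` or `IsFractionRing`). -/
def SRk : Prop := ∃ j : R3 →+* KK, Function.Injective j

/-- **Generators of `R3`** (60 lines).
Proof. Every element is `algebraMap f / (X0 X1 X2) ^ k`; `MvPolynomial.induction_on`. -/
def SRg : Prop :=
  ∀ A : Subalgebra ℂ R3, (∀ i : Fin 3, rr i ∈ A ∧ ∃ w ∈ A, rr i * w = 1) → A = ⊤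

end rings

section family

/-- **The entries generate the ring** (from `SBr`, `SBa`, `SRg`, 120 lines).
Proof. `A` = the subalgebra. `s 1` has the entry `q` at `((0,2), (0,1))`... (`s 1 y 0 1 = q y 0 2 + (1 - q) y 0 1`), the entry `q ^ 2 L` at `((1,2), (1,2))`, and `s 1⁻¹` has the entries `q⁻¹` at `((0,1), (0,2))` (`s 1⁻¹ y 0 2 = q⁻¹ y 0 1 + ..`: from `s 1 y 0 1`), `(q ^ 2 L)⁻¹` at `((1,2), (1,2))`. `t` has the entry `1 - q + q P` at `((1,2), (1,2))`, so `P ∈ A`.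
`t⁻¹`: modulo `y 0 1` the matrix of `t` on `y 0 2, y 1 2` is `[[q, q], [(1 - q) (1 - P), 1 - q + q P]]` with determinant `q P`, so `t⁻¹` has the entry `q / (q P) = P⁻¹` at `((1,2), (1,2))`. `SRg`: `r2 = q ^ n P L`. -/
def SBn : Prop :=
  ∀ n : ℕ, 2 ≤ n → Algebra.adjoin ℂ (Set.range fun p : Art (BM n) × Pr n × Pr n =>
    (B3 n p.1).1 p.2.1 p.2.2) = ⊤

/-- **Three eigenvalues** (120 lines).
Proof. Over the algebraic closure of the field of fractions the characteristic polynomial splits, its roots are eigenvalues, so annihilated by `(X - x) (X - y) (X - z)`. So it is `(X - x) ^ a * (X - y) ^ b * (X - z) ^ c` (as a multiset of roots), `a + b + c` = degree; the trace is the sum of the roots (`Matrix.trace_eq_sum_roots_charpoly` or the coefficient). See module `Char`. -/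
def SCh : Prop :=
  ∀ (R : Type) [CommRing R] [IsDomain R] (ι : Type) [Fintype ι] [DecidableEq ι]
    (G : Matrix ι ι R) (x y z : R), x ≠ y → y ≠ z → x ≠ z →
    (G - x • 1) * (G - y • 1) * (G - z • 1) = 0 → ∃ a b c : ℕ, a + b + c = Fintype.card ι ∧
      G.charpoly = (X - C x) ^ a * (X - C y) ^ b * (X - C z) ^ c ∧
      G.trace = a * x + b * y + c * z

/-- **The characteristic polynomials** (from `SCh`, `SBq`, `SBa`, 200 lines).
Proof. `(s i - q ^ 2 L) (s i - 1) (s i + q) = 0` and `(t - q ^ 2 P ^ 2 L ^ 2) (t - 1) (t - q P) = 0` by `SBq` and `s i v i = q ^ 2 L v i`, `t y 0 1 = q ^ 2 P ^ 2 L ^ 2 y 0 1`. Traces: `q ^ 2 L + (n - 1) (1 - q) + (n - 1) (n - 2) / 2` (diagonal entries of `s i`: `1 - q` for the pairs `(i + 1, k)`, `(j, i)`, together `n - 1`, `0` for `(i, k)`, `(j, i + 1)`, `1` for the others), and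
`q ^ 2 P ^ 2 L ^ 2 + (n - 1) q + (n - 1) (1 - q + q P) + (n - 1) (n - 2) / 2`. `card (Pr n) = n (n + 1) / 2`. The exponents: `q ^ 2 L`, `1`, `q` are independent over the integers (apply maps `R3 → ℂ`, `R3_lift`). Alternatively do all of it with `Q = n (n - 1) / 2`. -/
def SBh : Prop :=
  ∀ n : ℕ, 2 ≤ n → (∀ i, 1 ≤ i → i < n → (sm n r0 r1 (Ln n) i).charpoly =
      (X - C (r0 ^ 2 * Ln n)) * (X - C 1) ^ (n * (n - 1) / 2) * (X - C (-r0)) ^ (n - 1)) ∧
    (tm n r0 r1 (Ln n)).charpoly = (X - C (r0 ^ 2 * r1 ^ 2 * (Ln n) ^ 2)) *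
      (X - C 1) ^ (n * (n - 1) / 2) * (X - C (r0 * r1)) ^ (n - 1)

/-- **Eigenvalues** (from `SBh`, `SBr`, `SBg`, `SRg`, 120 lines).
Proof. `S = {bg n i | i < n}`. `1`, `n - 1`, `n (n - 1) / 2` are different for `n ≥ 3`, and the three roots are different (maps to `ℂ`). The roots and their inverses generate `R3`: `-q`, `q ^ 2 L`, `q P` and their inverses, `SRg`. -/
def SBeig : Prop := ∀ n : ℕ, 3 ≤ n → Eig (B3 n)

/-- **The ideal `J2`** (from `SJle`, `SBr`, `SBo`, `SBe`, `SRs`, `SBg`, 150 lines).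
Proof. `SJle` with `K = K2` and `π` from `SRs`: the image of `B3 n x` is `Brep n (π q) (π P) (π L) x` (`SBr`). `r0 ↦ 1` or `r1 ↦ 1`: all matrices have the entry `0` at `(g, b)`, `b = (0, 1)`, `g = (1, 2)` (`SBe`: the `x` for which all entries with `b` in the row `0`, `g` not in the row `0` vanish form a submonoid closed under inverses: a stable finite-dimensional subspace), so they do not span. `r2 ↦ 1`:
`π (q ^ n P L) = 1`, the vector `w` of `SBo` is fixed by all, so `Y w` is a multiple of `w` for all `Y` in the span, and there are at least two basis vectors and `w ≠ 0`. -/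
def SBj : Prop := ∀ n : ℕ, 2 ≤ n → ∀ i : Fin 3, J2 (B3 n) ≤ Ideal.span {rr i - 1}

/-- **The parameters** (from `SBj`, `SBi`, `SJst`, `SJnz`, `SRs`, `SRf`, 30 lines). Proof. `k = 3`, `I i = J2`, `p i = rr i - 1`. -/
def SBfin : Prop := ∀ n : ℕ, 2 ≤ n → FinP (B3 n)

end family

section rigidity

/-- Generic parameters. -/
structure GenB {κ : Type} [Field κ] (q P L : κ) : Prop where
  q0 : q ≠ 0
  P0 : P ≠ 0
  L0 : L ≠ 0
  q1 : q ≠ 1
  P1 : P ≠ 1
  qm : q ≠ -1
  l1 : q ^ 2 * L ≠ 1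
  lq : q ^ 2 * L ≠ -q
  t1 : q ^ 2 * P ^ 2 * L ^ 2 ≠ 1
  tq : q ^ 2 * P ^ 2 * L ^ 2 ≠ q * P
  b1 : q ^ 4 * P ^ 2 * L ^ 2 ≠ 1
  bq : q ^ 4 * P ^ 2 * L ^ 2 ≠ q ^ 2 * P
  a1 : q ^ 6 * L ^ 2 ≠ 1
  aq : q ^ 6 * L ^ 2 ≠ q ^ 3

/-- **The rank three part of type `B 2`** (from `SBa`, 200 lines).
Proof. Let `T` be the span of `y 0 1`, `y 0 2`, `y 1 2`, `z = (t s) ^ 2`, `s = s 1`. `(z - 1) (z - q ^ 2 P) x ∈ T` for all `x`: the `y j k` with `j, k ≥ 3` are fixed by `s` and `t`; modulo `T` on `y 0 k, y 1 k, y 2 k` (`k ≥ 3`): `s`: `y 0 k ↦ y 0 k`, `y 1 k ↦ y 2 k`, `y 2 k ↦ q y 1 k + (1 - q) y 2 k`; `t`: `y 0 k ↦ q y 0 k + (1 - q) (1 - P) y 1 k`, `y 1 k ↦ (1 - q + q P) y 1 k + q y 0 k`, `y 2 k ↦ y 2 k`; compute.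
If `z x = q ^ 4 P ^ 2 L ^ 2 x` then `(q ^ 4 P ^ 2 L ^ 2 - 1) (q ^ 4 P ^ 2 L ^ 2 - q ^ 2 P) x ∈ T`, so `x ∈ T`. -/
def SKb : Prop :=
  ∀ n : ℕ, 2 ≤ n → ∀ (K : Type) [Field K] (q P L : K), GenB q P L →
    Module.finrank K (LinearMap.ker (((tm n q P L * sm n q P L 1) ^ 2 -
      (q ^ 4 * P ^ 2 * L ^ 2) • (1 : Matrix (Pr n) (Pr n) K)).mulVecLin)) ≤ 3

/-- **The rank three part of type `A 2`** (from `SBa`, 250 lines; as `SD2`).
Proof. Let `T` be the span of `y 1 2`, `y 1 3`, `y 2 3`, `z = (s 1 s 2) ^ 3`. `(z - 1) (z - q ^ 3) x ∈ T` for all `x`: modulo `T`, the `y j k` with `j, k ∉ {1, 2, 3}` are fixed; on `y 0 1, y 0 2, y 0 3`: `s 1`: `y 0 1 ↦ q y 0 2 + (1 - q) y 0 1`, `y 0 2 ↦ y 0 1`, `y 0 3 ↦ y 0 3`; `s 2`: `y 0 1 ↦ y 0 1`, `y 0 2 ↦ q y 0 3 + (1 - q) y 0 2`, `y 0 3 ↦ y 0 2`; on `y 1 k, y 2 k, y 3 k` (`k ≥ 4`):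
`s 1`: `y 1 k ↦ y 2 k`, `y 2 k ↦ q y 1 k + (1 - q) y 2 k`; `s 2`: `y 2 k ↦ y 3 k`, `y 3 k ↦ q y 2 k + (1 - q) y 3 k`; compute. If `z x = q ^ 6 L ^ 2 x` then `x ∈ T`. -/
def SKa : Prop :=
  ∀ n : ℕ, 3 ≤ n → ∀ (K : Type) [Field K] (q P L : K), GenB q P L →
    Module.finrank K (LinearMap.ker (((sm n q P L 1 * sm n q P L 2) ^ 3 -
      (q ^ 6 * L ^ 2) • (1 : Matrix (Pr n) (Pr n) K)).mulVecLin)) ≤ 3

/-- **Two generators of type `A 2`** (from `SVLI`, `SVKer`, 250 lines; as `SD3`, `SD4`).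
Proof. `s = S`, `t = T`, `w = s t v`. `t w = l' w` (`t s t = s t s`). `z = (s t) ^ 3` commutes with `s`, `t`, so `z v = ζ v` (`sgl`; `ζ ∈ O` since a coordinate of `v` is a unit, `v0 ≠ 0`), `residue ζ = z0`, `z w = ζ w`. The kernel of `z - ζ` over `F` has dimension `≤ 3` (`SVKer`), contains `v, t v, w, t ^ 2 v, s w`, and `v, t v, w` are independent (`SVLI`), so `t ^ 2 v = a t v - b v + c w` (1), `a, b, c ∈ O`; by reduction `a, b` lift `1 - q`, `- q`; `b` is a unit.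
Eigenvectors of `t` for `l'` are multiples of `w` (conjugate by `s t`), `t s w = κ v` (`(t s) t = s (t s)`, `sgl`). `y = s t s` exchanges `s` and `t`: `y v = l' w`, `y w = s (t s w) = κ l' v`; apply `y` to (1): `s ^ 2 w = a s w - b w + c κ v`, multiply by `s⁻¹` (`s⁻¹ w = t v`, `s⁻¹ v = v / l'`): `s w = a w - b t v + (c κ / l') v`. Apply `t`: `κ v = a l' w - b (a t v - b v + c w) + (c κ / l') t v`. Compare coefficients: `b c = a l'`, `κ = b ^ 2`, `c κ = a b l'`. -/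
def SVa : Prop :=
  ∀ (F : Type) [Field F] (O : ValuationSubring F) (ι : Type) [Fintype ι] [DecidableEq ι]
    (S T : GL ι O) (l' : O) (v : ι → O) (q l z0 : IsLocalRing.ResidueField O), S * T * S = T * S * T →
    S.1.mulVec v = l' • v → IsLocalRing.residue O l' = l → l ≠ 0 → q ≠ 0 →
    (∀ x : ι → F, (S.1.map (algebraMap O F)).mulVec x = (l' : F) • x →
      ∃ c : F, x = fun i => c * (v i : F)) →
    ∀ (S0 T0 : Matrix ι ι (IsLocalRing.ResidueField O)) (v0 : ι → IsLocalRing.ResidueField O),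
    S0 = S.1.map (IsLocalRing.residue O) → T0 = T.1.map (IsLocalRing.residue O) →
    v0 = (fun i => IsLocalRing.residue O (v i)) →
    LinearIndependent (IsLocalRing.ResidueField O)
      ![v0, T0.mulVec v0, S0.mulVec (T0.mulVec v0)] →
    T0.mulVec (T0.mulVec v0) = (1 - q) • T0.mulVec v0 + q • v0 -
      ((1 - q) * l * q⁻¹) • S0.mulVec (T0.mulVec v0) →
    ((S0 * T0) ^ 3).mulVec v0 = z0 • v0 →
    Module.finrank (IsLocalRing.ResidueField O) (LinearMap.ker (((S0 * T0) ^ 3 -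
      z0 • (1 : Matrix ι ι (IsLocalRing.ResidueField O))).mulVecLin)) ≤ 3 →
    ∃ a b c : O, IsLocalRing.residue O a = 1 - q ∧ IsLocalRing.residue O b = -q ∧ b * c = a * l' ∧
      T.1.mulVec (T.1.mulVec v) = a • T.1.mulVec v - b • v + c • S.1.mulVec (T.1.mulVec v) ∧
      T.1.mulVec (S.1.mulVec (T.1.mulVec v)) = l' • S.1.mulVec (T.1.mulVec v) ∧
      S.1.mulVec (S.1.mulVec (T.1.mulVec v)) =
        a • S.1.mulVec (T.1.mulVec v) - b • T.1.mulVec v + (a * b) • v ∧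
      T.1.mulVec (S.1.mulVec (S.1.mulVec (T.1.mulVec v))) = (b ^ 2) • v ∧
      ∀ x : ι → F, (T.1.map (algebraMap O F)).mulVec x = (l' : F) • x →
        ∃ c : F, x = fun i => c * ((S.1.mulVec (T.1.mulVec v)) i : F)

/-- **Two generators of type `B 2`** (from `SVLI`, `SVKer`, `SVEig`, 250 lines).
Proof. `z = (T S) ^ 2` commutes with `S` and `T`, `z u = ζ u` (`sgl`), `residue ζ = z0`. `E` = kernel of `z - ζ` over `F`, dimension `≤ 3` (`SVKer`), contains the independent vectors `u, S u, T S u` (`SVLI`), so these are a basis, and `E` is stable under `S`, `T`: `S (T S u) = x1 u + x2 S u + x3 T S u`, `S (S u) = ..` with coefficients in `O` (`SVLI`): a `3 × 3` matrix `G` over `O` of `S` on this basis. Its reduction has the eigenvector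
`(x1, x2, x3)` (coordinates of `v0`) for `l`, unique up to factors (`S0 x = l x` implies `x = c v0`, independence). `SVEig` for `G` gives `l'` and coordinates of `v ∈ E`, with residues `x1, x2, x3`, so `v` lifts `v0`, `S v = l' v`. The last statement on `x`: `SVKer` for `S - l'` (the kernel over the residue field has dimension `≤ 1`). `z v = ζ v` as `v ∈ E`. `u, S u, v` are independent modulo the maximal ideal, so a basis of `E`: `S (S u)` and `T v` are combinations with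
coefficients in `O`, whose residues are the given ones. -/
def SVb : Prop :=
  ∀ (F : Type) [Field F] [IsAlgClosed F] (O : ValuationSubring F) (ι : Type) [Fintype ι]
    [DecidableEq ι] (S T : GL ι O) (lam : O) (u : ι → O), T * S * T * S = S * T * S * T →
    T.1.mulVec u = lam • u →
    (∀ x : ι → F, (T.1.map (algebraMap O F)).mulVec x = (lam : F) • x →
      ∃ c : F, x = fun i => c * (u i : F)) →
    ∀ (S0 T0 : Matrix ι ι (IsLocalRing.ResidueField O)) (u0 v0 : ι → IsLocalRing.ResidueField O)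
      (l z0 a0 b0 f0 al be ga x1 x2 x3 : IsLocalRing.ResidueField O),
    S0 = S.1.map (IsLocalRing.residue O) → T0 = T.1.map (IsLocalRing.residue O) →
    u0 = (fun i => IsLocalRing.residue O (u i)) →
    LinearIndependent (IsLocalRing.ResidueField O)
      ![u0, S0.mulVec u0, T0.mulVec (S0.mulVec u0)] →
    LinearIndependent (IsLocalRing.ResidueField O) ![u0, S0.mulVec u0, v0] →
    v0 = x1 • u0 + x2 • S0.mulVec u0 + x3 • T0.mulVec (S0.mulVec u0) →
    S0.mulVec v0 = l • v0 → (∀ x, S0.mulVec x = l • x → ∃ c : IsLocalRing.ResidueField O,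
      x = c • v0) →
    S0.mulVec (S0.mulVec u0) = a0 • S0.mulVec u0 + b0 • u0 + f0 • v0 →
    T0.mulVec v0 = al • v0 + be • S0.mulVec u0 + ga • u0 →
    ((T0 * S0) ^ 2).mulVec u0 = z0 • u0 →
    Module.finrank (IsLocalRing.ResidueField O) (LinearMap.ker (((T0 * S0) ^ 2 -
      z0 • (1 : Matrix ι ι (IsLocalRing.ResidueField O))).mulVecLin)) ≤ 3 →
    ∃ (l' : O) (v : ι → O), IsLocalRing.residue O l' = l ∧
      (∀ i, IsLocalRing.residue O (v i) = v0 i) ∧ S.1.mulVec v = l' • v ∧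
      (∀ x : ι → F, (S.1.map (algebraMap O F)).mulVec x = (l' : F) • x →
        ∃ c : F, x = fun i => c * (v i : F)) ∧
      (∃ y1 y2 y3 : O, v = y1 • u + y2 • S.1.mulVec u + y3 • T.1.mulVec (S.1.mulVec u)) ∧
      (∃ a b f : O, IsLocalRing.residue O a = a0 ∧ IsLocalRing.residue O b = b0 ∧
        IsLocalRing.residue O f = f0 ∧ S.1.mulVec (S.1.mulVec u) = a • S.1.mulVec u + b • u + f • v) ∧
      (∃ al' be' ga' : O, IsLocalRing.residue O al' = al ∧ IsLocalRing.residue O be' = be ∧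
        IsLocalRing.residue O ga' = ga ∧ T.1.mulVec v = al' • v + be' • S.1.mulVec u + ga' • u) ∧
      ∃ ze : O, IsLocalRing.residue O ze = z0 ∧
        T.1.mulVec (S.1.mulVec (T.1.mulVec (S.1.mulVec u))) = ze • u ∧
        T.1.mulVec (S.1.mulVec (T.1.mulVec (S.1.mulVec v))) = ze • v

/-- **First computation** (100 lines).
Proof. `p = s2 (s1 u)`, `w = s1 (s2 v)`. `s1 p = s2 s1 s2 u = mu p`. The relation for `s1 (s1 u)` conjugated by `s1 s2` (`s1 s2 s1 = s2 s1 s2`): `s2 s2 s1 s2 u = a' s2 s1 s2 u - b' s1 s2 u + f s1 s2 v`, so `s2 p = a' p - b' s1 u + (f / mu) w`.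
`s1 s2 s1 p = mu (a' mu p - b' (a' s1 u - b' u + f v) + (f / mu) (a w - b s2 v + a b v))`, `s2 s1 s2 p = a' mu (a' p - b' s1 u + (f / mu) w) - b' (a' p - b' mu u + f s2 v) + (f / mu) b ^ 2 v`. Compare the coefficients of `p`, `w`, `s2 v`. -/
def SCo : Prop :=
  ∀ (F W : Type) [Field F] [AddCommGroup W] [Module F W] (s1 s2 : W →ₗ[F] W) (u v : W)
    (l mu a b c a' b' f : F), (∀ x, s1 (s2 (s1 x)) = s2 (s1 (s2 x))) →
    s2 u = mu • u → s1 v = l • v → s1 (s1 u) = a' • s1 u - b' • u + f • v →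
    s2 (s2 v) = a • s2 v - b • v + c • s1 (s2 v) →
    s1 (s1 (s2 v)) = a • s1 (s2 v) - b • s2 v + (a * b) • v →
    s2 (s1 (s1 (s2 v))) = (b ^ 2) • v →
    LinearIndependent F ![u, s1 u, s2 (s1 u), v, s2 v, s1 (s2 v)] → a' ≠ 0 → f ≠ 0 → mu ≠ 0 →
    a' = a ∧ b' = b ∧ mu ^ 2 - a * mu + b = 0 ∧
      s2 (s2 (s1 u)) = a • s2 (s1 u) - b • s1 u + (f / mu) • s1 (s2 v)

/-- **Second computation** (150 lines).
Proof. `w = s1 (s2 v)`, `p = s2 (s1 u)`. `s1 t s1 t u = t s1 t s1 u = ze u` gives `t (s1 u) = ka (s1 u - (1 - q) u - (f / l) v)`, `ka = ze / (lam q)` (apply `s1⁻¹`: `q s1⁻¹ u = s1 u - (1 - q) u - (f / l) v`; without inverses: both sides have the same image under `s1`, which is injective on the span of `u, s1 u, v`, or assume it injective). `t p = s2 t s1 u = ka (p - (1 - q) u - (f / l) s2 v)`. `t s2 p = s2 t p`, coefficient of `w`: `f = ka f / q`, so `ka = q` and `ze = lam q ^ 2`.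
`t s2 v = al s2 v + be p + ga u`; `t s2 (s2 v) = s2 t (s2 v)`, coefficient of `w`: `be f q = (1 - q) l (al - 1)`. With `e = al l + be f`: `t s1 t s1 v = l (e (al v + be s1 u + ga u) + (be (1 - q) + ga) q (s1 u - (1 - q) u - (f / l) v) + be q lam u) = ze v`; coefficient of `s1 u`: `e be + q (be (1 - q) + ga) = 0`; of `v`: `l al e - f q (be (1 - q) + ga) = e ^ 2 = ze`. `P = e / l`. -/
def SCp : Prop :=
  ∀ (F W : Type) [Field F] [AddCommGroup W] [Module F W] (t s1 s2 : W →ₗ[F] W) (u v : W)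
    (q l lam f al be ga ze : F), Function.Injective s1 → (∀ x, s1 (s2 (s1 x)) = s2 (s1 (s2 x))) →
    (∀ x, t (s2 x) = s2 (t x)) → (∀ x, t (s1 (t (s1 x))) = s1 (t (s1 (t x)))) →
    q ≠ 0 → l ≠ 0 → lam ≠ 0 → f ≠ 0 →
    t u = lam • u → s2 u = u → s1 v = l • v → t (s1 (s2 v)) = s1 (s2 v) →
    s1 (s1 u) = (1 - q) • s1 u + q • u + f • v → t v = al • v + be • s1 u + ga • u →
    s2 (s2 v) = (1 - q) • s2 v + q • v - ((1 - q) * l / q) • s1 (s2 v) →
    s2 (s2 (s1 u)) = (1 - q) • s2 (s1 u) + q • s1 u + f • s1 (s2 v) →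
    t (s1 (t (s1 u))) = ze • u → t (s1 (t (s1 v))) = ze • v →
    LinearIndependent F ![u, s1 u, s2 (s1 u), v, s2 v, s1 (s2 v)] →
    ∃ P : F, P * l = al * l + be * f ∧ q ^ 2 * lam = P ^ 2 * l ^ 2 ∧ al = 1 - q + q * P ∧
      be * f = (1 - q) * l * (P - 1) ∧ ga = -(be * (P * l / q + 1 - q)) ∧
      t (s1 u) = q • s1 u - (q * (1 - q)) • u - (q * f / l) • v

/-- The relations of the first two vectors. -/
structure HB {F W : Type} [Field F] [AddCommGroup W] [Module F W] (n : ℕ) (g : ℕ → W →ₗ[F] W)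
    (q P L : F) (v0 v1 : W) : Prop where
  t0 : g 0 v0 = (q ^ 2 * P ^ 2 * L ^ 2) • v0
  s0 : ∀ i, 2 ≤ i → i < n → g i v0 = v0
  s11 : g 1 v1 = (q ^ 2 * L) • v1
  s1 : ∀ i, 3 ≤ i → i < n → g i v1 = v1
  t2 : g 0 (g 1 (g 2 v1)) = g 1 (g 2 v1)
  q0 : g 1 (g 1 v0) = (1 - q) • g 1 v0 + q • v0 - (q ^ 2 * (1 - q) * L * (1 - P)) • v1
  q1 : g 2 (g 2 v1) = (1 - q) • g 2 v1 + q • v1 - (q * (1 - q) * L) • g 1 (g 2 v1)
  c1 : g 1 (g 1 (g 2 v1)) = (1 - q) • g 1 (g 2 v1) + q • (g 2 v1 - (1 - q) • v1)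
  t1 : g 0 v1 = (1 - q + q * P) • v1 + (g 1 v0 - (1 - q) • v0) - (q * P * L) • v0
  t02 : g 0 (g 1 v0 - (1 - q) • v0) = q • (g 1 v0 - (1 - q) • v0) +
    (q * (1 - q) * (1 - P)) • v1 - ((1 - q) * q ^ 2 * P ^ 2 * L ^ 2) • v0

/-- The relations of all vectors `v j` (`j < n`). -/
structure HC {F W : Type} [Field F] [AddCommGroup W] [Module F W] (n : ℕ) (g : ℕ → W →ₗ[F] W)
    (q P L : F) (v : ℕ → W) : Prop where
  h0 : g 0 (v 0) = (q ^ 2 * P ^ 2 * L ^ 2) • v 0
  h1 : ∀ j, 1 ≤ j → j < n → g j (v j) = (q ^ 2 * L) • v j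
  h2 : ∀ i j, 1 ≤ i → i < n → j < n → (i + 2 ≤ j ∨ j + 2 ≤ i) → g i (v j) = v j
  ht : ∀ j, 2 ≤ j → j < n → g 0 (v j) = v j
  h3 : ∀ j, j + 1 < n → g (j + 1) (g (j + 1) (v j)) = (1 - q) • g (j + 1) (v j) + q • v j -
    (q ^ 2 * (1 - q) * L * wj P j) • v (j + 1)
  h4 : ∀ j, 1 ≤ j → j + 1 < n → g j (g (j + 1) (v j)) = q • v (j + 1)
  h5 : ∀ j, 1 ≤ j → j + 1 < n → g j (v (j + 1)) - (1 - q) • v (j + 1) =
    g (j + 1) (v j) - (1 - q) • v j
  h6 : g 0 (v 1) = (1 - q + q * P) • v 1 + (g 1 (v 0) - (1 - q) • v 0) - (q * P * L) • v 0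
  h7 : g 0 (g 1 (v 0) - (1 - q) • v 0) = q • (g 1 (v 0) - (1 - q) • v 0) +
    (q * (1 - q) * (1 - P)) • v 1 - ((1 - q) * q ^ 2 * P ^ 2 * L ^ 2) • v 0

/-- Operators with the relations of type `B`. -/
structure RelB {F W : Type} [Field F] [AddCommGroup W] [Module F W] (n : ℕ)
    (g : ℕ → W →ₗ[F] W) : Prop where
  br : ∀ i, 1 ≤ i → i + 1 < n → ∀ x, g i (g (i + 1) (g i x)) = g (i + 1) (g i (g (i + 1) x))
  co : ∀ i j, i + 2 ≤ j → j < n → ∀ x, g i (g j x) = g j (g i x)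
  b4 : ∀ x, g 0 (g 1 (g 0 (g 1 x))) = g 1 (g 0 (g 1 (g 0 x)))

/-- **Propagation** (200 lines).
Proof. `s i = g i`, `t = g 0`. `v (j+1) = q⁻¹ s j s (j+1) v j` for `j ≥ 1` (recursion; `h4`). By induction on `j`: `h1`: `s (j+1) s j s (j+1) v j = s j s (j+1) s j v j`. `h2` for `v (j+1)`: `i ≥ j + 3` and `i ≤ j - 2` commute with both; `i = j - 1`: `v j = q⁻¹ s (j-1) s j v (j-1)` and
`s (j-1) s j s (j+1) s (j-1) s j v (j-1) = s (j-1) s j s (j-1) s (j+1) s j v (j-1) = s j s (j-1) s j s (j+1) s j v (j-1) = s j s (j-1) s (j+1) s j s (j+1) v (j-1) = s j s (j+1) s (j-1) s j v (j-1)`, as `s (j+1) v (j-1) = v (j-1)`. `ht`: `j + 1 = 2` is `t2`; `j ≥ 2`: `t` commutes with `s j`, `s (j+1)`.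
`h3`: `j = 0`: `q0`; `j = 1`: `q1` (`g 1 (g 2 v1) = q v 2`); step: apply `y = s j s (j+1) s (j+2)`: `y s j = s (j+1) y`, `y s (j+1) = s (j+2) y`, `y v j = q v (j+1)` (`s (j+2) v j = v j`), `y v (j+1) = q s j v (j+2) = q v (j+2)`. `h5`: `j = 1`: `c1` divided by `q`; step by the same `y`: `y v (j+1) = q v (j+2)`, `y v j = q v (j+1)`, `y s j = s (j+1) y`, `y s (j+1) = s (j+2) y`. -/
def SHc : Prop :=
  ∀ (F W : Type) [Field F] [AddCommGroup W] [Module F W] (n : ℕ), 3 ≤ n →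
    ∀ (g : ℕ → W →ₗ[F] W) (q P L : F) (v0 v1 : W), q ≠ 0 → RelB n g → HB n g q P L v0 v1 →
    ∃ v : ℕ → W, v 0 = v0 ∧ v 1 = v1 ∧ HC n g q P L v

/-- **The universal property** (from `SBa`, 300 lines).
Proof. `s i = g i`, `t = g 0`. `Y j (j+1) = v j`, `Y j (k+1) = q⁻¹ (s k - (1 - q)) Y j k` for `k ≥ j + 1`. Claims for `j < k ≤ n`, `1 ≤ i < n`: (a) `s i Y j k = Y j k` for `i > k` (induct on `k`: `h2`; `s i` commutes with `s k` for `i > k + 1`). (b) `s k Y j k = q Y j (k+1) + (1 - q) Y j k` (definition).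
(c) `s k Y j (k+1) = Y j k - q (1 - q) L (w j) v k` for `k ≥ j + 1`, that is `(s k ^ 2 - (1 - q) s k - q) Y j k = - q ^ 2 (1 - q) L (w j) v k`: `k = j + 1`: `h3`; step: apply `x = s k s (k+1)` (`x s k = s (k+1) x`), `x v k = q v (k+1)` (`h4`), `x Y j k = s k Y j k` (a) `= q Y j (k+1) + (1 - q) Y j k`, and `(s (k+1) ^ 2 - (1 - q) s (k+1) - q) Y j k = 0` (a).
(d) `s i Y j k = Y j k + (1 - q) ^ 2 L (w j) v i` for `j < i`, `i + 1 < k`: `k = i + 2`: `s i s (i+1) Y j (i+1) = q⁻¹ (s (i+1) s i s (i+1) - (1 - q) s i s (i+1)) Y j i = q⁻¹ (s (i+1) - (1 - q)) s i Y j i = q Y j (i+2) + (1 - q) Y j i`, and (c) for `s i Y j (i+1)`; step: `s i` commutes with `s k`, `s k v i = v i`.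
(e) `s j Y j k = Y (j+1) k - q (1 - q) L v j` for `k ≥ j + 2`, `j ≥ 1`: `k = j + 2`: `h4`, `h1`; step: `s k v j = v j`. (f) `s (j-1) Y j k = q Y (j-1) k + (1 - q) Y j k` for `j ≥ 2`: `k = j + 1`: `h5`; step: commute. (g) `s i Y j k = Y j k` for `1 ≤ i ≤ j - 2`: `h2`, commute.
(h) `t Y j k = Y j k` for `j ≥ 2` (`ht`, commute); `t Y 1 k = (1 - q + q P) Y 1 k + q Y 0 k - q P L v 0` (`k = 2`: `h6`; step: `s k v 0 = v 0`); `t Y 0 k = q Y 0 k + (1 - q) (1 - P) Y 1 k - (1 - q) q P ^ 2 L ^ 2 v 0` for `k ≥ 2` (`k = 2`: `h7`; step: `s k v 0 = v 0`). `Θ` maps `yv n j k` to `Y j k` (`SBa`). -/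
def SHu : Prop :=
  ∀ (F W : Type) [Field F] [AddCommGroup W] [Module F W] (n : ℕ), 2 ≤ n →
    ∀ (g : ℕ → W →ₗ[F] W) (q P L : F) (v : ℕ → W), q ≠ 0 → RelB n g → HC n g q P L v →
    ∃ Θ : (Pr n → F) →ₗ[F] W, Θ (yv n 0 1) = v 0 ∧
      ∀ i, i < n → ∀ y, Θ ((bm n q P L i).mulVec y) = g i (Θ y)

section defs

variable {F : Type} [Field F]

/-- A deformation of the representation over a valuation ring. -/
def BDef (n : ℕ) (O : ValuationSubring F) (q P L : IsLocalRing.ResidueField O)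
    (ρ : Art (BM n) →* GL (Pr n) O) : Prop :=
  ∀ i, i < n → (ρ (bg n i)).1.map (IsLocalRing.residue O) = bm n q P L i

/-- The operators of `ρ` over `F`, divided by the character `χ`. -/
noncomputable def gop (n : ℕ) (O : ValuationSubring F) (ρ : Art (BM n) →* GL (Pr n) O)
    (χ : Art (BM n) →* Fˣ) (x : Art (BM n)) : (Pr n → F) →ₗ[F] (Pr n → F) :=
  ((χ x)⁻¹ : Fˣ).1 • ((ρ x).1.map (algebraMap O F)).mulVecLin

end defs

/-- **The eigenvector of the first generator** (from `SVEig`, `SBa`, `SBq`, `SBg`, 200 lines; as `SD1`).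
Proof. `SVEig` for `G = ρ (bg n 0)` and the vector `yv n 0 1`: if `tm x = λ x`, `λ = q ^ 2 P ^ 2 L ^ 2`, then `(λ - 1) (λ - q P) x` is a multiple of `yv n 0 1` (`SBq`). For `i ≥ 2` the generator `i` commutes with the generator `0`, so `ρ (bg n i) u` is a multiple `mu i` of `u`, `mu i ∈ O` (a coordinate of `u` is a unit), `residue (mu i) = 1` (`sm i (yv n 0 1) = yv n 0 1`). The braid relations give `mu i = mu (i + 1)`. -/
def SR1 : Prop :=
  ∀ n : ℕ, 3 ≤ n → ∀ (F : Type) [Field F] [IsAlgClosed F] (O : ValuationSubring F)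
    (q P L : IsLocalRing.ResidueField O), GenB q P L → ∀ ρ : Art (BM n) →* GL (Pr n) O,
    BDef n O q P L ρ → ∃ (lam mu : O) (u : Pr n → O),
      IsLocalRing.residue O lam = q ^ 2 * P ^ 2 * L ^ 2 ∧ IsLocalRing.residue O mu = 1 ∧
      (∀ i, IsLocalRing.residue O (u i) = yv n 0 1 i) ∧
      (ρ (bg n 0)).1.mulVec u = lam • u ∧
      (∀ x : Pr n → F, ((ρ (bg n 0)).1.map (algebraMap O F)).mulVec x = (lam : F) • x →
        ∃ c : F, x = fun i => c * (u i : F)) ∧
      ∀ i, 2 ≤ i → i < n → (ρ (bg n i)).1.mulVec u = mu • u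

/-- The data of the first three generators. -/
structure Dat {F : Type} [Field F] (n : ℕ) (O : ValuationSubring F)
    (q P L : IsLocalRing.ResidueField O) (ρ : Art (BM n) →* GL (Pr n) O)
    (lam mu tau l a b c a' b' f al be ga ze : O) (u v : Pr n → O) : Prop where
  ru : ∀ i, IsLocalRing.residue O (u i) = yv n 0 1 i
  rv : ∀ i, IsLocalRing.residue O (v i) = yv n 1 2 i
  rlam : IsLocalRing.residue O lam = q ^ 2 * P ^ 2 * L ^ 2
  rmu : IsLocalRing.residue O mu = 1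
  rtau : IsLocalRing.residue O tau = 1
  rl : IsLocalRing.residue O l = q ^ 2 * L
  ra : IsLocalRing.residue O a = 1 - q
  rb : IsLocalRing.residue O b = -q
  ra' : IsLocalRing.residue O a' = 1 - q
  rb' : IsLocalRing.residue O b' = -q
  rf : IsLocalRing.residue O f = -(q ^ 2 * (1 - q) * L * (1 - P))
  ral : IsLocalRing.residue O al = 1 - q + q * P
  rbe : IsLocalRing.residue O be = 1
  tu : (ρ (bg n 0)).1.mulVec u = lam • u
  su : ∀ i, 2 ≤ i → i < n → (ρ (bg n i)).1.mulVec u = mu • u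
  sv : (ρ (bg n 1)).1.mulVec v = l • v
  siv : ∀ i, 3 ≤ i → i < n → (ρ (bg n i)).1.mulVec v = mu • v
  q0 : (ρ (bg n 1)).1.mulVec ((ρ (bg n 1)).1.mulVec u) =
    a' • (ρ (bg n 1)).1.mulVec u - b' • u + f • v
  tv : (ρ (bg n 0)).1.mulVec v = al • v + be • (ρ (bg n 1)).1.mulVec u + ga • u
  zu : (ρ (bg n 0)).1.mulVec ((ρ (bg n 1)).1.mulVec
    ((ρ (bg n 0)).1.mulVec ((ρ (bg n 1)).1.mulVec u))) = ze • u
  zv : (ρ (bg n 0)).1.mulVec ((ρ (bg n 1)).1.mulVec
    ((ρ (bg n 0)).1.mulVec ((ρ (bg n 1)).1.mulVec v))) = ze • v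
  bc : b * c = a * l
  q1 : (ρ (bg n 2)).1.mulVec ((ρ (bg n 2)).1.mulVec v) = a • (ρ (bg n 2)).1.mulVec v - b • v +
    c • (ρ (bg n 1)).1.mulVec ((ρ (bg n 2)).1.mulVec v)
  c1 : (ρ (bg n 1)).1.mulVec ((ρ (bg n 1)).1.mulVec ((ρ (bg n 2)).1.mulVec v)) =
    a • (ρ (bg n 1)).1.mulVec ((ρ (bg n 2)).1.mulVec v) - b • (ρ (bg n 2)).1.mulVec v + (a * b) • v
  c2 : (ρ (bg n 2)).1.mulVec ((ρ (bg n 1)).1.mulVec ((ρ (bg n 1)).1.mulVec
    ((ρ (bg n 2)).1.mulVec v))) = (b ^ 2) • v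
  tw : (ρ (bg n 0)).1.mulVec ((ρ (bg n 1)).1.mulVec ((ρ (bg n 2)).1.mulVec v)) =
    tau • (ρ (bg n 1)).1.mulVec ((ρ (bg n 2)).1.mulVec v)

/-- **The first three generators** (from `SR1`, `SVa`, `SVb`, `SKa`, `SKb`, `SBa`, `SBq`, `SBg`, 250 lines).
Proof. `SR1`, then `SVb` for `T = ρ (bg n 0)`, `S = ρ (bg n 1)`, `u0 = y 0 1`, `v0 = y 1 2`, `l = q ^ 2 L`, `z0 = q ^ 4 P ^ 2 L ^ 2`, with the model relations `S0 u0 = q y 0 2 + (1 - q) y 0 1`, `S0 (S0 u0) = (1 - q) S0 u0 + q u0 - q ^ 2 (1 - q) L (1 - P) v0`, `T0 v0 = (1 - q + q P) v0 + S0 u0 - (q P L + 1 - q) u0`,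
`T0 (S0 u0) = q S0 u0 - q (1 - q) u0 + q (1 - q) (1 - P) v0`-type formula (compute; the coefficient of `v0 = y 1 2` is `q (1 - q) (1 - P) ≠ 0`, which gives `x1, x2, x3`), kernel: `SKb`; eigenvectors of `S0` for `q ^ 2 L`: `SBq`. Then `SVa` for `S = ρ (bg n 1)`, `T = ρ (bg n 2)` and `v`: model: `T0 v0 = q y 1 3 + (1 - q) y 1 2`, `S0 (T0 v0) = q y 2 3`, kernel: `SKa`, `z0 = q ^ 6 L ^ 2`.
`ρ (bg n i) v = mu v` for `i ≥ 3`, as `v` is a combination of `u`, `S u`, `T S u` and `bg n i` commutes with `bg n 0`, `bg n 1`. `bg n 0` commutes with `bg n 2`, so it maps the eigenvector `w` of `bg n 2` to a multiple `tau w` (last part of `SVa`), `tau ∈ O` (a coordinate of `w` is a unit, its reduction is `q y 2 3`), `residue tau = 1` (`t y 2 3 = y 2 3`). -/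
def SDat : Prop :=
  ∀ n : ℕ, 3 ≤ n → ∀ (F : Type) [Field F] [IsAlgClosed F] (O : ValuationSubring F)
    (q P L : IsLocalRing.ResidueField O), GenB q P L → ∀ ρ : Art (BM n) →* GL (Pr n) O,
    BDef n O q P L ρ → ∃ (lam mu tau l a b c a' b' f al be ga ze : O) (u v : Pr n → O),
      Dat n O q P L ρ lam mu tau l a b c a' b' f al be ga ze u v

/-- **The relations after a twist** (from `SCo`, `SCp`, `SVLI`, `SBa`, `SBg`, 250 lines).
Proof. Over `F`, `s i = ρ (bg n i)`, `t = ρ (bg n 0)`. The six vectors `u, s1 u, s2 s1 u, v, s2 v, s1 s2 v` reduce to `y 0 1`, `q y 0 2 + ..`, `q ^ 2 y 0 3 + ..`, `y 1 2`, `q y 1 3 + ..`, `q y 2 3`, independent, so independent over `F` (`SVLI`). `SCo`: `a' = a`, `b' = b`, `mu ^ 2 - a mu + b = 0`. Let `mu' = a - mu`, so `mu mu' = b`, `q' = - mu' / mu ∈ O`, a lift of `q`. `χ`: `bg n 0 ↦ tau`, `bg n i ↦ mu` (`SBg`). The operators `t / tau`, `s i / mu`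
satisfy the hypotheses of `SCp` with `q'`, `l / mu`, `lam / tau`, `f / mu ^ 2`, `al / tau`, `be mu / tau`, `ga / tau`, `ze / (tau ^ 2 mu ^ 2)`. (`a / mu = 1 - q'`, `b / mu ^ 2 = - q'`, `c / mu ^ 2 * .. `: `(s2 / mu) ^ 2 v = (a / mu) (s2 / mu) v - (b / mu ^ 2) v + c (s1 / mu) (s2 / mu) v` and `c = a l / b`.) `P'` from `SCp`, `L' = (l / mu) / q' ^ 2`; `P' = (al l + be f) / (l tau)` is in `O` with residue
`((1 - q + q P) q ^ 2 L - q ^ 2 (1 - q) L (1 - P)) / (q ^ 2 L) = P`. `v0 = u`, `v1 = v / be''`, `be'' = be mu / tau` (a unit). The relations of `HB`: `t0`: `lam / tau = q' ^ 2 P' ^ 2 L' ^ 2`; `q0`: `f'' be'' = (1 - q') l'' (P' - 1)`; `t1`: `ga'' = - be'' (P' l'' / q' + 1 - q')`; `t02`: `t (s1 u) = q' s1 u - q' (1 - q') u - (q' f'' / l'') v`. -/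
def SHb : Prop :=
  ∀ n : ℕ, 3 ≤ n → ∀ (F : Type) [Field F] [IsAlgClosed F] (O : ValuationSubring F)
    (q P L : IsLocalRing.ResidueField O), GenB q P L → ∀ ρ : Art (BM n) →* GL (Pr n) O,
    BDef n O q P L ρ → ∀ (lam mu tau l a b c a' b' f al be ga ze : O) (u v : Pr n → O),
    Dat n O q P L ρ lam mu tau l a b c a' b' f al be ga ze u v →
    ∃ (q' P' L' : O) (χ : Art (BM n) →* Fˣ) (v1 : Pr n → F), IsLocalRing.residue O q' = q ∧
      IsLocalRing.residue O P' = P ∧ IsLocalRing.residue O L' = L ∧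
      HB n (fun i => gop n O ρ χ (bg n i)) (q' : F) P' L' (fun i => (u i : F)) v1

/-- **Generation over `F`** (from `SBy`, `SVLI`, `SBr`, `SBg`, 120 lines; as `SD8`).
Proof. The reduction of `ρ x` is `Brep n q P L x` (`SBr`, `SBg`: both are homomorphisms). By `SBy` the vectors `Brep x (yv n 0 1)` span, so there are `x b`, `b : Pr n`, for which they are a basis; the vectors `ρ (x b) u` are independent over `F` (`SVLI`), as many as the dimension. -/
def SBz : Prop :=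
  ∀ n : ℕ, 3 ≤ n → ∀ (F : Type) [Field F] (O : ValuationSubring F)
    (q P L : IsLocalRing.ResidueField O), GenB q P L → ∀ ρ : Art (BM n) →* GL (Pr n) O,
    BDef n O q P L ρ → ∀ u : Pr n → O, (∀ i, IsLocalRing.residue O (u i) = yv n 0 1 i) →
    Submodule.span F {y : Pr n → F | ∃ x : Art (BM n),
      y = ((ρ x).1.map (algebraMap O F)).mulVec fun i => (u i : F)} = ⊤

/-- **Rigidity for given parameters** (from `SDat`, `SHb`, `SHc`, `SHu`, `SBz`, `SBr`, `SBg`, 150 lines).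
Proof. `SDat`, `SHb`, `SHc`, `SHu` for the operators `gop n O ρ χ (bg n i)` on `W = Pr n → F` (`RelB` from `SBg`): `Θ`. Its range is stable under all `ρ x` and contains `u`, so it is everything (`SBz`), and `Θ` is bijective. Its matrix is `g`: `Θ ∘ Brep x = (χ x)⁻¹ ρ x ∘ Θ` for all `x` (a subgroup which contains the generators, `SBr`; `q', P', L'` are units as their residues are not zero). -/
def SRb : Prop :=
  ∀ n : ℕ, 3 ≤ n → ∀ (F : Type) [Field F] [IsAlgClosed F] (O : ValuationSubring F)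
    (q P L : IsLocalRing.ResidueField O), GenB q P L → ∀ ρ : Art (BM n) →* GL (Pr n) O,
    BDef n O q P L ρ → ∃ (q' P' L' : O) (χ : Art (BM n) →* Fˣ) (g : GL (Pr n) F),
      IsLocalRing.residue O q' = q ∧ IsLocalRing.residue O P' = P ∧
      IsLocalRing.residue O L' = L ∧ ∀ x, (ρ x).1.map (algebraMap O F) =
        (χ x : F) • (g.1 * (Brep n (q' : F) (P' : F) (L' : F) x).1 * (g⁻¹).1)

/-- **Rigidity** (from `SRb`, `SBr`, 150 lines; as module `G0`).
Proof. `q = j r0`, `P = j r1`, `L = j (Ln n)` in the residue field: `GenB` holds, since `j` is injective and the inequalities hold in `R3` (apply `R3_lift` to `ℂ` with `r0 ↦ 2`, `r1 ↦ 3`, `r2 ↦ 2 ^ n * 3 * 5`, so `Ln n ↦ 5`). `BDef` by `SBr` and the third hypothesis. `SRb` gives `q', P', L'`, units of `O`; `ψ` from `R3_lift` with `r0 ↦ q'`, `r1 ↦ P'`, `r2 ↦ q' ^ n P' L'`, so `ψ (Ln n) = L'`. The residue of `ψ r` is `j r`: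
every `r` is `algebraMap p * (unit)⁻¹`, and for polynomials by `MvPolynomial.induction_on` (second hypothesis for the constants). -/
def SBrig : Prop := ∀ n : ℕ, 3 ≤ n → Rigid (B3 n)

/-- **Type `B`** (from `SArt`, `SRen`, `SMach`, `SRT`, `SAbO`, `SAbI`, `SBrig`, `SBn`, `SBi`, `SBeig`, `SBfin`, `SBf`, `SBo`, `SBr`, `SBg`, `SRk`, 150 lines).
Proof. `RFam (B3 n)`, `TFam (B3 n)` (`SRT`). `SMach`: scalar matrices commute with everything and `B3 n` is injective (`SBf`; a scalar matrix over the field of fractions). `ab`: `SAbI` and `SAbO` with `φ : R3 → ℂ`, `r0, r1, r2 ↦ 1`, `v` the vector of `SBo` for `q = P = L = 1` (not zero: its coordinate at `(0, 1)` is `1`). `SRen` with `Fin.rev : Fin n ≃ Fin n`. -/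
def SBgood : Prop := ∀ n : ℕ, 3 ≤ n → Good (Art (CoxeterMatrix.B n))

end rigidity

end Pool.Agent.Lib.MP_97567f_al.U.TB
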