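import Pool.Agent.Lib.MP_97567f_al.U.Base

/-!
# MP_97567f_al: all finite types: statements of the modules (machine, products, assembly)

Every statement is a proposition `SName`; the module `U/Name.lean` proves `pName : SName`, or, if the docstring names
other statements, `pName` takes these as hypotheses.
-/

set_option autoImplicit false

namespace Pool.Agent.Lib.MP_97567f_al.U

open Polynomial

section machine

/-- **Irreducibility and injective maps** (60 lines).
Proof. There are `x : ι × ι → A` such that the matrices `mK ρ (x p)` are a basis of the space of matrices (a basis inside the spanning set), so the determinant of `(p, q) ↦ entry q of ρ (x p)`, an element of `R`, is not zero, and `ψ` maps it to the same determinant for the matrices `ψ (ρ (x p))`, not zero. So these are independent, as many as the dimension, so they span. -/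
def SSpan : Prop :=
  ∀ (A : Type) [Group A] (R : Type) [CommRing R] [IsDomain R] (ι : Type) [Fintype ι] [DecidableEq ι]
    (ρ : A →* GL ι R), Submodule.span (FractionRing R) (Set.range fun x : A => mK ρ x) = ⊤ →
    ∀ (F : Type) [Field F] (ψ : R →+* F), Function.Injective ψ →
      Submodule.span F (Set.range fun x : A => (ρ x).1.map ψ) = ⊤

/-- **From a factor to the group** (from `SSpan`, 200 lines).
Proof. `a x = (i (r x))⁻¹ * x` is a homomorphism `A → ker r`, and it commutes with `i b` (`Fac.co`); `x = i (r x) * a x`.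
`gen`, `irr`: the range of `ρ ∘ r` is that of `ρ`. `rig`: apply `Rigid ρ` to `ρ'.comp i`: `ψ, χ, g`. For `r a = 1` the matrix of `ρ' a` commutes with those of `ρ' (i b)`, so `g⁻¹ ρ'(a) g` commutes with all `ψ (ρ b)`, so with all matrices (`SSpan`, `ψ` is injective as the residue of `ψ r` is `j r`), so it is a scalar `c a`. The character is `x ↦ χ (r x) * c (a x)`.
`eig`: the set `i '' S ∪ ker r`; for `a ∈ ker r` the characteristic polynomial is `(X - 1) ^ N`, `N > 0`. `fin`: the same ideals and primes. `StabI`: if `Twf (ρ.comp r) f θ` then `Twf ρ (r ∘ f ∘ i) θ` (with `χ.comp i`, the same `g`). -/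
def STrans : Prop :=
  ∀ (A B : Type) [Group A] [Group B] (R : Type) [CommRing R] [IsDomain R] [Algebra ℂ R] (ι : Type)
    [Fintype ι] [DecidableEq ι] [Nonempty ι] (ρ : B →* GL ι R) (i : B →* A) (r : A →* B),
    Fac i r → RFam ρ → RFam (ρ.comp r)

/-- **The component of the representation** (from `SComp`, 80 lines; as `SG0`, module `G0`).
Proof. `SComp` gives `F, O, j, ρ', H`; `Rigid` gives `ψ, χ, g` with `ρ' x = χ x • g ψ(ρ x) g⁻¹`; `ψ` is injective since the residue of `ψ r` is `j r`. For `α ∈ H` with `ρ' (α x) = σ (ρ' x)`: `ψ' = σ ∘ ψ`, and `ψ (ρ (α x)) = (χ (α x))⁻¹ σ (χ x) • g⁻¹ σ(g) ψ'(ρ x) σ(g)⁻¹ g` (`G0_mat` in module `G0`). -/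
def SCa : Prop :=
  ∀ (A : Type) [Group A], Group.FG A → ∀ (R : Type) [CommRing R] [IsDomain R] [Algebra ℂ R]
    (ι : Type) [Fintype ι] [DecidableEq ι] (ρ : A →* GL ι R),
    Algebra.adjoin ℂ (Set.range fun p : A × ι × ι => (ρ p.1).1 p.2.1 p.2.2) = ⊤ → Rigid ρ →
    ∃ (F : Type) (_ : Field F) (_ : Algebra ℂ F) (ψ : R →ₐ[ℂ] F) (H : Subgroup (MulAut A)),
      Function.Injective ψ ∧ H.FiniteIndex ∧ ∀ α ∈ H, ∃ (ψ' : R →ₐ[ℂ] F) (χ : A →* Fˣ)
        (g : GL ι F), Function.Injective ψ' ∧ ∀ x,
          (ρ (α x)).1.map ψ = (χ x : F) • (g.1 * (ρ x).1.map ψ' * (g⁻¹).1)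

/-- **Roots with different multiplicities** (100 lines; as `SRt`, module `Rt`).
Proof. Let `w = w j`, of multiplicity `m = m j` in the image of `P`, algebraic over `K`, `μ = minpoly K w`, irreducible and separable. Write `P = μ ^ k * Q` with `μ ∤ Q`. Over `F`, `μ` and `Q` have no common root, and `μ` splits with simple roots (they are roots of `P`). So every root of `μ` in `F` has multiplicity `k` in `P`, so `k = m j` and, the multiplicities being different, every root of `μ` is `w`. So `μ` has degree 1. -/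
def SRtm : Prop :=
  ∀ (K F : Type) [Field K] [CharZero K] [Field F] [Algebra K F] (P : K[X]) (k : ℕ) (w : Fin k → F)
    (m : Fin k → ℕ), Function.Injective w → Function.Injective m → (∀ j, 0 < m j) →
    P.map (algebraMap K F) = ∏ j, (X - C (w j)) ^ m j → ∀ j, ∃ x, algebraMap K F x = w j

/-- **The parameters are units of `R`** (from `SRtm`, 150 lines; as `SG1`, module `G1`).
Proof. `F` is an algebra over `K = FractionRing R` by the extension of `ψ`. Let `s ∈ S` (`Eig`), `P = ∏ (X - u j) ^ m j` the characteristic polynomial of `ρ s`, `c = χ s`. The characteristic polynomial of `ρ (α s)`, monic over `R`, is mapped by `ψ` to that of `c • ψ' (ρ s)`, which is `∏ (X - c ψ' (u j)) ^ m j`. `SRtm`: the roots are in the image of `K`; `R` is integrally closed, so they are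
images of elements `x j` of `R`, and the product of the `x j ^ m j` is up to sign the determinant of `ρ (α s)`, a unit, so the `x j` are units (`0 < m j`). As one `u j` is `1`: `c ∈ ψ (Rˣ)`, so all `ψ' (u j)` are in `ψ (Rˣ)`. `S` generates `A`: `χ` has values in `ψ (Rˣ)`; the roots and their inverses generate `R`: `ψ' (R) ⊆ ψ (R)`. `ψ` is injective. -/
def SCb : Prop :=
  ∀ (A : Type) [Group A] (R : Type) [CommRing R] [IsDomain R] [IsIntegrallyClosed R] [Algebra ℂ R]
    (ι : Type) [Fintype ι] [DecidableEq ι] (ρ : A →* GL ι R), Eig ρ →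
    ∀ (F : Type) [Field F] [Algebra ℂ F] (ψ ψ' : R →ₐ[ℂ] F), Function.Injective ψ →
    Function.Injective ψ' → ∀ (f : A →* A) (χ : A →* Fˣ) (g : GL ι F),
      (∀ x, (ρ (f x)).1.map ψ = (χ x : F) • (g.1 * (ρ x).1.map ψ' * (g⁻¹).1)) →
      ∃ (θ : R →ₐ[ℂ] R) (χ' : A →* Rˣ), Function.Injective θ ∧ (∀ r, ψ (θ r) = ψ' r) ∧
        ∀ x, ψ (χ' x : R) = χ x

/-- **Existence of the twist** (from `SCa`, `SCb`, `SDesc`, 60 lines; as `SG2`, module `G2`).
Proof. `F`, `ψ`, `H` from `SCa`; for `α ∈ H` let `θ`, `χ'` be as in `SCb`. `F` is an algebra over the infinite field `K = FractionRing R` by the extension of `ψ`. `SDesc` with `J = A`, `A x` the matrix of `ρ (α x)` over `K`, `B x = χ' x • θ(ρ x)` over `K`, and the `g` of `SCa` gives the matrix `h`. -/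
def SCc : Prop :=
  ∀ (A : Type) [Group A], Group.FG A → ∀ (R : Type) [CommRing R] [IsDomain R]
    [IsIntegrallyClosed R] [Algebra ℂ R] (ι : Type) [Fintype ι] [DecidableEq ι]
    (ρ : A →* GL ι R), RFam ρ → ∃ H : Subgroup (MulAut A), H.FiniteIndex ∧
      ∀ α ∈ H, ∃ θ : R →ₐ[ℂ] R, Twf ρ α.toMonoidHom θ

/-- **Uniqueness** (100 lines; as `SG3`, module `G3`).
Proof. Let `s ∈ S` (`Eig`), `c = χ s`. Comparing characteristic polynomials over `K`: `∏ (X - u j) ^ m j = ∏ (X - c θ (u j)) ^ m j`, on both sides different roots with different multiplicities, so `u j = c θ (u j)` for all `j` (`Polynomial.rootMultiplicity`). As one `u j` is `1`: `c = 1`, `θ (u j) = u j`. The roots and their inverses generate `R`. -/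
def SCd : Prop :=
  ∀ (A : Type) [Group A] (R : Type) [CommRing R] [IsDomain R] [Algebra ℂ R]
    (ι : Type) [Fintype ι] [DecidableEq ι] (ρ : A →* GL ι R), Eig ρ →
    ∀ θ : R →ₐ[ℂ] R, Twf ρ (MonoidHom.id A) θ → θ = AlgHom.id ℂ R

/-- **Composition** (50 lines; as `SG4`, module `G4`).
Proof. `ρ (f (h x)) = χ (h x) • g θ(ρ (h x)) g⁻¹` and `ρ (h x) = χ' x • k η(ρ x) k⁻¹`; apply `θ`, extended to the field of fractions (it is injective), to the second one. -/
def SCe : Prop :=
  ∀ (A : Type) [Group A] (R : Type) [CommRing R] [IsDomain R] [Algebra ℂ R]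
    (ι : Type) [Fintype ι] [DecidableEq ι] (ρ : A →* GL ι R) (f h : A →* A) (θ η : R →ₐ[ℂ] R),
    Twf ρ f θ → Twf ρ h η → Twf ρ (f.comp h) (θ.comp η)

/-- **Stabilizers of curves** (80 lines; as `SStab`, module `Stab`).
Proof. Let `S` be the set of the ideals `span {θ p}`, `θ ∈ Γ`. For `θ ∈ Γ`: `I ≤ span {θ p}`, and `θ p` is prime. Each `P ∈ S` is a minimal prime over `I`: if `I ≤ P' ≤ P = span {p'}`, `P'` prime, `P' ≠ P`, then `p' ∉ P'`, so all elements of `P'` are divisible by all powers of `p'`, so `P' = ⊥` (a nonzero element of a Noetherian domain is divisible only by finitely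
many powers of a prime), but `I ≠ ⊥`. So `S` is finite (`Ideal.finite_minimalPrimes_of_isNoetherianRing`), and the stabilizer of `span {p}` has finite index. -/
def SStb : Prop :=
  ∀ (R : Type) [CommRing R] [IsDomain R] [IsNoetherianRing R] [Algebra ℂ R]
    (Γ : Subgroup (R ≃ₐ[ℂ] R)) (I : Ideal R) (p : R), Prime p → I ≠ ⊥ →
    I ≤ Ideal.span {p} → (∀ θ ∈ Γ, ∀ x ∈ I, θ x ∈ I) →
    ∃ Γ' : Subgroup (R ≃ₐ[ℂ] R), Γ' ≤ Γ ∧ (Γ'.subgroupOf Γ).FiniteIndex ∧
      ∀ θ ∈ Γ', Ideal.span {θ p} = Ideal.span {p}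

/-- **A finite index subgroup acts by twists with the same parameters** (from `SCc`, `SCd`, `SCe`, `SStb`, 100 lines; as `SG6`, `SFinA`, modules `G6`, `FinA`).
Proof. Let `H` be as in `SCc`. For `α ∈ H` and `Twf α θ`, `Twf α⁻¹ η`: `Twf 1 (θ ∘ η)`, `Twf 1 (η ∘ θ)`, so `θ ∘ η = id = η ∘ θ` and `θ` is an automorphism, determined by `α`. So there is a homomorphism `Θ : H →* (R ≃ₐ[ℂ] R)` with `Twf α (Θ α)`. Its range `Γ` preserves the ideals `I i` (`StabI`), so by `SStb` the subgroup of the `θ ∈ Γ` which preserve all `span {p i}` has finite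
index in `Γ`, and it is finite (`FinP`). So `Γ` is finite, the kernel of `Θ` has finite index in `H`, and its image in `MulAut A` has finite index. -/
def SCf : Prop :=
  ∀ (A : Type) [Group A], Group.FG A → ∀ (R : Type) [CommRing R] [IsDomain R]
    [IsIntegrallyClosed R] [IsNoetherianRing R] [Algebra ℂ R] (ι : Type) [Fintype ι]
    [DecidableEq ι] (ρ : A →* GL ι R), RFam ρ → ∃ H : Subgroup (MulAut A), H.FiniteIndex ∧
      ∀ α ∈ H, Twf ρ α.toMonoidHom (AlgHom.id ℂ R)

/-- **A finite index subgroup acts by twists with the same parameters** (from `SCe`, `SStb`, 100 lines; as `SG6`, `SFinA`, modules `G6`, `FinA`).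
Proof. Let `H` be as in the hypothesis. For `α ∈ H` and `Twf α θ`, `Twf α⁻¹ η`: `Twf 1 (θ ∘ η)`, `Twf 1 (η ∘ θ)`, so `θ ∘ η = id = η ∘ θ` and `θ` is an automorphism, determined by `α`. So there is a homomorphism `Θ : H →* (R ≃ₐ[ℂ] R)` with `Twf α (Θ α)`. Its range `Γ` preserves the ideals `I i` (`StabI`), so by `SStb` the subgroup of the `θ ∈ Γ` which preserve all `span {p i}` has finite
index in `Γ`, and it is finite (`FinP`). So `Γ` is finite, the kernel of `Θ` has finite index in `H`, and its image in `MulAut A` has finite index. -/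
def SCw : Prop :=
  ∀ (A : Type) [Group A] (R : Type) [CommRing R] [IsDomain R] [IsNoetherianRing R] [Algebra ℂ R]
    (ι : Type) [Fintype ι] [DecidableEq ι] (ρ : A →* GL ι R),
    (∀ θ : R →ₐ[ℂ] R, Twf ρ (MonoidHom.id A) θ → θ = AlgHom.id ℂ R) → FinP ρ →
    (∃ H : Subgroup (MulAut A), H.FiniteIndex ∧
      ∀ α ∈ H, ∃ θ : R →ₐ[ℂ] R, Twf ρ α.toMonoidHom θ) →
    ∃ H : Subgroup (MulAut A), H.FiniteIndex ∧
      ∀ α ∈ H, Twf ρ α.toMonoidHom (AlgHom.id ℂ R)

/-- **The properties `uniq` and `eta` from `Eig`** (from `SCd`, 60 lines).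
Proof. `uniq`: `SCd`. If `g ρ(x) g⁻¹ = η x • ρ x` (entries mapped by `j`) then for `s ∈ S` (`Eig`) the characteristic polynomials `∏ (X - j (u k)) ^ m k` and `∏ (X - η s * j (u k)) ^ m k` are equal, with different multiplicities, so `η s = 1` (one `u k` is `1`), and `S` generates. -/
def SEig : Prop :=
  ∀ (A : Type) [Group A] (R : Type) [CommRing R] [IsDomain R] [Algebra ℂ R]
    (ι : Type) [Fintype ι] [DecidableEq ι] (ρ : A →* GL ι R), Eig ρ →
    (∀ θ : R →ₐ[ℂ] R, Twf ρ (MonoidHom.id A) θ → θ = AlgHom.id ℂ R) ∧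
    ∀ (j : R →+* KK) (η : A →* KKˣ) (g : GL ι KK), Function.Injective j →
      (∀ x, g.1 * (ρ x).1.map j * (g⁻¹).1 = (η x : KK) • (ρ x).1.map j) → η = 1

/-- **The property `eta` from nonzero traces** (20 lines).
Proof. Take traces: `η s = 1` for `s ∈ S`. -/
def STrc : Prop :=
  ∀ (A : Type) [Group A] (K : Type) [Field K] (ι : Type) [Fintype ι] [DecidableEq ι]
    (ρ : A →* GL ι K) (S : Set A), Subgroup.closure S = ⊤ → (∀ s ∈ S, (ρ s).1.trace ≠ 0) →
    ∀ (η : A →* Kˣ) (g : GL ι K), (∀ x, g.1 * (ρ x).1 * (g⁻¹).1 = (η x : K) • (ρ x).1) → η = 1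

/-- **From `RFam` to `TFam`** (from `STrans`, `SCc`, `SEig`, 20 lines). -/
def SRT : Prop :=
  ∀ (B : Type) [Group B] (R : Type) [CommRing R] [IsDomain R] [IsIntegrallyClosed R]
    [Algebra ℂ R] (ι : Type) [Fintype ι] [DecidableEq ι] [Nonempty ι] (ρ : B →* GL ι R),
    RFam ρ → TFam ρ

/-- **The machine** (from `SSpan`, `SCw`, 200 lines).
Proof. `uniq` and `FinP` for `ρ.comp r`: the same ideals and primes; if `Twf (ρ.comp r) f θ` then `Twf ρ (r ∘ f ∘ i) θ`. `H` from `SCw` for `ρ.comp r` and `TFam.tw`. `ρ` with matrices over `KK` (`j` applied to the entries). Irreducibility: `SSpan`. `TS`: `χ` composed with `Rˣ → KKˣ`, `g` mapped by the extension of `j` to the field of fractions (`θ = id`).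
Scalars: if `j (ρ z)` is scalar then so is `mK ρ z` (`j` is injective). -/
def SMach : Prop :=
  ∀ (B : Type) [Group B] (R : Type) [CommRing R] [IsDomain R] [IsNoetherianRing R] [Algebra ℂ R]
    (ι : Type) [Fintype ι] [DecidableEq ι] [Nonempty ι] (ρ : B →* GL ι R), TFam ρ →
    (∃ j : R →+* KK, Function.Injective j) →
    (∀ z, (∃ a : FractionRing R, mK ρ z = a • (1 : Matrix ι ι (FractionRing R))) →
      ∀ b, z * b = b * z) →
    (∀ z : B, (∀ b, z * b = b * z) → (∀ φ : B →* Multiplicative ℤ, φ z = 1) → z = 1) → Good B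

end machine

section ideals

/-- **The ideals are invariant** (80 lines; as `SIdE`, module `IdE`).
Proof. Taking traces in `Twf`: `trace (ρ (f x)) = χ x * θ (trace (ρ x))` in `R`. So `θ (trace ρ (z * cmy k x y) - trace ρ z) = (χ z)⁻¹ (trace ρ (f z * cmy k (f x) (f y)) - trace ρ (f z))`, as `χ` is trivial on commutators, and `θ (det (trace ρ (x i * x j)))` is a unit times `det (trace ρ (f (x i) * f (x j)))`. -/
def SJst : Prop :=
  ∀ (A : Type) [Group A] (R : Type) [CommRing R] [IsDomain R] [Algebra ℂ R]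
    (ι : Type) [Fintype ι] [DecidableEq ι] (ρ : A →* GL ι R),
    (∀ k, StabI ρ (J1 k ρ)) ∧ StabI ρ (J2 ρ)

/-- **The ideals are not zero** (100 lines; as `SIdC` and the first lines of `SIdA`).
Proof. `J1`: if it is zero then with `Y` the matrix of `cmy k x y` over the field of fractions: `trace (ρ z * (Y - 1)) = 0` for all `z`, so `trace (Z * (Y - 1)) = 0` for all matrices `Z` and `Y = 1`, so `ρ (cmy k x y) = 1`. `J2`: choose `x i` with independent matrices `Y i`; if `∑ j, c j * trace (Y i * Y j) = 0` for all `i` then `Y = ∑ j, c j • Y j` is zero, `c = 0`. -/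
def SJnz : Prop :=
  ∀ (A : Type) [Group A] (R : Type) [CommRing R] [IsDomain R] [Algebra ℂ R]
    (ι : Type) [Fintype ι] [DecidableEq ι] (ρ : A →* GL ι R),
    Submodule.span (FractionRing R) (Set.range fun x : A => mK ρ x) = ⊤ →
    (∀ (k : ℕ) (x y : A), ρ (x ^ k * y ^ k) ≠ ρ (y ^ k * x ^ k) → J1 k ρ ≠ ⊥) ∧ J2 ρ ≠ ⊥

/-- **The ideals and special parameters** (80 lines; as `SIdB`, `SIdD`).
Proof. `J1`: the image of `cmy k x y` is the identity, so `φ` maps the generators to `0`. `J2`: for every family `x i`, `i ∈ ι × ι`, the matrices `φ (ρ (x i))` are linearly dependent, so the determinant is mapped to `0`. Last part: `ρ (x ^ N!)` is diagonal, as `σ ^ N! = 1`. -/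
def SJle : Prop :=
  ∀ (A : Type) [Group A] (R : Type) [CommRing R] [IsDomain R] [Algebra ℂ R]
    (ι : Type) [Fintype ι] [DecidableEq ι] (ρ : A →* GL ι R) (K : Type) [Field K] (φ : R →+* K)
    (p : R), (∀ x, φ x = 0 → x ∈ Ideal.span {p}) →
    (∀ k : ℕ, (∀ x y : A, (ρ (x ^ k * y ^ k)).1.map φ = (ρ (y ^ k * x ^ k)).1.map φ) →
      J1 k ρ ≤ Ideal.span {p}) ∧
    (Submodule.span K (Set.range fun x : A => (ρ x).1.map φ) ≠ ⊤ → J2 ρ ≤ Ideal.span {p}) ∧
    ((∀ x : A, ∃ (σ : Equiv.Perm ι) (c : ι → K), ∀ b,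
      ((ρ x).1.map φ).mulVec (Pi.single b (1 : K)) = c b • (Pi.single (σ b) (1 : K) : ι → K)) →
      J1 (Fintype.card ι).factorial ρ ≤ Ideal.span {p})

/-- **The center** (100 lines).
Proof. `ρ z` commutes with all `ρ b`, so (`irr`) it is a scalar `a` of the field of fractions, a diagonal entry of `ρ z`, so `a` is the image of `c ∈ R`. `det ∘ ρ : B →* Rˣ` is trivial on `z` (hypothesis on commutative groups), so `c ^ N = 1`, `N = card ι > 0`. `X ^ N - 1` splits over `ℂ` and `R` is a domain, so `c = algebraMap ζ`, `ζ ∈ ℂ`. `φ` and `v`: `ζ • v = v`, so `ζ = 1`, `ρ z = 1`, `z = 1`. -/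
def SAbO : Prop :=
  ∀ (B : Type) [Group B] (R : Type) [CommRing R] [IsDomain R] [Algebra ℂ R]
    (ι : Type) [Fintype ι] [DecidableEq ι] [Nonempty ι] (ρ : B →* GL ι R), Function.Injective ρ →
    Submodule.span (FractionRing R) (Set.range fun x : B => mK ρ x) = ⊤ →
    (∃ (φ : R →ₐ[ℂ] ℂ) (v : ι → ℂ), v ≠ 0 ∧ ∀ b, ((ρ b).1.map φ).mulVec v = v) →
    ∀ z : B, (∀ b, z * b = b * z) → (∀ (Q : Type) [CommGroup Q] (φ : B →* Q), φ z = 1) → z = 1

end ideals

section groups

variable {n : ℕ}

/-- Linked nodes. -/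
def lnk (M : CoxeterMatrix (Fin n)) (i j : Fin n) : Prop := i ≠ j ∧ M.M i j ≠ 2

/-- The diagram is connected. -/
def Cn (M : CoxeterMatrix (Fin n)) : Prop := ∀ i j, Relation.ReflTransGen (lnk M) i j

/-- `M` is `N` with another numbering of the nodes. -/
def Ren (M : CoxeterMatrix (Fin n)) {k : ℕ} (N : CoxeterMatrix (Fin k)) : Prop :=
  ∃ e : Fin k ≃ Fin n, ∀ i j, M.M (e i) (e j) = N.M i j

/-- The alternating product `a b a ...` with `m` factors. -/
def alt {G : Type} [Monoid G] (a b : G) (m : ℕ) : G :=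
  ((List.range m).map fun k => if k % 2 = 0 then a else b).prod

/-- **The universal property of the Artin group** (60 lines).
Proof. `PresentedGroup.toGroup`; `FreeGroup.lift` maps the products to `alt`; `map_list_prod`. The relations give `alt` for the generators. Second part: generators. -/
def SArt : Prop :=
  ∀ (n : ℕ) (M : CoxeterMatrix (Fin n)),
    (∀ i j, alt (gn M i) (gn M j) (M.M i j) = alt (gn M j) (gn M i) (M.M i j)) ∧
    (∀ (G : Type) [Group G] (f : Fin n → G),
      (∀ i j, alt (f i) (f j) (M.M i j) = alt (f j) (f i) (M.M i j)) →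
      ∃ φ : Art M →* G, ∀ i, φ (gn M i) = f i) ∧
    (∀ (G : Type) [Group G] (φ ψ : Art M →* G), (∀ i, φ (gn M i) = ψ (gn M i)) → φ = ψ) ∧
    Subgroup.closure (Set.range (gn M)) = ⊤ ∧ Group.FG (Art M)

/-- **The abelianization is free abelian** (from `SArt`, 120 lines).
Proof. For a commutative group the relation of `i, j` holds if and only if `M i j` is even or the images are equal. Let `~` be the equivalence relation on the nodes generated by the `i, j` with `M i j` odd. For every class `κ` there is `deg κ : Art M →* Multiplicative ℤ` with `gn i ↦ 1` (generator) for `i ∈ κ`, `0` otherwise. For `φ : Art M →* Q`, `φ (gn i)` depends only on the class of `i`, and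
`φ x = ∏ κ, φ (g κ) ^ deg κ x` (both sides are homomorphisms). -/
def SAbI : Prop :=
  ∀ (n : ℕ) (M : CoxeterMatrix (Fin n)) (z : Art M), (∀ φ : Art M →* Multiplicative ℤ, φ z = 1) →
    ∀ (Q : Type) [CommGroup Q] (φ : Art M →* Q), φ z = 1

/-- **Other numberings** (from `SArt`, 60 lines).
Proof. `SArt` gives homomorphisms in both directions, inverse to each other on generators. `Good` only depends on the isomorphism class: replace `i, r, ρ` by `i ∘ e.symm`, `e ∘ r`, `ρ ∘ e`. -/
def SRen : Prop :=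
  (∀ (B B' : Type) [Group B] [Group B'], Nonempty (B ≃* B') → Good B → Good B') ∧
  ∀ (n k : ℕ) (M : CoxeterMatrix (Fin n)) (N : CoxeterMatrix (Fin k)), Ren M N →
    Good (Art N) → Good (Art M)

/-- **Components** (from `SArt`, 250 lines).
Proof. `m = n`; for `s : Fin n` let `C` be the set of the `t` with `ReflTransGen (lnk M) s t` (finite, `C ≃ Fin k`), `N` the restriction of `M`. If `i ∈ C`, `j ∉ C` then `M i j = 2` (and `M j i = 2`). `i` and `r` (`r (gn j) = 1` for `j ∉ C`) from `SArt`. `Fac`: for all `a` the element `(i (r a))⁻¹ * a` commutes with `i b` for all `b` (the `a` with this property are closed under products and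
inverses and contain the generators). For a set `U` of nodes which is a union of components let `r U : Art M →* Art M` be the endomorphism with `gn j ↦ gn j` for `j ∈ U` and `gn j ↦ 1` for `j ∉ U`. If `U = C ∪ U'` (disjoint, `C` a component) then `r U z = r C z * r U' z` (the right side is a homomorphism as the images commute), and `r C = i ∘ r`. So if `r z = 1` for all components then
`r U z = 1` by induction on the number of elements of `U`; `r univ z = z`. `Cn`: a path in `C` from `s`. Finiteness: the homomorphism `M.Group → N.Group` which maps the generators outside of `C` to `1` is surjective (`CoxeterSystem`, or `PresentedGroup`). -/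
def SCms : Prop :=
  ∀ (n : ℕ) (M : CoxeterMatrix (Fin n)), Finite M.Group →
    ∃ (k : Fin n → ℕ) (N : ∀ c, CoxeterMatrix (Fin (k c))) (i : ∀ c, Art (N c) →* Art M)
      (r : ∀ c, Art M →* Art (N c)), (∀ c, Fac (i c) (r c)) ∧
      (∀ z, (∀ c, r c z = 1) → z = 1) ∧ ∀ c, Cn (N c) ∧ 0 < k c ∧ Finite (N c).Group

/-- **The action on the matrices** (60 lines; as `SAd`, module `Ad`).
Proof. As for `SAd`: for `α ∈ H` choose `χ, g` as in `TS`, and let `Φ α` be the linear map `Y ↦ g Y g⁻¹` of the space of matrices. It does not depend on the choice by the hypothesis on `η`. -/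
def SAdj : Prop :=
  ∀ (A : Type) [Group A] (K : Type) [Field K] (d : Type) [Fintype d] [DecidableEq d]
    (ρ : A →* GL d K) (H : Subgroup (MulAut A)),
    Submodule.span K (Set.range fun x => (ρ x).1) = ⊤ →
    (∀ (η : A →* Kˣ) (g : GL d K), (∀ x, g.1 * (ρ x).1 * (g⁻¹).1 = (η x : K) • (ρ x).1) → η = 1) →
    (∀ α ∈ H, TS ρ α) → ∃ (r : ℕ) (Φ : H →* GL (Fin r) K), ∀ α : H, Φ α = 1 →
      ∃ χ : A →* Kˣ, ∀ x, (ρ (α.1 x)).1 = (χ x : K) • (ρ x).1

/-- **Assembly of the components** (from `SInd`, `SBlk`, `SAdj`, `SAb`, 80 lines; as `SAsm`, module `Asm`).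
Proof. `ρ c` from `Good.cd` for `A`, `i c`, `r c`, and `ρ c ∘ r c` satisfies the hypotheses of `SAdj`: if `g ρ(r x) g⁻¹ = η x • ρ(r x)` then `η = 1` on `ker r` (the matrices are not empty), `η ∘ i` is trivial by `Good.cd`, and `x = i (r x) * (an element of ker r)`. Let `H` be the intersection of the `H c`. If `α ∈ H` is in the kernel of all `Φ c` and of `Ψ` (`SAb`, `K = KK`, a finite generating
set of `A`) and `z = x⁻¹ * α x` then `ρ c (r c z)` is scalar, so `r c z` is central; for `φ : B c →* Multiplicative ℤ` the map `φ ∘ r c` composed with `ℤ → KK` has the same value at `x` and `α x`, so `φ (r c z) = 1` (characteristic 0). `Good.ab`: `r c z = 1` for all `c`, `z = 1`. -/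
def SAll : Prop :=
  ∀ (A : Type) [Group A], Group.FG A → ∀ (m : ℕ) (B : Fin m → Type) [∀ c, Group (B c)]
    (i : ∀ c, B c →* A) (r : ∀ c, A →* B c), (∀ c, Fac (i c) (r c)) →
    (∀ c, Good (B c)) → (∀ z, (∀ c, r c z = 1) → z = 1) → LinOver KK (MulAut A)

/-- **The infinite cyclic group** (from `SArt`, 60 lines).
Proof. `N = 1`: `Art M` is commutative (one generator) and there is `φ : Art M →* Multiplicative ℤ` with `gn 0 ↦` the generator; `x = gn 0 ^ k`, `φ x = 1` gives `k = 0`. `d = Fin 1`, `ρ = 1`, `H = ⊤`. -/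
def SOne : Prop := ∀ M : CoxeterMatrix (Fin 1), Good (Art M)

/-- **Simply laced types** (from `SRT`, `SMach`, `SJst`, `SJnz`, `SJle`, `SAbO`, `SAbI`, `SArt` and the statements of the simply laced case).
Proof. `R = R2`, `ρ = LKr M univ qq ll`, `RFam`: `SLkGen`, `SIrr`, `SRig` (as in module `G0`), `SChar`, `SFinU`, `SIdA`, `SIdB`, `SIdC`, `SIdD`, `SKerQ`, `SKerF`. Faithful: `SFai`. For `SAbO`: `qq, ll ↦ 1`, `v = (1, .., 1)` (`SLkW` with `F.eval 1 = 1`). -/
def SSlg : Prop :=
  ∀ (n : ℕ) (M : CoxeterMatrix (Fin n)), 3 ≤ n → SL M → RF M → FH M (fh M) → Cn M → Good (Art M)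

/-- **Classification.** -/
def SCls : Prop :=
  ∀ (n : ℕ) (M : CoxeterMatrix (Fin n)), Finite M.Group → Cn M → 0 < n →
    n = 1 ∨ (∃ m, 1 ≤ m ∧ Ren M (CoxeterMatrix.I m)) ∨ (3 ≤ n ∧ SL M) ∨
      (3 ≤ n ∧ Ren M (CoxeterMatrix.B n)) ∨ Ren M CoxeterMatrix.F₄ ∨ Ren M CoxeterMatrix.H₃ ∨
      Ren M CoxeterMatrix.H₄

/-- **The types.** -/
structure Types : Prop where
  I : ∀ m, 1 ≤ m → Good (Art (CoxeterMatrix.I m))
  B : ∀ n, 3 ≤ n → Good (Art (CoxeterMatrix.B n))
  F : Good (Art CoxeterMatrix.F₄)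
  H3 : Good (Art CoxeterMatrix.H₃)
  H4 : Good (Art CoxeterMatrix.H₄)

/-- **The main theorem** (from `SArt`, `SRen`, `SCms`, `SAll`, `SOne`, `SSlg`, `SCls`, `Types`). -/
def SFinal : Prop :=
  ∀ (n : ℕ) (M : CoxeterMatrix (Fin n)), Finite M.Group → LinOver KK (MulAut (Art M))

end groups

end Pool.Agent.Lib.MP_97567f_al.U
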