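import Pool.Agent.Lib.MP_97567f_al.SpecD

/-!
# MP_97567f_al: unfolding, part A: divisibility in the positive monoid of a simply laced Artin group

`Ps g x`: `x` is a product of the elements `g i`. `PG g ad L`: the positive monoid generated by the `g i` has the
divisibility properties of a simply laced Artin monoid. `pg_of_hee`: this holds for the simply laced Artin groups of
finite type (from the positivity statement `SHee`).
-/

set_option autoImplicit false

namespace Pool.Agent.Lib.MP_97567f_al.U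

open Polynomial

/-- The positive elements: products of the elements `g i`. -/
def Ps {I G : Type} [Group G] (g : I → G) (x : G) : Prop := ∃ w : List I, x = (w.map g).prod

/-- The divisibility properties of a simply laced Artin monoid in a group. -/
structure PG {I G : Type} [Group G] (g : I → G) (ad : I → I → Prop)
    (L : G →* Multiplicative ℤ) : Prop where
  sym : ∀ i j, ad i j → ad j i
  irr : ∀ i, ¬ ad i i
  co : ∀ i j, i ≠ j → ¬ ad i j → g i * g j = g j * g i
  br : ∀ i j, ad i j → g i * g j * g i = g j * g i * g j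
  len : ∀ i, L (g i) = Multiplicative.ofAdd 1
  d1 : ∀ i j y, i ≠ j → ¬ ad i j → Ps g y → Ps g ((g j)⁻¹ * (g i * y)) → Ps g ((g j)⁻¹ * y)
  d2 : ∀ i j y, ad i j → Ps g y → Ps g ((g j)⁻¹ * (g i * y)) →
    Ps g ((g i)⁻¹ * ((g j)⁻¹ * y))

section basic

variable {I G : Type} [Group G] {g : I → G}

theorem Ps.one : Ps g 1 := ⟨[], by simp⟩

theorem Ps.gen (i : I) : Ps g (g i) := ⟨[i], by simp⟩

theorem Ps.mul {x y : G} (hx : Ps g x) (hy : Ps g y) : Ps g (x * y) := by
  obtain ⟨u, rfl⟩ := hx
  obtain ⟨v, rfl⟩ := hy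
  exact ⟨u ++ v, by rw [List.map_append, List.prod_append]⟩

theorem Ps.gmul {x : G} (i : I) (hx : Ps g x) : Ps g (g i * x) := (Ps.gen i).mul hx

theorem Ps.list (T : List I) : Ps g ((T.map g).prod) := ⟨T, rfl⟩

theorem Ps.pow {x : G} (hx : Ps g x) (k : ℕ) : Ps g (x ^ k) := by
  induction k with
  | zero => rw [pow_zero]; exact Ps.one
  | succ k ih => rw [pow_succ]; exact ih.mul hx

/-- If `u` divides, then so does every left factor of `u`. -/
theorem Ps.of_inv {u x : G} (hu : Ps g u) (h : Ps g (u⁻¹ * x)) : Ps g x := by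
  have := hu.mul h
  rwa [mul_inv_cancel_left] at this

theorem Ps.len_nonneg {L : G →* Multiplicative ℤ} (hL : ∀ i, L (g i) = Multiplicative.ofAdd 1)
    {x : G} (h : Ps g x) : 0 ≤ Multiplicative.toAdd (L x) := by
  obtain ⟨w, rfl⟩ := h
  induction w with
  | nil => simp
  | cons a w ih =>
    rw [List.map_cons, List.prod_cons, map_mul, hL, toAdd_mul, toAdd_ofAdd]
    omega

theorem Ps.len_list {L : G →* Multiplicative ℤ} (hL : ∀ i, L (g i) = Multiplicative.ofAdd 1)
    (w : List I) : Multiplicative.toAdd (L ((w.map g).prod)) = w.length := by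
  induction w with
  | nil => simp
  | cons a w ih =>
    rw [List.map_cons, List.prod_cons, map_mul, hL, toAdd_mul, toAdd_ofAdd, ih,
      List.length_cons]
    push_cast
    ring

/-- A positive element of length zero is trivial. -/
theorem Ps.eq_one {L : G →* Multiplicative ℤ} (hL : ∀ i, L (g i) = Multiplicative.ofAdd 1)
    {x : G} (h : Ps g x) (h0 : Multiplicative.toAdd (L x) ≤ 0) : x = 1 := by
  obtain ⟨w, rfl⟩ := h
  rw [Ps.len_list hL] at h0
  have : w = [] := List.length_eq_zero_iff.1 (by omega)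
  rw [this]
  simp

/-- A positive element of length one is a generator. -/
theorem Ps.eq_gen {L : G →* Multiplicative ℤ} (hL : ∀ i, L (g i) = Multiplicative.ofAdd 1)
    {x : G} (h : Ps g x) (h0 : Multiplicative.toAdd (L x) = 1) : ∃ i, x = g i := by
  obtain ⟨w, rfl⟩ := h
  rw [Ps.len_list hL] at h0
  have h1 : w.length = 1 := by omega
  obtain ⟨i, rfl⟩ := List.length_eq_one_iff.1 h1
  exact ⟨i, by simp⟩

/-- A positive element is trivial or divisible by a generator. -/
theorem Ps.cases {x : G} (h : Ps g x) : x = 1 ∨ ∃ i y, Ps g y ∧ x = g i * y := by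
  obtain ⟨w, rfl⟩ := h
  cases w with
  | nil => left; simp
  | cons a w => right; exact ⟨a, _, Ps.list w, by simp⟩

end basic

section hee

variable {n : ℕ} {M : CoxeterMatrix (Fin n)}

/-- The product of the matrices. -/
private noncomputable def UA_P (M : CoxeterMatrix (Fin n)) {R : Type} [CommRing R] (q l : R)
    (w : List (Fin n)) : Matrix (PR M Finset.univ) (PR M Finset.univ) R :=
  (w.map (lk M Finset.univ q l)).prod

private theorem UA_P_cons {R : Type} [CommRing R] (q l : R) (s : Fin n) (w : List (Fin n)) :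
    UA_P M q l (s :: w) = lk M Finset.univ q l s * UA_P M q l w := by
  unfold UA_P
  rw [List.map_cons, List.prod_cons]

private theorem UA_aeval {R R' : Type} [CommRing R] [CommRing R'] (φ : R →+* R') (q : R)
    (p : Polynomial ℤ) : φ (aeval q p) = aeval (φ q) p := by
  rw [aeval_def, aeval_def, hom_eval₂]
  congr 1
  exact RingHom.ext_int _ _

private theorem UA_xv (C : Finset (Fin n)) {R R' : Type} [CommRing R] [CommRing R']
    (φ : R →+* R') (b : Fin n → ℤ) (g : PR M C) :
    φ (xv M C b g) = xv M C b g := by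
  unfold xv
  split_ifs
  · exact map_one φ
  · exact map_zero φ

private theorem UA_lk (C : Finset (Fin n)) {R R' : Type} [CommRing R] [CommRing R']
    (φ : R →+* R') (q l : R) (s : Fin n) :
    (lk M C q l s).map φ = lk M C (φ q) (φ l) s := by
  ext g b
  change φ (img M C q l s b.1 g) = img M C (φ q) (φ l) s b.1 g
  unfold img
  split_ifs <;> simp only [Pi.add_apply, Pi.smul_apply, smul_eq_mul, map_add, map_mul, map_sub,
    map_one, UA_xv, UA_aeval]

private theorem UA_P_map {R R' : Type} [CommRing R] [CommRing R'] (φ : R →+* R') (q l : R)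
    (w : List (Fin n)) : (UA_P M q l w).map φ = UA_P M (φ q) (φ l) w := by
  induction w with
  | nil =>
    unfold UA_P
    rw [List.map_nil, List.map_nil, List.prod_nil, List.prod_nil]
    exact Matrix.map_one φ (map_zero φ) (map_one φ)
  | cons s w ih =>
    rw [UA_P_cons, UA_P_cons, Matrix.map_mul, ih, UA_lk]

private theorem UA_entry_nonneg (s : Fin n) (g b : PR M Finset.univ) :
    0 ≤ lk M Finset.univ (1 / 2 : ℚ) 0 s g b := by
  change 0 ≤ img M Finset.univ (1 / 2 : ℚ) 0 s b.1 g
  have hx : ∀ c : Fin n → ℤ, (0 : ℚ) ≤ xv M Finset.univ c g := by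
    intro c
    unfold xv
    split_ifs <;> norm_num
  unfold img
  have h1 := hx (b.1 + e s)
  have h2 := hx b.1
  have h3 := hx (b.1 - e s)
  split_ifs <;> simp only [Pi.add_apply, Pi.smul_apply, smul_eq_mul, zero_mul, add_zero] <;>
    first | exact le_refl _ | linarith

private theorem UA_P_nonneg (w : List (Fin n)) (g b : PR M Finset.univ) :
    0 ≤ UA_P M (1 / 2 : ℚ) 0 w g b := by
  induction w generalizing g with
  | nil =>
    unfold UA_P
    rw [List.map_nil, List.prod_nil, Matrix.one_apply]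
    split_ifs <;> norm_num
  | cons s w ih =>
    rw [UA_P_cons, Matrix.mul_apply]
    exact Finset.sum_nonneg fun c _ => mul_nonneg (UA_entry_nonneg s g c) (ih c)

/-- If the entry of the product is zero then so is the entry of the second factor. -/
private theorem UA_P_zero {s : Fin n} {w : List (Fin n)} {g c b : PR M Finset.univ}
    (h1 : 0 < lk M Finset.univ (1 / 2 : ℚ) 0 s g c) (h2 : UA_P M (1 / 2 : ℚ) 0 (s :: w) g b = 0) :
    UA_P M (1 / 2 : ℚ) 0 w c b = 0 := by
  rw [UA_P_cons, Matrix.mul_apply] at h2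
  have h3 := (Finset.sum_eq_zero_iff_of_nonneg (fun c _ => mul_nonneg (UA_entry_nonneg s g c)
    (UA_P_nonneg w c b))).1 h2 c (Finset.mem_univ c)
  exact (mul_eq_zero.1 h3).resolve_left h1.ne'

private theorem UA_e_inj {s t : Fin n} (h : e s = e t) : s = t := by
  by_contra hne
  have h1 := congrFun h s
  unfold e at h1
  rw [Pi.single_eq_same, Pi.single_eq_of_ne hne] at h1
  exact one_ne_zero h1

private theorem UA_e_ne_zero (s : Fin n) : e s ≠ 0 := by
  intro h
  have h1 := congrFun h s
  unfold e at h1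
  rw [Pi.single_eq_same] at h1
  exact one_ne_zero h1

private theorem UA_wd_cons (s : Fin n) (w : List (Fin n)) :
    wd M (s :: w) = gn M s * wd M w := by
  unfold wd
  rw [List.map_cons, List.prod_cons]

private theorem UA_Pw (w : List (Fin n)) (g b : PR M Finset.univ) :
    (Pw M w g b).eval 0 = UA_P M (1 / 2 : ℚ) 0 w g b := by
  have h3 := UA_P_map (M := M) (Polynomial.evalRingHom (0 : ℚ)) (C (1 / 2)) X w
  rw [coe_evalRingHom, eval_C, eval_X] at h3
  rw [← h3]
  rfl

/-- Diagonal entries at a simple root. -/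
private theorem UA_diag (hF : RF M) {i j : Fin n} (hij : i ≠ j) {g : PR M Finset.univ}
    (hg : g.1 = e j) : 0 < lk M Finset.univ (1 / 2 : ℚ) 0 i g g := by
  have hes : e j ≠ e i := fun h => hij (UA_e_inj h).symm
  change 0 < img M Finset.univ (1 / 2 : ℚ) 0 i g.1 g
  have hx1 : xv M Finset.univ (R := ℚ) (e j) g = 1 := by
    unfold xv
    rw [if_pos hg]
  by_cases hadj : adj M j i
  · unfold img
    rw [hg, if_neg hes, hF.a.pra j i hadj, if_pos rfl, zero_mul, zero_smul, add_zero,
      Pi.add_apply, Pi.smul_apply]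
    have hx : xv M Finset.univ (R := ℚ) (e j + e i) g = 0 := by
      unfold xv
      rw [if_neg]
      rw [hg]
      intro h
      have := congrArg (fun x => x - e j) h
      simp at this
      exact UA_e_ne_zero i this.symm
    rw [hx, hx1]
    norm_num
  · unfold img
    rw [hg, if_neg hes, hF.a.prn j i hij.symm hadj, if_neg (by norm_num),
      if_neg (by norm_num), zero_mul, zero_smul, add_zero, hx1]
    norm_num

/-- The entry of `lk i` at `(e j, e i + e j)`. -/
private theorem UA_down (hF : RF M) {i j : Fin n} (h : adj M i j) {g c : PR M Finset.univ}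
    (hg : g.1 = e j) (hc : c.1 = e j + e i) : 0 < lk M Finset.univ (1 / 2 : ℚ) 0 i g c := by
  change 0 < img M Finset.univ (1 / 2 : ℚ) 0 i c.1 g
  unfold img
  have hp : pr M (e j + e i) i = 1 := by
    rw [hF.a.pr_add, hF.a.pra j i (adj_symm h), hF.a.pre]
    norm_num
  rw [hc, if_neg, hp, if_neg (by norm_num), if_pos rfl, zero_mul, zero_smul, add_zero,
    Pi.smul_apply]
  · have hx : xv M Finset.univ (R := ℚ) (e j + e i - e i) g = 1 := by
      unfold xv
      rw [if_pos]
      rw [hg]
      simp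
    rw [hx]
    norm_num
  · intro h
    simp at h
    exact UA_e_ne_zero j h

/-- The entry of `lk j` at `(e i + e j, e i)`. -/
private theorem UA_up (hF : RF M) {i j : Fin n} (h : adj M i j) {g c : PR M Finset.univ}
    (hg : g.1 = e i) (hc : c.1 = e j + e i) : 0 < lk M Finset.univ (1 / 2 : ℚ) 0 j c g := by
  have hes : e i ≠ e j := fun h' => adj_ne h (UA_e_inj h')
  change 0 < img M Finset.univ (1 / 2 : ℚ) 0 j g.1 c
  unfold img
  rw [hg, if_neg hes, hF.a.pra i j h, if_pos rfl,
    zero_mul, zero_smul, add_zero, Pi.add_apply, Pi.smul_apply]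
  have hx : xv M Finset.univ (R := ℚ) (e i + e j) c = 1 := by
    unfold xv
    rw [if_pos]
    rw [hc, add_comm]
  have hx1 : xv M Finset.univ (R := ℚ) (e i) c = 0 := by
    unfold xv
    rw [if_neg]
    rw [hc]
    intro h
    simp at h
    exact UA_e_ne_zero j h
  rw [hx, hx1]
  norm_num

private theorem UA_ps {x : Art M} : Ps (gn M) x ↔ ∃ w, x = wd M w := Iff.rfl

/-- **The positive monoid of a simply laced Artin group of finite type.** -/
theorem pg_of_hee (hH : SHee) (n : ℕ) (M : CoxeterMatrix (Fin n)) (hM : SL M) (hR : RF M)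
    (hF : FH M (fh M)) : ∃ L : Art M →* Multiplicative ℤ, PG (gn M) (adj M) L := by
  obtain ⟨L, hL⟩ := exists_deg hM.sl (C := Finset.univ) fun _ _ _ _ => Finset.mem_univ _
  obtain ⟨h1, h2⟩ := hH n M hM hR hF
  have hmem : ∀ i, e i ∈ roots M Finset.univ := by
    intro i
    have hfin := hR.b.fin Finset.univ
    unfold roots
    rw [dif_pos hfin, Set.Finite.mem_toFinset]
    exact ⟨hR.a.simple i, fun i hi => absurd (Finset.mem_univ i) hi⟩
  have hdiv : ∀ (w : List (Fin n)) (s : Fin n), Ps (gn M) ((gn M s)⁻¹ * wd M w) ↔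
      ∀ g : PR M Finset.univ, g.1 = e s → ∀ b, UA_P M (1 / 2 : ℚ) 0 w g b = 0 := by
    intro w s
    have h3 := h2 w s
    simp only [UA_Pw] at h3
    rw [← h3]
    constructor
    · rintro ⟨w', hw'⟩
      exact ⟨w', by rw [show wd M w' = (w'.map (gn M)).prod from rfl, ← hw',
        mul_inv_cancel_left]⟩
    · rintro ⟨w', hw'⟩
      exact ⟨w', by rw [hw', inv_mul_cancel_left]; rfl⟩
  refine ⟨L, fun i j => adj_symm, adj_irrefl, fun i j hij h => art_comm hM.sl hij h,
    fun i j h => art_braid h, fun i => by rw [hL, if_pos (Finset.mem_univ i)], ?_, ?_⟩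
  · rintro i j _ hij hadj ⟨w, rfl⟩ h
    change Ps (gn M) ((gn M j)⁻¹ * wd M w)
    have h' : Ps (gn M) ((gn M j)⁻¹ * wd M (i :: w)) := by
      rw [UA_wd_cons]
      exact h
    rw [hdiv] at h' ⊢
    intro g hg b
    exact UA_P_zero (UA_diag hR hij hg) (h' g hg b)
  · rintro i j _ hadj ⟨w, rfl⟩ h
    change Ps (gn M) ((gn M i)⁻¹ * ((gn M j)⁻¹ * wd M w))
    have h' : Ps (gn M) ((gn M j)⁻¹ * wd M (i :: w)) := by
      rw [UA_wd_cons]
      exact h
    rw [hdiv] at h'
    have h3 : Ps (gn M) ((gn M j)⁻¹ * wd M w) := by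
      rw [hdiv]
      intro g hg b
      exact UA_P_zero (UA_diag hR (adj_ne hadj) hg) (h' g hg b)
    obtain ⟨w2, hw2⟩ := h3
    have hw3 : wd M w = wd M (j :: w2) := by
      rw [UA_wd_cons, show wd M w2 = (w2.map (gn M)).prod from rfl, ← hw2, mul_inv_cancel_left]
    rw [hw2]
    change Ps (gn M) ((gn M i)⁻¹ * wd M w2)
    rw [hdiv]
    intro g hg b
    have hc : e j + e i ∈ roots M Finset.univ := by
      have hfin := hR.b.fin Finset.univ
      unfold roots
      rw [dif_pos hfin, Set.Finite.mem_toFinset]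
      refine ⟨hR.a.up _ _ (hR.a.simple j) (hR.a.pra j i (adj_symm hadj)),
        fun i hi => absurd (Finset.mem_univ i) hi⟩
    have h4 := UA_P_zero (c := ⟨e j + e i, hc⟩) (UA_down hR hadj (g := ⟨e j, hmem j⟩) rfl rfl)
      (h' ⟨e j, hmem j⟩ rfl b)
    have h5 : UA_P M (1 / 2 : ℚ) 0 (j :: w2) ⟨e j + e i, hc⟩ b = 0 := by
      have h6 := h1 _ _ hw3
      rw [← UA_Pw, ← h6, UA_Pw]
      exact h4
    exact UA_P_zero (UA_up hR hadj hg rfl) h5

end hee

end Pool.Agent.Lib.MP_97567f_al.U
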