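import Pool.Agent.Lib.MP_97567f_al.U.UnfA

/-!
# MP_97567f_al: unfolding, part B: divisibility is reflected by the unfolding

`UF σ g ad φ J m L`: the homomorphism `φ` maps `σ s` to the product of the commuting generators `g i`, `i ∈ J s`,
and the nodes of `J s` and `J t` form paths with `m s t - 1` nodes. `fold_div`: if `g i`, `i ∈ J s`, divides the image of a
positive element `x` then `σ s` divides `x`.
-/

set_option autoImplicit false

namespace Pool.Agent.Lib.MP_97567f_al.U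

/-- The neighbours of the node `i` of `J s` in `J t` for a bond `3`. -/
def B3 {I : Type} (ad : I → I → Prop) (Js Jt : List I) (i : I) : Prop :=
  ∃ a ∈ Jt, ad i a ∧ (∀ k ∈ Jt, ad i k → k = a) ∧ (∀ k ∈ Js, ad a k → k = i)

/-- The path of the node `i` of `J s` for a bond `4`. -/
def B4 {I : Type} (ad : I → I → Prop) (Js Jt : List I) (i : I) : Prop :=
  (∃ a ∈ Jt, ∃ b ∈ Jt, a ≠ b ∧ ad i a ∧ ad i b ∧ (∀ k ∈ Jt, ad i k → k = a ∨ k = b) ∧
    (∀ k ∈ Js, ad a k → k = i) ∧ (∀ k ∈ Js, ad b k → k = i)) ∨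
  (∃ a ∈ Jt, ∃ i' ∈ Js, i' ≠ i ∧ ad i a ∧ ad i' a ∧ (∀ k ∈ Jt, ad i k → k = a) ∧
    (∀ k ∈ Js, ad a k → k = i ∨ k = i') ∧ (∀ k ∈ Jt, ad i' k → k = a))

/-- The path of the node `i` of `J s` for a bond `5`. -/
def B5 {I : Type} (ad : I → I → Prop) (Js Jt : List I) (i : I) : Prop :=
  (∃ a ∈ Jt, ∃ b ∈ Jt, ∃ i' ∈ Js, a ≠ b ∧ i' ≠ i ∧ ad i a ∧ ad i' a ∧ ad i' b ∧
    (∀ k ∈ Jt, ad i k → k = a) ∧ (∀ k ∈ Js, ad a k → k = i ∨ k = i') ∧
    (∀ k ∈ Jt, ad i' k → k = a ∨ k = b) ∧ (∀ k ∈ Js, ad b k → k = i')) ∨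
  (∃ a ∈ Jt, ∃ b ∈ Jt, ∃ i' ∈ Js, a ≠ b ∧ i' ≠ i ∧ ad i a ∧ ad i b ∧ ad i' a ∧
    (∀ k ∈ Jt, ad i k → k = a ∨ k = b) ∧ (∀ k ∈ Js, ad a k → k = i ∨ k = i') ∧
    (∀ k ∈ Js, ad b k → k = i) ∧ (∀ k ∈ Jt, ad i' k → k = a))

/-- The condition on the node `i` of `J s`. -/
def Bond {I : Type} (ad : I → I → Prop) (Js Jt : List I) (i : I) (m : ℕ) : Prop :=
  (m = 2 ∧ ∀ k ∈ Jt, ¬ ad i k) ∨ (m = 3 ∧ B3 ad Js Jt i) ∨ (m = 4 ∧ B4 ad Js Jt i) ∨
    (m = 5 ∧ B5 ad Js Jt i)

/-- An unfolding. -/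
structure UF {S I A G : Type} [Group A] [Group G] (σ : S → A) (g : I → G) (ad : I → I → Prop)
    (φ : A →* G) (J : S → List I) (m : S → S → ℕ) (L : A →* Multiplicative ℤ) : Prop where
  im : ∀ s, φ (σ s) = ((J s).map g).prod
  ne : ∀ s, J s ≠ []
  nd : ∀ s, (J s).Nodup
  na : ∀ s, ∀ i ∈ J s, ∀ j ∈ J s, ¬ ad i j
  dj : ∀ s t, s ≠ t → ∀ i ∈ J s, i ∉ J t
  len : ∀ s, L (σ s) = Multiplicative.ofAdd 1
  r2 : ∀ s t, s ≠ t → m s t = 2 → σ s * σ t = σ t * σ s
  r3 : ∀ s t, s ≠ t → m s t = 3 → σ s * σ t * σ s = σ t * σ s * σ t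
  r4 : ∀ s t, s ≠ t → m s t = 4 → σ s * σ t * σ s * σ t = σ t * σ s * σ t * σ s
  r5 : ∀ s t, s ≠ t → m s t = 5 → σ s * σ t * σ s * σ t * σ s = σ t * σ s * σ t * σ s * σ t
  bond : ∀ s t, s ≠ t → ∀ i ∈ J s, Bond ad (J s) (J t) i (m s t)

section peel

variable {I G : Type} [Group G] {g : I → G} {ad : I → I → Prop} {L : G →* Multiplicative ℤ}

/-- Commuting with a list. -/
theorem comm_list (hG : PG g ad L) (R : List I) (b : I) (h : ∀ k ∈ R, k ≠ b ∧ ¬ ad k b) :
    g b * (R.map g).prod = (R.map g).prod * g b := by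
  induction R with
  | nil => simp
  | cons a R ih =>
    have ha := h a List.mem_cons_self
    rw [List.map_cons, List.prod_cons, mul_assoc, ← ih fun k hk => h k (List.mem_cons_of_mem _ hk),
      ← mul_assoc, ← mul_assoc, hG.co a b ha.1 ha.2]

/-- Removing a list of commuting generators. -/
theorem peel0 (hG : PG g ad L) (T : List I) (j : I) (h : ∀ k ∈ T, k ≠ j ∧ ¬ ad k j) {y : G}
    (hy : Ps g y) (hd : Ps g ((g j)⁻¹ * ((T.map g).prod * y))) : Ps g ((g j)⁻¹ * y) := by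
  induction T with
  | nil => simpa using hd
  | cons a T ih =>
    have ha := h a List.mem_cons_self
    apply ih fun k hk => h k (List.mem_cons_of_mem _ hk)
    rw [List.map_cons, List.prod_cons, mul_assoc] at hd
    exact hG.d1 a j _ ha.1 ha.2 ((Ps.list T).mul hy) hd

/-- Taking out one factor of a product of commuting generators. -/
theorem fac1 (hG : PG g ad L) [DecidableEq I] (T : List I)
    (hna : ∀ i ∈ T, ∀ j ∈ T, ¬ ad i j) {a : I} (ha : a ∈ T) :
    (T.map g).prod = g a * ((T.erase a).map g).prod := by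
  induction T with
  | nil => simp at ha
  | cons b T ih =>
    by_cases hab : b = a
    · subst hab
      rw [List.erase_cons_head, List.map_cons, List.prod_cons]
    · have ha' : a ∈ T := by
        rcases List.mem_cons.1 ha with h | h
        · exact absurd h.symm hab
        · exact h
      rw [List.erase_cons_tail (by simpa using hab), List.map_cons, List.prod_cons, List.map_cons,
        List.prod_cons, ih (fun i hi j hj => hna i (List.mem_cons_of_mem _ hi) j
          (List.mem_cons_of_mem _ hj)) ha', ← mul_assoc, ← mul_assoc,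
        hG.co b a hab (hna b List.mem_cons_self a ha)]

theorem fac1' (hG : PG g ad L) [DecidableEq I] (T : List I)
    (hna : ∀ i ∈ T, ∀ j ∈ T, ¬ ad i j) (hnd : T.Nodup) {a : I} (ha : a ∈ T) :
    (T.map g).prod = ((T.erase a).map g).prod * g a := by
  rw [fac1 hG T hna ha, comm_list hG]
  intro k hk
  have hk' := (List.Nodup.mem_erase_iff hnd).1 hk
  exact ⟨hk'.1, hna k hk'.2 a ha⟩

theorem mem_er [DecidableEq I] {T : List I} (hnd : T.Nodup) {a k : I} (hk : k ∈ T.erase a) :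
    k ≠ a ∧ k ∈ T := (List.Nodup.mem_erase_iff hnd).1 hk

/-- Removing all but one factor. -/
theorem peel1 (hG : PG g ad L) [DecidableEq I] (T : List I)
    (hna : ∀ i ∈ T, ∀ j ∈ T, ¬ ad i j) (hnd : T.Nodup) {a j : I} (ha : a ∈ T) (hj : j ∉ T)
    (h : ∀ k ∈ T, ad j k → k = a) {y : G} (hy : Ps g y)
    (hd : Ps g ((g j)⁻¹ * ((T.map g).prod * y))) : Ps g ((g j)⁻¹ * (g a * y)) := by
  rw [fac1' hG T hna hnd ha, mul_assoc] at hd
  refine peel0 hG (T.erase a) j (fun k hk => ?_) (Ps.gmul a hy) hd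
  have hk' := mem_er hnd hk
  exact ⟨fun h' => hj (h' ▸ hk'.2), fun h' => hk'.1 (h k hk'.2 (hG.sym _ _ h'))⟩

/-- Removing all but two factors. -/
theorem peel2 (hG : PG g ad L) [DecidableEq I] (T : List I)
    (hna : ∀ i ∈ T, ∀ j ∈ T, ¬ ad i j) (hnd : T.Nodup) {a b j : I} (ha : a ∈ T) (hb : b ∈ T)
    (hab : a ≠ b) (hj : j ∉ T) (h : ∀ k ∈ T, ad j k → k = a ∨ k = b) {y : G} (hy : Ps g y)
    (hd : Ps g ((g j)⁻¹ * ((T.map g).prod * y))) : Ps g ((g j)⁻¹ * (g a * (g b * y))) := by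
  have hb' : b ∈ T.erase a := (List.Nodup.mem_erase_iff hnd).2 ⟨hab.symm, hb⟩
  have hna' : ∀ i ∈ T.erase a, ∀ j ∈ T.erase a, ¬ ad i j := fun i hi j hj =>
    hna i (List.mem_of_mem_erase hi) j (List.mem_of_mem_erase hj)
  have e : (T.map g).prod = (((T.erase a).erase b).map g).prod * (g a * g b) := by
    rw [fac1' hG T hna hnd ha, fac1' hG (T.erase a) hna' (hnd.erase a) hb', mul_assoc,
      hG.co b a hab.symm (hna b hb a ha)]
  rw [e, mul_assoc, mul_assoc] at hd
  refine peel0 hG ((T.erase a).erase b) j (fun k hk => ?_) (Ps.gmul a (Ps.gmul b hy)) hd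
  have hk' := mem_er (hnd.erase a) hk
  have hk'' := mem_er hnd hk'.2
  refine ⟨fun h' => hj (h' ▸ hk''.2), fun h' => ?_⟩
  rcases h k hk''.2 (hG.sym _ _ h') with h1 | h1
  · exact hk''.1 h1
  · exact hk'.1 h1

end peel

section main

variable {S I A G : Type} [Group A] [Group G] {σ : S → A} {g : I → G} {ad : I → I → Prop}
  {φ : A →* G} {J : S → List I} {m : S → S → ℕ} {L : A →* Multiplicative ℤ}
  {L' : G →* Multiplicative ℤ}

theorem UF.ps (hF : UF σ g ad φ J m L) {x : A} (h : Ps σ x) : Ps g (φ x) := by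
  obtain ⟨w, rfl⟩ := h
  induction w with
  | nil => simpa using Ps.one
  | cons a w ih =>
    rw [List.map_cons, List.prod_cons, map_mul, hF.im]
    exact (Ps.list _).mul ih

/-- The induction hypothesis of `fold_div`. -/
private def IH (σ : S → A) (g : I → G) (φ : A →* G) (J : S → List I) (L : A →* Multiplicative ℤ)
    (N : ℕ) : Prop :=
  ∀ x, Ps σ x → Multiplicative.toAdd (L x) ≤ N → ∀ s, ∀ i ∈ J s, Ps g ((g i)⁻¹ * φ x) →
    ∃ x', Ps σ x' ∧ x = σ s * x' ∧ Multiplicative.toAdd (L x') ≤ N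

private theorem len_tail (hF : UF σ g ad φ J m L) {N : ℕ} {s : S} {x : A}
    (h : Multiplicative.toAdd (L (σ s * x)) ≤ N) : Multiplicative.toAdd (L x) ≤ N := by
  rw [map_mul, hF.len, toAdd_mul, toAdd_ofAdd] at h
  omega

private theorem step3 (hG : PG g ad L') (hF : UF σ g ad φ J m L) {N : ℕ}
    (ih : IH σ g φ J L N) {s t : S} (hst : s ≠ t) (hm : m s t = 3) {i : I} (hi : i ∈ J s)
    (hb : B3 ad (J s) (J t) i) {x : A} (hx : Ps σ x) (hL : Multiplicative.toAdd (L x) ≤ N)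
    (hd : Ps g ((g i)⁻¹ * (φ (σ t) * φ x))) : Ps σ ((σ s)⁻¹ * (σ t * x)) := by
  classical
  obtain ⟨a, ha, hia, h1, h2⟩ := hb
  have hai := hG.sym _ _ hia
  rw [hF.im] at hd
  have d1 := peel1 hG (J t) (hF.na t) (hF.nd t) ha (hF.dj s t hst i hi) h1 (hF.ps hx) hd
  have d2 := hG.d2 a i _ hai (hF.ps hx) d1
  have d3 : Ps g ((g i)⁻¹ * φ x) := by
    have := Ps.gmul a d2
    rwa [mul_inv_cancel_left] at this
  obtain ⟨x2, hx2, rfl, hL2⟩ := ih x hx hL s i hi d3
  rw [map_mul, hF.im, fac1 hG (J s) (hF.na s) hi, mul_assoc, inv_mul_cancel_left] at d2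
  have d4 := peel0 hG ((J s).erase i) a (fun k hk => by
    have hk' := mem_er (hF.nd s) hk
    exact ⟨fun h => hF.dj s t hst k hk'.2 (h ▸ ha), fun h => hk'.1 (h2 k hk'.2 (hG.sym _ _ h))⟩)
    (hF.ps hx2) d2
  obtain ⟨x3, hx3, rfl, -⟩ := ih x2 hx2 hL2 t a ha d4
  have e : (σ s)⁻¹ * (σ t * (σ s * (σ t * x3))) = σ t * (σ s * x3) := by
    have := hF.r3 s t hst hm
    calc (σ s)⁻¹ * (σ t * (σ s * (σ t * x3))) = (σ s)⁻¹ * (σ t * σ s * σ t) * x3 := by group
      _ = (σ s)⁻¹ * (σ s * σ t * σ s) * x3 := by rw [this]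
      _ = σ t * (σ s * x3) := by group
  rw [e]
  exact Ps.gmul t (Ps.gmul s hx3)

private theorem step4 (hG : PG g ad L') (hF : UF σ g ad φ J m L) {N : ℕ}
    (ih : IH σ g φ J L N) {s t : S} (hst : s ≠ t) (hm : m s t = 4) {i : I} (hi : i ∈ J s)
    (hb : B4 ad (J s) (J t) i) {x : A} (hx : Ps σ x) (hL : Multiplicative.toAdd (L x) ≤ N)
    (hd : Ps g ((g i)⁻¹ * (φ (σ t) * φ x))) : Ps σ ((σ s)⁻¹ * (σ t * x)) := by
  classical
  have fin : ∀ x4, Ps σ x4 → Ps σ ((σ s)⁻¹ * (σ t * (σ s * (σ t * (σ s * x4))))) := by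
    intro x4 hx4
    have e : (σ s)⁻¹ * (σ t * (σ s * (σ t * (σ s * x4)))) = σ t * (σ s * (σ t * x4)) := by
      have := hF.r4 s t hst hm
      calc (σ s)⁻¹ * (σ t * (σ s * (σ t * (σ s * x4)))) =
          (σ s)⁻¹ * (σ t * σ s * σ t * σ s) * x4 := by group
        _ = (σ s)⁻¹ * (σ s * σ t * σ s * σ t) * x4 := by rw [this]
        _ = σ t * (σ s * (σ t * x4)) := by group
    rw [e]
    exact Ps.gmul t (Ps.gmul s (Ps.gmul t hx4))
  rw [hF.im] at hd
  rcases hb with ⟨a, ha, b, hb, hab, hia, hib, h1, h2, h3⟩ | ⟨a, ha, i', hi', hii, hia, hia', h1, h2, h3⟩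
  · have hai := hG.sym _ _ hia
    have hbi := hG.sym _ _ hib
    have hnab : ¬ ad b a := hF.na t b hb a ha
    have d0 := peel2 hG (J t) (hF.na t) (hF.nd t) ha hb hab (hF.dj s t hst i hi) h1 (hF.ps hx) hd
    have d1 := hG.d2 a i _ hai (Ps.gmul b (hF.ps hx)) d0
    have d2 : Ps g ((g i)⁻¹ * (g b * φ x)) := by
      have := Ps.gmul a d1
      rwa [mul_inv_cancel_left] at this
    have d3 := hG.d2 b i _ hbi (hF.ps hx) d2
    set w := (g b)⁻¹ * ((g i)⁻¹ * φ x) with hw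
    have hxw : φ x = g i * (g b * w) := by rw [hw]; group
    have e1 : (g i)⁻¹ * (g b * φ x) = g b * (g i * w) := by
      have := hG.br b i hbi
      calc (g i)⁻¹ * (g b * φ x) = (g i)⁻¹ * (g b * g i * g b) * w := by rw [hxw]; group
        _ = (g i)⁻¹ * (g i * g b * g i) * w := by rw [this]
        _ = g b * (g i * w) := by group
    rw [e1] at d1
    have d4 := hG.d1 b a _ hab.symm hnab (Ps.gmul i d3) d1
    have d5 := hG.d2 i a _ hia d3 d4
    have d6 : Ps g ((g i)⁻¹ * φ x) := by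
      have := Ps.gmul b d3
      rw [hw, mul_inv_cancel_left] at this
      exact this
    obtain ⟨x2, hx2, rfl, hL2⟩ := ih x hx hL s i hi d6
    have hR : ∀ k ∈ (J s).erase i, k ≠ b ∧ ¬ ad k b := fun k hk => by
      have hk' := mem_er (hF.nd s) hk
      exact ⟨fun h => hF.dj s t hst k hk'.2 (h ▸ hb), fun h => hk'.1 (h3 k hk'.2 (hG.sym _ _ h))⟩
    have hRa : ∀ k ∈ (J s).erase i, k ≠ a ∧ ¬ ad k a := fun k hk => by
      have hk' := mem_er (hF.nd s) hk
      exact ⟨fun h => hF.dj s t hst k hk'.2 (h ▸ ha), fun h => hk'.1 (h2 k hk'.2 (hG.sym _ _ h))⟩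
    have hRi : ∀ k ∈ (J s).erase i, k ≠ i ∧ ¬ ad k i := fun k hk => by
      have hk' := mem_er (hF.nd s) hk
      exact ⟨hk'.1, hF.na s k hk'.2 i hi⟩
    have e2 : (g i)⁻¹ * φ (σ s * x2) = (((J s).erase i).map g).prod * φ x2 := by
      rw [map_mul, hF.im, fac1 hG (J s) (hF.na s) hi, mul_assoc, inv_mul_cancel_left]
    have e3 : w = (((J s).erase i).map g).prod * ((g b)⁻¹ * φ x2) := by
      rw [hw, e2]
      have := comm_list hG _ b hR
      calc (g b)⁻¹ * ((((J s).erase i).map g).prod * φ x2) =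
          (g b)⁻¹ * ((((J s).erase i).map g).prod * g b) * ((g b)⁻¹ * φ x2) := by group
        _ = (g b)⁻¹ * (g b * (((J s).erase i).map g).prod) * ((g b)⁻¹ * φ x2) := by rw [this]
        _ = _ := by group
    have d7 : Ps g ((g b)⁻¹ * φ x2) := by
      rw [hw, e2] at d3
      exact peel0 hG _ b hR (hF.ps hx2) d3
    obtain ⟨x3, hx3, rfl, hL3⟩ := ih x2 hx2 hL2 t b hb d7
    have hb' : b ∈ (J t).erase a := (List.Nodup.mem_erase_iff (hF.nd t)).2 ⟨hab.symm, hb⟩
    have hna' : ∀ i ∈ (J t).erase a, ∀ j ∈ (J t).erase a, ¬ ad i j := fun i hi j hj =>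
      hF.na t i (List.mem_of_mem_erase hi) j (List.mem_of_mem_erase hj)
    have e4 : (g a)⁻¹ * ((g b)⁻¹ * φ (σ t * x3)) =
        ((((J t).erase a).erase b).map g).prod * φ x3 := by
      rw [map_mul, hF.im, fac1 hG (J t) (hF.na t) ha, fac1 hG _ hna' hb']
      have := hG.co a b hab (hF.na t a ha b hb)
      calc (g a)⁻¹ * ((g b)⁻¹ * (g a * (g b * ((((J t).erase a).erase b).map g).prod) * φ x3)) =
          (g a)⁻¹ * ((g b)⁻¹ * (g a * g b) * (((((J t).erase a).erase b).map g).prod * φ x3)) := by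
            group
        _ = (g a)⁻¹ * ((g b)⁻¹ * (g b * g a) *
            (((((J t).erase a).erase b).map g).prod * φ x3)) := by rw [this]
        _ = _ := by group
    have e5 : (g a)⁻¹ * w = (((J s).erase i).map g).prod *
        (((((J t).erase a).erase b).map g).prod * φ x3) := by
      rw [e3, ← e4]
      have := comm_list hG _ a hRa
      calc (g a)⁻¹ * ((((J s).erase i).map g).prod * ((g b)⁻¹ * φ (σ t * x3))) =
          (g a)⁻¹ * ((((J s).erase i).map g).prod * g a) *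
            ((g a)⁻¹ * ((g b)⁻¹ * φ (σ t * x3))) := by group
        _ = (g a)⁻¹ * (g a * (((J s).erase i).map g).prod) *
            ((g a)⁻¹ * ((g b)⁻¹ * φ (σ t * x3))) := by rw [this]
        _ = _ := by group
    rw [e5] at d5
    have d8 := peel0 hG _ i hRi ((Ps.list _).mul (hF.ps hx3)) d5
    have d9 := peel0 hG _ i (fun k hk => by
      have hk' := mem_er ((hF.nd t).erase a) hk
      have hk'' := mem_er (hF.nd t) hk'.2
      refine ⟨fun h => hF.dj s t hst i hi (h ▸ hk''.2), fun h => ?_⟩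
      rcases h1 k hk''.2 (hG.sym _ _ h) with h | h
      · exact hk''.1 h
      · exact hk'.1 h) (hF.ps hx3) d8
    obtain ⟨x4, hx4, rfl, -⟩ := ih x3 hx3 hL3 s i hi d9
    exact fin x4 hx4
  · have hai := hG.sym _ _ hia
    have d1 := peel1 hG (J t) (hF.na t) (hF.nd t) ha (hF.dj s t hst i hi) h1 (hF.ps hx) hd
    have d2 := hG.d2 a i _ hai (hF.ps hx) d1
    have d3 : Ps g ((g i)⁻¹ * φ x) := by
      have := Ps.gmul a d2
      rwa [mul_inv_cancel_left] at this
    obtain ⟨x2, hx2, rfl, hL2⟩ := ih x hx hL s i hi d3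
    rw [map_mul, hF.im, fac1 hG (J s) (hF.na s) hi, mul_assoc, inv_mul_cancel_left] at d2
    have hi'e : i' ∈ (J s).erase i := (List.Nodup.mem_erase_iff (hF.nd s)).2 ⟨hii, hi'⟩
    have hna' : ∀ k ∈ (J s).erase i, ∀ j ∈ (J s).erase i, ¬ ad k j := fun k hk j hj =>
      hF.na s k (List.mem_of_mem_erase hk) j (List.mem_of_mem_erase hj)
    have d4 := peel1 hG ((J s).erase i) hna' ((hF.nd s).erase i) hi'e
      (fun h => hF.dj s t hst a (List.mem_of_mem_erase h) ha)
      (fun k hk h => by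
        have hk' := mem_er (hF.nd s) hk
        exact (h2 k hk'.2 h).resolve_left hk'.1) (hF.ps hx2) d2
    have d5 := hG.d2 i' a _ hia' (hF.ps hx2) d4
    have d6 : Ps g ((g a)⁻¹ * φ x2) := by
      have := Ps.gmul i' d5
      rwa [mul_inv_cancel_left] at this
    obtain ⟨x3, hx3, rfl, hL3⟩ := ih x2 hx2 hL2 t a ha d6
    rw [map_mul, hF.im, fac1 hG (J t) (hF.na t) ha, mul_assoc, inv_mul_cancel_left] at d5
    have d7 := peel0 hG ((J t).erase a) i' (fun k hk => by
      have hk' := mem_er (hF.nd t) hk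
      exact ⟨fun h => hF.dj s t hst i' hi' (h ▸ hk'.2), fun h => hk'.1 (h3 k hk'.2 (hG.sym _ _ h))⟩)
      (hF.ps hx3) d5
    obtain ⟨x4, hx4, rfl, -⟩ := ih x3 hx3 hL3 s i' hi' d7
    exact fin x4 hx4

private theorem step5 (hG : PG g ad L') (hF : UF σ g ad φ J m L) {N : ℕ}
    (ih : IH σ g φ J L N) {s t : S} (hst : s ≠ t) (hm : m s t = 5) {i : I} (hi : i ∈ J s)
    (hb : B5 ad (J s) (J t) i) {x : A} (hx : Ps σ x) (hL : Multiplicative.toAdd (L x) ≤ N)
    (hd : Ps g ((g i)⁻¹ * (φ (σ t) * φ x))) : Ps σ ((σ s)⁻¹ * (σ t * x)) := by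
  classical
  have fin : ∀ x5, Ps σ x5 → Ps σ ((σ s)⁻¹ * (σ t * (σ s * (σ t * (σ s * (σ t * x5)))))) := by
    intro x5 hx5
    have e : (σ s)⁻¹ * (σ t * (σ s * (σ t * (σ s * (σ t * x5))))) =
        σ t * (σ s * (σ t * (σ s * x5))) := by
      have := hF.r5 s t hst hm
      calc (σ s)⁻¹ * (σ t * (σ s * (σ t * (σ s * (σ t * x5))))) =
          (σ s)⁻¹ * (σ t * σ s * σ t * σ s * σ t) * x5 := by group
        _ = (σ s)⁻¹ * (σ s * σ t * σ s * σ t * σ s) * x5 := by rw [this]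
        _ = σ t * (σ s * (σ t * (σ s * x5))) := by group
    rw [e]
    exact Ps.gmul t (Ps.gmul s (Ps.gmul t (Ps.gmul s hx5)))
  have hts := hst.symm
  rw [hF.im] at hd
  rcases hb with ⟨a, ha, b, hb, i', hi', hab, hii, hia, hia', hib', h1, h2, h3, h4⟩ |
    ⟨a, ha, b, hb, i', hi', hab, hii, hia, hib, hia', h1, h2, h3, h4⟩
  · have hai := hG.sym _ _ hia
    have hbi' := hG.sym _ _ hib'
    have d1 := peel1 hG (J t) (hF.na t) (hF.nd t) ha (hF.dj s t hst i hi) h1 (hF.ps hx) hd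
    have d2 := hG.d2 a i _ hai (hF.ps hx) d1
    have d3 : Ps g ((g i)⁻¹ * φ x) := by
      have := Ps.gmul a d2
      rwa [mul_inv_cancel_left] at this
    obtain ⟨x2, hx2, rfl, hL2⟩ := ih x hx hL s i hi d3
    rw [map_mul, hF.im, fac1 hG (J s) (hF.na s) hi, mul_assoc, inv_mul_cancel_left] at d2
    have hi'e : i' ∈ (J s).erase i := (List.Nodup.mem_erase_iff (hF.nd s)).2 ⟨hii, hi'⟩
    have hnas : ∀ j, ∀ k ∈ (J s).erase j, ∀ l ∈ (J s).erase j, ¬ ad k l := fun j k hk l hl =>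
      hF.na s k (List.mem_of_mem_erase hk) l (List.mem_of_mem_erase hl)
    have hnat : ∀ j, ∀ k ∈ (J t).erase j, ∀ l ∈ (J t).erase j, ¬ ad k l := fun j k hk l hl =>
      hF.na t k (List.mem_of_mem_erase hk) l (List.mem_of_mem_erase hl)
    have d4 := peel1 hG ((J s).erase i) (hnas i) ((hF.nd s).erase i) hi'e
      (fun h => hF.dj s t hst a (List.mem_of_mem_erase h) ha)
      (fun k hk h => by
        have hk' := mem_er (hF.nd s) hk
        exact (h2 k hk'.2 h).resolve_left hk'.1) (hF.ps hx2) d2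
    have d5 := hG.d2 i' a _ hia' (hF.ps hx2) d4
    have d6 : Ps g ((g a)⁻¹ * φ x2) := by
      have := Ps.gmul i' d5
      rwa [mul_inv_cancel_left] at this
    obtain ⟨x3, hx3, rfl, hL3⟩ := ih x2 hx2 hL2 t a ha d6
    rw [map_mul, hF.im, fac1 hG (J t) (hF.na t) ha, mul_assoc, inv_mul_cancel_left] at d5
    have hbe : b ∈ (J t).erase a := (List.Nodup.mem_erase_iff (hF.nd t)).2 ⟨hab.symm, hb⟩
    have d7 := peel1 hG ((J t).erase a) (hnat a) ((hF.nd t).erase a) hbe
      (fun h => hF.dj s t hst i' hi' (List.mem_of_mem_erase h))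
      (fun k hk h => by
        have hk' := mem_er (hF.nd t) hk
        exact (h3 k hk'.2 h).resolve_left hk'.1) (hF.ps hx3) d5
    have d8 := hG.d2 b i' _ hbi' (hF.ps hx3) d7
    have d9 : Ps g ((g i')⁻¹ * φ x3) := by
      have := Ps.gmul b d8
      rwa [mul_inv_cancel_left] at this
    obtain ⟨x4, hx4, rfl, hL4⟩ := ih x3 hx3 hL3 s i' hi' d9
    rw [map_mul, hF.im, fac1 hG (J s) (hF.na s) hi', mul_assoc, inv_mul_cancel_left] at d8
    have d10 := peel0 hG ((J s).erase i') b (fun k hk => by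
      have hk' := mem_er (hF.nd s) hk
      exact ⟨fun h => hF.dj s t hst k hk'.2 (h ▸ hb), fun h => hk'.1 (h4 k hk'.2 (hG.sym _ _ h))⟩)
      (hF.ps hx4) d8
    obtain ⟨x5, hx5, rfl, -⟩ := ih x4 hx4 hL4 t b hb d10
    exact fin x5 hx5
  · have hai := hG.sym _ _ hia
    have hbi := hG.sym _ _ hib
    have hnba : ¬ ad b a := hF.na t b hb a ha
    have d0 := peel2 hG (J t) (hF.na t) (hF.nd t) ha hb hab (hF.dj s t hst i hi) h1 (hF.ps hx) hd
    have d1 := hG.d2 a i _ hai (Ps.gmul b (hF.ps hx)) d0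
    have d2 : Ps g ((g i)⁻¹ * (g b * φ x)) := by
      have := Ps.gmul a d1
      rwa [mul_inv_cancel_left] at this
    have d3 := hG.d2 b i _ hbi (hF.ps hx) d2
    set w := (g b)⁻¹ * ((g i)⁻¹ * φ x) with hw
    have hxw : φ x = g i * (g b * w) := by rw [hw]; group
    have e1 : (g i)⁻¹ * (g b * φ x) = g b * (g i * w) := by
      have := hG.br b i hbi
      calc (g i)⁻¹ * (g b * φ x) = (g i)⁻¹ * (g b * g i * g b) * w := by rw [hxw]; group
        _ = (g i)⁻¹ * (g i * g b * g i) * w := by rw [this]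
        _ = g b * (g i * w) := by group
    rw [e1] at d1
    have d4 := hG.d1 b a _ hab.symm hnba (Ps.gmul i d3) d1
    have d5 := hG.d2 i a _ hia d3 d4
    have d6 : Ps g ((g i)⁻¹ * φ x) := by
      have := Ps.gmul b d3
      rw [hw, mul_inv_cancel_left] at this
      exact this
    obtain ⟨x2, hx2, rfl, hL2⟩ := ih x hx hL s i hi d6
    have hnas : ∀ j, ∀ k ∈ (J s).erase j, ∀ l ∈ (J s).erase j, ¬ ad k l := fun j k hk l hl =>
      hF.na s k (List.mem_of_mem_erase hk) l (List.mem_of_mem_erase hl)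
    have hnat : ∀ j, ∀ k ∈ (J t).erase j, ∀ l ∈ (J t).erase j, ¬ ad k l := fun j k hk l hl =>
      hF.na t k (List.mem_of_mem_erase hk) l (List.mem_of_mem_erase hl)
    have hi'e : i' ∈ (J s).erase i := (List.Nodup.mem_erase_iff (hF.nd s)).2 ⟨hii, hi'⟩
    have hie : i ∈ (J s).erase i' := (List.Nodup.mem_erase_iff (hF.nd s)).2 ⟨hii.symm, hi⟩
    have hb' : b ∈ (J t).erase a := (List.Nodup.mem_erase_iff (hF.nd t)).2 ⟨hab.symm, hb⟩
    have hR : ∀ k ∈ (J s).erase i, k ≠ b ∧ ¬ ad k b := fun k hk => by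
      have hk' := mem_er (hF.nd s) hk
      exact ⟨fun h => hF.dj s t hst k hk'.2 (h ▸ hb), fun h => hk'.1 (h3 k hk'.2 (hG.sym _ _ h))⟩
    have e2 : (g i)⁻¹ * φ (σ s * x2) = (((J s).erase i).map g).prod * φ x2 := by
      rw [map_mul, hF.im, fac1 hG (J s) (hF.na s) hi, mul_assoc, inv_mul_cancel_left]
    have e3 : w = (((J s).erase i).map g).prod * ((g b)⁻¹ * φ x2) := by
      rw [hw, e2]
      have := comm_list hG _ b hR
      calc (g b)⁻¹ * ((((J s).erase i).map g).prod * φ x2) =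
          (g b)⁻¹ * ((((J s).erase i).map g).prod * g b) * ((g b)⁻¹ * φ x2) := by group
        _ = (g b)⁻¹ * (g b * (((J s).erase i).map g).prod) * ((g b)⁻¹ * φ x2) := by rw [this]
        _ = _ := by group
    have d7 : Ps g ((g b)⁻¹ * φ x2) := by
      rw [hw, e2] at d3
      exact peel0 hG _ b hR (hF.ps hx2) d3
    obtain ⟨x3, hx3, rfl, hL3⟩ := ih x2 hx2 hL2 t b hb d7
    have d8 : Ps g ((g a)⁻¹ * w) := by
      have := Ps.gmul i d5
      rwa [mul_inv_cancel_left] at this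
    rw [e3] at d8
    have d9 := peel1 hG ((J s).erase i) (hnas i) ((hF.nd s).erase i) hi'e
      (fun h => hF.dj s t hst a (List.mem_of_mem_erase h) ha)
      (fun k hk h => by
        have hk' := mem_er (hF.nd s) hk
        exact (h2 k hk'.2 h).resolve_left hk'.1) d7 d8
    have d10 := hG.d2 i' a _ hia' d7 d9
    have e4 : φ (σ t * x3) = g b * (g a * (((((J t).erase a).erase b).map g).prod * φ x3)) := by
      rw [map_mul, hF.im, fac1 hG (J t) (hF.na t) ha, fac1 hG _ (hnat a) hb']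
      have := hG.co a b hab (hF.na t a ha b hb)
      simp only [mul_assoc]
      rw [← mul_assoc (g a), this, mul_assoc]
    rw [e4, inv_mul_cancel_left, inv_mul_cancel_left] at d10
    have hQi' : ∀ k ∈ ((J t).erase a).erase b, k ≠ i' ∧ ¬ ad k i' := fun k hk => by
      have hk' := mem_er ((hF.nd t).erase a) hk
      have hk'' := mem_er (hF.nd t) hk'.2
      exact ⟨fun h => hF.dj s t hst i' hi' (h ▸ hk''.2), fun h => hk''.1
        (h4 k hk''.2 (hG.sym _ _ h))⟩
    have hQi : ∀ k ∈ ((J t).erase a).erase b, k ≠ i ∧ ¬ ad k i := fun k hk => by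
      have hk' := mem_er ((hF.nd t).erase a) hk
      have hk'' := mem_er (hF.nd t) hk'.2
      refine ⟨fun h => hF.dj s t hst i hi (h ▸ hk''.2), fun h => ?_⟩
      rcases h1 k hk''.2 (hG.sym _ _ h) with h | h
      · exact hk''.1 h
      · exact hk'.1 h
    have hQa : ∀ k ∈ ((J t).erase a).erase b, k ≠ a ∧ ¬ ad k a := fun k hk => by
      have hk' := mem_er ((hF.nd t).erase a) hk
      have hk'' := mem_er (hF.nd t) hk'.2
      exact ⟨hk''.1, hF.na t k hk''.2 a ha⟩
    have d11 := peel0 hG _ i' hQi' (hF.ps hx3) d10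
    obtain ⟨x4, hx4, rfl, hL4⟩ := ih x3 hx3 hL3 s i' hi' d11
    have hP : ∀ k ∈ ((J s).erase i).erase i', (k ≠ i ∧ k ≠ i') ∧ k ∈ J s := fun k hk => by
      have hk' := mem_er ((hF.nd s).erase i) hk
      have hk'' := mem_er (hF.nd s) hk'.2
      exact ⟨⟨hk''.1, hk'.1⟩, hk''.2⟩
    have hPa : ∀ k ∈ ((J s).erase i).erase i', k ≠ a ∧ ¬ ad k a := fun k hk => by
      have hk' := hP k hk
      refine ⟨fun h => hF.dj s t hst k hk'.2 (h ▸ ha), fun h => ?_⟩
      rcases h2 k hk'.2 (hG.sym _ _ h) with h | h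
      · exact hk'.1.1 h
      · exact hk'.1.2 h
    have hPi : ∀ k ∈ ((J s).erase i).erase i', k ≠ i ∧ ¬ ad k i := fun k hk =>
      ⟨(hP k hk).1.1, hF.na s k (hP k hk).2 i hi⟩
    have hPi' : ∀ k ∈ ((J s).erase i).erase i', k ≠ i' ∧ ¬ ad k i' := fun k hk =>
      ⟨(hP k hk).1.2, hF.na s k (hP k hk).2 i' hi'⟩
    have e5 : (((J s).erase i).map g).prod = g i' * ((((J s).erase i).erase i').map g).prod :=
      fac1 hG _ (hnas i) hi'e
    have e6 : φ (σ s * x4) = g i' * (g i * (((((J s).erase i).erase i').map g).prod * φ x4)) := by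
      rw [map_mul, hF.im, fac1 hG (J s) (hF.na s) hi, e5, ← mul_assoc, ← mul_assoc,
        ← mul_assoc, hG.co i i' hii.symm (hF.na s i hi i' hi')]
    set P := ((((J s).erase i).erase i').map g).prod with hPdef
    set Q := ((((J t).erase a).erase b).map g).prod with hQdef
    have c1 : g a * P = P * g a := comm_list hG _ a hPa
    have c2 : g i * P = P * g i := comm_list hG _ i hPi
    have c3 : g i' * P = P * g i' := comm_list hG _ i' hPi'
    have c4 : g i * Q = Q * g i := comm_list hG _ i hQi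
    have c5 : g i' * Q = Q * g i' := comm_list hG _ i' hQi'
    have e7 : (g a)⁻¹ * w = g i' * (g a * (g i * (P * (Q * (P * φ x4))))) := by
      rw [e3, e5, e4, e6, inv_mul_cancel_left]
      have hbr := hG.br a i' (hG.sym _ _ hia')
      calc (g a)⁻¹ * (g i' * P * (g a * (Q * (g i' * (g i * (P * φ x4)))))) =
          (g a)⁻¹ * g i' * (P * g a) * Q * g i' * g i * (P * φ x4) := by group
        _ = (g a)⁻¹ * g i' * (g a * P) * Q * g i' * g i * (P * φ x4) := by rw [c1]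
        _ = (g a)⁻¹ * g i' * g a * P * (Q * g i') * g i * (P * φ x4) := by group
        _ = (g a)⁻¹ * g i' * g a * P * (g i' * Q) * g i * (P * φ x4) := by rw [c5]
        _ = (g a)⁻¹ * g i' * g a * (P * g i') * (Q * g i) * (P * φ x4) := by group
        _ = (g a)⁻¹ * g i' * g a * (g i' * P) * (g i * Q) * (P * φ x4) := by rw [c3, c4]
        _ = (g a)⁻¹ * g i' * g a * g i' * (P * g i) * Q * (P * φ x4) := by group
        _ = (g a)⁻¹ * g i' * g a * g i' * (g i * P) * Q * (P * φ x4) := by rw [c2]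
        _ = (g a)⁻¹ * (g i' * g a * g i') * g i * P * Q * (P * φ x4) := by group
        _ = (g a)⁻¹ * (g a * g i' * g a) * g i * P * Q * (P * φ x4) := by rw [hbr]
        _ = _ := by group
    rw [e7] at d5
    have hPs : Ps g P := Ps.list _
    have hQs : Ps g Q := Ps.list _
    have hY : Ps g (P * (Q * (P * φ x4))) := hPs.mul (hQs.mul (hPs.mul (hF.ps hx4)))
    have d12 := hG.d1 i' i _ hii (hF.na s i' hi' i hi) (Ps.gmul a (Ps.gmul i hY)) d5
    have d13 := hG.d2 a i _ hai (Ps.gmul i hY) d12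
    rw [inv_mul_cancel_left] at d13
    have d14 := peel0 hG _ a hPa (hQs.mul (hPs.mul (hF.ps hx4))) d13
    have d15 := peel0 hG _ a hQa (hPs.mul (hF.ps hx4)) d14
    have d16 := peel0 hG _ a hPa (hF.ps hx4) d15
    obtain ⟨x5, hx5, rfl, -⟩ := ih x4 hx4 hL4 t a ha d16
    exact fin x5 hx5

/-- **Divisibility is reflected.** -/
theorem fold_div (hG : PG g ad L') (hF : UF σ g ad φ J m L) {x : A} (hx : Ps σ x) {s : S}
    {i : I} (hi : i ∈ J s) (hd : Ps g ((g i)⁻¹ * φ x)) : Ps σ ((σ s)⁻¹ * x) := by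
  have key : ∀ N : ℕ, ∀ x, Ps σ x → Multiplicative.toAdd (L x) ≤ N → ∀ s, ∀ i ∈ J s,
      Ps g ((g i)⁻¹ * φ x) → Ps σ ((σ s)⁻¹ * x) := by
    intro N
    induction N with
    | zero =>
      intro x hx hL s i hi hd
      have hx1 : x = 1 := Ps.eq_one hF.len hx hL
      exfalso
      rw [hx1, map_one, mul_one] at hd
      have := hd.len_nonneg hG.len
      rw [map_inv, hG.len, toAdd_inv, toAdd_ofAdd] at this
      omega
    | succ N ih =>
      intro x hx hL s i hi hd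
      have ih' : IH σ g φ J L N := by
        intro x hx hL s i hi hd
        refine ⟨(σ s)⁻¹ * x, ih x hx hL s i hi hd, by group, ?_⟩
        rw [map_mul, map_inv, hF.len, toAdd_mul, toAdd_inv, toAdd_ofAdd]
        omega
      rcases hx.cases with rfl | ⟨t, x1, hx1, rfl⟩
      · exfalso
        rw [map_one, mul_one] at hd
        have := hd.len_nonneg hG.len
        rw [map_inv, hG.len, toAdd_inv, toAdd_ofAdd] at this
        omega
      · have hL1 : Multiplicative.toAdd (L x1) ≤ N := by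
          rw [map_mul, hF.len, toAdd_mul, toAdd_ofAdd] at hL
          push_cast at hL
          omega
        by_cases hst : s = t
        · rw [hst, inv_mul_cancel_left]
          exact hx1
        · rw [map_mul] at hd
          rcases hF.bond s t hst i hi with ⟨hm, h2⟩ | ⟨hm, hb⟩ | ⟨hm, hb⟩ | ⟨hm, hb⟩
          · rw [hF.im] at hd
            have d1 := peel0 hG (J t) i (fun k hk => ⟨fun h => hF.dj s t hst i hi (h ▸ hk),
              fun h => h2 k hk (hG.sym _ _ h)⟩) (hF.ps hx1) hd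
            obtain ⟨x2, hx2, rfl, -⟩ := ih' x1 hx1 hL1 s i hi d1
            have e : (σ s)⁻¹ * (σ t * (σ s * x2)) = σ t * x2 := by
              rw [← mul_assoc (σ t), ← hF.r2 s t hst hm, mul_assoc, inv_mul_cancel_left]
            rw [e]
            exact Ps.gmul t hx2
          · exact step3 hG hF ih' hst hm hi hb hx1 hL1 hd
          · exact step4 hG hF ih' hst hm hi hb hx1 hL1 hd
          · exact step5 hG hF ih' hst hm hi hb hx1 hL1 hd
  exact key (Multiplicative.toAdd (L x)).toNat x hx (Int.self_le_toNat _) s i hi hd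

end main

end Pool.Agent.Lib.MP_97567f_al.U
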