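import Pool.Agent.Lib.MP_97567f_al.U.UnfB

/-!
# MP_97567f_al: unfolding, part C: common multiples, the Garside element, injectivity

`Shape ad Js Jt m`: the nodes of `Js`, `Jt` form paths with `m - 1` nodes, in one of five standard forms. `fold_lcm`: if
the images of `σ s` and `σ t` divide `y` then so does the image of their common multiple. `fold_garside`: there is a
central positive element which is divisible by all generators. `fold_inj`: the unfolding is injective.
-/

set_option autoImplicit false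

namespace Pool.Agent.Lib.MP_97567f_al.U

/-- Standard forms of pairs of fibres. -/
def Shape {I : Type} (ad : I → I → Prop) (Js Jt : List I) (m : ℕ) : Prop :=
  (m = 2 ∧ ∀ i ∈ Js, ∀ k ∈ Jt, i ≠ k ∧ ¬ ad i k) ∨
  (m = 3 ∧ ∃ i a, Js = [i] ∧ Jt = [a] ∧ ad i a) ∨
  (m = 3 ∧ ∃ i i' a a', Js = [i, i'] ∧ Jt = [a, a'] ∧ ad i a ∧ ad i' a' ∧ ¬ ad i a' ∧ ¬ ad i' a ∧
    ¬ ad i i' ∧ ¬ ad a a' ∧ i ≠ i' ∧ a ≠ a' ∧ i ≠ a' ∧ i' ≠ a) ∨
  (m = 4 ∧ ∃ a b c, Js = [a, b] ∧ Jt = [c] ∧ ad a c ∧ ad b c ∧ ¬ ad a b ∧ a ≠ b) ∨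
  (m = 5 ∧ ∃ p q r s, Js = [p, r] ∧ Jt = [q, s] ∧ ad p q ∧ ad q r ∧ ad r s ∧ ¬ ad p r ∧
    ¬ ad p s ∧ ¬ ad q s ∧ p ≠ r ∧ p ≠ s ∧ q ≠ s)

section lcm

variable {I G : Type} [Group G] {g : I → G} {ad : I → I → Prop} {L : G →* Multiplicative ℤ}

/-- Removing a list of generators which commute with the divisor. -/
theorem peelT (hG : PG g ad L) (T U : List I) (h : ∀ i ∈ T, ∀ k ∈ U, i ≠ k ∧ ¬ ad i k) {y : G}
    (hy : Ps g y) (hd : Ps g (((U.map g).prod)⁻¹ * ((T.map g).prod * y))) :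
    Ps g (((U.map g).prod)⁻¹ * y) := by
  induction U generalizing y with
  | nil => simpa using hy
  | cons j U ih =>
    have hj : ∀ k ∈ T, k ≠ j ∧ ¬ ad k j := fun k hk => h k hk j List.mem_cons_self
    have d1 : Ps g ((g j)⁻¹ * ((T.map g).prod * y)) := by
      have := (Ps.list (g := g) U).mul hd
      rw [List.map_cons, List.prod_cons, mul_inv_rev, mul_assoc, mul_inv_cancel_left] at this
      exact this
    have d2 := peel0 hG T j hj hy d1
    have e : ((List.map g (j :: U)).prod)⁻¹ * ((T.map g).prod * y) =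
        ((U.map g).prod)⁻¹ * ((T.map g).prod * ((g j)⁻¹ * y)) := by
      have := comm_list hG T j hj
      rw [List.map_cons, List.prod_cons]
      calc (g j * (U.map g).prod)⁻¹ * ((T.map g).prod * y) =
          ((U.map g).prod)⁻¹ * ((g j)⁻¹ * ((T.map g).prod * g j)) * ((g j)⁻¹ * y) := by group
        _ = ((U.map g).prod)⁻¹ * ((g j)⁻¹ * (g j * (T.map g).prod)) * ((g j)⁻¹ * y) := by
          rw [this]
        _ = _ := by group
    rw [e] at hd
    have d3 := ih (fun i hi k hk => h i hi k (List.mem_cons_of_mem _ hk)) d2 hd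
    rw [List.map_cons, List.prod_cons, mul_inv_rev, mul_assoc]
    exact d3

/-- An element which is divisible by commuting generators is divisible by their product. -/
theorem div_list (hG : PG g ad L) (T : List I) (hnd : T.Nodup)
    (hna : ∀ i ∈ T, ∀ j ∈ T, ¬ ad i j) {y : G} (hy : Ps g y) (h : ∀ k ∈ T, Ps g ((g k)⁻¹ * y)) :
    Ps g (((T.map g).prod)⁻¹ * y) := by
  induction T generalizing y with
  | nil => simpa using hy
  | cons a T ih =>
    have ha := h a List.mem_cons_self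
    have hnd' := List.nodup_cons.1 hnd
    have := ih hnd'.2 (fun i hi j hj => hna i (List.mem_cons_of_mem _ hi) j
      (List.mem_cons_of_mem _ hj)) ha (fun k hk => by
        refine hG.d1 a k _ (fun h => hnd'.1 (h ▸ hk)) (hna a List.mem_cons_self k
          (List.mem_cons_of_mem _ hk)) ha ?_
        rw [mul_inv_cancel_left]
        exact h k (List.mem_cons_of_mem _ hk))
    rw [List.map_cons, List.prod_cons, mul_inv_rev, mul_assoc]
    exact this

private theorem lc3a (hG : PG g ad L) {i a : I} (hia : ad i a) {y : G}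
    (h1 : Ps g ((g i)⁻¹ * y)) (h2 : Ps g ((g a)⁻¹ * y)) :
    Ps g ((g i * g a * g i)⁻¹ * y) := by
  have d1 := hG.d2 i a ((g i)⁻¹ * y) hia h1 (by rw [mul_inv_cancel_left]; exact h2)
  have e : (g i * g a * g i)⁻¹ * y = (g i)⁻¹ * ((g a)⁻¹ * ((g i)⁻¹ * y)) := by group
  rw [e]
  exact d1

private theorem lc3b (hG : PG g ad L) {i i' a a' : I} (hia : ad i a) (hia' : ad i' a')
    (n1 : ¬ ad i a') (n2 : ¬ ad i' a) (n3 : ¬ ad i i') (n4 : ¬ ad a a') (e1 : i ≠ i') (e2 : a ≠ a')
    (e3 : i ≠ a') (e4 : i' ≠ a) {y : G}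
    (h1 : Ps g ((g i * g i')⁻¹ * y)) (h2 : Ps g ((g a * g a')⁻¹ * y)) :
    Ps g ((g i * g i' * (g a * g a') * (g i * g i'))⁻¹ * y) := by
  have sy := hG.sym
  have ca : Ps g ((g a)⁻¹ * y) := by
    have := Ps.gmul a' h2
    have e : g a' * ((g a * g a')⁻¹ * y) = (g a)⁻¹ * y := by group
    rwa [e] at this
  have ca' : Ps g ((g a')⁻¹ * y) := by
    have := Ps.gmul a h2
    have e : g a * ((g a * g a')⁻¹ * y) = (g a')⁻¹ * y := by
      rw [hG.co a a' e2 n4]
      group
    rwa [e] at this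
  set y1 := (g i * g i')⁻¹ * y with hy1
  have hy : y = g i * (g i' * y1) := by rw [hy1]; group
  have d1 : Ps g ((g i)⁻¹ * ((g a)⁻¹ * (g i' * y1))) := by
    refine hG.d2 i a _ hia (Ps.gmul i' h1) ?_
    rw [← hy]
    exact ca
  have d2 : Ps g ((g a)⁻¹ * (g i' * y1)) := by
    have := Ps.gmul i d1
    rwa [mul_inv_cancel_left] at this
  have d3 := hG.d1 i' a y1 e4 n2 h1 d2
  have c1 : (g a)⁻¹ * (g i' * y1) = g i' * ((g a)⁻¹ * y1) := by
    have := hG.co i' a e4 n2
    calc (g a)⁻¹ * (g i' * y1) = (g a)⁻¹ * (g i' * g a) * ((g a)⁻¹ * y1) := by group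
      _ = (g a)⁻¹ * (g a * g i') * ((g a)⁻¹ * y1) := by rw [this]
      _ = _ := by group
  rw [c1] at d1
  have d4 := hG.d1 i' i _ e1.symm (fun h => n3 (sy _ _ h)) d3 d1
  set y2 := (g i)⁻¹ * ((g a)⁻¹ * y1) with hy2
  have hy1' : y1 = g a * (g i * y2) := by rw [hy2]; group
  have c2 : y = g i * (g a * (g i * (g i' * y2))) := by
    rw [hy, hy1']
    have k1 := hG.co i' a e4 n2
    have k2 := hG.co i' i e1.symm (fun h => n3 (sy _ _ h))
    calc g i * (g i' * (g a * (g i * y2))) = g i * (g i' * g a) * (g i * y2) := by group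
      _ = g i * (g a * g i') * (g i * y2) := by rw [k1]
      _ = g i * g a * (g i' * g i) * y2 := by group
      _ = g i * g a * (g i * g i') * y2 := by rw [k2]
      _ = _ := by group
  rw [c2] at ca'
  have f1 := hG.d1 i a' _ e3 n1 (Ps.gmul a (Ps.gmul i (Ps.gmul i' d4))) ca'
  have f2 := hG.d1 a a' _ e2 n4 (Ps.gmul i (Ps.gmul i' d4)) f1
  have f3 := hG.d1 i a' _ e3 n1 (Ps.gmul i' d4) f2
  have f4 := hG.d2 i' a' _ hia' d4 f3
  set y3 := (g i')⁻¹ * ((g a')⁻¹ * y2) with hy3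
  have hy2' : y2 = g a' * (g i' * y3) := by rw [hy3]; group
  have c3 : (g i * g i' * (g a * g a') * (g i * g i'))⁻¹ * y = y3 := by
    rw [inv_mul_eq_iff_eq_mul, c2, hy2']
    have k1 := hG.co i' a e4 n2
    have k2 := hG.co i' i e1.symm (fun h => n3 (sy _ _ h))
    have k3 := hG.co i a' e3 n1
    calc g i * (g a * (g i * (g i' * (g a' * (g i' * y3))))) =
        g i * g a * (g i * (g i' * g a' * g i')) * y3 := by group
      _ = g i * g a * (g i * (g a' * g i' * g a')) * y3 := by rw [hG.br i' a' hia']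
      _ = g i * g a * (g i * g a') * g i' * g a' * y3 := by group
      _ = g i * g a * (g a' * g i) * g i' * g a' * y3 := by rw [k3]
      _ = g i * g a * g a' * (g i * g i') * g a' * y3 := by group
      _ = g i * g a * g a' * (g i' * g i) * g a' * y3 := by rw [k2]
      _ = g i * g a * g a' * g i' * (g i * g a') * y3 := by group
      _ = g i * g a * g a' * g i' * (g a' * g i) * y3 := by rw [k3]
      _ = g i * g a * (g a' * g i' * g a') * g i * y3 := by group
      _ = g i * g a * (g i' * g a' * g i') * g i * y3 := by rw [hG.br i' a' hia']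
      _ = g i * (g a * g i') * g a' * (g i' * g i) * y3 := by group
      _ = g i * (g i' * g a) * g a' * (g i * g i') * y3 := by rw [k1, k2]
      _ = _ := by group
  rw [c3]
  exact f4

private theorem lc4 (hG : PG g ad L) {a b c : I} (hac : ad a c) (hbc : ad b c) (n1 : ¬ ad a b)
    (e1 : a ≠ b) {y : G} (h1 : Ps g ((g a * g b)⁻¹ * y)) (h2 : Ps g ((g c)⁻¹ * y)) :
    Ps g ((g a * g b * g c * (g a * g b) * g c)⁻¹ * y) := by
  have sy := hG.sym
  set y1 := (g a * g b)⁻¹ * y with hy1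
  have hy : y = g a * (g b * y1) := by rw [hy1]; group
  rw [hy] at h2
  have d1 := hG.d2 a c _ hac (Ps.gmul b h1) h2
  have d2 : Ps g ((g c)⁻¹ * (g b * y1)) := by
    have := Ps.gmul a d1
    rwa [mul_inv_cancel_left] at this
  have d3 := hG.d2 b c _ hbc h1 d2
  set w := (g b)⁻¹ * ((g c)⁻¹ * y1) with hw
  have hy1' : y1 = g c * (g b * w) := by rw [hw]; group
  have k1 : (g c)⁻¹ * (g b * y1) = g b * (g c * w) := by
    rw [hy1']
    calc (g c)⁻¹ * (g b * (g c * (g b * w))) = (g c)⁻¹ * (g b * g c * g b) * w := by group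
      _ = (g c)⁻¹ * (g c * g b * g c) * w := by rw [hG.br b c hbc]
      _ = _ := by group
  rw [k1] at d1
  have d4 := hG.d1 b a _ e1.symm (fun h => n1 (sy _ _ h)) (Ps.gmul c d3) d1
  have d5 := hG.d2 c a _ (sy _ _ hac) d3 d4
  have k2 : (g a * g b * g c * (g a * g b) * g c)⁻¹ * y = (g c)⁻¹ * ((g a)⁻¹ * w) := by
    rw [inv_mul_eq_iff_eq_mul, hy, hy1']
    have := hG.co a b e1 n1
    calc g a * (g b * (g c * (g b * w))) = g a * g b * g c * (g b * g a) * ((g a)⁻¹ * w) := by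
          group
      _ = g a * g b * g c * (g a * g b) * ((g a)⁻¹ * w) := by rw [this]
      _ = _ := by group
  rw [k2]
  exact d5

private theorem lc5 (hG : PG g ad L) {p q r s : I} (hpq : ad p q) (hqr : ad q r) (hrs : ad r s)
    (n1 : ¬ ad p r) (n2 : ¬ ad p s) (n3 : ¬ ad q s) (e1 : p ≠ r) (e2 : p ≠ s) (e3 : q ≠ s) {y : G}
    (h1 : Ps g ((g p * g r)⁻¹ * y)) (h2 : Ps g ((g q * g s)⁻¹ * y)) :
    Ps g ((g p * g r * (g q * g s) * (g p * g r) * (g q * g s) * (g p * g r))⁻¹ * y) := by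
  have sy := hG.sym
  have cq : Ps g ((g q)⁻¹ * y) := by
    have := Ps.gmul s h2
    have e : g s * ((g q * g s)⁻¹ * y) = (g q)⁻¹ * y := by group
    rwa [e] at this
  have cs : Ps g ((g s)⁻¹ * y) := by
    have := Ps.gmul q h2
    have e : g q * ((g q * g s)⁻¹ * y) = (g s)⁻¹ * y := by
      rw [hG.co q s e3 n3]
      group
    rwa [e] at this
  set y1 := (g p * g r)⁻¹ * y with hy1
  have hy : y = g p * (g r * y1) := by rw [hy1]; group
  rw [hy] at cq cs
  -- step A
  have a1 := hG.d1 p s _ e2 n2 (Ps.gmul r h1) cs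
  have a2 := hG.d2 r s _ hrs h1 a1
  -- step B
  have b1 := hG.d2 p q _ hpq (Ps.gmul r h1) cq
  have b2 : Ps g ((g q)⁻¹ * (g r * y1)) := by
    have := Ps.gmul p b1
    rwa [mul_inv_cancel_left] at this
  have b3 := hG.d2 r q _ (sy _ _ hqr) h1 b2
  set z := (g r)⁻¹ * ((g q)⁻¹ * y1) with hz
  have hy1' : y1 = g q * (g r * z) := by rw [hz]; group
  have k1 : (g q)⁻¹ * (g r * y1) = g r * (g q * z) := by
    rw [hy1']
    calc (g q)⁻¹ * (g r * (g q * (g r * z))) = (g q)⁻¹ * (g r * g q * g r) * z := by group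
      _ = (g q)⁻¹ * (g q * g r * g q) * z := by rw [hG.br r q (sy _ _ hqr)]
      _ = _ := by group
  rw [k1] at b1
  have b4 := hG.d1 r p _ e1.symm (fun h => n1 (sy _ _ h)) (Ps.gmul q b3) b1
  have b5 := hG.d2 q p _ (sy _ _ hpq) b3 b4
  -- step C
  have c1 : Ps g ((g s)⁻¹ * (g q * (g r * z))) := by
    have := Ps.gmul r a2
    rw [mul_inv_cancel_left, hy1'] at this
    exact this
  have c2 := hG.d1 q s _ e3 n3 (Ps.gmul r b3) c1
  have c3 := hG.d2 r s _ hrs b3 c2
  set u := (g r)⁻¹ * ((g s)⁻¹ * z) with hu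
  have hz' : z = g s * (g r * u) := by rw [hu]; group
  have k2 : (g s)⁻¹ * y1 = g q * (g r * (g s * u)) := by
    rw [hy1', hz']
    calc (g s)⁻¹ * (g q * (g r * (g s * (g r * u)))) =
        (g s)⁻¹ * g q * (g r * g s * g r) * u := by group
      _ = (g s)⁻¹ * g q * (g s * g r * g s) * u := by rw [hG.br r s hrs]
      _ = (g s)⁻¹ * (g q * g s) * (g r * g s) * u := by group
      _ = (g s)⁻¹ * (g s * g q) * (g r * g s) * u := by rw [hG.co q s e3 n3]
      _ = _ := by group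
  rw [k2] at a2
  have c4 := hG.d2 q r _ hqr (Ps.gmul r (Ps.gmul s c3)) a2
  rw [inv_mul_cancel_left] at c4
  have c5 := hG.d1 s q _ e3.symm (fun h => n3 (sy _ _ h)) c3 c4
  set v := (g q)⁻¹ * u with hv
  have hu' : u = g q * v := by rw [hv]; group
  -- step D
  have f1 : Ps g ((g p)⁻¹ * z) := by
    have := Ps.gmul q b5
    rwa [mul_inv_cancel_left] at this
  rw [hz', hu'] at f1
  have f2 := hG.d1 s p _ e2.symm (fun h => n2 (sy _ _ h)) (Ps.gmul r (Ps.gmul q c5)) f1
  have f3 := hG.d1 r p _ e1.symm (fun h => n1 (sy _ _ h)) (Ps.gmul q c5) f2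
  have f4 := hG.d2 q p _ (sy _ _ hpq) c5 f3
  set v' := (g q)⁻¹ * ((g p)⁻¹ * v) with hv'
  have hv'' : v = g p * (g q * v') := by rw [hv']; group
  have k3 : (g p)⁻¹ * z = g s * (g r * (g q * (g p * v'))) := by
    rw [hz', hu', hv'']
    calc (g p)⁻¹ * (g s * (g r * (g q * (g p * (g q * v'))))) =
        (g p)⁻¹ * g s * g r * (g q * g p * g q) * v' := by group
      _ = (g p)⁻¹ * g s * g r * (g p * g q * g p) * v' := by rw [hG.br q p (sy _ _ hpq)]
      _ = (g p)⁻¹ * g s * (g r * g p) * g q * g p * v' := by group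
      _ = (g p)⁻¹ * g s * (g p * g r) * g q * g p * v' := by
        rw [hG.co r p e1.symm (fun h => n1 (sy _ _ h))]
      _ = (g p)⁻¹ * (g s * g p) * g r * g q * g p * v' := by group
      _ = (g p)⁻¹ * (g p * g s) * g r * g q * g p * v' := by
        rw [hG.co s p e2.symm (fun h => n2 (sy _ _ h))]
      _ = _ := by group
  rw [k3] at b5
  have f5 := hG.d1 s q _ e3.symm (fun h => n3 (sy _ _ h))
    (Ps.gmul r (Ps.gmul q (Ps.gmul p f4))) b5
  have f6 := hG.d2 r q _ (sy _ _ hqr) (Ps.gmul q (Ps.gmul p f4)) f5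
  rw [inv_mul_cancel_left] at f6
  have f7 := hG.d1 p r _ e1 n1 f4 f6
  have k4 : (g p * g r * (g q * g s) * (g p * g r) * (g q * g s) * (g p * g r))⁻¹ * y =
      (g r)⁻¹ * v' := by
    rw [inv_mul_eq_iff_eq_mul, hy, hy1', hz', hu', hv'']
    have j1 := hG.co s p e2.symm (fun h => n2 (sy _ _ h))
    have j2 := hG.co r p e1.symm (fun h => n1 (sy _ _ h))
    have j3 := hG.co q s e3 n3
    calc g p * (g r * (g q * (g r * (g s * (g r * (g q * (g p * (g q * v')))))))) =
        g p * g r * g q * (g r * g s * g r) * (g q * g p * g q) * v' := by group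
      _ = g p * g r * g q * (g s * g r * g s) * (g p * g q * g p) * v' := by
        rw [hG.br r s hrs, hG.br q p (sy _ _ hpq)]
      _ = g p * g r * g q * g s * g r * (g s * g p) * g q * g p * v' := by group
      _ = g p * g r * g q * g s * g r * (g p * g s) * g q * g p * v' := by rw [j1]
      _ = g p * g r * g q * g s * (g r * g p) * g s * g q * g p * v' := by group
      _ = g p * g r * g q * g s * (g p * g r) * g s * g q * g p * v' := by rw [j2]
      _ = g p * g r * g q * g s * g p * g r * (g s * g q) * g p * v' := by group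
      _ = g p * g r * g q * g s * g p * g r * (g q * g s) * g p * v' := by rw [j3]
      _ = _ := by group
  rw [k4]
  exact f7

end lcm

section main

variable {S I A G : Type} [Group A] [Group G] {σ : S → A} {g : I → G} {ad : I → I → Prop}
  {φ : A →* G} {J : S → List I} {m : S → S → ℕ} {L : A →* Multiplicative ℤ}
  {L' : G →* Multiplicative ℤ}

/-- The common multiple of two generators. -/
theorem fold_lcm' (hG : PG g ad L') (hF : UF σ g ad φ J m L) {s t : S} (hst : s ≠ t)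
    (hs : Shape ad (J s) (J t) (m s t)) {y : G} (h1 : Ps g ((φ (σ s))⁻¹ * y))
    (h2 : Ps g ((φ (σ t))⁻¹ * y)) :
    ∃ p q, Ps σ p ∧ Ps σ q ∧ σ s * p = σ t * q ∧ Ps g ((φ (σ s * p))⁻¹ * y) := by
  rw [hF.im] at h1 h2
  rcases hs with ⟨hm, h⟩ | ⟨hm, i, a, hi, ha, hia⟩ |
    ⟨hm, i, i', a, a', hi, ha, x1, x2, x3, x4, x5, x6, x7, x8, x9, x10⟩ |
    ⟨hm, a, b, c, hi, ha, x1, x2, x3, x4⟩ |
    ⟨hm, p, q, r, u, hi, ha, x1, x2, x3, x4, x5, x6, x7, x8, x9⟩
  · refine ⟨σ t, σ s, Ps.gen t, Ps.gen s, hF.r2 s t hst hm, ?_⟩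
    have e : y = ((J s).map g).prod * ((((J s).map g).prod)⁻¹ * y) := by group
    rw [e] at h2
    have := peelT hG (J s) (J t) h h1 h2
    rw [map_mul, hF.im, hF.im, mul_inv_rev, mul_assoc]
    exact this
  · rw [hi, List.map_cons, List.map_nil, List.prod_singleton] at h1
    rw [ha, List.map_cons, List.map_nil, List.prod_singleton] at h2
    refine ⟨σ t * σ s, σ s * σ t, (Ps.gen t).mul (Ps.gen s), (Ps.gen s).mul (Ps.gen t), ?_, ?_⟩
    · rw [← mul_assoc, ← mul_assoc]
      exact hF.r3 s t hst hm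
    · have := lc3a hG hia h1 h2
      rw [map_mul, map_mul, hF.im, hF.im, hi, ha]
      simp only [List.map_cons, List.map_nil, List.prod_singleton]
      rw [← mul_assoc]
      exact this
  · rw [hi] at h1
    rw [ha] at h2
    simp only [List.map_cons, List.map_nil, List.prod_cons, List.prod_nil, mul_one] at h1 h2
    refine ⟨σ t * σ s, σ s * σ t, (Ps.gen t).mul (Ps.gen s), (Ps.gen s).mul (Ps.gen t), ?_, ?_⟩
    · rw [← mul_assoc, ← mul_assoc]
      exact hF.r3 s t hst hm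
    · have := lc3b hG x1 x2 x3 x4 x5 x6 x7 x8 x9 x10 h1 h2
      rw [map_mul, map_mul, hF.im, hF.im, hi, ha]
      simp only [List.map_cons, List.map_nil, List.prod_cons, List.prod_nil, mul_one]
      rw [← mul_assoc (g i * g i')]
      exact this
  · rw [hi] at h1
    rw [ha] at h2
    simp only [List.map_cons, List.map_nil, List.prod_cons, List.prod_nil, mul_one] at h1 h2
    refine ⟨σ t * σ s * σ t, σ s * σ t * σ s, ((Ps.gen t).mul (Ps.gen s)).mul (Ps.gen t),
      ((Ps.gen s).mul (Ps.gen t)).mul (Ps.gen s), ?_, ?_⟩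
    · simp only [← mul_assoc]
      exact hF.r4 s t hst hm
    · have := lc4 hG x1 x2 x3 x4 h1 h2
      rw [map_mul, map_mul, map_mul, hF.im, hF.im, hi, ha]
      simp only [List.map_cons, List.map_nil, List.prod_cons, List.prod_nil, mul_one]
      simp only [mul_assoc] at this ⊢
      exact this
  · rw [hi] at h1
    rw [ha] at h2
    simp only [List.map_cons, List.map_nil, List.prod_cons, List.prod_nil, mul_one] at h1 h2
    refine ⟨σ t * σ s * σ t * σ s, σ s * σ t * σ s * σ t,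
      (((Ps.gen t).mul (Ps.gen s)).mul (Ps.gen t)).mul (Ps.gen s),
      (((Ps.gen s).mul (Ps.gen t)).mul (Ps.gen s)).mul (Ps.gen t), ?_, ?_⟩
    · simp only [← mul_assoc]
      exact hF.r5 s t hst hm
    · have := lc5 hG x1 x2 x3 x4 x5 x6 x7 x8 x9 h1 h2
      rw [map_mul, map_mul, map_mul, map_mul, hF.im, hF.im, hi, ha]
      simp only [List.map_cons, List.map_nil, List.prod_cons, List.prod_nil, mul_one]
      simp only [mul_assoc] at this ⊢
      exact this

/-- The condition on all pairs of fibres. -/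
def Shapes (ad : I → I → Prop) (J : S → List I) (m : S → S → ℕ) : Prop :=
  ∀ s t, s ≠ t → Shape ad (J s) (J t) (m s t) ∨ Shape ad (J t) (J s) (m t s)

theorem fold_lcm (hG : PG g ad L') (hF : UF σ g ad φ J m L) (hS : Shapes ad J m) {s t : S}
    (hst : s ≠ t) {y : G} (h1 : Ps g ((φ (σ s))⁻¹ * y)) (h2 : Ps g ((φ (σ t))⁻¹ * y)) :
    ∃ p q, Ps σ p ∧ Ps σ q ∧ σ s * p = σ t * q ∧ Ps g ((φ (σ s * p))⁻¹ * y) := by
  rcases hS s t hst with h | h
  · exact fold_lcm' hG hF hst h h1 h2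
  · obtain ⟨p, q, hp, hq, e, h3⟩ := fold_lcm' hG hF hst.symm h h2 h1
    exact ⟨q, p, hq, hp, e.symm, by rw [← e]; exact h3⟩

theorem UF.len_pos (hG : PG g ad L') (hF : UF σ g ad φ J m L) (s : S) :
    1 ≤ Multiplicative.toAdd (L' (φ (σ s))) := by
  rw [hF.im, Ps.len_list hG.len]
  have := List.length_pos_of_ne_nil (hF.ne s)
  exact_mod_cast this

theorem UF.len_le (hG : PG g ad L') (hF : UF σ g ad φ J m L) {x : A} (h : Ps σ x) :
    Multiplicative.toAdd (L x) ≤ Multiplicative.toAdd (L' (φ x)) := by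
  obtain ⟨w, rfl⟩ := h
  induction w with
  | nil => simp
  | cons a w ih =>
    rw [List.map_cons, List.prod_cons, map_mul L, map_mul φ, map_mul L', hF.len, toAdd_mul,
      toAdd_mul, toAdd_ofAdd]
    have := hF.len_pos hG a
    omega

/-- **Common multiples.** -/
theorem fold_common (hG : PG g ad L') (hF : UF σ g ad φ J m L) (hS : Shapes ad J m) (N : ℕ) :
    ∀ y, Ps g y → Multiplicative.toAdd (L' y) ≤ N → ∀ w v, Ps σ w → Ps σ v →
      Ps g ((φ w)⁻¹ * y) → Ps g ((φ v)⁻¹ * y) →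
      ∃ u, Ps σ (w⁻¹ * u) ∧ Ps σ (v⁻¹ * u) ∧ Ps g ((φ u)⁻¹ * y) := by
  induction N with
  | zero =>
    intro y hy hL w v hw hv h1 h2
    have hw0 : w = 1 := by
      apply Ps.eq_one hF.len hw
      have a1 := hF.len_le hG hw
      have a2 := h1.len_nonneg hG.len
      rw [map_mul, map_inv, toAdd_mul, toAdd_inv] at a2
      push_cast at hL
      omega
    subst hw0
    exact ⟨v, by simpa using hv, by simpa using Ps.one, h2⟩
  | succ N ih =>
    intro y hy hL w v hw hv h1 h2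
    rcases hw.cases with rfl | ⟨s, w1, hw1, rfl⟩
    · exact ⟨v, by simpa using hv, by simpa using Ps.one, h2⟩
    rcases hv.cases with rfl | ⟨t, v1, hv1, rfl⟩
    · exact ⟨σ s * w1, by simpa using Ps.one, by simpa using hw, h1⟩
    have hy1 : ∀ s w1, Ps σ w1 → Ps g ((φ (σ s * w1))⁻¹ * y) →
        Ps g ((φ (σ s))⁻¹ * y) ∧ Multiplicative.toAdd (L' ((φ (σ s))⁻¹ * y)) ≤ N ∧
        Ps g ((φ w1)⁻¹ * ((φ (σ s))⁻¹ * y)) := by
      intro s w1 hw1 h1
      rw [map_mul, mul_inv_rev, mul_assoc] at h1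
      refine ⟨?_, ?_, h1⟩
      · have := (hF.ps hw1).mul h1
        rwa [mul_inv_cancel_left] at this
      · have := hF.len_pos hG s
        rw [map_mul, map_inv, toAdd_mul, toAdd_inv]
        push_cast at hL
        omega
    obtain ⟨a1, a2, a3⟩ := hy1 s w1 hw1 h1
    obtain ⟨b1, b2, b3⟩ := hy1 t v1 hv1 h2
    by_cases hst : s = t
    · subst hst
      obtain ⟨u, hu1, hu2, hu3⟩ := ih _ a1 a2 w1 v1 hw1 hv1 a3 b3
      refine ⟨σ s * u, ?_, ?_, ?_⟩
      · rw [mul_inv_rev, mul_assoc, inv_mul_cancel_left]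
        exact hu1
      · rw [mul_inv_rev, mul_assoc, inv_mul_cancel_left]
        exact hu2
      · rw [map_mul, mul_inv_rev, mul_assoc]
        exact hu3
    · obtain ⟨p, q, hp, hq, hpq, hy3⟩ := fold_lcm hG hF hS hst a1 b1
      have hy3' : Ps g ((φ q)⁻¹ * ((φ (σ t))⁻¹ * y)) := by
        rw [hpq] at hy3
        rw [map_mul, mul_inv_rev, mul_assoc] at hy3
        exact hy3
      have hy3'' : Ps g ((φ p)⁻¹ * ((φ (σ s))⁻¹ * y)) := by
        rw [map_mul, mul_inv_rev, mul_assoc] at hy3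
        exact hy3
      obtain ⟨u1, hu11, hu12, hu13⟩ := ih _ a1 a2 w1 p hw1 hp a3 hy3''
      obtain ⟨u2, hu21, hu22, hu23⟩ := ih _ b1 b2 v1 q hv1 hq b3 hy3'
      have hL3 : Multiplicative.toAdd (L' ((φ (σ s * p))⁻¹ * y)) ≤ N := by
        have k1 := hF.len_pos hG s
        have k2 := (hF.ps hp).len_nonneg hG.len
        rw [map_mul L', map_inv L', map_mul φ, map_mul L', toAdd_mul, toAdd_inv, toAdd_mul]
        push_cast at hL
        omega
      obtain ⟨u3, hu31, hu32, hu33⟩ := ih _ hy3 hL3 (p⁻¹ * u1) (q⁻¹ * u2) hu12 hu22 (by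
        have e : (φ (p⁻¹ * u1))⁻¹ * ((φ (σ s * p))⁻¹ * y) =
            (φ u1)⁻¹ * ((φ (σ s))⁻¹ * y) := by
          simp only [map_mul, map_inv]
          group
        rw [e]
        exact hu13) (by
        have e : (φ (q⁻¹ * u2))⁻¹ * ((φ (σ s * p))⁻¹ * y) =
            (φ u2)⁻¹ * ((φ (σ t))⁻¹ * y) := by
          rw [hpq]
          simp only [map_mul, map_inv]
          group
        rw [e]
        exact hu23)
      refine ⟨σ s * p * u3, ?_, ?_, ?_⟩
      · have e : (σ s * w1)⁻¹ * (σ s * p * u3) = (w1⁻¹ * u1) * ((p⁻¹ * u1)⁻¹ * u3) := by group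
        rw [e]
        exact hu11.mul hu31
      · have e : (σ t * v1)⁻¹ * (σ s * p * u3) = (v1⁻¹ * u2) * ((q⁻¹ * u2)⁻¹ * u3) := by
          rw [hpq]
          group
        rw [e]
        exact hu21.mul hu32
      · have e : (φ (σ s * p * u3))⁻¹ * y = (φ u3)⁻¹ * ((φ (σ s * p))⁻¹ * y) := by
          rw [map_mul φ (σ s * p), mul_inv_rev, mul_assoc]
        rw [e]
        exact hu33

/-- **The Garside element.** -/
theorem fold_garside [Finite S] (hG : PG g ad L') (hF : UF σ g ad φ J m L)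
    (hS : Shapes ad J m) {Z : G} (hZ : Ps g Z) (hc : ∀ i, g i * Z = Z * g i)
    (hd : ∀ i, Ps g ((g i)⁻¹ * Z)) :
    ∃ D, Ps σ D ∧ (∀ s, σ s * D = D * σ s) ∧ ∀ s, Ps σ ((σ s)⁻¹ * D) := by
  classical
  -- the central element commutes with everything positive
  have hcc : ∀ x, Ps g x → x * Z = Z * x := by
    rintro _ ⟨w, rfl⟩
    induction w with
    | nil => simp
    | cons a w ih => rw [List.map_cons, List.prod_cons, mul_assoc, ih, ← mul_assoc, hc, mul_assoc]
  let X : Set A := {x | Ps σ x ∧ Ps g ((φ x)⁻¹ * Z)}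
  have hbound : ∀ x ∈ X, Multiplicative.toAdd (L x) ≤ Multiplicative.toAdd (L' Z) := by
    rintro x ⟨h1, h2⟩
    have a1 := hF.len_le hG h1
    have a2 := h2.len_nonneg hG.len
    rw [map_mul, map_inv, toAdd_mul, toAdd_inv] at a2
    omega
  have h1X : (1 : A) ∈ X := ⟨Ps.one, by simpa using hZ⟩
  obtain ⟨D, hD, hmax⟩ : ∃ D ∈ X, ∀ x ∈ X,
      Multiplicative.toAdd (L x) ≤ Multiplicative.toAdd (L D) := by
    by_contra hno
    push Not at hno
    have : ∀ k : ℕ, ∃ x ∈ X, (k : ℤ) ≤ Multiplicative.toAdd (L x) := by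
      intro k
      induction k with
      | zero => exact ⟨1, h1X, by simp⟩
      | succ k ih =>
        obtain ⟨x, hx, hk⟩ := ih
        obtain ⟨y, hy, hxy⟩ := hno x hx
        exact ⟨y, hy, by push_cast; omega⟩
    obtain ⟨x, hx, hk⟩ := this ((Multiplicative.toAdd (L' Z)).toNat + 1)
    have h2 := hbound x hx
    have h3 := Int.self_le_toNat (Multiplicative.toAdd (L' Z))
    push_cast at hk
    omega
  have hall : ∀ x ∈ X, Ps σ (x⁻¹ * D) := by
    rintro x ⟨hx1, hx2⟩
    obtain ⟨u, hu1, hu2, hu3⟩ := fold_common hG hF hS (Multiplicative.toAdd (L' Z)).toNat Z hZ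
      (Int.self_le_toNat _) D x hD.1 hx1 hD.2 hx2
    have hu : Ps σ u := by
      have := hD.1.mul hu1
      rwa [mul_inv_cancel_left] at this
    have h4 := hmax u ⟨hu, hu3⟩
    have h5 : D⁻¹ * u = 1 := by
      apply Ps.eq_one hF.len hu1
      rw [map_mul, map_inv, toAdd_mul, toAdd_inv]
      omega
    rw [inv_mul_eq_one] at h5
    rw [h5]
    exact hu2
  have hsX : ∀ s, σ s ∈ X := fun s => ⟨Ps.gen s, by
    rw [hF.im]
    exact div_list hG (J s) (hF.nd s) (hF.na s) hZ fun k _ => hd k⟩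
  have hsD : ∀ s, Ps σ ((σ s)⁻¹ * D) := fun s => hall _ (hsX s)
  have hconj : ∀ s, ∃ t, D⁻¹ * σ s * D = σ t := by
    intro s
    have hx : (σ s)⁻¹ * D ∈ X := by
      refine ⟨hsD s, ?_⟩
      have h1 : Ps g ((φ D)⁻¹ * Z * φ (σ s)) := hD.2.mul (hF.ps (Ps.gen s))
      have h2 : (φ ((σ s)⁻¹ * D))⁻¹ * Z = (φ D)⁻¹ * Z * φ (σ s) := by
        rw [map_mul, map_inv, mul_inv_rev, inv_inv, mul_assoc, hcc _ (hF.ps (Ps.gen s)), mul_assoc]
      rw [h2]
      exact h1
    have h3 := hall _ hx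
    have e : ((σ s)⁻¹ * D)⁻¹ * D = D⁻¹ * σ s * D := by group
    rw [e] at h3
    refine Ps.eq_gen hF.len h3 ?_
    rw [map_mul L, map_mul L, map_inv L, hF.len, toAdd_mul, toAdd_mul, toAdd_inv, toAdd_ofAdd]
    ring
  -- a power of `D` is central
  let T := Set.range σ
  have hT : Finite T := Set.finite_range σ
  let f : T → T := fun x => ⟨D⁻¹ * x.1 * D, by
    obtain ⟨s, hs⟩ := x.2
    obtain ⟨t, ht⟩ := hconj s
    exact ⟨t, by rw [← ht, hs]⟩⟩
  have hf : Function.Injective f := by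
    intro x y h
    have := congrArg Subtype.val h
    simp only [f] at this
    apply Subtype.ext
    have h2 := congrArg (fun z => D * z * D⁻¹) this
    simpa [mul_assoc] using h2
  let e : Equiv.Perm T := Equiv.ofBijective f (Finite.injective_iff_bijective.1 hf)
  have he : ∀ (k : ℕ) (x : T), ((e ^ k) x).1 = (D ^ k)⁻¹ * x.1 * D ^ k := by
    intro k
    induction k with
    | zero => intro x; simp
    | succ k ih =>
      intro x
      rw [pow_succ', Equiv.Perm.mul_apply]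
      change D⁻¹ * ((e ^ k) x).1 * D = _
      rw [ih, pow_succ]
      group
  have hk := orderOf_pos e
  refine ⟨D ^ orderOf e, hD.1.pow _, fun s => ?_, fun s => ?_⟩
  · have h1 := he (orderOf e) ⟨σ s, s, rfl⟩
    rw [pow_orderOf_eq_one, Equiv.Perm.one_apply] at h1
    simp only at h1
    have h2 : D ^ orderOf e * ((D ^ orderOf e)⁻¹ * σ s * D ^ orderOf e) =
        σ s * D ^ orderOf e := by
      rw [mul_assoc (D ^ orderOf e)⁻¹, mul_inv_cancel_left]
    rw [← h2, ← h1]
  · obtain ⟨k, hk'⟩ : ∃ k, orderOf e = k + 1 := ⟨orderOf e - 1, by omega⟩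
    rw [hk', pow_succ', ← mul_assoc]
    exact (hsD s).mul (hD.1.pow _)

/-- **Injectivity on positive elements.** -/
theorem fold_mono (hG : PG g ad L') (hF : UF σ g ad φ J m L) {x y : A} (hx : Ps σ x)
    (hy : Ps σ y) (h : φ x = φ y) : x = y := by
  obtain ⟨w, rfl⟩ := hx
  induction w generalizing y with
  | nil =>
    rw [List.map_nil, List.prod_nil, map_one] at h
    rw [List.map_nil, List.prod_nil]
    symm
    apply Ps.eq_one hF.len hy
    have := hF.len_le hG hy
    rw [← h, map_one, toAdd_one] at this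
    exact this
  | cons s w ih =>
    obtain ⟨i, hi⟩ := List.exists_mem_of_ne_nil _ (hF.ne s)
    classical
    have h1 : Ps g ((g i)⁻¹ * φ y) := by
      rw [← h, List.map_cons, List.prod_cons, map_mul, hF.im, fac1 hG (J s) (hF.na s) hi,
        mul_assoc, inv_mul_cancel_left]
      exact (Ps.list _).mul (hF.ps (Ps.list w))
    have h2 := fold_div hG hF hy hi h1
    have h3 := ih h2 (by
      rw [map_mul, map_inv, ← h, List.map_cons, List.prod_cons, map_mul, inv_mul_cancel_left])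
    rw [List.map_cons, List.prod_cons, h3, mul_inv_cancel_left]

/-- **Injectivity.** -/
theorem fold_inj [Finite S] (hG : PG g ad L') (hF : UF σ g ad φ J m L) (hS : Shapes ad J m)
    (hcl : Subgroup.closure (Set.range σ) = ⊤) {Z : G} (hZ : Ps g Z)
    (hc : ∀ i, g i * Z = Z * g i) (hd : ∀ i, Ps g ((g i)⁻¹ * Z)) : Function.Injective φ := by
  obtain ⟨D, hD, hDc, hDd⟩ := fold_garside hG hF hS hZ hc hd
  have hcen : ∀ x : A, x * D = D * x := by
    intro x
    have hx : x ∈ Subgroup.closure (Set.range σ) := by rw [hcl]; trivial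
    induction hx using Subgroup.closure_induction with
    | mem y hy => obtain ⟨s, rfl⟩ := hy; exact hDc s
    | one => simp
    | mul y z _ _ hy hz => rw [mul_assoc, hz, ← mul_assoc, hy, mul_assoc]
    | inv y _ hy =>
      rw [inv_mul_eq_iff_eq_mul, ← mul_assoc, hy, mul_inv_cancel_right]
  have hcen' : ∀ (x : A) (k : ℕ), x * D ^ k = D ^ k * x := by
    intro x k
    exact ((Commute.pow_right (show Commute x D from hcen x) k)).eq
  have hrep : ∀ x : A, ∃ (u : A) (k : ℕ), Ps σ u ∧ x = u * (D ^ k)⁻¹ := by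
    intro x
    have hx : x ∈ Subgroup.closure (Set.range σ) := by rw [hcl]; trivial
    induction hx using Subgroup.closure_induction'' with
    | mem y hy => obtain ⟨s, rfl⟩ := hy; exact ⟨σ s, 0, Ps.gen s, by simp⟩
    | inv_mem y hy =>
      obtain ⟨s, rfl⟩ := hy
      exact ⟨(σ s)⁻¹ * D, 1, hDd s, by simp⟩
    | one => exact ⟨1, 0, Ps.one, by simp⟩
    | mul y z _ _ hy hz =>
      obtain ⟨u, k, hu, rfl⟩ := hy
      obtain ⟨v, l, hv, rfl⟩ := hz
      refine ⟨u * v, k + l, hu.mul hv, ?_⟩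
      have := hcen' v k
      calc u * (D ^ k)⁻¹ * (v * (D ^ l)⁻¹) = u * ((D ^ k)⁻¹ * (v * D ^ k)) * (D ^ k)⁻¹ *
          (D ^ l)⁻¹ := by group
        _ = u * ((D ^ k)⁻¹ * (D ^ k * v)) * (D ^ k)⁻¹ * (D ^ l)⁻¹ := by rw [this]
        _ = u * v * ((D ^ l * D ^ k)⁻¹) := by group
        _ = u * v * ((D ^ (k + l))⁻¹) := by rw [← pow_add, add_comm l k]
  rw [injective_iff_map_eq_one]
  intro x hx
  obtain ⟨u, k, hu, rfl⟩ := hrep x
  rw [map_mul, map_inv, mul_inv_eq_one] at hx
  rw [fold_mono hG hF hu (hD.pow k) hx, mul_inv_cancel]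

end main

end Pool.Agent.Lib.MP_97567f_al.U
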