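import Pool.Agent.Lib.MP_97567f_al.U.UnfC
import Pool.Agent.Lib.MP_97567f_al.U.SpecM

/-!
# MP_97567f_al: unfolding, part D: existence and injectivity of the folding homomorphism

`unf_main`: a decidable condition (`UOk`) on the lists `J s` of nodes of `M'` gives an injective homomorphism
`ι : Art M →* Art M'` which maps `gn M s` to the product of the `gn M' i`, `i ∈ J s`, and a positive central element of
`Art M` which is divisible by all generators.
-/

set_option autoImplicit false

namespace Pool.Agent.Lib.MP_97567f_al.U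

section braid

variable {G : Type} [Group G]

/-- Bond 3, two copies. -/
private theorem br3 (a b c d : G)
    (h14 : a * c = c * a)
    (h15 : a * d = d * a)
    (h24 : b * c = c * b)
    (h25 : b * d = d * b)
    (k12 : a * b * a = b * a * b)
    (k45 : c * d * c = d * c * d) :
    (a * c) * (b * d) * (a * c) = (b * d) * (a * c) * (b * d) := by
  have c14 : ∀ z, a * (c * z) = c * (a * z) := fun z => by
    rw [← mul_assoc, h14, mul_assoc]
  have c41 : ∀ z, c * (a * z) = a * (c * z) := fun z => (c14 z).symm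
  have c15 : ∀ z, a * (d * z) = d * (a * z) := fun z => by
    rw [← mul_assoc, h15, mul_assoc]
  have c51 : ∀ z, d * (a * z) = a * (d * z) := fun z => (c15 z).symm
  have c24 : ∀ z, b * (c * z) = c * (b * z) := fun z => by
    rw [← mul_assoc, h24, mul_assoc]
  have c42 : ∀ z, c * (b * z) = b * (c * z) := fun z => (c24 z).symm
  have c25 : ∀ z, b * (d * z) = d * (b * z) := fun z => by
    rw [← mul_assoc, h25, mul_assoc]
  have c52 : ∀ z, d * (b * z) = b * (d * z) := fun z => (c25 z).symm
  have b12 : ∀ z, a * (b * (a * z)) = b * (a * (b * z)) := fun z => by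
    have := congrArg (· * z) k12
    simpa only [mul_assoc] using this
  have b21 : ∀ z, b * (a * (b * z)) = a * (b * (a * z)) := fun z => (b12 z).symm
  have b45 : ∀ z, c * (d * (c * z)) = d * (c * (d * z)) := fun z => by
    have := congrArg (· * z) k45
    simpa only [mul_assoc] using this
  have b54 : ∀ z, d * (c * (d * z)) = c * (d * (c * z)) := fun z => (b45 z).symm
  have key : ∀ z, a * (c * (b * (d * (a * (c * z))))) = b * (d * (a * (c * (b * (d * z))))) := fun z => by
    calc
      a * (c * (b * (d * (a * (c * z))))) = a * (b * (c * (d * (a * (c * z))))) := congrArg (fun y => a * y) (c42 _)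
      _ = a * (b * (c * (a * (d * (c * z))))) := congrArg (fun y => a * (b * (c * y))) (c51 _)
      _ = a * (b * (a * (c * (d * (c * z))))) := congrArg (fun y => a * (b * y)) (c41 _)
      _ = b * (a * (b * (c * (d * (c * z))))) := b12 _
      _ = b * (a * (b * (d * (c * (d * z))))) := congrArg (fun y => b * (a * (b * y))) (b45 _)
      _ = b * (a * (d * (b * (c * (d * z))))) := congrArg (fun y => b * (a * y)) (c25 _)
      _ = b * (d * (a * (b * (c * (d * z))))) := congrArg (fun y => b * y) (c15 _)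
      _ = b * (d * (a * (c * (b * (d * z))))) := congrArg (fun y => b * (d * (a * y))) (c24 _)
  simpa only [mul_assoc, mul_one] using key 1

/-- Bond 4. -/
private theorem br4 (a b c : G)
    (h13 : a * c = c * a)
    (k12 : a * b * a = b * a * b)
    (k23 : b * c * b = c * b * c) :
    (a * c) * b * (a * c) * b = b * (a * c) * b * (a * c) := by
  have c13 : ∀ z, a * (c * z) = c * (a * z) := fun z => by
    rw [← mul_assoc, h13, mul_assoc]
  have c31 : ∀ z, c * (a * z) = a * (c * z) := fun z => (c13 z).symm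
  have b12 : ∀ z, a * (b * (a * z)) = b * (a * (b * z)) := fun z => by
    have := congrArg (· * z) k12
    simpa only [mul_assoc] using this
  have b21 : ∀ z, b * (a * (b * z)) = a * (b * (a * z)) := fun z => (b12 z).symm
  have b23 : ∀ z, b * (c * (b * z)) = c * (b * (c * z)) := fun z => by
    have := congrArg (· * z) k23
    simpa only [mul_assoc] using this
  have b32 : ∀ z, c * (b * (c * z)) = b * (c * (b * z)) := fun z => (b23 z).symm
  have key : ∀ z, a * (c * (b * (a * (c * (b * z))))) = b * (a * (c * (b * (a * (c * z))))) := fun z => by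
    calc
      a * (c * (b * (a * (c * (b * z))))) = c * (a * (b * (a * (c * (b * z))))) := c13 _
      _ = c * (b * (a * (b * (c * (b * z))))) := congrArg (fun y => c * y) (b12 _)
      _ = c * (b * (a * (c * (b * (c * z))))) := congrArg (fun y => c * (b * (a * y))) (b23 _)
      _ = c * (b * (c * (a * (b * (c * z))))) := congrArg (fun y => c * (b * y)) (c13 _)
      _ = b * (c * (b * (a * (b * (c * z))))) := b32 _
      _ = b * (c * (a * (b * (a * (c * z))))) := congrArg (fun y => b * (c * y)) (b21 _)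
      _ = b * (a * (c * (b * (a * (c * z))))) := congrArg (fun y => b * y) (c31 _)
  simpa only [mul_assoc, mul_one] using key 1

/-- Bond 5. -/
private theorem br5 (a b c d : G)
    (h13 : a * c = c * a)
    (h14 : a * d = d * a)
    (h24 : b * d = d * b)
    (k12 : a * b * a = b * a * b)
    (k23 : b * c * b = c * b * c)
    (k34 : c * d * c = d * c * d) :
    (a * c) * (b * d) * (a * c) * (b * d) * (a * c) = (b * d) * (a * c) * (b * d) * (a * c) * (b * d) := by
  have c13 : ∀ z, a * (c * z) = c * (a * z) := fun z => by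
    rw [← mul_assoc, h13, mul_assoc]
  have c31 : ∀ z, c * (a * z) = a * (c * z) := fun z => (c13 z).symm
  have c14 : ∀ z, a * (d * z) = d * (a * z) := fun z => by
    rw [← mul_assoc, h14, mul_assoc]
  have c41 : ∀ z, d * (a * z) = a * (d * z) := fun z => (c14 z).symm
  have c24 : ∀ z, b * (d * z) = d * (b * z) := fun z => by
    rw [← mul_assoc, h24, mul_assoc]
  have c42 : ∀ z, d * (b * z) = b * (d * z) := fun z => (c24 z).symm
  have b12 : ∀ z, a * (b * (a * z)) = b * (a * (b * z)) := fun z => by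
    have := congrArg (· * z) k12
    simpa only [mul_assoc] using this
  have b21 : ∀ z, b * (a * (b * z)) = a * (b * (a * z)) := fun z => (b12 z).symm
  have b23 : ∀ z, b * (c * (b * z)) = c * (b * (c * z)) := fun z => by
    have := congrArg (· * z) k23
    simpa only [mul_assoc] using this
  have b32 : ∀ z, c * (b * (c * z)) = b * (c * (b * z)) := fun z => (b23 z).symm
  have b34 : ∀ z, c * (d * (c * z)) = d * (c * (d * z)) := fun z => by
    have := congrArg (· * z) k34
    simpa only [mul_assoc] using this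
  have b43 : ∀ z, d * (c * (d * z)) = c * (d * (c * z)) := fun z => (b34 z).symm
  have key : ∀ z, a * (c * (b * (d * (a * (c * (b * (d * (a * (c * z))))))))) = b * (d * (a * (c * (b * (d * (a * (c * (b * (d * z))))))))) := fun z => by
    calc
      a * (c * (b * (d * (a * (c * (b * (d * (a * (c * z))))))))) = c * (a * (b * (d * (a * (c * (b * (d * (a * (c * z))))))))) := c13 _
      _ = c * (a * (d * (b * (a * (c * (b * (d * (a * (c * z))))))))) := congrArg (fun y => c * (a * y)) (c24 _)
      _ = c * (d * (a * (b * (a * (c * (b * (d * (a * (c * z))))))))) := congrArg (fun y => c * y) (c14 _)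
      _ = c * (d * (a * (b * (c * (a * (b * (d * (a * (c * z))))))))) := congrArg (fun y => c * (d * (a * (b * y)))) (c13 _)
      _ = c * (d * (a * (b * (c * (a * (b * (a * (d * (c * z))))))))) := congrArg (fun y => c * (d * (a * (b * (c * (a * (b * y))))))) (c41 _)
      _ = c * (d * (a * (b * (c * (b * (a * (b * (d * (c * z))))))))) := congrArg (fun y => c * (d * (a * (b * (c * y))))) (b12 _)
      _ = c * (d * (a * (c * (b * (c * (a * (b * (d * (c * z))))))))) := congrArg (fun y => c * (d * (a * y))) (b23 _)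
      _ = c * (d * (c * (a * (b * (c * (a * (b * (d * (c * z))))))))) := congrArg (fun y => c * (d * y)) (c13 _)
      _ = c * (d * (c * (a * (b * (a * (c * (b * (d * (c * z))))))))) := congrArg (fun y => c * (d * (c * (a * (b * y))))) (c31 _)
      _ = d * (c * (d * (a * (b * (a * (c * (b * (d * (c * z))))))))) := b34 _
      _ = d * (c * (d * (b * (a * (b * (c * (b * (d * (c * z))))))))) := congrArg (fun y => d * (c * (d * y))) (b12 _)
      _ = d * (c * (b * (d * (a * (b * (c * (b * (d * (c * z))))))))) := congrArg (fun y => d * (c * y)) (c42 _)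
      _ = d * (c * (b * (a * (d * (b * (c * (b * (d * (c * z))))))))) := congrArg (fun y => d * (c * (b * y))) (c41 _)
      _ = d * (c * (b * (a * (d * (c * (b * (c * (d * (c * z))))))))) := congrArg (fun y => d * (c * (b * (a * (d * y))))) (b23 _)
      _ = d * (c * (b * (a * (d * (c * (b * (d * (c * (d * z))))))))) := congrArg (fun y => d * (c * (b * (a * (d * (c * (b * y))))))) (b34 _)
      _ = d * (c * (b * (a * (d * (c * (d * (b * (c * (d * z))))))))) := congrArg (fun y => d * (c * (b * (a * (d * (c * y)))))) (c24 _)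
      _ = d * (c * (b * (a * (c * (d * (c * (b * (c * (d * z))))))))) := congrArg (fun y => d * (c * (b * (a * y)))) (b43 _)
      _ = d * (c * (b * (c * (a * (d * (c * (b * (c * (d * z))))))))) := congrArg (fun y => d * (c * (b * y))) (c13 _)
      _ = d * (b * (c * (b * (a * (d * (c * (b * (c * (d * z))))))))) := congrArg (fun y => d * y) (b32 _)
      _ = b * (d * (c * (b * (a * (d * (c * (b * (c * (d * z))))))))) := c42 _
      _ = b * (d * (c * (b * (a * (d * (b * (c * (b * (d * z))))))))) := congrArg (fun y => b * (d * (c * (b * (a * (d * y)))))) (b32 _)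
      _ = b * (d * (c * (b * (a * (b * (d * (c * (b * (d * z))))))))) := congrArg (fun y => b * (d * (c * (b * (a * y))))) (c42 _)
      _ = b * (d * (c * (a * (b * (a * (d * (c * (b * (d * z))))))))) := congrArg (fun y => b * (d * (c * y))) (b21 _)
      _ = b * (d * (a * (c * (b * (a * (d * (c * (b * (d * z))))))))) := congrArg (fun y => b * (d * y)) (c31 _)
      _ = b * (d * (a * (c * (b * (d * (a * (c * (b * (d * z))))))))) := congrArg (fun y => b * (d * (a * (c * (b * y))))) (c14 _)
  simpa only [mul_assoc, mul_one] using key 1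

theorem alt_1 (x y : G) : alt x y 1 = x := by
  simp [alt, List.range_succ]

theorem alt_2 (x y : G) : alt x y 2 = x * y := by
  simp [alt, List.range_succ]

theorem alt_3 (x y : G) : alt x y 3 = x * y * x := by
  simp [alt, List.range_succ, mul_assoc]

theorem alt_4 (x y : G) : alt x y 4 = x * y * x * y := by
  simp [alt, List.range_succ, mul_assoc]

theorem alt_5 (x y : G) : alt x y 5 = x * y * x * y * x := by
  simp [alt, List.range_succ, mul_assoc]

end braid

section rel

variable {I G : Type} [Group G] {g : I → G} {ad : I → I → Prop} {L : G →* Multiplicative ℤ}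

/-- Commuting lists. -/
theorem comm_lists (hG : PG g ad L) (Js Jt : List I) (h : ∀ i ∈ Js, ∀ k ∈ Jt, i ≠ k ∧ ¬ ad i k) :
    (Js.map g).prod * (Jt.map g).prod = (Jt.map g).prod * (Js.map g).prod := by
  induction Js with
  | nil => simp
  | cons a Js ih =>
    rw [List.map_cons, List.prod_cons, mul_assoc, ih fun i hi => h i (List.mem_cons_of_mem _ hi),
      ← mul_assoc, comm_list hG Jt a fun k hk => ⟨(h a List.mem_cons_self k hk).1.symm, fun h2 =>
        (h a List.mem_cons_self k hk).2 (hG.sym _ _ h2)⟩, mul_assoc]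

/-- **The relation of the products.** -/
theorem shape_alt (hG : PG g ad L) {Js Jt : List I} {m : ℕ} (h : Shape ad Js Jt m) :
    alt (Js.map g).prod (Jt.map g).prod m = alt (Jt.map g).prod (Js.map g).prod m := by
  have hc : ∀ i j, i ≠ j → ¬ ad i j → g i * g j = g j * g i := hG.co
  have hb := hG.br
  rcases h with ⟨rfl, h⟩ | ⟨rfl, i, a, rfl, rfl, h⟩ |
    ⟨rfl, i, i', a, a', rfl, rfl, h1, h2, h3, h4, h5, h6, n1, n2, n3, n4⟩ |
    ⟨rfl, a, b, c, rfl, rfl, h1, h2, h3, n1⟩ |
    ⟨rfl, p, q, r, s, rfl, rfl, h1, h2, h3, h4, h5, h6, n1, n2, n3⟩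
  · rw [alt_2, alt_2]
    exact comm_lists hG _ _ h
  · simp only [List.map_cons, List.map_nil, List.prod_cons, List.prod_nil, mul_one, alt_3]
    exact hb _ _ h
  · simp only [List.map_cons, List.map_nil, List.prod_cons, List.prod_nil, mul_one, alt_3]
    exact br3 _ _ _ _ (hc _ _ n1 h5) (hc _ _ n3 h3)
      (hc _ _ n4.symm fun h => h4 (hG.sym _ _ h)) (hc _ _ n2 h6) (hb _ _ h1) (hb _ _ h2)
  · simp only [List.map_cons, List.map_nil, List.prod_cons, List.prod_nil, mul_one, alt_4]
    exact br4 _ _ _ (hc _ _ n1 h3) (hb _ _ h1) (hb _ _ (hG.sym _ _ h2))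
  · simp only [List.map_cons, List.map_nil, List.prod_cons, List.prod_nil, mul_one, alt_5]
    exact br5 _ _ _ _ (hc _ _ n1 h4) (hc _ _ n2 h5) (hc _ _ n3 h6) (hb _ _ h1) (hb _ _ h2)
      (hb _ _ h3)

end rel

section main

variable {n k : ℕ}

/-- The decidable form of `Shape`. -/
def ShD {k : ℕ} (M' : CoxeterMatrix (Fin k)) (m : ℕ) : List (Fin k) → List (Fin k) → Prop
  | [i], [a] => m = 3 ∧ adj M' i a
  | [a, b], [c] => m = 4 ∧ adj M' a c ∧ adj M' b c ∧ ¬ adj M' a b ∧ a ≠ b
  | [i, j], [a, b] =>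
    (m = 3 ∧ adj M' i a ∧ adj M' j b ∧ ¬ adj M' i b ∧ ¬ adj M' j a ∧
      ¬ adj M' i j ∧ ¬ adj M' a b ∧ i ≠ j ∧ a ≠ b ∧ i ≠ b ∧ j ≠ a) ∨
    (m = 5 ∧ adj M' i a ∧ adj M' a j ∧ adj M' j b ∧ ¬ adj M' i j ∧
      ¬ adj M' i b ∧ ¬ adj M' a b ∧ i ≠ j ∧ i ≠ b ∧ a ≠ b)
  | _, _ => False

instance ShD.dec {k : ℕ} (M' : CoxeterMatrix (Fin k)) (m : ℕ) :
    ∀ u v : List (Fin k), Decidable (ShD M' m u v)
  | [], [] => inferInstanceAs (Decidable False)
  | [], [_] => inferInstanceAs (Decidable False)
  | [], _ :: _ :: _ => inferInstanceAs (Decidable False)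
  | [i], [a] => inferInstanceAs (Decidable (m = 3 ∧ adj M' i a))
  | [_], [] => inferInstanceAs (Decidable False)
  | [_], _ :: _ :: _ => inferInstanceAs (Decidable False)
  | [a, b], [c] => inferInstanceAs (Decidable
      (m = 4 ∧ adj M' a c ∧ adj M' b c ∧ ¬ adj M' a b ∧ a ≠ b))
  | [_, _], [] => inferInstanceAs (Decidable False)
  | [i, j], [a, b] => inferInstanceAs (Decidable
      ((m = 3 ∧ adj M' i a ∧ adj M' j b ∧ ¬ adj M' i b ∧ ¬ adj M' j a ∧
      ¬ adj M' i j ∧ ¬ adj M' a b ∧ i ≠ j ∧ a ≠ b ∧ i ≠ b ∧ j ≠ a) ∨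
    (m = 5 ∧ adj M' i a ∧ adj M' a j ∧ adj M' j b ∧ ¬ adj M' i j ∧
      ¬ adj M' i b ∧ ¬ adj M' a b ∧ i ≠ j ∧ i ≠ b ∧ a ≠ b)))
  | [_, _], _ :: _ :: _ :: _ => inferInstanceAs (Decidable False)
  | _ :: _ :: _ :: _, [] => inferInstanceAs (Decidable False)
  | _ :: _ :: _ :: _, [_] => inferInstanceAs (Decidable False)
  | _ :: _ :: _ :: _, _ :: _ :: _ => inferInstanceAs (Decidable False)

theorem ShD.shape {M' : CoxeterMatrix (Fin k)} {m : ℕ} {u v : List (Fin k)}
    (h : ShD M' m u v) : Shape (adj M') u v m := by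
  unfold ShD at h
  split at h
  · exact Or.inr (Or.inl ⟨h.1, _, _, rfl, rfl, h.2⟩)
  · exact Or.inr (Or.inr (Or.inr (Or.inl ⟨h.1, _, _, _, rfl, rfl, h.2⟩)))
  · rcases h with h | h
    · exact Or.inr (Or.inr (Or.inl ⟨h.1, _, _, _, _, rfl, rfl, h.2⟩))
    · exact Or.inr (Or.inr (Or.inr (Or.inr ⟨h.1, _, _, _, _, rfl, rfl, h.2⟩)))
  · exact h.elim

instance (M' : CoxeterMatrix (Fin k)) (u v : List (Fin k)) (i : Fin k) :
    Decidable (B3 (adj M') u v i) := by
  unfold B3
  infer_instance

set_option synthInstance.maxSize 4096 in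
instance (M' : CoxeterMatrix (Fin k)) (u v : List (Fin k)) (i : Fin k) :
    Decidable (B4 (adj M') u v i) := by
  unfold B4
  infer_instance

set_option synthInstance.maxSize 4096 in
instance (M' : CoxeterMatrix (Fin k)) (u v : List (Fin k)) (i : Fin k) :
    Decidable (B5 (adj M') u v i) := by
  unfold B5
  infer_instance

instance (M' : CoxeterMatrix (Fin k)) (u v : List (Fin k)) (i : Fin k) (m : ℕ) :
    Decidable (Bond (adj M') u v i m) := by
  unfold Bond
  infer_instance

/-- The condition for the lists of nodes. -/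
structure UOk (M : CoxeterMatrix (Fin n)) (M' : CoxeterMatrix (Fin k)) (J : Fin n → List (Fin k)) :
    Prop where
  ne : ∀ s, J s ≠ []
  nd : ∀ s, (J s).Nodup
  na : ∀ s, ∀ i ∈ J s, ∀ j ∈ J s, ¬ adj M' i j
  dj : ∀ s t, s ≠ t → ∀ i ∈ J s, i ∉ J t
  sh : ∀ s t, s ≠ t → (M.M s t = 2 ∧ ∀ i ∈ J s, ∀ k ∈ J t, i ≠ k ∧ ¬ adj M' i k) ∨
    ShD M' (M.M s t) (J s) (J t) ∨ ShD M' (M.M s t) (J t) (J s)
  bond : ∀ s t, s ≠ t → ∀ i ∈ J s, Bond (adj M') (J s) (J t) i (M.M s t)

/-- **Unfolding.** -/
theorem unf_main (h1 : SArt) (h2 : SHee) (h3 : SGar) {M : CoxeterMatrix (Fin n)}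
    {M' : CoxeterMatrix (Fin k)} (hS : SL M') (hR : RF M') (hF : FH M' (fh M'))
    {J : Fin n → List (Fin k)} (hJ : UOk M M' J) : ∃ ι : Art M →* Art M',
      (∀ s, ι (gn M s) = ((J s).map (gn M')).prod) ∧ Function.Injective ι ∧
      ∃ D : Art M, Ps (gn M) D ∧ (∀ s, gn M s * D = D * gn M s) ∧
        ∀ s, Ps (gn M) ((gn M s)⁻¹ * D) := by
  obtain ⟨L', hG⟩ := pg_of_hee h2 k M' hS hR hF
  have hsh : Shapes (adj M') J M.M := by
    intro s t hst
    rcases hJ.sh s t hst with h | h | h
    · exact Or.inl (Or.inl h)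
    · exact Or.inl h.shape
    · refine Or.inr ?_
      rw [M.symmetric t s]
      exact h.shape
  obtain ⟨ι, hι⟩ := (h1 n M).2.1 (Art M') (fun s => ((J s).map (gn M')).prod) (by
    intro s t
    by_cases hst : s = t
    · rw [hst]
    · rcases hsh s t hst with h | h
      · exact shape_alt hG h
      · have := shape_alt hG h
        rw [M.symmetric t s] at this
        exact this.symm)
  obtain ⟨L, hL⟩ := (h1 n M).2.1 (Multiplicative ℤ) (fun _ => Multiplicative.ofAdd 1)
    (fun _ _ => rfl)
  have hrel := (h1 n M).1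
  have hUF : UF (gn M) (gn M') (adj M') ι J M.M L := by
    refine ⟨hι, hJ.ne, hJ.nd, hJ.na, hJ.dj, hL, ?_, ?_, ?_, ?_, hJ.bond⟩
    · intro s t _ h
      have := hrel s t
      rwa [h, alt_2, alt_2] at this
    · intro s t _ h
      have := hrel s t
      rwa [h, alt_3, alt_3] at this
    · intro s t _ h
      have := hrel s t
      rwa [h, alt_4, alt_4] at this
    · intro s t _ h
      have := hrel s t
      rwa [h, alt_5, alt_5] at this
  obtain ⟨z, hz1, hz2⟩ := h3 k M' hS hR
  have hZ : Ps (gn M') (wd M' z) := Ps.list z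
  have hZd : ∀ i, Ps (gn M') ((gn M' i)⁻¹ * wd M' z) := by
    intro i
    obtain ⟨w, hw⟩ := hz2 i
    rw [hw, inv_mul_cancel_left]
    exact Ps.list w
  refine ⟨ι, hι, fold_inj hG hUF hsh (h1 n M).2.2.2.1 hZ hz1 hZd, ?_⟩
  exact fold_garside hG hUF hsh hZ hz1 hZd

end main

end Pool.Agent.Lib.MP_97567f_al.U
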