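import Pool.Agent.Lib.MP_97567f_al.U.UnfD
import Pool.Agent.Lib.MP_97567f_al.U.HDat

/-!
# MP_97567f_al: unfolding, part E: D6, E6, E8

The types D6, E6 and E8 are positive definite, and the folding homomorphisms of the types H3, H4, F4 are injective.
-/

set_option autoImplicit false

namespace Pool.Agent.Lib.MP_97567f_al.U

theorem SL_D6 : SL D6 := by
  refine ⟨by decide, fun x hx => ?_⟩
  have key : 12 * bf D6 x x = 6 * (2 * x 0 - x 2) ^ 2 + 6 * (2 * x 1 - x 2) ^ 2 +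
      6 * (2 * x 5 - x 4) ^ 2 + 2 * (3 * x 4 - 2 * x 3) ^ 2 + (4 * x 3 - 3 * x 2) ^ 2 +
      3 * x 2 ^ 2 := by
    simp (decide := true) only [bf, pr, adj, D6, Fin.sum_univ_six, if_true, if_false]
    ring
  by_contra hn
  push Not at hn
  have p1 := sq_nonneg (2 * x 0 - x 2)
  have p2 := sq_nonneg (2 * x 1 - x 2)
  have p3 := sq_nonneg (2 * x 5 - x 4)
  have p4 := sq_nonneg (3 * x 4 - 2 * x 3)
  have p5 := sq_nonneg (4 * x 3 - 3 * x 2)
  have p6 := sq_nonneg (x 2)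
  have z1 : 2 * x 0 - x 2 = 0 := pow_eq_zero_iff two_ne_zero |>.1 (by linarith)
  have z2 : 2 * x 1 - x 2 = 0 := pow_eq_zero_iff two_ne_zero |>.1 (by linarith)
  have z3 : 2 * x 5 - x 4 = 0 := pow_eq_zero_iff two_ne_zero |>.1 (by linarith)
  have z4 : 3 * x 4 - 2 * x 3 = 0 := pow_eq_zero_iff two_ne_zero |>.1 (by linarith)
  have z5 : 4 * x 3 - 3 * x 2 = 0 := pow_eq_zero_iff two_ne_zero |>.1 (by linarith)
  have z6 : x 2 = 0 := pow_eq_zero_iff two_ne_zero |>.1 (by linarith)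
  apply hx
  funext i
  have : ∀ i : Fin 6, x i = 0 := by
    intro i
    fin_cases i <;> simp <;> omega
  exact this i

theorem SL_E6 : SL CoxeterMatrix.E₆ := by
  refine ⟨by decide, fun x hx => ?_⟩
  have key : 6 * bf CoxeterMatrix.E₆ x x = 3 * (2 * x 0 - x 2) ^ 2 + (3 * x 2 - 2 * x 3) ^ 2 +
      3 * (2 * x 1 - x 3) ^ 2 + 3 * (2 * x 5 - x 4) ^ 2 + (3 * x 4 - 2 * x 3) ^ 2 +
      x 3 ^ 2 := by
    simp (decide := true) only [bf, pr, adj, CoxeterMatrix.E₆, Fin.sum_univ_six, if_true, if_false]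
    ring
  by_contra hn
  push Not at hn
  have p1 := sq_nonneg (2 * x 0 - x 2)
  have p2 := sq_nonneg (3 * x 2 - 2 * x 3)
  have p3 := sq_nonneg (2 * x 1 - x 3)
  have p4 := sq_nonneg (2 * x 5 - x 4)
  have p5 := sq_nonneg (3 * x 4 - 2 * x 3)
  have p6 := sq_nonneg (x 3)
  have z1 : 2 * x 0 - x 2 = 0 := pow_eq_zero_iff two_ne_zero |>.1 (by linarith)
  have z2 : 3 * x 2 - 2 * x 3 = 0 := pow_eq_zero_iff two_ne_zero |>.1 (by linarith)
  have z3 : 2 * x 1 - x 3 = 0 := pow_eq_zero_iff two_ne_zero |>.1 (by linarith)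
  have z4 : 2 * x 5 - x 4 = 0 := pow_eq_zero_iff two_ne_zero |>.1 (by linarith)
  have z5 : 3 * x 4 - 2 * x 3 = 0 := pow_eq_zero_iff two_ne_zero |>.1 (by linarith)
  have z6 : x 3 = 0 := pow_eq_zero_iff two_ne_zero |>.1 (by linarith)
  apply hx
  funext i
  have : ∀ i : Fin 6, x i = 0 := by
    intro i
    fin_cases i <;> simp <;> omega
  exact this i

theorem SL_E8 : SL CoxeterMatrix.E₈ := by
  refine ⟨by decide, fun x hx => ?_⟩
  have key : 60 * bf CoxeterMatrix.E₈ x x = 30 * (2 * x 0 - x 2) ^ 2 +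
      10 * (3 * x 2 - 2 * x 3) ^ 2 + 30 * (2 * x 1 - x 3) ^ 2 + 30 * (2 * x 7 - x 6) ^ 2 +
      10 * (3 * x 6 - 2 * x 5) ^ 2 + 5 * (4 * x 5 - 3 * x 4) ^ 2 +
      3 * (5 * x 4 - 4 * x 3) ^ 2 + 2 * x 3 ^ 2 := by
    simp (decide := true) only [bf, pr, adj, CoxeterMatrix.E₈, Fin.sum_univ_eight, if_true,
      if_false]
    ring
  by_contra hn
  push Not at hn
  have p1 := sq_nonneg (2 * x 0 - x 2)
  have p2 := sq_nonneg (3 * x 2 - 2 * x 3)
  have p3 := sq_nonneg (2 * x 1 - x 3)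
  have p4 := sq_nonneg (2 * x 7 - x 6)
  have p5 := sq_nonneg (3 * x 6 - 2 * x 5)
  have p6 := sq_nonneg (4 * x 5 - 3 * x 4)
  have p7 := sq_nonneg (5 * x 4 - 4 * x 3)
  have p8 := sq_nonneg (x 3)
  have z1 : 2 * x 0 - x 2 = 0 := pow_eq_zero_iff two_ne_zero |>.1 (by linarith)
  have z2 : 3 * x 2 - 2 * x 3 = 0 := pow_eq_zero_iff two_ne_zero |>.1 (by linarith)
  have z3 : 2 * x 1 - x 3 = 0 := pow_eq_zero_iff two_ne_zero |>.1 (by linarith)
  have z4 : 2 * x 7 - x 6 = 0 := pow_eq_zero_iff two_ne_zero |>.1 (by linarith)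
  have z5 : 3 * x 6 - 2 * x 5 = 0 := pow_eq_zero_iff two_ne_zero |>.1 (by linarith)
  have z6 : 4 * x 5 - 3 * x 4 = 0 := pow_eq_zero_iff two_ne_zero |>.1 (by linarith)
  have z7 : 5 * x 4 - 4 * x 3 = 0 := pow_eq_zero_iff two_ne_zero |>.1 (by linarith)
  have z8 : x 3 = 0 := pow_eq_zero_iff two_ne_zero |>.1 (by linarith)
  apply hx
  funext i
  have : ∀ i : Fin 8, x i = 0 := by
    intro i
    fin_cases i <;> simp <;> omega
  exact this i

/-- The nodes of E6 over the nodes of F4. -/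
def JF : Fin 4 → List (Fin 6) := ![[0, 5], [2, 4], [3], [1]]

theorem uok_H3 : UOk CoxeterMatrix.H₃ D6 fun s => [p3 s 0, p3 s 1] :=
  ⟨by decide, by decide, by decide, by decide, by decide, by decide⟩

theorem uok_H4 : UOk CoxeterMatrix.H₄ CoxeterMatrix.E₈ fun s => [p4 s 0, p4 s 1] :=
  ⟨by decide, by decide, by decide, by decide, by decide, by decide⟩

theorem uok_F4 : UOk CoxeterMatrix.F₄ CoxeterMatrix.E₆ JF :=
  ⟨by decide, by decide, by decide, by decide, by decide, by decide⟩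

end Pool.Agent.Lib.MP_97567f_al.U
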